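import Mathlib

/-!
# Jensen's diamond principle
-/

set_option autoImplicit false

open Set

namespace Pool.Agent.H94.Dia

/-- Jensen's principle `◇`: there are sets `A α ⊆ ω₁` (`α < ω₁`) such that for every `S ⊆ ω₁` the
set of all `α < ω₁` with `S ∩ α = A α` is stationary in `ω₁`. -/
def Diamond : Prop :=
  ∃ A : Iio (Ordinal.omega 1 : Ordinal.{0}) → Set (Iio (Ordinal.omega 1 : Ordinal.{0})),
    ∀ S : Set (Iio (Ordinal.omega 1 : Ordinal.{0})), IsStationary {α | S ∩ Iio α = A α}

end Pool.Agent.H94.Dia
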