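import Pool.Agent.Lib.H94.SelTree
import Pool.Agent.H85.SelIndepDefs
import Pool.Agent.H85.SelSuslin

/-!
# Universe changes
-/

set_option autoImplicit false

namespace Pool.Agent.H94.Sel

open Set Pool.Agent.H85.Sel

universe u v w

/-- transport of a free Suslin tree along an injective map onto it -/
lemma FreeSuslin.transport {T : Type u} [PartialOrder T] {ht : T → Ordinal.{0}}
    (hT : FreeSuslin T ht) {T' : Type} (e : T' ≃ T) :
    ∃ (_ : PartialOrder T') (ht' : T' → Ordinal.{0}), IsFreeSuslinTree T' ht' := by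
  let inst : PartialOrder T' := PartialOrder.lift e e.injective
  refine ⟨inst, fun t => ht (e t), ?_⟩
  have hle : ∀ a b : T', a ≤ b ↔ e a ≤ e b := fun a b => Iff.rfl
  have hlt : ∀ a b : T', a < b ↔ e a < e b := fun a b => by
    rw [lt_iff_le_not_ge, lt_iff_le_not_ge, hle, hle]
  constructor
  · exact fun t => hT.ht_lt _
  · intro a b hab
    exact hT.ht_strictMono ((hlt a b).1 hab)
  · intro t α hα
    obtain ⟨s, ⟨h1, h2⟩, h3⟩ := hT.exists_unique_pred (e t) α hα
    refine ⟨e.symm s, ⟨by rw [hle]; simpa using h1, by simpa using h2⟩, ?_⟩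
    rintro s' ⟨h4, h5⟩
    rw [← h3 (e s') ⟨(hle _ _).1 h4, h5⟩]
    simp
  · intro α
    exact (hT.level_countable α).preimage e.injective
  · exact hT.nonempty.map e.symm
  · intro t α h1 h2
    obtain ⟨s, hs, hs'⟩ := hT.exists_ext (e t) α h1 h2
    exact ⟨e.symm s, by rw [hle]; simpa using hs, by simpa using hs'⟩
  · intro t
    obtain ⟨a, b, h1, h2, h3⟩ := hT.split (e t)
    refine ⟨e.symm a, e.symm b, by rw [hle]; simpa using h1, by rw [hle]; simpa using h2, ?_⟩
    rintro ⟨c, hc1, hc2⟩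
    exact h3 ⟨e c, by rw [hle] at hc1; simpa using hc1, by rw [hle] at hc2; simpa using hc2⟩
  · intro n t hinj hht A hA hpair
    let F : (Fin n → T') → (Fin n → T) := fun x i => e (x i)
    have hF : Function.Injective F := by
      intro x y hxy
      funext i
      exact e.injective (congrFun hxy i)
    have h := hT.free n (fun i => e (t i)) (e.injective.comp hinj) hht (F '' A) (by
      rintro _ ⟨x, hx, rfl⟩ i
      exact (hle _ _).1 (hA x hx i)) (by
      rintro _ ⟨x, hx, rfl⟩ _ ⟨y, hy, rfl⟩ hne ⟨z, hz⟩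
      refine hpair hx hy (fun h => hne (by rw [h])) ⟨fun i => e.symm (z i), fun i => ?_⟩
      rw [hle, hle]
      simpa using hz i)
    exact countable_of_injective_of_countable_image hF.injOn h

/-- a free Suslin tree has at most `ℵ₁` nodes, so it lives in the lowest universe -/
lemma FreeSuslin.small {T : Type u} [PartialOrder T] {ht : T → Ordinal.{0}}
    (hT : FreeSuslin T ht) : Small.{0} T := by
  have h1 : ∀ α : Ordinal.{0}, ∃ f : T → ℕ, InjOn f {t : T | ht t = α} := fun α =>
    countable_iff_exists_injOn.1 (hT.level_countable α)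
  choose f hf using h1
  have hS : Small.{0} (Iio (Ordinal.omega 1 : Ordinal.{0})) := inferInstance
  let g : T → Shrink.{0} (Iio (Ordinal.omega 1 : Ordinal.{0})) × ℕ := fun t =>
    (equivShrink _ ⟨ht t, hT.ht_lt t⟩, f (ht t) t)
  refine small_of_injective (f := g) ?_
  intro a b hab
  have h2 := congrArg Prod.fst hab
  have h3 := congrArg Prod.snd hab
  simp only [g] at h2 h3
  have h4 : ht a = ht b := by
    have h5 := (equivShrink _).injective h2
    exact congrArg Subtype.val h5
  rw [← h4] at h3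
  exact hf (ht a) rfl h4.symm h3

/-- the main theorem of `SelTree`, with the tree in the lowest universe -/
theorem exists_isFreeSuslinTree {X : Type u} [TopologicalSpace X]
    (h : SFin (DOmega X) (DOmega X)) (hnot : ¬ CCC (Fin 2 → X)) :
    ∃ (T : Type) (_ : PartialOrder T) (ht : T → Ordinal.{0}), IsFreeSuslinTree T ht := by
  obtain ⟨T, inst, ht, hT⟩ := exists_freeSuslin h hnot
  have hs : Small.{0} T := hT.small
  obtain ⟨inst', ht', h'⟩ := hT.transport (equivShrink.{0} T).symm
  exact ⟨Shrink.{0} T, inst', ht', h'⟩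

/-! ### Homeomorphic spaces in different universes -/

section homeo

variable {X : Type u} {Y : Type v} [TopologicalSpace X] [TopologicalSpace Y]

/-- the family of preimages -/
def pull (e : X ≃ₜ Y) (U : Set (Set Y)) : Set (Set X) := {u | e '' u ∈ U}

lemma pull_mem {e : X ≃ₜ Y} {U : Set (Set Y)} {u : Set X} : u ∈ pull e U ↔ e '' u ∈ U := Iff.rfl

lemma pull_DOmega (e : X ≃ₜ Y) {U : Set (Set Y)} (hU : U ∈ DOmega Y) : pull e U ∈ DOmega X := by
  refine ⟨⟨?_, ?_⟩, ?_, ?_⟩
  · intro u hu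
    exact (e.isOpen_image).1 (hU.1.1 _ hu)
  · rw [dense_iff_inter_open]
    intro O hO hOne
    obtain ⟨y, hy, u, hu, hyu⟩ := (dense_iff_inter_open.1 hU.1.2) (e '' O)
      (e.isOpen_image.2 hO) (hOne.image e)
    obtain ⟨x, hx, rfl⟩ := hy
    refine ⟨x, hx, e ⁻¹' u, ?_, hyu⟩
    rw [pull_mem, e.image_preimage]
    exact hu
  · intro u hu hd
    apply hU.2.1 _ hu
    rw [← e.image_closure]
    intro y _
    exact ⟨e.symm y, hd (mem_univ _), by simp⟩
  · intro F hF hFo
    obtain ⟨u, hu, hu'⟩ := hU.2.2 ((fun f => e '' f) '' F) (hF.image _) (by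
      rintro _ ⟨f, hf, rfl⟩
      exact ⟨e.isOpen_image.2 (hFo f hf).1, (hFo f hf).2.image e⟩)
    refine ⟨e ⁻¹' u, ?_, ?_⟩
    · rw [pull_mem, e.image_preimage]
      exact hu
    · intro f hf
      obtain ⟨y, hy1, x, hx, rfl⟩ := hu' _ ⟨f, hf, rfl⟩
      exact ⟨x, hy1, hx⟩

lemma pull_pull (e : X ≃ₜ Y) (U : Set (Set Y)) : pull e.symm (pull e U) = U := by
  ext u
  rw [pull_mem, pull_mem]
  rw [← image_comp]
  simp

lemma mem_DOmega_of_pull (e : X ≃ₜ Y) {U : Set (Set Y)} (hU : pull e U ∈ DOmega X) :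
    U ∈ DOmega Y := by
  have h := pull_DOmega e.symm hU
  rwa [pull_pull] at h

lemma SOne.homeo (e : X ≃ₜ Y) (h : SOne (DOmega X) (DOmega X)) : SOne (DOmega Y) (DOmega Y) := by
  intro U hU
  obtain ⟨V, hV, hV'⟩ := h (fun n => pull e (U n)) (fun n => pull_DOmega e (hU n))
  refine ⟨fun n => e '' V n, hV, mem_DOmega_of_pull e ?_⟩
  convert hV' using 1
  ext u
  rw [pull_mem]
  constructor
  · rintro ⟨n, hn⟩
    exact ⟨n, e.injective.image_injective hn⟩
  · rintro ⟨n, rfl⟩
    exact ⟨n, rfl⟩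

lemma SFin.homeo (e : X ≃ₜ Y) (h : SFin (DOmega X) (DOmega X)) : SFin (DOmega Y) (DOmega Y) := by
  intro U hU
  obtain ⟨F, hF, hF'⟩ := h (fun n => pull e (U n)) (fun n => pull_DOmega e (hU n))
  refine ⟨fun n => (fun u => e '' u) '' F n, fun n => ⟨(hF n).1.image _, ?_⟩,
    mem_DOmega_of_pull e ?_⟩
  · rintro _ ⟨u, hu, rfl⟩
    exact (hF n).2 hu
  · convert hF' using 1
    ext u
    rw [pull_mem]
    simp only [mem_iUnion]
    constructor
    · rintro ⟨n, v, hv, hvu⟩
      rw [← e.injective.image_injective hvu]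
      exact ⟨n, hv⟩
    · rintro ⟨n, hn⟩
      exact ⟨n, u, hn, rfl⟩

lemma CCC.homeo (e : X ≃ₜ Y) (h : CCC X) : CCC Y := by
  intro A hA hdis
  have h1 := h ((fun u => e ⁻¹' u) '' A) (by
    rintro _ ⟨a, ha, rfl⟩
    exact ⟨(hA a ha).1.preimage e.continuous, (hA a ha).2.preimage e.surjective⟩) (by
    rintro _ ⟨a, ha, rfl⟩ _ ⟨b, hb, rfl⟩ hne
    have hne' : a ≠ b := fun h => hne (by rw [h])
    exact (hdis ha hb hne').preimage e)
  exact countable_of_injective_of_countable_image
    (fun a _ b _ hab => e.surjective.preimage_injective hab) h1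

end homeo

end Pool.Agent.H94.Sel
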