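import Pool.Agent.Lib.H94.DiaMain
import Pool.Agent.Lib.H94.DiaDefs
import Pool.Agent.Lib.H94.SelTransfer

/-!
# Diamond implies that there is a free Suslin tree
-/

set_option autoImplicit false

open Set Function Pool.Agent.Lib.H45Osc Pool.Agent.H85.Sel

namespace Pool.Agent.H94.Dia

/-- `ω₁` as a well-order -/
abbrev W1 : Type 1 := Iio (Ordinal.omega 1 : Ordinal.{0})

lemma isOmega1 : IsOmega1 W1 where
  countable_Iio := by
    rintro ⟨α, hα⟩
    have h1 : (Iio α).Countable := by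
      have h2 : Cardinal.mk (Iio α) ≤ Cardinal.aleph0 := by
        rw [Cardinal.mk_Iio_ordinal]
        have h4 : α.card < Cardinal.aleph 1 := by
          have h6 : (Cardinal.aleph 1).ord = Ordinal.omega 1 := Cardinal.ord_aleph 1
          have h5 : α < (Cardinal.aleph 1).ord := by rw [h6]; exact hα
          exact Cardinal.lt_ord.1 h5
        rw [← Cardinal.succ_aleph0] at h4
        exact Cardinal.lift_le_aleph0.2 (Order.lt_succ_iff.1 h4)
      exact Cardinal.le_aleph0_iff_set_countable.1 h2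
    have h3 : InjOn (fun x : W1 => x.1) (Iio (⟨α, hα⟩ : W1)) := fun a _ b _ h => Subtype.ext h
    refine countable_of_injective_of_countable_image h3 (h1.mono ?_)
    rintro _ ⟨x, hx, rfl⟩
    exact hx
  not_countable := by
    intro h
    have h1 : (Iio (Ordinal.omega 1 : Ordinal.{0})).Countable := by
      rw [← countable_coe_iff]
      exact countable_univ_iff.1 h
    have h2 : Cardinal.mk (Iio (Ordinal.omega 1 : Ordinal.{0})) ≤ Cardinal.aleph0 :=
      Cardinal.le_aleph0_iff_set_countable.2 h1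
    rw [Cardinal.mk_Iio_ordinal, Cardinal.lift_le_aleph0] at h2
    have h6 : (Cardinal.aleph 1).ord = Ordinal.omega 1 := Cardinal.ord_aleph 1
    rw [← h6, Cardinal.card_ord] at h2
    exact absurd h2 (not_le.2 Cardinal.aleph0_lt_aleph_one)

/-- Jensen: diamond gives a free Suslin tree. -/
theorem exists_freeSuslin_of_diamond (h : Diamond) :
    ∃ (T : Type) (_ : PartialOrder T) (ht : T → Ordinal.{0}), IsFreeSuslinTree T ht := by
  obtain ⟨A, hA⟩ := h
  obtain ⟨c, hc⟩ := exists_code isOmega1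
  obtain ⟨B, hB⟩ := exists_tree (W := W1) isOmega1.countable_Iio (fun α k => {x | c ⟨k, x⟩ ∈ A α})
  have hrefl : ∀ x : Nd W1, Le B x x := fun x => ⟨le_rfl, (hB _).self _⟩
  have hcoh : ∀ (z : Nd W1) (y : Nd W1), Le B y z → ∀ γ ≤ y.lv,
      B z.lv z.ix γ = B y.lv y.ix γ := by
    intro z y hyz γ hγ
    have h1 := (hB z.lv).coh z.ix γ y.lv hγ hyz.1
    rw [hyz.2] at h1
    exact h1.symm
  have htrans : ∀ x y z : Nd W1, Le B x y → Le B y z → Le B x z := fun x y z hxy hyz =>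
    ⟨hxy.1.trans hyz.1, by rw [hcoh z y hyz _ hxy.1]; exact hxy.2⟩
  have hasymm : ∀ x y : Nd W1, Le B x y → x.lv = y.lv → x = y := by
    rintro ⟨a, n⟩ ⟨b, m⟩ h1 (rfl : a = b)
    have h2 := h1.2
    simp only at h2
    rw [(hB a).self] at h2
    rw [h2]
  let inst : PartialOrder (Nd W1) :=
    { le := Le B
      le_refl := hrefl
      le_trans := htrans
      le_antisymm := fun x y h1 h2 => hasymm x y h1 (le_antisymm h1.1 h2.1) }
  have hle : ∀ x y : Nd W1, x ≤ y ↔ Le B x y := fun x y => Iff.rfl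
  have hF : Pool.Agent.H94.Sel.FreeSuslin (Nd W1) (fun x => x.lv.1) := by
    constructor
    · exact fun t => t.lv.2
    · intro x y hxy
      have h1 : Le B x y := hxy.le
      refine lt_of_le_of_ne h1.1 ?_
      intro h2
      exact hxy.ne (hasymm x y h1 (Subtype.ext h2))
    · intro t α hα
      have hα1 : α < Ordinal.omega 1 := hα.trans_lt t.lv.2
      refine ⟨⟨⟨α, hα1⟩, B t.lv t.ix ⟨α, hα1⟩⟩, ⟨⟨hα, rfl⟩, rfl⟩, ?_⟩
      rintro ⟨⟨β, hβ⟩, n⟩ ⟨h1, (rfl : β = α)⟩
      have h2 := h1.2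
      simp only at h2
      rw [← h2]
    · intro α
      refine countable_of_injective_of_countable_image (f := fun x : Nd W1 => x.ix) ?_
        (Set.to_countable _)
      rintro ⟨a, n⟩ (h1 : a.1 = α) ⟨b, m⟩ (h2 : b.1 = α) (h3 : n = m)
      rw [h3, Subtype.ext (h1.trans h2.symm)]
    · exact ⟨⟨⟨0, (Ordinal.omega_pos 1)⟩, 0⟩⟩
    · intro t α h1 h2
      rcases h1.lt_or_eq with h3 | h3
      · obtain ⟨n, _, _, h4, _⟩ := (hB ⟨α, h2⟩).split t.lv h3 t.ix
        exact ⟨⟨⟨α, h2⟩, n⟩, ⟨h1, h4⟩, rfl⟩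
      · exact ⟨t, hrefl t, h3⟩
    · intro t
      obtain ⟨α, hα⟩ := isOmega1.exists_lt t.lv
      obtain ⟨n, n', h1, h2, h3⟩ := (hB α).split t.lv hα t.ix
      refine ⟨⟨α, n⟩, ⟨α, n'⟩, ⟨hα.le, h2⟩, ⟨hα.le, h3⟩, ?_⟩
      rintro ⟨z, hz1, hz2⟩
      apply h1
      have h4 : B z.lv z.ix α = n := hz1.2
      have h5 : B z.lv z.ix α = n' := hz2.2
      rw [← h4, h5]
    · intro k t ht hlv A0 hA0 hpair
      exact free_of_guess isOmega1 A hA c hc B hB k t ht
        (fun i j => Subtype.ext (hlv i j)) A0 hA0 hpair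
  have hs : Small.{0} (Nd W1) := hF.small
  obtain ⟨inst', ht', h'⟩ := hF.transport (equivShrink.{0} (Nd W1)).symm
  exact ⟨Shrink.{0} (Nd W1), inst', ht', h'⟩

end Pool.Agent.H94.Dia
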