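import Pool.Agent.Lib.H94.ModMain

/-!
# Assembling the fields and the ambient spaces
-/

namespace Pool.Agent.Lib.H94

open Module MvPolynomial

set_option linter.unusedSectionVars false

universe u w

theorem exists_fields {k R : Type u} [Field k] [CommRing R] [IsDomain R] [Algebra k R]
    {Y : Fin 3 → R} {F : MvPolynomial (Fin 3) k} {δ : ℕ} (H : RingHyp k Y F δ) (hδ : 5 ≤ δ) :
    ∃ (Q F₀ K : Type u) (_ : Field Q) (_ : Field F₀) (_ : Field K) (_ : Algebra R Q)
      (_ : Algebra k Q) (_ : IsScalarTower k R Q) (_ : Algebra k F₀) (_ : Algebra F₀ K)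
      (_ : Algebra k K) (_ : IsScalarTower k F₀ K) (_ : Algebra K Q) (_ : IsScalarTower k K Q)
      (_ : IsFractionRing R Q) (t : F₀) (z : K), CoordHyp Y F δ Q t z :=
  ⟨FractionRing R, ratField k (FractionRing R) Y, funField k (FractionRing R) Y,
    inferInstance, inferInstance, inferInstance, inferInstance, inferInstance, inferInstance,
    inferInstance, inferInstance, inferInstance, inferInstance, inferInstance, inferInstance,
    inferInstance, tF k (FractionRing R) Y, zK k (FractionRing R) Y,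
    { ring := H
      inj := IsFractionRing.injective R (FractionRing R)
      t_eq := rfl
      z_eq := rfl
      curve := H.curveHyp (FractionRing R) hδ
      plane := H.planeHyp (FractionRing R) }⟩

/-- the projection of the plane and its field, for all `δ ≥ 1` -/
theorem exists_fields' {k R : Type u} [Field k] [CommRing R] [IsDomain R] [Algebra k R]
    {Y : Fin 3 → R} {F : MvPolynomial (Fin 3) k} {δ : ℕ} (H : RingHyp k Y F δ) :
    ∃ (F₀ K : Type u) (_ : Field F₀) (_ : Field K) (_ : Algebra k F₀) (_ : Algebra F₀ K)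
      (_ : Algebra k K) (_ : IsScalarTower k F₀ K) (t : F₀) (z : K),
      IsRatGen k t ∧ PlaneHyp k (algebraMap F₀ K t) z F δ :=
  ⟨ratField k (FractionRing R) Y, funField k (FractionRing R) Y,
    inferInstance, inferInstance, inferInstance, inferInstance, inferInstance, inferInstance,
    tF k (FractionRing R) Y, zK k (FractionRing R) Y,
    isRatGen_adjoin ((H.planeHyp (FractionRing R)).transc H.pos),
    H.planeHyp (FractionRing R)⟩

theorem exists_amb {k R : Type u} [Field k] [CommRing R] [IsDomain R] [Algebra k R]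
    {Q F₀ K : Type u} [Field Q] [Field F₀] [Field K] [Algebra R Q] [Algebra k Q]
    [IsScalarTower k R Q] [Algebra k F₀] [Algebra F₀ K] [Algebra k K] [IsScalarTower k F₀ K]
    [Algebra K Q] [IsScalarTower k K Q] [IsFractionRing R Q]
    {M : Type w} [AddCommGroup M] [Module R M]
    (tf : ∀ (a : R) (m : M), a • m = 0 → a = 0 ∨ m = 0) :
    ∃ (VQ : Type (max u w)) (_ : AddCommGroup VQ) (_ : Module Q VQ) (_ : Module R VQ)
      (_ : Module k VQ) (_ : Module F₀ VQ) (_ : Module K VQ) (_ : IsScalarTower R Q VQ)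
      (_ : IsScalarTower k Q VQ) (_ : IsScalarTower k R VQ) (_ : IsScalarTower K Q VQ)
      (_ : IsScalarTower k F₀ VQ) (_ : IsScalarTower F₀ K VQ) (_ : IsScalarTower k K VQ)
      (j : M →ₗ[R] VQ), Function.Injective j ∧
        ∀ (n : ℕ) (g : Fin n → M), LinearIndependent R g → LinearIndependent Q (fun l => j (g l)) := by
  obtain ⟨VQ, iA, iQ, iR, tRQ, j, hj, hli⟩ : ∃ (VQ : Type (max u w)) (_ : AddCommGroup VQ)
      (_ : Module Q VQ) (_ : Module R VQ) (_ : IsScalarTower R Q VQ) (j : M →ₗ[R] VQ),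
      Function.Injective j ∧ ∀ (n : ℕ) (g : Fin n → M), LinearIndependent R g →
        LinearIndependent Q (fun l => j (g l)) := by
    refine ⟨TensorProduct R Q M, inferInstance, inferInstance, inferInstance, inferInstance,
      TensorProduct.mk R Q M 1, ?_, ?_⟩
    · rw [injective_iff_map_eq_zero]
      intro m hm
      obtain ⟨s, hs⟩ := (IsLocalizedModule.eq_zero_iff (nonZeroDivisors R)
        (TensorProduct.mk R Q M 1)).1 hm
      rcases tf s m hs with h | h
      · exact absurd h (nonZeroDivisors.ne_zero s.2)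
      · exact h
    · intro n g hg
      exact hg.of_isLocalizedModule Q (nonZeroDivisors R) (TensorProduct.mk R Q M 1)
  let iK : Module K VQ := Module.compHom VQ (algebraMap K Q)
  let iF : Module F₀ VQ := Module.compHom VQ ((algebraMap K Q).comp (algebraMap F₀ K))
  let ik : Module k VQ := Module.compHom VQ (algebraMap k Q)
  have hK : ∀ (c : K) (v : VQ), c • v = algebraMap K Q c • v := fun _ _ => rfl
  have hF : ∀ (c : F₀) (v : VQ), c • v = algebraMap K Q (algebraMap F₀ K c) • v :=
    fun _ _ => rfl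
  have hk : ∀ (c : k) (v : VQ), c • v = algebraMap k Q c • v := fun _ _ => rfl
  have hR : ∀ (c : R) (v : VQ), c • v = algebraMap R Q c • v := fun c v =>
    (algebraMap_smul Q c v).symm
  refine ⟨VQ, iA, iQ, iR, ik, iF, iK, tRQ, ⟨fun a b v => ?_⟩, ⟨fun a b v => ?_⟩,
    ⟨fun a b v => ?_⟩, ⟨fun a b v => ?_⟩, ⟨fun a b v => ?_⟩, ⟨fun a b v => ?_⟩, j, hj, hli⟩
  · rw [hk, Algebra.smul_def, mul_smul]
  · rw [hk, hR, hR, Algebra.smul_def, map_mul, mul_smul, ← IsScalarTower.algebraMap_apply]
  · rw [hK, Algebra.smul_def, mul_smul]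
  · rw [hk, hF, hF, Algebra.smul_def, map_mul, map_mul, mul_smul,
      ← IsScalarTower.algebraMap_apply k F₀ K, ← IsScalarTower.algebraMap_apply k K Q]
  · rw [hF, hK, hK, Algebra.smul_def, map_mul, mul_smul]
  · rw [hk, hK, hK, Algebra.smul_def, map_mul, mul_smul, ← IsScalarTower.algebraMap_apply]

section

variable {k R : Type u} [Field k] [CommRing R] [IsDomain R] [Algebra k R] {Y : Fin 3 → R}
  {F : MvPolynomial (Fin 3) k} {δ : ℕ}

/-- The main theorem for graded modules. -/
theorem module_main' (H : RingHyp k Y F δ) (hδ : 5 ≤ δ)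
    {M : Type w} [AddCommGroup M] [Module k M] [Module R M] [IsScalarTower k R M]
    (tf : ∀ (a : R) (m : M), a • m = 0 → a = 0 ∨ m = 0)
    {sec : ℤ → Submodule k M} (D : GradHyp k Y sec)
    {n : ℕ} (hn : 1 ≤ n) {d g : ℤ} (hg : 2 * (g - 1) = δ * (δ - 3))
    (hrk : ∃ k₀, ∀ i, k₀ ≤ i → (finrank k (sec i) : ℤ) = n * δ * i + d + n * (1 - g))
    (hss : ∀ N : ℤ → Submodule k M, (∀ i, N i ≤ sec i) →
      (∀ (i : Fin 3) (l : ℤ) (m : M), m ∈ N l → Y i • m ∈ N (l + 1)) →
      ∀ (r : ℕ) (d' : ℤ), 0 < r →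
      (∃ k₀, ∀ i, k₀ ≤ i → (finrank k (N i) : ℤ) = r * δ * i + d' + r * (1 - g)) →
      d' * n ≤ d * r)
    (h2 : 2 * n ≤ finrank k (sec 0)) (hμ : (d : ℚ) / n ≤ g - 1) :
    (δ : ℚ) - 4 ≤ ((d : ℚ) - 2 * ((finrank k (sec 0) : ℚ) - n)) / n ∧
    (((d : ℚ) - 2 * ((finrank k (sec 0) : ℚ) - n)) / n = (δ : ℚ) - 4 →
      ∃ g : Fin n → M, FreeGen k Y sec g) := by
  obtain ⟨Q, F₀, K, _, _, _, _, _, _, _, _, _, _, _, _, _, t, z, X⟩ := exists_fields H hδ
  obtain ⟨VQ, _, _, _, _, _, _, _, _, _, _, _, _, _, j, hj, _⟩ :=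
    exists_amb (k := k) (Q := Q) (F₀ := F₀) (K := K) tf
  exact module_main X j hj D hn hg hrk hss h2 hμ

/-- The free module of rank `n` generated in degree `-1`. -/
theorem free_facts (H : RingHyp k Y F δ) (hδ : 5 ≤ δ) (n : ℕ) {g : ℤ}
    (hg : 2 * (g - 1) = δ * (δ - 3)) :
    (∃ k₀, ∀ i, k₀ ≤ i →
      (finrank k (freeSec k Y n 1 i) : ℤ) = n * δ * i + (n * δ) + n * (1 - g)) ∧
    finrank k (freeSec k Y n 1 0) = 3 * n ∧
    ∀ N : ℤ → Submodule k (Fin n → R), (∀ i, N i ≤ freeSec k Y n 1 i) →
      (∀ (i : Fin 3) (l : ℤ) (m : Fin n → R), m ∈ N l → Y i • m ∈ N (l + 1)) →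
      ∀ (r : ℕ) (d' : ℤ),
      (∃ k₀, ∀ i, k₀ ≤ i → (finrank k (N i) : ℤ) = r * δ * i + d' + r * (1 - g)) →
      d' * n ≤ n * δ * r := by
  obtain ⟨Q, F₀, K, _, _, _, _, _, _, _, _, _, _, _, _, _, t, z, X⟩ := exists_fields H hδ
  obtain ⟨VQ, _, _, _, _, _, _, _, _, _, _, _, _, _, j, hj, hjli⟩ :=
    exists_amb (k := k) (R := R) (Q := Q) (F₀ := F₀) (K := K) (M := Fin n → R) (by
      intro a m h
      by_cases ha : a = 0
      · exact Or.inl ha
      · right
        funext l
        have := congrFun h l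
        exact (mul_eq_zero.1 this).resolve_left ha)
  have D := free_gradHyp H X.plane X.curve.ht n 1
  have C := X.curve
  -- the basis
  have hεmem : ∀ l : Fin n, (Pi.single l 1 : Fin n → R) ∈ freeSec k Y n 1 (-1) := by
    intro l
    rw [mem_freeSec]
    intro l'
    rw [show (-1 : ℤ) + 1 = ((0 : ℕ) : ℤ) by norm_num]
    by_cases hl : l' = l
    · subst hl
      rw [Pi.single_eq_same, mem_rpiece_nat]
      exact ⟨1, isHomogeneous_one _ _, map_one _⟩
    · rw [Pi.single_eq_of_ne hl]
      exact Submodule.zero_mem _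
  let e : Fin n → genFib Q K Y j (freeSec k Y n 1) := fun l =>
    ⟨iota k Q j (Y 0) (-1) (Pi.single l 1), iota_mem_genFib j _ (hεmem l)⟩
  have heli : LinearIndependent K e := by
    have h1 : LinearIndependent Q (fun l : Fin n => j (Pi.single l 1)) := by
      apply hjli
      have h0 : (fun l : Fin n => (Pi.single l 1 : Fin n → R)) = Pi.basisFun R (Fin n) := by
        funext l
        rw [Pi.basisFun_apply]
      rw [h0]
      exact (Pi.basisFun R (Fin n)).linearIndependent
    have h2 : LinearIndependent K (fun l : Fin n => j (Pi.single l 1)) := by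
      refine h1.restrict_scalars ?_
      intro a b hab
      simp only [Algebra.smul_def, mul_one] at hab
      exact (algebraMap K Q).injective hab
    rw [Fintype.linearIndependent_iff]
    intro c hc
    rw [Fintype.linearIndependent_iff] at h2
    apply h2
    have h3 : ∑ l, c l • iota k Q j (Y 0) (-1) (Pi.single l 1) = 0 := by
      have := congrArg Subtype.val hc
      rw [Submodule.coe_sum] at this
      exact this
    have h4 : algebraMap R Q (Y 0) • ∑ l, c l • j (Pi.single l 1) = 0 := by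
      rw [← h3, Finset.smul_sum]
      refine Finset.sum_congr rfl fun l _ => ?_
      rw [iota_apply, neg_neg, zpow_one, ← algebraMap_smul Q (c l) (j _),
        ← algebraMap_smul Q (c l) (algebraMap R Q (Y 0) • j _), smul_comm]
    exact (smul_eq_zero.1 h4).resolve_left X.ne
  have hsec : ∀ (i : ℤ) (s : Fin n → R), s ∈ freeSec k Y n 1 i → i + 1 < 0 → s = 0 := by
    intro i s hs hi
    funext l
    have := mem_freeSec.1 hs l
    rwa [rpiece_neg hi, Submodule.mem_bot] at this
  have hs : ∀ i, (gLat X j hj D).s i = freePiece k t z δ e (i + 1) := by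
    intro i
    rcases lt_or_ge (i + 1) 0 with hi | hi
    · rw [freePiece_neg _ hi, eq_bot_iff]
      intro v hv
      obtain ⟨m, hm, hmv⟩ := (mem_gLat_iff X j hj D i v).1 hv
      rw [hsec i m hm hi, map_zero] at hmv
      rw [Submodule.mem_bot]
      exact Subtype.ext hmv.symm
    · obtain ⟨m, hm⟩ := Int.eq_ofNat_of_zero_le hi
      have hi' : i = -1 + (m : ℤ) := by omega
      rw [hm]
      ext v
      rw [mem_gLat_iff, mem_freePiece_iff X.plane X.ring.pos]
      constructor
      · rintro ⟨s, hs, hsv⟩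
        have h1 := mem_freeSec.1 hs
        rw [hm] at h1
        choose G hG hG' using fun l => (mem_rpiece_nat m (s l)).1 (h1 l)
        refine ⟨G, hG, ?_⟩
        apply Subtype.ext
        rw [← hsv, Submodule.coe_sum]
        have h2 : s = ∑ l, aeval Y (G l) • (Pi.single l 1 : Fin n → R) := by
          rw [← Finset.univ_sum_single s]
          refine Finset.sum_congr rfl fun l _ => ?_
          rw [hG' l, ← Pi.single_smul, smul_eq_mul, mul_one]
        rw [h2, hi']
        exact iota_comb X j (-1) G hG _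
      · rintro ⟨G, hG, rfl⟩
        refine ⟨∑ l, aeval Y (G l) • (Pi.single l 1 : Fin n → R), ?_, ?_⟩
        · refine Submodule.sum_mem _ fun l _ => ?_
          have := D.hom_mem (hG l) (hεmem l)
          rwa [← hi'] at this
        · rw [Submodule.coe_sum, hi']
          exact iota_comb X j (-1) G hG _
  have hspan : Submodule.span K (Set.range e) = ⊤ := by
    rw [eq_top_iff]
    obtain ⟨i, hi⟩ := (gLat X j hj D).top
    intro v _
    have hv : v ∈ Submodule.span F₀ ((gLat X j hj D).s i : Set _) := by rw [hi]; trivial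
    have h1 : Submodule.span F₀ ((gLat X j hj D).s i : Set _) ≤
        (Submodule.span K (Set.range e)).restrictScalars F₀ := by
      rw [Submodule.span_le, hs]
      have h2 : freePiece k t z δ e (i + 1) ≤
          (Submodule.span K (Set.range e)).restrictScalars k := by
        apply freePiece_induction
        intro b l q _ _
        exact Submodule.smul_mem ((Submodule.span K (Set.range e)).restrictScalars F₀) _
          (Submodule.smul_mem (Submodule.span K (Set.range e)) _
            (Submodule.subset_span ⟨l, rfl⟩))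
      exact h2
    exact h1 hv
  have hn : finrank K (genFib Q K Y j (freeSec k Y n 1)) = n := by
    rw [← finrank_top K, ← hspan, finrank_span_eq_card heli, Fintype.card_fin]
  have hchi := (gLat X j hj D).two_chi_of_free C 1 e heli hn hs
  have hrk : ∃ k₀, ∀ i, k₀ ≤ i →
      (finrank k (freeSec k Y n 1 i) : ℤ) = n * δ * i + (n * δ) + n * (1 - g) := by
    obtain ⟨k₀, hk₀⟩ := Lat.exists_h_eq C (gLat X j hj D)
    refine ⟨k₀, fun i hi => ?_⟩
    have h5 : 2 * (gLat X j hj D).chi = 2 * (n * δ + n * (1 - g)) := by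
      linear_combination hchi + (n : ℤ) * hg
    rw [← gLat_h X j hj D, hk₀ i hi, hn]
    linarith
  refine ⟨hrk, ?_, fun N hN hY r d' hr => ?_⟩
  · rw [← gLat_h X j hj D, (gLat X j hj D).h_of_free C 1 e heli hs 0]
    obtain ⟨δ', rfl⟩ : ∃ δ', δ = δ' + 1 + 1 := ⟨δ - 2, by omega⟩
    rw [Fin.sum_univ_succ, Fin.sum_univ_succ]
    have e4 : ∀ i : Fin δ', (0 + 1 - (((i.succ.succ : Fin (δ' + 1 + 1)) : ℕ) : ℤ) + 1).toNat
        = 0 := by
      intro i
      rw [Fin.val_succ, Fin.val_succ]
      omega
    simp only [e4, Finset.sum_const_zero, add_zero]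
    simp
    ring
  · exact module_semistable_of X j hj D hrk
      ((gLat X j hj D).semistable_of_free C 1 e heli hn hs) N hN hY r d' hr

end

end Pool.Agent.Lib.H94
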