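import Pool.Agent.Lib.H94.Bundle

/-!
# Bounds for `h` and `χ`
-/

namespace Pool.Agent.Lib.H94

open Polynomial Module

set_option linter.unusedSectionVars false

section PolyMap

variable {k F₀ V : Type*} [Field k] [Field F₀] [Algebra k F₀]
  [AddCommGroup V] [Module k V] [Module F₀ V] [IsScalarTower k F₀ V] {t : F₀}
  {ι : Type*} [Fintype ι]

/-- polynomial combinations of bounded degree -/
noncomputable def polyMap (t : F₀) (b : ι → V) (n : ι → ℕ) :
    ((j : ι) → degreeLT k (n j)) →ₗ[k] V where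
  toFun p := ∑ j, aeval t (p j : k[X]) • b j
  map_add' p q := by
    rw [← Finset.sum_add_distrib]
    refine Finset.sum_congr rfl fun j _ => ?_
    rw [Pi.add_apply, Submodule.coe_add, map_add, add_smul]
  map_smul' c p := by
    rw [RingHom.id_apply, Finset.smul_sum]
    refine Finset.sum_congr rfl fun j _ => ?_
    rw [Pi.smul_apply, Submodule.coe_smul, map_smul, smul_assoc]

lemma polyMap_injective (ht : IsRatGen k t) {b : ι → V} (hb : LinearIndependent F₀ b)
    (n : ι → ℕ) : Function.Injective (polyMap (k := k) t b n) := by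
  rw [injective_iff_map_eq_zero]
  intro p hp
  have h1 := Fintype.linearIndependent_iff.1 hb (fun j => aeval t (p j : k[X])) hp
  ext1 j
  exact Subtype.ext (ht.transc _ (h1 j))

instance finite_degreeLT (n : ℕ) : FiniteDimensional k (degreeLT k n) :=
  Module.Finite.equiv (degreeLTEquiv k n).symm

lemma finrank_degreeLT (n : ℕ) : finrank k (degreeLT k n) = n := by
  rw [(degreeLTEquiv k n).finrank_eq, finrank_fin_fun]

lemma finrank_polyDom (n : ι → ℕ) : finrank k ((j : ι) → degreeLT k (n j)) = ∑ j, n j := by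
  rw [Module.finrank_pi_fintype]
  exact Finset.sum_congr rfl fun j _ => finrank_degreeLT _

lemma finrank_range_polyMap (ht : IsRatGen k t) {b : ι → V} (hb : LinearIndependent F₀ b)
    (n : ι → ℕ) : finrank k (LinearMap.range (polyMap (k := k) t b n)) = ∑ j, n j := by
  rw [LinearMap.finrank_range_of_inj (polyMap_injective ht hb n), finrank_polyDom]

lemma TLat.range_polyMap_le (M : TLat k V t) (b : ι → V) (d : ι → ℤ)
    (hb : ∀ j, b j ∈ M.s (d j)) (i : ℤ) :
    LinearMap.range (polyMap (k := k) t b (fun j => (i - d j + 1).toNat)) ≤ M.s i := by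
  rintro _ ⟨p, rfl⟩
  refine Submodule.sum_mem _ fun j _ => ?_
  have hp := (p j).2
  rcases Nat.eq_zero_or_pos ((i - d j + 1).toNat) with h0 | h0
  · have : (p j : k[X]) = 0 := by
      have h1 : (p j : k[X]).degree < ((0 : ℕ) : WithBot ℕ) :=
        (mem_degreeLT.1 hp).trans_le (by exact_mod_cast h0.le)
      rw [← Polynomial.degree_eq_bot]
      simpa using h1
    rw [this, map_zero, zero_smul]
    exact Submodule.zero_mem _
  · have h1 : (p j : k[X]).natDegree ≤ (i - d j).toNat := by
      rw [Polynomial.natDegree_le_iff_coeff_eq_zero]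
      intro m hm
      apply Polynomial.coeff_eq_zero_of_degree_lt
      refine (mem_degreeLT.1 hp).trans_le ?_
      exact_mod_cast (by omega : (i - d j + 1).toNat ≤ m)
    have := M.aeval_mem _ _ h1 (hb j)
    rwa [show d j + ((i - d j).toNat : ℤ) = i by omega] at this

lemma TLat.sum_le_h (ht : IsRatGen k t) (M : TLat k V t) (b : ι → V) (d : ι → ℤ)
    (hli : LinearIndependent F₀ b) (hb : ∀ j, b j ∈ M.s (d j)) (i : ℤ)
    (hi : ∀ j, d j ≤ i + 1) :
    ∑ j, (i - d j + 1) ≤ (M.h i : ℤ) := by
  have h1 := Submodule.finrank_mono (M.range_polyMap_le b d hb i)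
  rw [finrank_range_polyMap ht hli] at h1
  have h2 : ((∑ j, (i - d j + 1).toNat : ℕ) : ℤ) ≤ M.h i := by exact_mod_cast h1
  push_cast at h2
  refine le_trans (le_of_eq ?_) h2
  refine Finset.sum_congr rfl fun j _ => ?_
  have := hi j
  omega

end PolyMap

section PB

variable {k F₀ K : Type*} [Field k] [Field F₀] [Field K] [Algebra k F₀] [Algebra F₀ K]
  {t : F₀} {z : K} {δ : ℕ}

lemma CurveHyp.exists_basis (C : CurveHyp k t z δ) :
    ∃ B : Basis (Fin δ) F₀ K, ∀ j, B j = z ^ (j : ℕ) := by
  have hfin := C.finite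
  have hint : IsIntegral F₀ z := IsIntegral.of_finite F₀ z
  let pb := PowerBasis.ofAdjoinEqTop hint C.hz
  have hdim : pb.dim = δ := by rw [← C.hδ, pb.finrank]
  refine ⟨pb.basis.reindex (finCongr hdim), fun j => ?_⟩
  rw [Basis.reindex_apply, PowerBasis.basis_eq_pow]
  rfl

end PB

namespace Lat

variable {k F₀ K V : Type*} [Field k] [Field F₀] [Field K] [Algebra k F₀] [Algebra F₀ K]
  [Algebra k K]
  [AddCommGroup V] [Module k V] [Module F₀ V] [Module K V] [IsScalarTower k F₀ V]
  [IsScalarTower F₀ K V] [IsScalarTower k K V] {t : F₀} {z : K} {δ : ℕ}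

variable (M : Lat k V t z)

/-- a section generates a sub-line-bundle of non-negative degree -/
lemma le_chi_of_section (C : CurveHyp k t z δ) {s : V} (hs0 : s ≠ 0) (hs : s ∈ M.s 0) :
    -((δ : ℤ) * (δ - 3)) ≤ 2 * (M.sub C (Submodule.span K {s})).chi := by
  classical
  obtain ⟨B, hB⟩ := C.exists_basis
  set W := Submodule.span K {s} with hW
  let e : K →ₗ[F₀] W :=
    { toFun := fun c => ⟨c • s, Submodule.smul_mem _ _ (Submodule.mem_span_singleton_self s)⟩
      map_add' := fun a b => by ext; simp [add_smul]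
      map_smul' := fun a b => by ext; simp }
  have he : Function.Injective e := by
    intro a b hab
    have h1 : a • s = b • s := congrArg Subtype.val hab
    exact smul_left_injective K hs0 h1
  let b : Fin δ → W := fun j => e (B j)
  have hli : LinearIndependent F₀ b :=
    B.linearIndependent.map' e (LinearMap.ker_eq_bot.2 he)
  have hb : ∀ j : Fin δ, b j ∈ (M.sub C W).s ((j : ℕ) : ℤ) := by
    intro j
    change B j • s ∈ M.s ((j : ℕ) : ℤ)
    rw [hB]
    simpa using M.zpow_mul (j : ℕ) hs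
  have hrank : finrank F₀ W = δ := by
    rw [finrank_eq C W, hW, finrank_span_singleton hs0, mul_one]
  -- choose the lower bound
  obtain ⟨c, hc⟩ : ∃ c : ℤ, 2 * c = -((δ : ℤ) * (δ - 3)) := by
    rcases Int.even_or_odd (δ : ℤ) with ⟨m, hm⟩ | ⟨m, hm⟩
    · exact ⟨-(m * (δ - 3)), by rw [hm]; ring⟩
    · exact ⟨-(δ * (m - 1)), by rw [hm]; ring⟩
  rw [← hc]
  have : c ≤ (M.sub C W).chi := by
    apply TLat.le_chi_of_le_h C.ht
    refine ⟨δ, fun i hi => ?_⟩
    have h1 := TLat.sum_le_h C.ht (M.sub C W).toTLat b (fun j => ((j : ℕ) : ℤ)) hli hb i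
      (fun j => by have := j.2; omega)
    refine le_trans (le_of_eq ?_) h1
    rw [hrank]
    have h2 : (∑ j : Fin δ, (i - ((j : ℕ) : ℤ) + 1)) * 2 = 2 * (δ * i + c) := by
      have h3 : (∑ j : Fin δ, (i - ((j : ℕ) : ℤ) + 1)) = δ * (i + 1) - ∑ j : Fin δ, ((j : ℕ) : ℤ) := by
        rw [eq_sub_iff_add_eq, ← Finset.sum_add_distrib]
        have : ∀ j : Fin δ, i - ((j : ℕ) : ℤ) + 1 + ((j : ℕ) : ℤ) = i + 1 := fun j => by ring
        simp only [this, Finset.sum_const, Finset.card_univ, Fintype.card_fin, nsmul_eq_mul]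
      have h4 : (∑ j : Fin δ, ((j : ℕ) : ℤ)) * 2 = δ * (δ - 1) := by
        rw [Fin.sum_univ_eq_sum_range (fun j => (j : ℤ)) δ]
        have h5 := Finset.sum_range_id_mul_two δ
        have h6 : 1 ≤ δ := by have := C.hδ5; omega
        have h7 : ((∑ i ∈ Finset.range δ, i : ℕ) : ℤ) * 2 = ((δ * (δ - 1) : ℕ) : ℤ) := by
          exact_mod_cast h5
        push_cast [Nat.cast_sub h6] at h7
        exact h7
      rw [h3, sub_mul, h4]
      linear_combination -hc
    linarith
  linarith

end Lat

end Pool.Agent.Lib.H94
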