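import Pool.Agent.Lib.H94.Bounds

/-!
# Bounds for `h` and `χ`, continued
-/

namespace Pool.Agent.Lib.H94

open Polynomial Module

set_option linter.unusedSectionVars false

section T

variable {k F₀ V : Type*} [Field k] [Field F₀] [Algebra k F₀]
  [AddCommGroup V] [Module k V] [Module F₀ V] [IsScalarTower k F₀ V] {t : F₀}

lemma TLat.comap_h_eq (M : TLat k V t) (ht : IsRatGen k t) (U : Submodule F₀ V) (i : ℤ) :
    (M.comap ht U.subtype U.subtype_injective).h i =
      finrank k (M.s i ⊓ U.restrictScalars k : Submodule k V) := by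
  have h1 : ((M.comap ht U.subtype U.subtype_injective).s i).map
      (U.subtype.restrictScalars k) = M.s i ⊓ U.restrictScalars k := by
    ext v
    simp only [Submodule.mem_map, Submodule.mem_inf, Submodule.restrictScalars_mem]
    constructor
    · rintro ⟨w, hw, rfl⟩
      exact ⟨hw, w.2⟩
    · rintro ⟨h1, h2⟩
      exact ⟨⟨v, h2⟩, h1, rfl⟩
  rw [← h1]
  exact (Submodule.equivMapOfInjective (U.subtype.restrictScalars k) U.subtype_injective
    ((M.comap ht U.subtype U.subtype_injective).s i)).finrank_eq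

/-- The sub-family generated in degree `j` generically. -/
lemma TLat.comap_U_eq_top (M : TLat k V t) (ht : IsRatGen k t) (j : ℤ) :
    (M.comap ht (M.U j).subtype (M.U j).subtype_injective).U j = ⊤ := by
  have h1 := Submodule.span_span_coe_preimage (R := F₀) (s := (M.s j : Set V))
  exact h1

lemma TLat.comap_h_self (M : TLat k V t) (ht : IsRatGen k t) (j : ℤ) :
    (M.comap ht (M.U j).subtype (M.U j).subtype_injective).h j = M.h j := by
  rw [TLat.comap_h_eq]
  have : M.s j ⊓ (M.U j).restrictScalars k = M.s j :=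
    inf_eq_left.2 fun v hv => M.s_le_U hv
  rw [this]
  rfl

end T

namespace Lat

variable {k F₀ K V : Type*} [Field k] [Field F₀] [Field K] [Algebra k F₀] [Algebra F₀ K]
  [Algebra k K]
  [AddCommGroup V] [Module k V] [Module F₀ V] [Module K V] [IsScalarTower k F₀ V]
  [IsScalarTower F₀ K V] [IsScalarTower k K V] {t : F₀} {z : K} {δ : ℕ}

variable (M : Lat k V t z)

/-- If the `K`-subspace `V'` is contained in the `k(t)`-span of the global sections, then
`h⁰(M) ≤ χ(M ∩ V') + h⁰(M/V')`. -/
lemma h_zero_le_of_le_U (C : CurveHyp k t z δ) (V' : Submodule K V)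
    (hV' : ∀ v ∈ V', v ∈ M.U 0) :
    (M.h 0 : ℤ) ≤ (M.sub C V').chi + (M.quo C V').h 0 := by
  have hfV := M.toTLat.finiteDimensional
  set U := M.U 0 with hU
  set P := M.toTLat.comap C.ht U.subtype U.subtype_injective with hP
  have hP0 : P.U 0 = ⊤ := M.toTLat.comap_U_eq_top C.ht 0
  have hPh : P.h 0 = M.h 0 := M.toTLat.comap_h_self C.ht 0
  have hPchi : P.chi = M.h 0 := by
    rw [P.chi_eq C.ht hP0, hPh]; simp
  set U' : Submodule F₀ (V ⧸ V') := U.map (V'.mkQ.restrictScalars F₀) with hU'
  set P' := (M.quo C V').toTLat.comap C.ht U'.subtype U'.subtype_injective with hP'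
  -- ranks
  have hrk : finrank F₀ U' + finrank F₀ V' = finrank F₀ U := by
    have e1 := finrank_map_add_finrank_comap (V'.subtype.restrictScalars F₀)
      (V'.mkQ.restrictScalars F₀) V'.subtype_injective (sub_exact V') U
    have e2 : U.comap (V'.subtype.restrictScalars F₀) = ⊤ := by
      rw [eq_top_iff]
      intro w _
      exact hV' w w.2
    rw [e2, finrank_top] at e1
    exact e1
  -- Hilbert functions
  have hh : ∀ i, P.h i ≤ (M.sub C V').h i + P'.h i := by
    intro i
    have e1 := finrank_map_add_finrank_comap (V'.subtype.restrictScalars k)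
      (V'.mkQ.restrictScalars k) V'.subtype_injective
      (TLat.range_restrict (F₀ := F₀) (V'.subtype.restrictScalars F₀)
        (V'.mkQ.restrictScalars F₀) (sub_exact V'))
      (M.s i ⊓ U.restrictScalars k)
    have e2 : (M.s i ⊓ U.restrictScalars k).comap (V'.subtype.restrictScalars k) =
        (M.sub C V').s i := by
      ext w
      simp only [Submodule.mem_comap, Submodule.mem_inf, Submodule.restrictScalars_mem]
      constructor
      · rintro ⟨h, _⟩
        exact h
      · intro h
        exact ⟨h, hV' _ w.2⟩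
    have e3 : (M.s i ⊓ U.restrictScalars k).map (V'.mkQ.restrictScalars k) ≤
        ((M.quo C V').s i ⊓ U'.restrictScalars k : Submodule k (V ⧸ V')) := by
      rintro _ ⟨v, ⟨hv1, hv2⟩, rfl⟩
      exact ⟨M.mkQ_mem_quo C V' hv1, v, hv2, rfl⟩
    have e4 := Submodule.finrank_mono e3
    rw [e2] at e1
    have e5 : P.h i = finrank k (M.s i ⊓ U.restrictScalars k : Submodule k V) :=
      M.toTLat.comap_h_eq C.ht U i
    have e6 : P'.h i =
        finrank k ((M.quo C V').s i ⊓ U'.restrictScalars k : Submodule k (V ⧸ V')) :=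
      (M.quo C V').toTLat.comap_h_eq C.ht U' i
    rw [e5, e6]
    have e7 : (M.sub C V').h i = finrank k ((M.sub C V').s i) := rfl
    omega
  have hchi : P.chi ≤ (M.sub C V').chi + P'.chi := by
    obtain ⟨i₁, h₁⟩ := P.exists_U_eq_top
    obtain ⟨i₂, h₂⟩ := (M.sub C V').toTLat.exists_U_eq_top
    obtain ⟨i₃, h₃⟩ := P'.exists_U_eq_top
    let i := max i₁ (max i₂ i₃)
    rw [P.chi_eq C.ht (h₁ i (by omega)), (M.sub C V').toTLat.chi_eq C.ht (h₂ i (by omega)),
      P'.chi_eq C.ht (h₃ i (by omega))]
    have e1 : ((P.h i : ℕ) : ℤ) ≤ (M.sub C V').h i + P'.h i := by exact_mod_cast hh i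
    have e2 : (finrank F₀ U : ℤ) = finrank F₀ U' + finrank F₀ V' := by exact_mod_cast hrk.symm
    rw [e2]
    linarith
  have h1 : P'.chi ≤ P'.h 0 := by
    have := P'.chi_le C.ht 0
    simpa using this
  have h2 : P'.h 0 ≤ (M.quo C V').h 0 := by
    rw [show P'.h 0 = finrank k ((M.quo C V').s 0 ⊓ U'.restrictScalars k :
      Submodule k (V ⧸ V')) from (M.quo C V').toTLat.comap_h_eq C.ht U' 0]
    exact Submodule.finrank_mono inf_le_left
  have h3 : (P'.h 0 : ℤ) ≤ (M.quo C V').h 0 := by exact_mod_cast h2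
  rw [← hPchi]
  linarith

/-- There is a sub-bundle of maximal slope. -/
lemma exists_max_slope (C : CurveHyp k t z δ) (hV : 0 < finrank K V) :
    ∃ W : Submodule K V, W ≠ ⊥ ∧ ∀ W' : Submodule K V,
      (M.sub C W').chi * finrank K W ≤ (M.sub C W).chi * finrank K W' := by
  have hfV := M.finiteDimensionalK
  let n := finrank K V
  have hne : Nontrivial V := Module.nontrivial_of_finrank_pos hV
  have hdvd : ∀ W : Submodule K V, W ≠ ⊥ →
      (n.factorial / finrank K W) * finrank K W = n.factorial := by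
    intro W hW
    apply Nat.div_mul_cancel
    apply Nat.dvd_factorial
    · exact Submodule.one_le_finrank_iff.2 hW
    · exact Submodule.finrank_le W
  obtain ⟨x, ⟨W, hW, hx⟩, hmax⟩ := Int.exists_greatest_of_bdd
    (P := fun x : ℤ => ∃ W : Submodule K V, W ≠ ⊥ ∧
      x = (M.sub C W).chi * ((n.factorial / finrank K W : ℕ) : ℤ))
    ⟨(M.h 0 : ℤ) * n.factorial, by
      rintro x ⟨W, hW, rfl⟩
      have h1 := (M.sub C W).toTLat.chi_le C.ht 0
      have h2 : ((M.sub C W).h 0 : ℤ) ≤ M.h 0 := by exact_mod_cast M.sub_h_le C W 0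
      have h3 : (M.sub C W).chi ≤ M.h 0 := by
        rw [mul_zero, sub_zero] at h1
        exact h1.trans h2
      have h4 : ((n.factorial / finrank K W : ℕ) : ℤ) ≤ n.factorial := by
        exact_mod_cast Nat.div_le_self _ _
      have h5 : (0 : ℤ) ≤ ((n.factorial / finrank K W : ℕ) : ℤ) := Int.natCast_nonneg _
      have h6 : (0 : ℤ) ≤ M.h 0 := Int.natCast_nonneg _
      calc (M.sub C W).chi * ((n.factorial / finrank K W : ℕ) : ℤ)
          ≤ M.h 0 * ((n.factorial / finrank K W : ℕ) : ℤ) := mul_le_mul_of_nonneg_right h3 h5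
        _ ≤ M.h 0 * n.factorial := mul_le_mul_of_nonneg_left h4 h6⟩
    ⟨_, ⊤, top_ne_bot, rfl⟩
  refine ⟨W, hW, fun W' => ?_⟩
  by_cases hW' : W' = ⊥
  · subst hW'
    rw [M.chi_sub_bot C, finrank_bot]
    simp
  · have h1 := hmax _ ⟨W', hW', rfl⟩
    rw [hx] at h1
    have h2 : (((n.factorial / finrank K W : ℕ) : ℤ)) * finrank K W = n.factorial := by
      exact_mod_cast hdvd W hW
    have h3 : (((n.factorial / finrank K W' : ℕ) : ℤ)) * finrank K W' = n.factorial := by
      exact_mod_cast hdvd W' hW'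
    have h4 : (0 : ℤ) < n.factorial := by exact_mod_cast n.factorial_pos
    have h5 : (0 : ℤ) ≤ (finrank K W : ℤ) * finrank K W' := by positivity
    have h6 := mul_le_mul_of_nonneg_right h1 h5
    have h7 : (M.sub C W').chi * finrank K W * n.factorial ≤
        (M.sub C W).chi * finrank K W' * n.factorial := by
      calc (M.sub C W').chi * finrank K W * n.factorial
          = (M.sub C W').chi * ((n.factorial / finrank K W' : ℕ) : ℤ) *
            (finrank K W * finrank K W') := by rw [← h3]; ring
        _ ≤ (M.sub C W).chi * ((n.factorial / finrank K W : ℕ) : ℤ) *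
            (finrank K W * finrank K W') := h6
        _ = (M.sub C W).chi * finrank K W' * n.factorial := by rw [← h2]; ring
    exact le_of_mul_le_mul_right h7 h4

end Lat

end Pool.Agent.Lib.H94
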