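import Pool.Agent.Lib.H94.Lat

/-!
# Bundles on the curve: sub-bundles, quotients, semistability
-/

namespace Pool.Agent.Lib.H94

open Polynomial Module

set_option linter.unusedSectionVars false

/-- `F₀ = k(t)`, `K = F₀(z)` of degree `δ ≥ 5` over `F₀`. -/
structure CurveHyp (k : Type*) {F₀ K : Type*} [Field k] [Field F₀] [Field K] [Algebra k F₀]
    [Algebra F₀ K] (t : F₀) (z : K) (δ : ℕ) : Prop where
  ht : IsRatGen k t
  hz : Algebra.adjoin F₀ {z} = ⊤
  hδ : finrank F₀ K = δ
  hδ5 : 5 ≤ δ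

section Hyp

variable {k F₀ K : Type*} [Field k] [Field F₀] [Field K] [Algebra k F₀]
    [Algebra F₀ K] {t : F₀} {z : K} {δ : ℕ}

lemma CurveHyp.z_ne_zero (C : CurveHyp k t z δ) : z ≠ 0 := by
  rintro rfl
  have h1 : (⊥ : Subalgebra F₀ K) = ⊤ := by
    rw [← C.hz]
    symm
    rw [eq_bot_iff]
    refine Algebra.adjoin_le ?_
    rw [Set.singleton_subset_iff]
    exact Subalgebra.zero_mem _
  have h2 : finrank F₀ K = 1 := by
    rw [← Subalgebra.bot_eq_top_iff_finrank_eq_one]; exact h1
  have h3 := C.hδ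
  have h4 := C.hδ5
  omega

lemma CurveHyp.finite (C : CurveHyp k t z δ) : FiniteDimensional F₀ K :=
  FiniteDimensional.of_finrank_pos (by rw [C.hδ]; have := C.hδ5; omega)

end Hyp

/-- A bundle on the curve. -/
structure Lat (k : Type*) {F₀ K : Type*} (V : Type*) [Field k] [Field F₀] [Field K]
    [Algebra k F₀] [Algebra F₀ K]
    [AddCommGroup V] [Module k V] [Module F₀ V] [Module K V] [IsScalarTower k F₀ V]
    (t : F₀) (z : K) extends TLat k V t where
  zmul : ∀ i v, v ∈ s i → z • v ∈ s (i + 1)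

namespace Lat

variable {k F₀ K V : Type*} [Field k] [Field F₀] [Field K] [Algebra k F₀] [Algebra F₀ K]
  [Algebra k K]
  [AddCommGroup V] [Module k V] [Module F₀ V] [Module K V] [IsScalarTower k F₀ V]
  [IsScalarTower F₀ K V] [IsScalarTower k K V] {t : F₀} {z : K} {δ : ℕ}

variable (M : Lat k V t z)

lemma finrank_eq (C : CurveHyp k t z δ) (V : Type*) [AddCommGroup V] [Module F₀ V]
    [Module K V] [IsScalarTower F₀ K V] : finrank F₀ V = δ * finrank K V := by
  rw [← C.hδ, Module.finrank_mul_finrank]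

include M in
lemma finiteDimensionalK : FiniteDimensional K V := by
  have := M.toTLat.finiteDimensional
  exact Module.Finite.of_restrictScalars_finite F₀ K V

lemma zpow_mul (n : ℕ) {i : ℤ} {v : V} (hv : v ∈ M.s i) : z ^ n • v ∈ M.s (i + n) := by
  induction n with
  | zero => simpa using hv
  | succ n ih =>
    rw [pow_succ', mul_smul]
    have := M.zmul _ _ ih
    rwa [show i + (n : ℤ) + 1 = i + ((n + 1 : ℕ) : ℤ) by push_cast; ring] at this

/-- The twist. -/
def twist (j : ℤ) : Lat k V t z where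
  toTLat := M.toTLat.twist j
  zmul i v hv := by
    have := M.zmul _ _ (show v ∈ M.s (i + j) from hv)
    rwa [show i + j + 1 = i + 1 + j by ring] at this

/-- The sub-bundle with generic fibre `W`. -/
def sub (C : CurveHyp k t z δ) (W : Submodule K V) : Lat k W t z where
  toTLat := M.toTLat.comap C.ht (W.subtype.restrictScalars F₀) W.subtype_injective
  zmul i v hv := M.zmul i v hv

@[simp] lemma mem_sub (C : CurveHyp k t z δ) (W : Submodule K V) (i : ℤ) (w : W) :
    w ∈ (M.sub C W).s i ↔ (w : V) ∈ M.s i := Iff.rfl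

lemma sub_exact (W : Submodule K V) : LinearMap.range (W.subtype.restrictScalars F₀) =
    LinearMap.ker (W.mkQ.restrictScalars F₀) := by
  ext v
  simp

/-- The quotient bundle with generic fibre `V/W`. -/
noncomputable def quo (C : CurveHyp k t z δ) (W : Submodule K V) : Lat k (V ⧸ W) t z where
  toTLat := M.toTLat.quot C.ht (W.subtype.restrictScalars F₀) (W.mkQ.restrictScalars F₀)
    W.subtype_injective W.mkQ_surjective (sub_exact W)
  zmul i v := by
    rintro ⟨m, hm⟩
    refine ⟨m, fun j hj => ?_⟩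
    obtain ⟨w, hw, hw'⟩ := hm j hj
    refine ⟨z • w, ?_, ?_⟩
    · have := M.zmul _ _ hw
      rwa [show i + (m : ℤ) + 1 = i + 1 + m by ring] at this
    · have h1 : W.mkQ w = t ^ j • v := hw'
      change W.mkQ (z • w) = t ^ j • z • v
      rw [map_smul, h1, smul_comm]

lemma mkQ_mem_quo (C : CurveHyp k t z δ) (W : Submodule K V) {i : ℤ} {v : V}
    (hv : v ∈ M.s i) : W.mkQ v ∈ (M.quo C W).s i :=
  M.toTLat.map_mem_quot C.ht _ _ W.subtype_injective W.mkQ_surjective (sub_exact W) hv

lemma exists_quo_eq (C : CurveHyp k t z δ) (W : Submodule K V) : ∃ i₁, ∀ i, i₁ ≤ i →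
    (M.quo C W).s i = (M.s i).map (W.mkQ.restrictScalars k) :=
  M.toTLat.exists_quot_eq C.ht _ _ W.subtype_injective W.mkQ_surjective (sub_exact W)

lemma h_le (C : CurveHyp k t z δ) (W : Submodule K V) (i : ℤ) :
    M.h i ≤ (M.sub C W).h i + (M.quo C W).h i :=
  M.toTLat.h_le C.ht _ _ W.subtype_injective W.mkQ_surjective (sub_exact W) i

lemma chi_add (C : CurveHyp k t z δ) (W : Submodule K V) :
    M.chi = (M.sub C W).chi + (M.quo C W).chi :=
  M.toTLat.chi_add C.ht _ _ W.subtype_injective W.mkQ_surjective (sub_exact W)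

lemma sub_h_le (C : CurveHyp k t z δ) (W : Submodule K V) (i : ℤ) :
    (M.sub C W).h i ≤ M.h i := by
  let g : (M.sub C W).s i →ₗ[k] M.s i :=
    (W.subtype.restrictScalars k).restrict (fun x hx => hx)
  exact LinearMap.finrank_le_finrank_of_injective (f := g) (fun x y hxy => by
    apply Subtype.ext
    apply Subtype.ext
    exact congrArg (fun w : M.s i => (w : V)) hxy)

/-- `dim (sub-bundle)` through an ambient subspace. -/
lemma sub_h_eq (C : CurveHyp k t z δ) (W : Submodule K V) (i : ℤ) :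
    (M.sub C W).h i = finrank k (M.s i ⊓ W.restrictScalars k : Submodule k V) := by
  have h1 : ((M.sub C W).s i).map (W.subtype.restrictScalars k) =
      M.s i ⊓ W.restrictScalars k := by
    ext v
    simp only [Submodule.mem_map, Submodule.mem_inf, Submodule.restrictScalars_mem]
    constructor
    · rintro ⟨w, hw, rfl⟩
      exact ⟨hw, w.2⟩
    · rintro ⟨h1, h2⟩
      exact ⟨⟨v, h2⟩, h1, rfl⟩
  rw [← h1]
  exact (Submodule.equivMapOfInjective (W.subtype.restrictScalars k) W.subtype_injective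
    ((M.sub C W).s i)).finrank_eq

lemma chi_sub_sub (C : CurveHyp k t z δ) (W : Submodule K V) (W' : Submodule K W) :
    ((M.sub C W).sub C W').chi = (M.sub C (W'.map W.subtype)).chi := by
  apply TLat.chi_congr C.ht
  · rw [finrank_eq C W', finrank_eq C (W'.map W.subtype)]
    congr 1
    exact (Submodule.equivMapOfInjective W.subtype W.subtype_injective W').finrank_eq
  · refine ⟨0, fun i _ => ?_⟩
    rw [sub_h_eq, sub_h_eq]
    have h1 : ((M.sub C W).s i ⊓ W'.restrictScalars k).map (W.subtype.restrictScalars k) =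
        M.s i ⊓ (W'.map W.subtype).restrictScalars k := by
      ext v
      simp only [Submodule.mem_map, Submodule.mem_inf, Submodule.restrictScalars_mem]
      constructor
      · rintro ⟨w, ⟨hw, hw'⟩, rfl⟩
        exact ⟨hw, w, hw', rfl⟩
      · rintro ⟨h1, w, h2, rfl⟩
        exact ⟨w, ⟨h1, h2⟩, rfl⟩
    rw [← h1]
    exact (Submodule.equivMapOfInjective (W.subtype.restrictScalars k) W.subtype_injective
      ((M.sub C W).s i ⊓ W'.restrictScalars k)).finrank_eq

lemma chi_sub_top (C : CurveHyp k t z δ) : (M.sub C ⊤).chi = M.chi := by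
  apply TLat.chi_congr C.ht
  · rw [finrank_eq C (⊤ : Submodule K V), finrank_eq C V, finrank_top]
  · refine ⟨0, fun i _ => ?_⟩
    rw [sub_h_eq]
    have : M.s i ⊓ (⊤ : Submodule K V).restrictScalars k = M.s i := by
      ext v; simp
    rw [this]
    rfl

lemma chi_sub_bot (C : CurveHyp k t z δ) : (M.sub C ⊥).chi = 0 := by
  obtain ⟨i, hi⟩ := (M.sub C ⊥).toTLat.exists_U_eq_top
  rw [(M.sub C ⊥).toTLat.chi_eq C.ht (hi i le_rfl)]
  have h1 : finrank F₀ (⊥ : Submodule K V) = 0 := finrank_zero_of_subsingleton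
  have h2 : (M.sub C ⊥).h i = 0 := by
    rw [TLat.h]
    exact finrank_zero_of_subsingleton
  rw [h1, h2]
  simp

lemma chi_quo_sub (C : CurveHyp k t z δ) (W : Submodule K V) (W₂ : Submodule K (V ⧸ W)) :
    ((M.quo C W).sub C W₂).chi = (M.sub C (W₂.comap W.mkQ)).chi - (M.sub C W).chi := by
  have hWle : W ≤ W₂.comap W.mkQ := by
    intro w hw
    rw [Submodule.mem_comap, Submodule.mkQ_apply, (Submodule.Quotient.mk_eq_zero W).2 hw]
    exact Submodule.zero_mem _
  obtain ⟨i₁, h₁⟩ := M.exists_quo_eq C W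
  obtain ⟨i₂, h₂⟩ := ((M.quo C W).sub C W₂).toTLat.exists_U_eq_top
  obtain ⟨i₃, h₃⟩ := (M.sub C (W₂.comap W.mkQ)).toTLat.exists_U_eq_top
  obtain ⟨i₄, h₄⟩ := (M.sub C W).toTLat.exists_U_eq_top
  let i := max (max i₁ i₂) (max i₃ i₄)
  have g1 : i₁ ≤ i := by omega
  have g2 : i₂ ≤ i := by omega
  have g3 : i₃ ≤ i := by omega
  have g4 : i₄ ≤ i := by omega
  rw [((M.quo C W).sub C W₂).toTLat.chi_eq C.ht (h₂ i g2),
    (M.sub C (W₂.comap W.mkQ)).toTLat.chi_eq C.ht (h₃ i g3),
    (M.sub C W).toTLat.chi_eq C.ht (h₄ i g4)]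
  -- ranks
  have hfK : FiniteDimensional K V := M.finiteDimensionalK
  have hrk : finrank K (W₂.comap W.mkQ) = finrank K W₂ + finrank K W := by
    have e1 := finrank_map_add_finrank_comap W.subtype W.mkQ W.subtype_injective
      (by simp) (W₂.comap W.mkQ)
    have e2 : (W₂.comap W.mkQ).map W.mkQ = W₂ :=
      Submodule.map_comap_eq_of_surjective W.mkQ_surjective W₂
    have e3 : (W₂.comap W.mkQ).comap W.subtype = ⊤ := by
      rw [eq_top_iff]
      intro w _
      exact hWle w.2
    rw [e2, e3, finrank_top] at e1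
    exact e1.symm
  rw [finrank_eq C W₂, finrank_eq C (W₂.comap W.mkQ), finrank_eq C W, hrk]
  -- Hilbert functions
  have hh : (M.sub C (W₂.comap W.mkQ)).h i = ((M.quo C W).sub C W₂).h i + (M.sub C W).h i := by
    rw [sub_h_eq, sub_h_eq, h₁ i g1]
    have e1 := finrank_map_add_finrank_comap (W.subtype.restrictScalars k)
      (W.mkQ.restrictScalars k) W.subtype_injective
      (TLat.range_restrict (F₀ := F₀) (W.subtype.restrictScalars F₀)
        (W.mkQ.restrictScalars F₀) (sub_exact W))
      (M.s i ⊓ (W₂.comap W.mkQ).restrictScalars k)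
    have e2 : (M.s i ⊓ (W₂.comap W.mkQ).restrictScalars k).map (W.mkQ.restrictScalars k) =
        (M.s i).map (W.mkQ.restrictScalars k) ⊓ W₂.restrictScalars k := by
      ext v
      simp only [Submodule.mem_map, Submodule.mem_inf, Submodule.restrictScalars_mem,
        Submodule.mem_comap]
      constructor
      · rintro ⟨w, ⟨hw, hw'⟩, rfl⟩
        exact ⟨⟨w, hw, rfl⟩, hw'⟩
      · rintro ⟨⟨w, hw, rfl⟩, h2⟩
        exact ⟨w, ⟨hw, h2⟩, rfl⟩
    have e3 : (M.s i ⊓ (W₂.comap W.mkQ).restrictScalars k).comap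
        (W.subtype.restrictScalars k) = (M.sub C W).s i := by
      ext w
      simp only [Submodule.mem_comap, Submodule.mem_inf, Submodule.restrictScalars_mem]
      constructor
      · rintro ⟨h, _⟩
        exact h
      · intro h
        exact ⟨h, hWle w.2⟩
    rw [e2, e3] at e1
    rw [← e1]
    rfl
  rw [hh]
  push_cast
  ring

/-- Semistability. -/
def Semistable (C : CurveHyp k t z δ) : Prop :=
  ∀ W : Submodule K V, (M.sub C W).chi * finrank K V ≤ M.chi * finrank K W

lemma twist_chi (C : CurveHyp k t z δ) (j : ℤ) :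
    (M.twist j).chi = M.chi + δ * finrank K V * j := by
  have := M.toTLat.twist_chi C.ht j
  rw [finrank_eq C V] at this
  rw [show (M.twist j).chi = (M.toTLat.twist j).chi from rfl, this]
  push_cast
  ring

lemma sub_twist_chi (C : CurveHyp k t z δ) (j : ℤ) (W : Submodule K V) :
    ((M.twist j).sub C W).chi = (M.sub C W).chi + δ * finrank K W * j := by
  rw [← twist_chi (M.sub C W) C j]
  apply TLat.chi_congr C.ht
  · rfl
  · exact ⟨0, fun i _ => rfl⟩

lemma Semistable.twist {C : CurveHyp k t z δ} (hM : M.Semistable C) (j : ℤ) :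
    (M.twist j).Semistable C := by
  intro W
  rw [sub_twist_chi, twist_chi M C]
  have := hM W
  nlinarith [this]

end Lat

end Pool.Agent.Lib.H94
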