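import Mathlib

/-!
# Vector bundles on smooth plane curves, through their graded modules of sections

Let `C` be a smooth plane curve with homogeneous coordinate ring `R`.  By Serre's theorem the
functor sending a vector bundle `E` on `C` to the graded `R`-module `⨁ k, H⁰(C, E(k))`
(with `E(k) = E ⊗ H ^ k`, `H` the hyperplane bundle) is an equivalence from vector bundles on `C`
to finitely generated graded `R`-modules `M` which are torsion-free and saturated (of depth two):
torsion-free coherent sheaves on a smooth curve are locally free, and depth two says that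
every compatible triple of sections `m i` of `M` in degree `k + 1`, playing the role of
`x i * s` for a section `s` of the sheaf in degree `k`, comes from an element of `M`.
-/

namespace Pool.Agent.Lib.H94

open MvPolynomial

/-- A smooth plane curve of degree `δ` over `ℂ`: the zero locus in the projective plane of an
irreducible homogeneous polynomial `F` of degree `δ` in three variables whose partial
derivatives have no common zero on the curve. -/
structure SmoothPlaneCurve (δ : ℕ) where
  /-- the equation of the curve -/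
  F : MvPolynomial (Fin 3) ℂ
  isHomogeneous : F.IsHomogeneous δ
  irreducible : Irreducible F
  smooth : ∀ p : Fin 3 → ℂ, p ≠ 0 → eval p F = 0 → ∃ i, eval p (pderiv i F) ≠ 0

namespace SmoothPlaneCurve

variable {δ : ℕ} (C : SmoothPlaneCurve δ)

/-- The homogeneous coordinate ring `ℂ[x₀, x₁, x₂] / (F)`. -/
abbrev R : Type := MvPolynomial (Fin 3) ℂ ⧸ Ideal.span {C.F}

/-- The homogeneous coordinates, as elements of the homogeneous coordinate ring. -/
noncomputable def x (i : Fin 3) : C.R := Ideal.Quotient.mk _ (X i)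

/-- The degree `k` part of the homogeneous coordinate ring (zero for `k < 0`). -/
noncomputable def homog : ℤ → Submodule ℂ C.R
  | .ofNat n => (homogeneousSubmodule (Fin 3) ℂ n).map
      (Ideal.Quotient.mkₐ ℂ (Ideal.span {C.F})).toLinearMap
  | .negSucc _ => ⊥

/-- The genus `(δ - 1)(δ - 2) / 2` of a smooth plane curve of degree `δ`. -/
def genus (_C : SmoothPlaneCurve δ) : ℕ := (δ - 1) * (δ - 2) / 2

/-- A vector bundle `E` on the smooth plane curve `C`, given by its graded `R`-module
`M = ⨁ k, sec k` of twisted sections, `sec k = H⁰(C, E(k))`. -/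
structure VectorBundle where
  /-- the module `⨁ k, H⁰(C, E(k))` -/
  M : Type
  [addCommGroup : AddCommGroup M]
  [moduleC : Module ℂ M]
  [moduleR : Module C.R M]
  [tower : IsScalarTower ℂ C.R M]
  /-- the graded pieces `H⁰(C, E(k))` -/
  sec : ℤ → Submodule ℂ M
  /-- `M` is the direct sum of the `sec k` -/
  isInternal : DirectSum.IsInternal sec
  /-- the coordinates have degree one -/
  mul_mem : ∀ (i : Fin 3) (k : ℤ) (m : M), m ∈ sec k → C.x i • m ∈ sec (k + 1)
  /-- `M` is finitely generated -/
  finite : Module.Finite C.R M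
  /-- `M` is torsion-free -/
  torsionFree : ∀ (a : C.R) (m : M), a • m = 0 → a = 0 ∨ m = 0
  /-- `M` is saturated: it contains all the twisted sections of the associated sheaf -/
  saturated : ∀ (k : ℤ) (m : Fin 3 → M), (∀ i, m i ∈ sec (k + 1)) →
    (∀ i j, C.x i • m j = C.x j • m i) → ∃ s ∈ sec k, ∀ i, m i = C.x i • s

namespace VectorBundle

variable {C}

attribute [instance] addCommGroup moduleC moduleR tower finite

variable (E : C.VectorBundle)

/-- `h⁰(E)`, the dimension of the space of global sections. -/
noncomputable def h0 : ℕ := Module.finrank ℂ (E.sec 0)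

/-- `E` has rank `r` and degree `d`: its Hilbert polynomial is
`χ(E(k)) = r δ k + d + r (1 - g)`, that is, `h⁰(E(k))` has this value for all large `k`. -/
def HasRankDegree (r : ℕ) (d : ℤ) : Prop :=
  ∃ k₀ : ℤ, ∀ k, k₀ ≤ k →
    (Module.finrank ℂ (E.sec k) : ℤ) = r * δ * k + d + r * (1 - C.genus)

/-- A coherent subsheaf `E'` of `E`, given by a graded submodule `⨁ k, sec k` of `M`. -/
structure Subsheaf where
  /-- the graded pieces of the submodule -/
  sec : ℤ → Submodule ℂ E.M
  le : ∀ k, sec k ≤ E.sec k
  mul_mem : ∀ (i : Fin 3) (k : ℤ) (m : E.M), m ∈ sec k → C.x i • m ∈ sec (k + 1)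

/-- The subsheaf `E'` has rank `r` and degree `d`. -/
def Subsheaf.HasRankDegree {E : C.VectorBundle} (E' : E.Subsheaf) (r : ℕ) (d : ℤ) : Prop :=
  ∃ k₀ : ℤ, ∀ k, k₀ ≤ k →
    (Module.finrank ℂ (E'.sec k) : ℤ) = r * δ * k + d + r * (1 - C.genus)

/-- `E`, of rank `n` and degree `d`, is semistable: every subsheaf of positive rank `r` and
degree `d'` satisfies `d' / r ≤ d / n`. -/
def IsSemistable (n : ℕ) (d : ℤ) : Prop :=
  ∀ (E' : E.Subsheaf) (r : ℕ) (d' : ℤ), 0 < r → E'.HasRankDegree r d' →
    (d' : ℚ) / r ≤ d / n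

/-- `γ_n(E) = (d - 2 (h⁰(E) - n)) / n`, for `E` of rank `n` and degree `d`. -/
noncomputable def gamma (n : ℕ) (d : ℤ) : ℚ := ((d : ℚ) - 2 * ((E.h0 : ℚ) - n)) / n

/-- `E` is semistable of rank `n` and degree `d` with `h⁰(E) ≥ 2 n` and
`μ(E) = d / n ≤ g - 1`: it contributes to `Cliff_n(C)`. -/
def Contributes (n : ℕ) (d : ℤ) : Prop :=
  E.HasRankDegree n d ∧ E.IsSemistable n d ∧ 2 * n ≤ E.h0 ∧ (d : ℚ) / n ≤ C.genus - 1

/-- `E` computes `Cliff_n(C)`: it contributes to `Cliff_n(C)` and `γ_n(E)` is the least of all
values of `γ_n` on bundles contributing to `Cliff_n(C)`. -/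
def Computes (n : ℕ) : Prop :=
  ∃ d : ℤ, E.Contributes n d ∧
    IsLeast {c : ℚ | ∃ (E' : C.VectorBundle) (d' : ℤ), E'.Contributes n d' ∧
      c = E'.gamma n d'} (E.gamma n d)

/-- An isomorphism of vector bundles: a graded isomorphism of the modules of sections. -/
structure Iso (E E' : C.VectorBundle) where
  /-- the isomorphism of `R`-modules -/
  toLinearEquiv : E.M ≃ₗ[C.R] E'.M
  mem_iff : ∀ (k : ℤ) (m : E.M), toLinearEquiv m ∈ E'.sec k ↔ m ∈ E.sec k

end VectorBundle

end SmoothPlaneCurve

end Pool.Agent.Lib.H94
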