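import Pool.Agent.Lib.H94.Transfer
import Pool.Agent.Lib.H94.Defs

/-!
# Good coordinates on a smooth plane curve
-/

namespace Pool.Agent.Lib.H94

open Module MvPolynomial

set_option linter.unusedSectionVars false

lemma eval_single_two {k : Type*} [Field k] {G : MvPolynomial (Fin 3) k} {n : ℕ}
    (hG : G.IsHomogeneous n) : eval ![0, 0, 1] G = G.coeff (Finsupp.single 2 n) := by
  rw [eval_eq']
  rw [Finset.sum_eq_single (Finsupp.single 2 n)]
  · simp [Finsupp.single_apply]
  · intro d hd hne
    have h1 := hG (MvPolynomial.mem_support_iff.1 hd)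
    rw [Finsupp.weight_apply, Finsupp.sum_fintype _ _ (by simp), Fin.sum_univ_three] at h1
    have h2 : d 0 + d 1 + d 2 = n := by simpa using h1
    rw [Fin.prod_univ_three]
    by_cases h0 : d 0 = 0
    · by_cases h1 : d 1 = 0
      · exfalso
        apply hne
        ext i
        fin_cases i
        · simpa using h0
        · simpa using h1
        · have : d 2 = n := by omega
          simpa using this
      · simp [h1]
    · simp [h0]
  · intro h
    rw [MvPolynomial.notMem_support_iff] at h
    rw [h, zero_mul]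

lemma exists_point {k : Type*} [Field k] [Infinite k] {F : MvPolynomial (Fin 3) k} (hF : F ≠ 0)
    {δ : ℕ} (hom : F.IsHomogeneous δ) : ∃ a b : k, eval ![a, b, 1] F ≠ 0 := by
  have h1 : ∃ p : Fin 3 → k, eval p (F * X 2) ≠ 0 := by
    by_contra h
    push Not at h
    have : F * X 2 = 0 := MvPolynomial.funext fun p => by rw [h p, map_zero]
    rcases mul_eq_zero.1 this with h | h
    · exact hF h
    · exact X_ne_zero _ h
  obtain ⟨p, hp⟩ := h1
  rw [map_mul, eval_X] at hp
  have hp2 : p 2 ≠ 0 := right_ne_zero_of_mul hp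
  have hpF : eval p F ≠ 0 := left_ne_zero_of_mul hp
  refine ⟨p 0 / p 2, p 1 / p 2, fun h => hpF ?_⟩
  have h2 := aeval_smul_of_hom (A := k) hom (p 2) ![p 0 / p 2, p 1 / p 2, 1]
  have h3 : (fun i => p 2 * (![p 0 / p 2, p 1 / p 2, 1] : Fin 3 → k) i) = p := by
    funext i
    fin_cases i
    · change p 2 * (p 0 / p 2) = p 0
      field_simp
    · change p 2 * (p 1 / p 2) = p 1
      field_simp
    · change p 2 * 1 = p 2
      rw [mul_one]
  rw [h3] at h2
  change eval p F = _ * eval _ F at h2
  rw [h2, h, mul_zero]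

/-- the change of coordinates -/
noncomputable def shear {k : Type*} [Field k] (a b : k) :
    MvPolynomial (Fin 3) k →ₐ[k] MvPolynomial (Fin 3) k :=
  aeval ![X 0 + C a * X 2, X 1 + C b * X 2, X 2]

lemma shear_shear {k : Type*} [Field k] (a b : k) (G : MvPolynomial (Fin 3) k) :
    shear a b (shear (-a) (-b) G) = G := by
  have : (shear a b).comp (shear (-a) (-b)) = AlgHom.id k _ := by
    apply MvPolynomial.algHom_ext
    intro i
    fin_cases i
    · simp [shear, algebraMap_eq]
    · simp [shear, algebraMap_eq]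
    · simp [shear]
  exact congrArg (fun f => f G) this

lemma shear_shear' {k : Type*} [Field k] (a b : k) (G : MvPolynomial (Fin 3) k) :
    shear (-a) (-b) (shear a b G) = G := by
  have := shear_shear (-a) (-b) G
  rwa [neg_neg, neg_neg] at this

lemma shear_hom {k : Type*} [Field k] (a b : k) {G : MvPolynomial (Fin 3) k} {n : ℕ}
    (hG : G.IsHomogeneous n) : (shear a b G).IsHomogeneous n := by
  have h1 := hG.aeval (![X 0 + C a * X 2, X 1 + C b * X 2, X 2] :
    Fin 3 → MvPolynomial (Fin 3) k) (n := 1) (by
      intro i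
      fin_cases i
      · have h := (isHomogeneous_X k (0 : Fin 3)).add
          ((isHomogeneous_C (Fin 3) a).mul (isHomogeneous_X k (2 : Fin 3)))
        exact h
      · have h := (isHomogeneous_X k (1 : Fin 3)).add
          ((isHomogeneous_C (Fin 3) b).mul (isHomogeneous_X k (2 : Fin 3)))
        exact h
      · exact isHomogeneous_X k _)
  rwa [one_mul] at h1

lemma eval_shear {k : Type*} [Field k] (a b : k) (G : MvPolynomial (Fin 3) k) :
    eval ![0, 0, 1] (shear a b G) = eval ![a, b, 1] G := by
  induction G using MvPolynomial.induction_on with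
  | C c => simp [shear, algebraMap_eq]
  | add p q hp hq => rw [map_add, map_add, map_add, hp, hq]
  | mul_X p i hp =>
    rw [map_mul, map_mul, map_mul, hp]
    congr 1
    fin_cases i <;> simp [shear]

namespace SmoothPlaneCurve

variable {δ : ℕ} (C : SmoothPlaneCurve δ)

include C in
lemma pos : 1 ≤ δ := by
  by_contra h
  obtain rfl : δ = 0 := by omega
  have h1 := C.isHomogeneous
  have h2 : C.F = MvPolynomial.C (C.F.coeff 0) := by
    have := homogeneousComponent_eq_self h1
    rw [homogeneousComponent_zero] at this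
    exact this.symm
  apply C.irreducible.not_isUnit
  rw [h2]
  apply IsUnit.map
  rw [isUnit_iff_ne_zero]
  intro h3
  rw [h3, map_zero] at h2
  exact C.irreducible.ne_zero h2

instance : IsDomain C.R := by
  rw [Ideal.Quotient.isDomain_iff_prime, Ideal.span_singleton_prime C.irreducible.ne_zero]
  exact C.irreducible.prime

lemma aeval_x (G : MvPolynomial (Fin 3) ℂ) : aeval C.x G = Ideal.Quotient.mk _ G := by
  have : (aeval C.x : MvPolynomial (Fin 3) ℂ →ₐ[ℂ] C.R) =
      Ideal.Quotient.mkₐ ℂ (Ideal.span {C.F}) := by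
    apply MvPolynomial.algHom_ext
    intro i
    rw [aeval_X]
    rfl
  rw [this]
  rfl

/-- the new coordinates -/
noncomputable def newX (a b : ℂ) : Fin 3 → C.R :=
  ![C.x 0 - algebraMap ℂ C.R a * C.x 2, C.x 1 - algebraMap ℂ C.R b * C.x 2, C.x 2]

lemma aeval_newX (a b : ℂ) (G : MvPolynomial (Fin 3) ℂ) :
    aeval (C.newX a b) G = aeval C.x (shear (-a) (-b) G) := by
  have : (aeval (C.newX a b) : MvPolynomial (Fin 3) ℂ →ₐ[ℂ] C.R) =
      (aeval C.x).comp (shear (-a) (-b)) := by
    apply MvPolynomial.algHom_ext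
    intro i
    fin_cases i
    · simp [shear, newX, sub_eq_add_neg]
    · simp [shear, newX, sub_eq_add_neg]
    · simp [shear, newX]
  rw [this]
  rfl

lemma exists_ringHyp : ∃ (a b : ℂ) (F : MvPolynomial (Fin 3) ℂ),
    RingHyp ℂ (C.newX a b) F δ := by
  obtain ⟨a, b, hab⟩ := exists_point C.irreducible.ne_zero C.isHomogeneous
  refine ⟨a, b, shear a b C.F, shear_hom a b C.isHomogeneous, ?_, C.pos, ?_, ?_⟩
  · rw [← eval_single_two (shear_hom a b C.isHomogeneous), eval_shear]
    exact hab
  · intro r
    obtain ⟨G, rfl⟩ := Ideal.Quotient.mk_surjective r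
    refine ⟨shear a b G, ?_⟩
    rw [aeval_newX, shear_shear', aeval_x]
  · intro G
    rw [aeval_newX, aeval_x, Ideal.Quotient.eq_zero_iff_mem, Ideal.mem_span_singleton]
    constructor
    · intro h
      have := map_dvd (shear a b) h
      rwa [shear_shear] at this
    · intro h
      have := map_dvd (shear (-a) (-b)) h
      rwa [shear_shear'] at this

end SmoothPlaneCurve

end Pool.Agent.Lib.H94
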