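import Pool.Agent.Lib.H94.DiaStep

/-!
# Diamond gives a free Suslin tree (combinatorial core)
-/

set_option autoImplicit false

open Set Function Pool.Agent.Lib.H45Osc

universe u

namespace Pool.Agent.H94.Dia

variable {W : Type u} [LinearOrder W] [WellFoundedLT W]

omit [WellFoundedLT W] in
/-- finite sequences of nodes can be coded by elements of `W` -/
lemma exists_code (hW : IsOmega1 W) :
    ∃ c : (Σ k : ℕ, Fin k → Nd W) → W, Injective c := by
  haveI : Infinite W := by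
    by_contra h
    rw [not_infinite_iff_finite] at h
    exact hW.not_countable (Set.to_countable _)
  let f : Nd W ≃ W × ℕ := ⟨fun x => (x.lv, x.ix), fun p => ⟨p.1, p.2⟩, fun _ => rfl, fun _ => rfl⟩
  haveI : Infinite (Nd W) := Infinite.of_injective (fun w : W => (⟨w, 0⟩ : Nd W))
    (fun a b h => by cases h; rfl)
  have h1 : Cardinal.mk (Σ k : ℕ, Fin k → Nd W) = Cardinal.mk W := by
    rw [← Cardinal.mk_congr List.equivSigmaTuple, Cardinal.mk_list_eq_mk, Cardinal.mk_congr f]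
    simp only [Cardinal.mk_prod, Cardinal.lift_uzero, Cardinal.mk_nat, Cardinal.lift_aleph0]
    exact Cardinal.mul_aleph0_eq (Cardinal.aleph0_le_mk W)
  obtain ⟨e⟩ := Cardinal.eq.1 h1
  exact ⟨e, e.injective⟩

/-- the freeness property -/
theorem free_of_guess (hW : IsOmega1 W) (A : W → Set W)
    (hA : ∀ S : Set W, IsStationary {α | S ∩ Iio α = A α})
    (c : (Σ k : ℕ, Fin k → Nd W) → W) (hc : Injective c) (B : W → ℕ → W → ℕ)
    (hB : ∀ α, Good (fun α k => {x | c ⟨k, x⟩ ∈ A α}) α B)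
    (k : ℕ) (t : Fin k → Nd W) (ht : Injective t) (hlv : ∀ i j, (t i).lv = (t j).lv)
    (A0 : Set (Fin k → Nd W)) (hA0 : ∀ x ∈ A0, ∀ i, Le B (t i) (x i))
    (hpair : A0.Pairwise (fun x y => ¬ ∃ z : Fin k → Nd W, ∀ i, Le B (x i) (z i) ∧ Le B (y i) (z i))) :
    A0.Countable := by
  classical
  rcases Nat.eq_zero_or_pos k with rfl | hk
  · exact Set.to_countable _
  let i0 : Fin k := ⟨0, hk⟩
  set γ : W := (t i0).lv with hγ
  have htγ : ∀ i, t i = ⟨γ, (t i).ix⟩ := fun i => by rw [hγ, ← hlv i i0]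
  -- order facts
  have hrefl : ∀ x : Nd W, Le B x x := fun x => ⟨le_rfl, (hB _).self _⟩
  have hcoh : ∀ (z : Nd W) (y : Nd W), Le B y z → ∀ γ ≤ y.lv, B z.lv z.ix γ = B y.lv y.ix γ := by
    intro z y hyz γ hγ
    have h1 := (hB z.lv).coh z.ix γ y.lv hγ hyz.1
    rw [hyz.2] at h1
    exact h1.symm
  have htrans : ∀ x y z : Nd W, Le B x y → Le B y z → Le B x z := fun x y z hxy hyz =>
    ⟨hxy.1.trans hyz.1, by rw [hcoh z y hyz _ hxy.1]; exact hxy.2⟩
  -- a maximal antichain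
  let S : Set (Set (Fin k → Nd W)) := {P | (∀ x ∈ P, ∀ i, Le B (t i) (x i)) ∧
    P.Pairwise (fun x y => ¬ ∃ z : Fin k → Nd W, ∀ i, Le B (x i) (z i) ∧ Le B (y i) (z i))}
  obtain ⟨P, hAP, hP⟩ := zorn_subset_nonempty S (by
    intro C hC hchain _
    refine ⟨⋃₀ C, ⟨?_, ?_⟩, fun s hs => subset_sUnion_of_mem hs⟩
    · rintro a ⟨s, hs, ha⟩
      exact (hC hs).1 a ha
    · rintro a ⟨s, hs, ha⟩ b ⟨s', hs', hb⟩ hab
      rcases hchain.total hs hs' with h | h
      · exact (hC hs').2 (h ha) hb hab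
      · exact (hC hs).2 ha (h hb) hab) A0 ⟨hA0, hpair⟩
  refine Set.Countable.mono hAP ?_
  have hmeet : ∀ y : Fin k → Nd W, (∀ i, Le B (t i) (y i)) → ∃ x ∈ P, ∃ z : Fin k → Nd W,
      ∀ i, Le B (x i) (z i) ∧ Le B (y i) (z i) := by
    intro y hy
    by_contra hcon
    push Not at hcon
    have hyP : y ∉ P := by
      intro hyP
      obtain ⟨i, hi⟩ := hcon y hyP y
      exact hi (hrefl _) (hrefl _)
    have hins : insert y P ∈ S := by
      refine ⟨?_, ?_⟩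
      · rintro x (rfl | hx)
        · exact hy
        · exact hP.1.1 x hx
      · refine hP.1.2.insert ?_
        intro x hx _
        refine ⟨?_, ?_⟩
        · rintro ⟨w, hw⟩
          obtain ⟨i, hi⟩ := hcon x hx w
          exact hi (hw i).2 (hw i).1
        · rintro ⟨w, hw⟩
          obtain ⟨i, hi⟩ := hcon x hx w
          exact hi (hw i).1 (hw i).2
    exact hyP (hP.2 hins (subset_insert _ _) (mem_insert _ _))
  choose! X hX1 Z hX2 using hmeet
  -- closure points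
  have hlow : ∀ v : W, {y : Fin k → Nd W | ∀ i, (y i).lv ≤ v}.Countable := by
    intro v
    have h1 : {x : Nd W | x.lv ≤ v}.Countable := by
      have h2 : {x : Nd W | x.lv ≤ v} = ⋃ n : ℕ, (fun w : W => (⟨w, n⟩ : Nd W)) '' Iic v := by
        ext ⟨w, n⟩
        simp
      rw [h2]
      exact countable_iUnion fun n => (hW.countable_Iic v).image _
    exact Set.countable_pi fun _ => h1
  have hF : ∀ v : W, ∃ b, v < b ∧ ∀ y : Fin k → Nd W, (∀ i, (y i).lv ≤ v) →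
      c ⟨k, X y⟩ < b ∧ c ⟨k, y⟩ < b ∧ ∀ i, (X y i).lv < b ∧ (Z y i).lv < b := by
    intro v
    let Q : Set W := {v} ∪ ((fun y => c ⟨k, X y⟩) '' {y | ∀ i, (y i).lv ≤ v} ∪
      (fun y => c ⟨k, y⟩) '' {y | ∀ i, (y i).lv ≤ v} ∪
      ((⋃ i : Fin k, (fun y => (X y i).lv) '' {y | ∀ i, (y i).lv ≤ v}) ∪
      (⋃ i : Fin k, (fun y => (Z y i).lv) '' {y | ∀ i, (y i).lv ≤ v})))
    have hQ : Q.Countable := by
      refine (countable_singleton v).union ((((hlow v).image _).union ((hlow v).image _)).union ?_)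
      exact (countable_iUnion fun i => (hlow v).image _).union
        (countable_iUnion fun i => (hlow v).image _)
    obtain ⟨b, hb⟩ := hW.exists_gt hQ
    refine ⟨b, hb v (Or.inl rfl), fun y hy => ⟨?_, ?_, fun i => ⟨?_, ?_⟩⟩⟩
    · exact hb _ (Or.inr (Or.inl (Or.inl ⟨y, hy, rfl⟩)))
    · exact hb _ (Or.inr (Or.inl (Or.inr ⟨y, hy, rfl⟩)))
    · exact hb _ (Or.inr (Or.inr (Or.inl (mem_iUnion.2 ⟨i, y, hy, rfl⟩))))
    · exact hb _ (Or.inr (Or.inr (Or.inr (mem_iUnion.2 ⟨i, y, hy, rfl⟩))))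
  choose F hF1 hF2 using hF
  have hclub : IsClub ({i | ∀ v < i, F v < i} ∩ Ioi γ) :=
    (hW.isClub_closed F).inter hW.cof_ne (hW.isClub_Ioi γ)
  obtain ⟨α, hα1, hα2, hα3⟩ := hA ((fun x => c ⟨k, x⟩) '' P) hclub
  have hα1' : ∀ w, w ∈ A α ↔ (∃ x ∈ P, c ⟨k, x⟩ = w) ∧ w < α := by
    intro w
    rw [← (hα1 : _ = A α)]
    rfl
  have hα3' : γ < α := hα3
  have hmax : ∀ y : Fin k → Nd W, (∀ i, (y i).lv < α) → ∃ v < α, ∀ i, (y i).lv ≤ v := by
    intro y hy
    haveI : Nonempty (Fin k) := ⟨i0⟩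
    obtain ⟨i, hi⟩ := Finite.exists_max (fun i => (y i).lv)
    exact ⟨_, hy i, hi⟩
  have hclo : ∀ y : Fin k → Nd W, (∀ i, (y i).lv < α) →
      c ⟨k, X y⟩ < α ∧ c ⟨k, y⟩ < α ∧ ∀ i, (X y i).lv < α ∧ (Z y i).lv < α := by
    intro y hy
    obtain ⟨v, hv, hyv⟩ := hmax y hy
    obtain ⟨h1, h2, h3⟩ := hF2 v y hyv
    have h4 := hα2 v hv
    exact ⟨h1.trans h4, h2.trans h4, fun i => ⟨(h3 i).1.trans h4, (h3 i).2.trans h4⟩⟩
  have hmem : ∀ x : Fin k → Nd W, (∀ i, (x i).lv < α) → (c ⟨k, x⟩ ∈ A α ↔ x ∈ P) := by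
    intro x hx
    rw [hα1']
    constructor
    · rintro ⟨⟨x', hx', h⟩, _⟩
      have h5 := hc h
      have h6 : x' = x := by simpa using h5
      rwa [← h6]
    · exact fun h => ⟨⟨x, h, rfl⟩, (hclo x hx).2.1⟩
  -- all of `P` lies below `α`
  have hbelow : ∀ y ∈ P, ∀ i, (y i).lv < α := by
    intro y hy
    have hext : ∀ i, ∃ z : Nd W, Le B (y i) z ∧ α ≤ z.lv := by
      intro i
      rcases lt_or_ge (y i).lv α with h | h
      · obtain ⟨n, _, _, h1, _⟩ := (hB α).split _ h (y i).ix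
        exact ⟨⟨α, n⟩, ⟨h.le, h1⟩, le_rfl⟩
      · exact ⟨y i, hrefl _, h⟩
    choose z hz1 hz2 using hext
    let N : Fin k → ℕ := fun i => B (z i).lv (z i).ix α
    have hNz : ∀ i, Le B ⟨α, N i⟩ (z i) := fun i => ⟨hz2 i, rfl⟩
    have hNγ : ∀ i, B α (N i) γ = (t i).ix := by
      intro i
      have h1 := hcoh (z i) ⟨α, N i⟩ (hNz i) γ hα3'.le
      have h2 : Le B (t i) (z i) := htrans _ _ _ (hP.1.1 y hy i) (hz1 i)
      have h3 := h2.2
      rw [htγ i] at h3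
      simp only at h1 h3
      rw [← h1]
      exact h3
    have hN : Injective N := by
      intro i j hij
      apply ht
      rw [htγ i, htγ j, ← hNγ i, ← hNγ j, hij]
    obtain ⟨x, hx, hx1, hx2⟩ := (hB α).gen k N hN γ hα3' (by
      intro w hw
      have hwt : ∀ i, Le B (t i) (w i) := by
        intro i
        have h1 : Le B ⟨γ, B α (N i) γ⟩ (w i) := (hw i).2
        rw [hNγ i] at h1
        rw [htγ i]
        exact h1
      have hcl := hclo w (fun i => (hw i).1)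
      refine ⟨X w, ?_, fun i => (hcl.2.2 i).1, Z w, fun i => ⟨(hcl.2.2 i).2, hX2 w hwt i⟩⟩
      exact (hmem (X w) (fun i => (hcl.2.2 i).1)).2 (hX1 w hwt))
    have hxP : x ∈ P := (hmem x hx1).1 hx
    have hxy : x = y := by
      by_contra hne
      refine hP.1.2 hxP hy hne ⟨z, fun i => ⟨⟨(hx1 i).le.trans (hz2 i), ?_⟩, hz1 i⟩⟩
      rw [hcoh (z i) ⟨α, N i⟩ (hNz i) _ (hx1 i).le]
      exact hx2 i
    rw [← hxy]
    exact hx1
  refine Set.Countable.mono ?_ (hlow α)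
  intro y hy i
  exact (hbelow y hy i).le

end Pool.Agent.H94.Dia
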