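import Pool.Agent.Lib.H94.DiaTree

/-!
# The recursion step: a generic level above a countable tree
-/

set_option autoImplicit false

open Set Function

universe u

namespace Pool.Agent.H94.Dia

variable {W : Type u} [LinearOrder W] [WellFoundedLT W]

section step

variable {G : W → (k : ℕ) → Set (Fin k → Nd W)} {B : W → ℕ → W → ℕ} {α : W}
  (hB : ∀ β < α, Good G β B)

include hB

omit [WellFoundedLT W]

lemma le_refl' {x : Nd W} (hx : x.lv < α) : Le B x x := ⟨le_rfl, (hB _ hx).self _⟩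

lemma le_trans' {x y z : Nd W} (hz : z.lv < α) (hxy : Le B x y) (hyz : Le B y z) : Le B x z := by
  refine ⟨hxy.1.trans hyz.1, ?_⟩
  have h1 := (hB _ hz).coh z.ix x.lv y.lv hxy.1 hyz.1
  rw [hyz.2, hxy.2] at h1
  exact h1.symm

/-- the predecessor at a lower level is the same for all nodes above -/
lemma pred_eq {y z : Nd W} (hz : z.lv < α) (hyz : Le B y z) {γ : W} (hγ : γ ≤ y.lv) :
    B z.lv z.ix γ = B y.lv y.ix γ := by
  have h1 := (hB _ hz).coh z.ix γ y.lv hγ hyz.1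
  rw [hyz.2] at h1
  exact h1.symm

/-- extension to a prescribed height -/
lemma exists_ext' {β : W} (hβ : β < α) (x : Nd W) (hx : x.lv < α) :
    ∃ y : Nd W, y.lv < α ∧ β ≤ y.lv ∧ Le B x y := by
  rcases le_or_gt β x.lv with h | h
  · exact ⟨x, hx, h, le_refl' hB hx⟩
  · obtain ⟨n, _, _, h1, _⟩ := (hB β hβ).split x.lv h x.ix
    exact ⟨⟨β, n⟩, hβ, le_rfl, h.le, h1⟩

end step

/-- the requirements to be met by a generic sequence -/
def Sat (G : W → (k : ℕ) → Set (Fin k → Nd W)) (B : W → ℕ → W → ℕ) (α : W) :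
    (Iio α ⊕ (Σ k : ℕ, (Fin k → ℕ) × Iio α)) → (ℕ → Nd W) → Prop
  | Sum.inl β, p => ∀ n, (β : W) ≤ (p n).lv
  | Sum.inr ⟨k, n, γ⟩, p => Injective n → (∀ i, (γ : W) ≤ (p (n i)).lv) ∧
      (Predense B α k γ (fun i => B (p (n i)).lv (p (n i)).ix γ) (G α k) →
        ∃ x ∈ G α k, (∀ i, (x i).lv < α) ∧ ∀ i, Le B (x i) (p (n i)))

section step

variable {G : W → (k : ℕ) → Set (Fin k → Nd W)} {B : W → ℕ → W → ℕ} {α : W}
  (hB : ∀ β < α, Good G β B)

include hB

omit [WellFoundedLT W]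

lemma Sat.mono (r : Iio α ⊕ (Σ k : ℕ, (Fin k → ℕ) × Iio α)) {p q : ℕ → Nd W}
    (hq : ∀ n, (q n).lv < α) (hpq : ∀ n, Le B (p n) (q n)) (h : Sat G B α r p) :
    Sat G B α r q := by
  rcases r with β | ⟨k, n, γ⟩
  · exact fun n => (h n).trans (hpq n).1
  · intro hn
    obtain ⟨h1, h2⟩ := h hn
    refine ⟨fun i => (h1 i).trans (hpq _).1, ?_⟩
    intro hP
    have h3 : (fun i => B (q (n i)).lv (q (n i)).ix γ) =
        fun i => B (p (n i)).lv (p (n i)).ix γ := by
      funext i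
      exact pred_eq hB (hq _) (hpq _) (h1 i)
    rw [h3] at hP
    obtain ⟨x, hx, hx', hx''⟩ := h2 hP
    exact ⟨x, hx, hx', fun i => le_trans' hB (hq _) (hx'' i) (hpq _)⟩

lemma Sat.dense (r : Iio α ⊕ (Σ k : ℕ, (Fin k → ℕ) × Iio α)) {p : ℕ → Nd W}
    (hp : ∀ n, (p n).lv < α) :
    ∃ q : ℕ → Nd W, (∀ n, (q n).lv < α) ∧ (∀ n, Le B (p n) (q n)) ∧ Sat G B α r q := by
  classical
  rcases r with β | ⟨k, n, γ⟩
  · choose q hq1 hq2 hq3 using fun n => exists_ext' hB β.2 (p n) (hp n)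
    exact ⟨q, hq1, hq3, hq2⟩
  · by_cases hn : Injective n
    swap
    · exact ⟨p, hp, fun n => le_refl' hB (hp n), fun h => absurd h hn⟩
    choose q hq1 hq2 hq3 using fun n => exists_ext' hB γ.2 (p n) (hp n)
    by_cases hP : Predense B α k γ (fun i => B (q (n i)).lv (q (n i)).ix γ) (G α k)
    swap
    · exact ⟨q, hq1, hq3, fun _ => ⟨fun i => hq2 _, fun h => absurd h hP⟩⟩
    obtain ⟨x, hx, hx', z, hz⟩ := hP (fun i => q (n i)) (fun i => ⟨hq1 _, hq2 _, rfl⟩)
    have h1 : ∀ i, Function.extend n z q (n i) = z i := fun i => hn.extend_apply z q i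
    have h2 : ∀ m, (∀ i, n i ≠ m) → Function.extend n z q m = q m := fun m hm =>
      Function.extend_apply' z q m (by rintro ⟨i, hi⟩; exact hm i hi)
    have h3 : ∀ m, (Function.extend n z q m).lv < α ∧ Le B (q m) (Function.extend n z q m) := by
      intro m
      by_cases hm : ∃ i, n i = m
      · obtain ⟨i, rfl⟩ := hm
        rw [h1]
        exact ⟨(hz i).1, (hz i).2.2⟩
      · rw [h2 m (fun i hi => hm ⟨i, hi⟩)]
        exact ⟨hq1 m, le_refl' hB (hq1 m)⟩
    refine ⟨Function.extend n z q, fun m => (h3 m).1, fun m => ?_, fun _ => ⟨fun i => ?_,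
      fun _ => ⟨x, hx, hx', fun i => ?_⟩⟩⟩
    · exact le_trans' hB (h3 m).1 (hq3 m) (h3 m).2
    · exact (hq2 _).trans (h3 _).2.1
    · rw [h1]
      exact (hz i).2.1

end step

/-- one more level can be added -/
theorem exists_level (G : W → (k : ℕ) → Set (Fin k → Nd W)) (B : W → ℕ → W → ℕ) (α : W)
    (hc : (Iio α).Countable) (hB : ∀ β < α, Good G β B) :
    ∃ b : ℕ → W → ℕ, Good G α (Function.update B α b) := by
  classical
  have hlow : ∀ (b : ℕ → W → ℕ) (β : W), β < α → Function.update B α b β = B β := fun b β hβ =>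
    Function.update_of_ne hβ.ne _ _
  by_cases hbot : (Iio α).Nonempty
  swap
  · have hmin : ∀ β, ¬ β < α := fun β hβ => hbot ⟨β, hβ⟩
    refine ⟨fun n _ => n, ?_, ?_, ?_, ?_⟩
    · intro n
      rw [Function.update_self]
    · intro n γ β h1 h2
      obtain rfl : β = α := h2.eq_of_not_lt (hmin β)
      rw [Function.update_self]
    · exact fun β hβ => absurd hβ (hmin β)
    · exact fun _ _ _ γ hγ => absurd hγ (hmin γ)
  -- enumerations
  haveI : Countable (Iio α) := hc.to_subtype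
  haveI : Nonempty (Iio α) := hbot.to_subtype
  let E := Iio α × ℕ
  obtain ⟨e, he⟩ := exists_surjective_nat E
  let Req := Iio α ⊕ (Σ k : ℕ, (Fin k → ℕ) × Iio α)
  haveI : Nonempty Req := ⟨Sum.inl (Classical.arbitrary _)⟩
  obtain ⟨e', he'⟩ := exists_surjective_nat Req
  -- the generic sequence
  let P := {p : ℕ → Nd W // ∀ n, (p n).lv < α}
  have hstep : ∀ (r : Req) (p : P), ∃ q : P, (∀ n, Le B (p.1 n) (q.1 n)) ∧ Sat G B α r q.1 := by
    rintro r ⟨p, hp⟩
    obtain ⟨q, h1, h2, h3⟩ := Sat.dense hB r hp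
    exact ⟨⟨q, h1⟩, h2, h3⟩
  choose next hn1 hn2 using hstep
  let p0 : P := ⟨fun n => ⟨(e n.unpair.1).1, (e n.unpair.1).2⟩, fun n => (e n.unpair.1).1.2⟩
  let seq : ℕ → P := fun j => Nat.rec p0 (fun j p => next (e' j) p) j
  have hseq0 : seq 0 = p0 := rfl
  have hseq : ∀ j, seq (j + 1) = next (e' j) (seq j) := fun j => rfl
  have hlv : ∀ j n, ((seq j).1 n).lv < α := fun j n => (seq j).2 n
  have hmono : ∀ i j, i ≤ j → ∀ n, Le B ((seq i).1 n) ((seq j).1 n) := by
    intro i j hij n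
    induction j, hij using Nat.le_induction with
    | base => exact le_refl' hB (hlv _ _)
    | succ j _ ih =>
      refine le_trans' hB (hlv (j + 1) n) ih ?_
      rw [hseq]
      exact hn1 _ _ n
  have hsat : ∀ r : Req, ∃ j0, ∀ j, j0 ≤ j → Sat G B α r (seq j).1 := by
    intro r
    obtain ⟨j, rfl⟩ := he' r
    refine ⟨j + 1, fun i hi => ?_⟩
    refine Sat.mono hB _ (hlv i) (hmono _ _ hi) ?_
    rw [hseq]
    exact hn2 _ _
  -- the branches
  have hJ : ∀ β, β < α → ∃ j, ∀ i, j ≤ i → ∀ n, β ≤ ((seq i).1 n).lv := fun β hβ => by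
    obtain ⟨j, hj⟩ := hsat (Sum.inl ⟨β, hβ⟩)
    exact ⟨j, fun i hi => hj i hi⟩
  choose! J hJ using hJ
  let b : ℕ → W → ℕ := fun n β =>
    if β < α then B ((seq (J β)).1 n).lv ((seq (J β)).1 n).ix β else n
  have hbα : ∀ n, b n α = n := fun n => by simp only [b, lt_irrefl, if_false]
  have hb : ∀ j n β, β < α → β ≤ ((seq j).1 n).lv →
      b n β = B ((seq j).1 n).lv ((seq j).1 n).ix β := by
    intro j n β hβ hj
    simp only [b, if_pos hβ]
    rcases le_total (J β) j with h | h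
    · exact (pred_eq hB (hlv _ _) (hmono _ _ h n) (hJ β hβ _ le_rfl n)).symm
    · exact pred_eq hB (hlv _ _) (hmono _ _ h n) hj
  refine ⟨b, ?_, ?_, ?_, ?_⟩
  · intro n
    rw [Function.update_self]
    exact hbα n
  · intro n γ β h1 h2
    rw [Function.update_self]
    rcases h2.lt_or_eq with h3 | rfl
    · rw [hlow b β h3]
      have h4 := hJ β h3 (J β) le_rfl n
      rw [hb (J β) n β h3 h4, hb (J β) n γ (h1.trans_lt h3) (h1.trans h4)]
      exact (hB _ (hlv _ _)).coh _ _ _ h1 h4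
    · rw [Function.update_self, hbα]
  · intro β hβ m
    rw [Function.update_self]
    obtain ⟨i, hi⟩ := he (⟨β, hβ⟩, m)
    have h1 : ∀ l : ℕ, b (Nat.pair i l) β = m := by
      intro l
      have h2 : (seq 0).1 (Nat.pair i l) = ⟨β, m⟩ := by
        rw [hseq0]
        simp only [p0, Nat.unpair_pair]
        rw [hi]
      rw [hb 0 _ β hβ (by rw [h2]), h2]
      exact (hB β hβ).self m
    refine ⟨Nat.pair i 0, Nat.pair i 1, ?_, h1 0, h1 1⟩
    intro h
    have := (Nat.pair_eq_pair.1 h).2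
    omega
  · intro k n hn γ hγ hP
    rw [Function.update_self] at hP ⊢
    obtain ⟨j, hj⟩ := hsat (Sum.inr ⟨k, n, ⟨γ, hγ⟩⟩)
    obtain ⟨h1, h2⟩ := hj j le_rfl hn
    have hP' : Predense B α k γ (fun i => B ((seq j).1 (n i)).lv ((seq j).1 (n i)).ix γ)
        (G α k) := by
      have h3 : (fun i => B ((seq j).1 (n i)).lv ((seq j).1 (n i)).ix γ) =
          fun i => b (n i) γ := by
        funext i
        exact (hb j (n i) γ hγ (h1 i)).symm
      rw [h3]
      exact hP.congr (fun β hβ => hlow b β hβ)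
    obtain ⟨x, hx, hx', hx''⟩ := h2 hP'
    refine ⟨x, hx, hx', fun i => ?_⟩
    rw [hb j (n i) (x i).lv (hx' i) (hx'' i).1]
    exact (hx'' i).2

/-- the tree exists -/
theorem exists_tree (hc : ∀ α : W, (Iio α).Countable)
    (G : W → (k : ℕ) → Set (Fin k → Nd W)) : ∃ B : W → ℕ → W → ℕ, ∀ α, Good G α B :=
  exists_rec (fun α B => Good G α B) (fun _ _ _ h hG => hG.congr h)
    (fun α B hB => exists_level G B α (hc α) hB)

end Pool.Agent.H94.Dia
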