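import Mathlib
import Pool.Agent.Lib.H45Osc.Stat

/-!
# Jensen's construction of a tree with generic levels

`W` is a well-order of type `ω₁`. The nodes of level `α` are the pairs `(α, n)` with `n : ℕ`;
`B α n β` is the index of the predecessor at level `β ≤ α` of the node `(α, n)`.
-/

set_option autoImplicit false

open Set Function

universe u

namespace Pool.Agent.H94.Dia

/-- nodes -/
structure Nd (W : Type u) where
  lv : W
  ix : ℕ

variable {W : Type u} [LinearOrder W] [WellFoundedLT W]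

/-- the tree order coded by `B` -/
def Le (B : W → ℕ → W → ℕ) (x y : Nd W) : Prop := x.lv ≤ y.lv ∧ B y.lv y.ix x.lv = x.ix

/-- `G` is predense below level `α` above the tuple of nodes `(γ, t i)` -/
def Predense (B : W → ℕ → W → ℕ) (α : W) (k : ℕ) (γ : W) (t : Fin k → ℕ)
    (G : Set (Fin k → Nd W)) : Prop :=
  ∀ y : Fin k → Nd W, (∀ i, (y i).lv < α ∧ Le B ⟨γ, t i⟩ (y i)) →
    ∃ x ∈ G, (∀ i, (x i).lv < α) ∧ ∃ z : Fin k → Nd W,
      ∀ i, (z i).lv < α ∧ Le B (x i) (z i) ∧ Le B (y i) (z i)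

/-- the requirements on level `α` -/
structure Good (G : W → (k : ℕ) → Set (Fin k → Nd W)) (α : W) (B : W → ℕ → W → ℕ) : Prop where
  self : ∀ n, B α n α = n
  coh : ∀ n γ β, γ ≤ β → β ≤ α → B β (B α n β) γ = B α n γ
  split : ∀ β < α, ∀ m, ∃ n n', n ≠ n' ∧ B α n β = m ∧ B α n' β = m
  gen : ∀ (k : ℕ) (n : Fin k → ℕ), Injective n → ∀ γ < α,
    Predense B α k γ (fun i => B α (n i) γ) (G α k) →
      ∃ x ∈ G α k, (∀ i, (x i).lv < α) ∧ ∀ i, B α (n i) (x i).lv = (x i).ix

omit [WellFoundedLT W] in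
lemma Le.congr {B B' : W → ℕ → W → ℕ} {α : W} (h : ∀ β ≤ α, B β = B' β) {x y : Nd W}
    (hy : y.lv ≤ α) (hxy : Le B x y) : Le B' x y :=
  ⟨hxy.1, by rw [← h _ hy]; exact hxy.2⟩

omit [WellFoundedLT W] in
lemma Predense.congr {B B' : W → ℕ → W → ℕ} {α : W} (h : ∀ β < α, B β = B' β) {k : ℕ} {γ : W}
    {t : Fin k → ℕ} {G : Set (Fin k → Nd W)} (hP : Predense B α k γ t G) :
    Predense B' α k γ t G := by
  have hLe : ∀ x y : Nd W, y.lv < α → Le B x y → Le B' x y := fun x y hy hxy =>
    ⟨hxy.1, by rw [← h _ hy]; exact hxy.2⟩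
  have hLe' : ∀ x y : Nd W, y.lv < α → Le B' x y → Le B x y := fun x y hy hxy =>
    ⟨hxy.1, by rw [h _ hy]; exact hxy.2⟩
  intro y hy
  obtain ⟨x, hx, hx', z, hz⟩ := hP y (fun i => ⟨(hy i).1, hLe' _ _ (hy i).1 (hy i).2⟩)
  exact ⟨x, hx, hx', z, fun i => ⟨(hz i).1, hLe _ _ (hz i).1 (hz i).2.1,
    hLe _ _ (hz i).1 (hz i).2.2⟩⟩

omit [WellFoundedLT W] in
lemma Good.congr {G : W → (k : ℕ) → Set (Fin k → Nd W)} {B B' : W → ℕ → W → ℕ} {α : W}
    (h : ∀ β ≤ α, B β = B' β) (hG : Good G α B) : Good G α B' where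
  self n := by rw [← h α le_rfl]; exact hG.self n
  coh n γ β h1 h2 := by rw [← h α le_rfl, ← h β h2]; exact hG.coh n γ β h1 h2
  split β hβ m := by rw [← h α le_rfl]; exact hG.split β hβ m
  gen k n hn γ hγ hP := by
    rw [← h α le_rfl] at hP ⊢
    exact hG.gen k n hn γ hγ (hP.congr (fun β hβ => (h β hβ.le).symm))

/-- strong recursion with a local invariant -/
lemma exists_rec {X : Type*} [Inhabited X] (P : W → (W → X) → Prop)
    (hloc : ∀ (α : W) (L L' : W → X), (∀ β ≤ α, L β = L' β) → P α L → P α L')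
    (hstep : ∀ (α : W) (L : W → X), (∀ β < α, P β L) → ∃ x, P α (Function.update L α x)) :
    ∃ L : W → X, ∀ α, P α L := by
  classical
  let ext : (α : W) → ((β : W) → β < α → X) → (W → X) := fun α f β =>
    if h : β < α then f β h else default
  let F : (α : W) → ((β : W) → β < α → X) → X := fun α f =>
    if h : ∃ x, P α (Function.update (ext α f) α x) then h.choose else default
  let L : W → X := (wellFounded_lt (α := W)).fix F
  have hL : ∀ α, L α = F α (fun β _ => L β) := fun α =>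
    (wellFounded_lt (α := W)).fix_eq F α
  refine ⟨L, fun α => ?_⟩
  induction α using WellFoundedLT.induction with
  | ind α ih =>
    have hext : ∀ β < α, ext α (fun β _ => L β) β = L β := fun β hβ => by
      simp only [ext, dif_pos hβ]
    have h1 : ∃ x, P α (Function.update (ext α (fun β _ => L β)) α x) := by
      refine hstep α _ (fun β hβ => hloc β L _ ?_ (ih β hβ))
      intro γ hγ
      exact (hext γ (hγ.trans_lt hβ)).symm
    have h2 : L α = h1.choose := by
      rw [hL]
      simp only [F, dif_pos h1]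
    refine hloc α _ _ ?_ h1.choose_spec
    intro β hβ
    rcases hβ.lt_or_eq with hlt | rfl
    · rw [Function.update_of_ne hlt.ne, hext β hlt]
    · rw [Function.update_self, h2]

end Pool.Agent.H94.Dia
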