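import Pool.Agent.Lib.H94.Unique

/-!
# The extremal case, and the free bundles
-/

namespace Pool.Agent.Lib.H94

open Polynomial Module

set_option linter.unusedSectionVars false

universe u v w x

variable {k : Type u} {F₀ : Type v} {K : Type w} [Field k] [Field F₀] [Field K] [Algebra k F₀]
  [Algebra F₀ K] [Algebra k K] {t : F₀} {z : K} {δ : ℕ}

namespace Lat

variable {V : Type x} [AddCommGroup V] [Module k V] [Module F₀ V] [Module K V]
  [IsScalarTower k F₀ V] [IsScalarTower F₀ K V] [IsScalarTower k K V]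

variable (M : Lat k V t z)

/-- In the range of the higher Clifford index, `γ ≥ δ - 4`, with equality only for slope `δ`
and `3 · rank` sections. -/
theorem gamma_ge (C : CurveHyp k t z δ) (hV : 0 < finrank K V) (hM : M.Semistable C)
    (h2 : 2 * finrank K V ≤ M.h 0) (hμ : M.slope δ ≤ δ * (δ - 3) / 2) :
    (δ : ℚ) - 4 ≤ M.slope δ + 2 - 2 * (M.h 0 / finrank K V) ∧
      (M.slope δ + 2 - 2 * (M.h 0 / finrank K V) = (δ : ℚ) - 4 →
        M.slope δ = δ ∧ M.h 0 = 3 * finrank K V) := by
  have h5 := five_le_cast C.hδ5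
  have hVq : (0 : ℚ) < finrank K V := by exact_mod_cast hV
  have hs0 : 0 ≤ M.slope δ := by
    by_contra hneg
    have := M.h_zero_of_slope_neg hM hV (lt_of_not_ge hneg)
    omega
  have hT := M.h_le_T C hV hM
  have hT' : (M.h 0 : ℚ) / finrank K V ≤ T δ (M.slope δ) := by
    rw [div_le_iff₀ hVq, mul_comm]
    exact hT
  have h2' : (2 : ℚ) ≤ M.h 0 / finrank K V := by
    rw [le_div_iff₀ hVq]
    exact_mod_cast h2
  obtain ⟨g1, g2⟩ := gamma_bound C.hδ5 hs0 hμ (h2'.trans hT')
  refine ⟨by linarith, fun he => ?_⟩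
  have hs := g2 (by linarith)
  refine ⟨hs, ?_⟩
  rw [hs, T_delta C.hδ5] at hT' g1
  rw [hs] at he
  have h3 : (M.h 0 : ℚ) / finrank K V = 3 := by linarith
  rw [div_eq_iff hVq.ne'] at h3
  exact_mod_cast h3

/-- the Euler characteristic of a free bundle -/
lemma two_chi_of_free (C : CurveHyp k t z δ) (c : ℤ) {n : ℕ} (e : Fin n → V)
    (hli : LinearIndependent K e) (hn : finrank K V = n)
    (hs : ∀ i, M.s i = freePiece k t z δ e (i + c)) :
    2 * M.chi = n * (2 * δ * c - δ * (δ - 3)) := by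
  obtain ⟨i₁, h₁⟩ := M.toTLat.exists_U_eq_top
  have hi : i₁ ≤ max i₁ (δ - c) := le_max_left _ _
  have hi' : (δ : ℤ) ≤ max i₁ (δ - c) + c := by
    have := le_max_right i₁ (δ - c)
    omega
  generalize max i₁ (δ - c) = i at hi hi'
  have e1 := M.toTLat.chi_eq C.ht (h₁ i hi)
  have e2 : M.h i = ∑ p : Fin δ × Fin n, ((i + c) - ((p.1 : ℕ) : ℤ) + 1).toNat := by
    rw [TLat.h, hs i]
    exact finrank_range_polyMap C.ht (mono_linearIndependent C hli) _
  have e3 := two_mul_sum_eq C n (i + c) hi'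
  rw [← e2] at e3
  rw [e1, finrank_eq C V, hn]
  push_cast
  linear_combination e3

/-- the number of sections of a free bundle -/
lemma h_of_free (C : CurveHyp k t z δ) (c : ℤ) {n : ℕ} (e : Fin n → V)
    (hli : LinearIndependent K e)
    (hs : ∀ i, M.s i = freePiece k t z δ e (i + c)) (i : ℤ) :
    M.h i = n * ∑ b : Fin δ, (i + c - ((b : ℕ) : ℤ) + 1).toNat := by
  have e2 : M.h i = ∑ p : Fin δ × Fin n, ((i + c) - ((p.1 : ℕ) : ℤ) + 1).toNat := by
    rw [TLat.h, hs i]
    exact finrank_range_polyMap C.ht (mono_linearIndependent C hli) _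
  rw [e2, Fintype.sum_prod_type]
  simp only [Finset.sum_const, Finset.card_univ, Fintype.card_fin, smul_eq_mul]
  rw [← Finset.mul_sum]

/-- Free bundles are semistable. -/
theorem semistable_of_free (C : CurveHyp k t z δ) (c : ℤ) {n : ℕ} (e : Fin n → V)
    (hli : LinearIndependent K e) (hn : finrank K V = n)
    (hs : ∀ i, M.s i = freePiece k t z δ e (i + c)) : M.Semistable C := by
  intro W
  have hfK := M.finiteDimensionalK
  have hchi := M.two_chi_of_free C c e hli hn hs
  have hspan : Submodule.span K (Set.range e) = ⊤ := by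
    apply hli.span_eq_top_of_card_eq_finrank'
    rw [Fintype.card_fin, hn]
  -- the images of the `e j` in the quotient
  have he : ∀ j, e j ∈ M.s (-c) := by
    intro j
    rw [hs (-c)]
    have h1 : e j ∈ freePiece k t z δ e 0 := by
      have hδ := C.hδ5
      let b₀ : Fin δ := ⟨0, by omega⟩
      refine ⟨fun p => if hp : p = (b₀, j) then ⟨1, ?_⟩ else 0, ?_⟩
      · rw [mem_degreeLT, hp, degree_one]
        simp [b₀]
      · change ∑ p : Fin δ × Fin n, _ = _
        rw [Finset.sum_eq_single (b₀, j)]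
        · simp [mono, b₀]
        · intro p _ hp
          simp [hp]
        · simp
    rw [show -c + c = 0 by ring]
    exact h1
  obtain ⟨m, f, hm, hf, hfli⟩ : ∃ (m : ℕ) (f : Fin m → V ⧸ W),
      finrank K (V ⧸ W) = m ∧ (∀ j, f j ∈ W.mkQ '' (Set.range e)) ∧ LinearIndependent K f := by
    obtain ⟨f, hf1, hf2, hf3⟩ :=
      Submodule.exists_fun_fin_finrank_span_eq K (W.mkQ '' (Set.range e))
    refine ⟨_, f, ?_, hf1, hf3⟩
    rw [← Submodule.map_span, hspan, Submodule.map_top, Submodule.range_mkQ, finrank_top]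
  have hquo : m * (2 * δ * c - δ * (δ - 3)) ≤ 2 * (M.quo C W).chi := by
    obtain ⟨i₁, h₁⟩ := (M.quo C W).toTLat.exists_U_eq_top
    have hi : i₁ ≤ max i₁ (δ - c) := le_max_left _ _
    have hi' : (δ : ℤ) ≤ max i₁ (δ - c) + c := by
      have := le_max_right i₁ (δ - c)
      omega
    generalize max i₁ (δ - c) = i at hi hi'
    have e1 := (M.quo C W).toTLat.chi_eq C.ht (h₁ i hi)
    have e2 := TLat.sum_le_h C.ht (M.quo C W).toTLat (mono z δ f)
      (fun p => ((p.1 : ℕ) : ℤ) - c) (mono_linearIndependent C hfli) (by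
        intro p
        obtain ⟨v, ⟨j, rfl⟩, hv⟩ := hf p.2
        have h1 : f p.2 ∈ (M.quo C W).s (-c) := by
          rw [← hv]
          exact M.mkQ_mem_quo C W (he j)
        have h2 := (M.quo C W).zpow_mul (p.1 : ℕ) h1
        rw [mono]
        rwa [show -c + (((p.1 : ℕ) : ℤ)) = ((p.1 : ℕ) : ℤ) - c by ring] at h2) i (by
        intro p
        have := p.1.2
        change ((p.1 : ℕ) : ℤ) - c ≤ i + 1
        omega)
    have e3 := two_mul_sum_eq C m (i + c) hi'
    have e4 : (∑ p : Fin δ × Fin m, (i - (((p.1 : ℕ) : ℤ) - c) + 1)) =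
        ((∑ p : Fin δ × Fin m, (i + c - ((p.1 : ℕ) : ℤ) + 1).toNat : ℕ) : ℤ) := by
      push_cast
      refine Finset.sum_congr rfl fun p _ => ?_
      have := p.1.2
      omega
    rw [e4] at e2
    rw [e1, finrank_eq C (V ⧸ W), hm]
    push_cast
    linarith
  have hadd := M.chi_add C W
  have hrank : finrank K W + m = n := by
    have := Submodule.finrank_quotient_add_finrank W
    omega
  have h6 : 2 * (M.sub C W).chi ≤ finrank K W * (2 * δ * c - δ * (δ - 3)) := by
    have : (n : ℤ) = finrank K W + m := by exact_mod_cast hrank.symm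
    rw [this] at hchi
    linarith
  rw [hn]
  have h7 : 2 * ((M.sub C W).chi * n) ≤ 2 * (M.chi * finrank K W) := by
    have : 2 * (M.chi * (finrank K W : ℤ)) = n * (finrank K W * (2 * δ * c - δ * (δ - 3))) := by
      linear_combination (finrank K W : ℤ) * hchi
    rw [this]
    have hn0 : (0 : ℤ) ≤ n := by positivity
    nlinarith [mul_le_mul_of_nonneg_left h6 hn0]
  linarith

end Lat

end Pool.Agent.Lib.H94
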