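import Pool.Agent.Lib.H94.TLat

/-!
# Saturation, quotients and exact sequences
-/

namespace Pool.Agent.Lib.H94

open Polynomial Module

section Linear

variable {k V W Z : Type*} [Field k] [AddCommGroup V] [Module k V]
  [AddCommGroup W] [Module k W] [AddCommGroup Z] [Module k Z]

lemma finrank_map_add_finrank_comap (f : W →ₗ[k] V) (g : V →ₗ[k] Z)
    (hf : Function.Injective f) (hfg : LinearMap.range f = LinearMap.ker g)
    (S : Submodule k V) [FiniteDimensional k S] :
    finrank k (S.map g) + finrank k (S.comap f) = finrank k S := by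
  have h1 := LinearMap.finrank_range_add_finrank_ker (g.domRestrict S)
  have h2 : LinearMap.range (g.domRestrict S) = S.map g := by
    rw [LinearMap.range_domRestrict]
  have h3 : finrank k (LinearMap.ker (g.domRestrict S)) = finrank k (S.comap f) := by
    have h4 : (LinearMap.ker (g.domRestrict S)).map S.subtype = (S.comap f).map f := by
      ext v
      simp only [Submodule.mem_map, LinearMap.mem_ker, LinearMap.domRestrict_apply,
        Submodule.subtype_apply, Submodule.mem_comap]
      constructor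
      · rintro ⟨x, hx, rfl⟩
        have : (x : V) ∈ LinearMap.range f := by rw [hfg]; exact hx
        obtain ⟨w, hw⟩ := this
        exact ⟨w, by rw [hw]; exact x.2, hw⟩
      · rintro ⟨w, hw, rfl⟩
        refine ⟨⟨f w, hw⟩, ?_, rfl⟩
        have : f w ∈ LinearMap.ker g := by rw [← hfg]; exact ⟨w, rfl⟩
        exact this
    have h5 := (Submodule.equivMapOfInjective f hf (S.comap f)).finrank_eq
    have h6 := (Submodule.equivMapOfInjective S.subtype S.subtype_injective
      (LinearMap.ker (g.domRestrict S))).finrank_eq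
    rw [h6, h5, h4]
  rw [h2, h3] at h1
  exact h1

end Linear

/-- `G + tG + ... + t^l G`. -/
noncomputable def tower {k F₀ V : Type*} [Field k] [Field F₀] [Algebra k F₀]
    [AddCommGroup V] [Module k V] [Module F₀ V] [IsScalarTower k F₀ V] (t : F₀)
    (G : Submodule k V) : ℕ → Submodule k V
  | 0 => G
  | l + 1 => tower t G l ⊔ (tower t G l).map (tm k V t)

/-- A `t`-stable family which grows like a vector bundle, but which need not be saturated. -/
structure PreT (k : Type*) {F₀ : Type*} (V : Type*) [Field k] [Field F₀] [Algebra k F₀]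
    [AddCommGroup V] [Module k V] [Module F₀ V] [IsScalarTower k F₀ V] (t : F₀) where
  q : ℤ → Submodule k V
  mono' : ∀ i, q i ≤ q (i + 1)
  tmul : ∀ i v, v ∈ q i → t • v ∈ q (i + 1)
  fin : ∀ i, FiniteDimensional k (q i)
  i₁ : ℤ
  top : Submodule.span F₀ (q i₁ : Set V) = ⊤
  upper : ∀ n : ℕ, finrank k (q (i₁ + n)) ≤ finrank k (q i₁) + n * finrank F₀ V

namespace PreT

variable {k F₀ V : Type*} [Field k] [Field F₀] [Algebra k F₀]
  [AddCommGroup V] [Module k V] [Module F₀ V] [IsScalarTower k F₀ V] {t : F₀}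

variable (Q : PreT k V t)

instance (i : ℤ) : FiniteDimensional k (Q.q i) := Q.fin i

lemma mono {i j : ℤ} (h : i ≤ j) : Q.q i ≤ Q.q j := by
  obtain ⟨n, rfl⟩ := Int.le.dest h
  induction n with
  | zero => simp
  | succ n ih =>
    refine (ih (by omega)).trans ?_
    have := Q.mono' (i + n)
    rwa [show i + (n : ℤ) + 1 = i + ((n + 1 : ℕ) : ℤ) by push_cast; ring] at this

lemma tpow_mul (n : ℕ) {i : ℤ} {v : V} (hv : v ∈ Q.q i) : t ^ n • v ∈ Q.q (i + n) := by
  induction n with
  | zero => simpa using hv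
  | succ n ih =>
    rw [pow_succ', mul_smul]
    have := Q.tmul _ _ ih
    rwa [show i + (n : ℤ) + 1 = i + ((n + 1 : ℕ) : ℤ) by push_cast; ring] at this

/-- `w` belongs to the saturation in degree `i`, with witness `m`. -/
def Wit (i : ℤ) (m : ℕ) (w : V) : Prop := ∀ j ≤ m, t ^ j • w ∈ Q.q (i + m)

lemma Wit.mono {i : ℤ} {m m' : ℕ} {w : V} (h : Q.Wit i m w) (hm : m ≤ m') :
    Q.Wit i m' w := by
  obtain ⟨d, rfl⟩ := Nat.exists_eq_add_of_le hm
  clear hm
  induction d with
  | zero => simpa using h
  | succ d ih =>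
    intro j hj
    rcases Nat.lt_or_ge (m + d) j with h1 | h1
    · obtain rfl : j = (m + d) + 1 := by omega
      rw [pow_succ', mul_smul]
      have := Q.tmul _ _ (ih (m + d) le_rfl)
      rwa [show i + ((m + d : ℕ) : ℤ) + 1 = i + ((m + (d + 1) : ℕ) : ℤ) by push_cast; ring]
        at this
    · exact Q.mono (by push_cast; omega) (ih j h1)

lemma wit_zero {i : ℤ} {w : V} : Q.Wit i 0 w ↔ w ∈ Q.q i := by
  constructor
  · intro h
    simpa using h 0 le_rfl
  · intro h j hj
    obtain rfl : j = 0 := by omega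
    simpa using h

/-- The saturation in degree `i`. -/
def satur (i : ℤ) : Submodule k V where
  carrier := {w | ∃ m, Q.Wit i m w}
  add_mem' := by
    rintro a b ⟨m, hm⟩ ⟨n, hn⟩
    refine ⟨max m n, fun j hj => ?_⟩
    rw [smul_add]
    exact Submodule.add_mem _ (hm.mono Q (le_max_left _ _) j hj)
      (hn.mono Q (le_max_right _ _) j hj)
  zero_mem' := ⟨0, fun j _ => by rw [smul_zero]; exact Submodule.zero_mem _⟩
  smul_mem' := by
    rintro c w ⟨m, hm⟩
    refine ⟨m, fun j hj => ?_⟩
    rw [smul_comm]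
    exact Submodule.smul_mem _ _ (hm j hj)

lemma le_satur (i : ℤ) : Q.q i ≤ Q.satur i := fun _ hw => ⟨0, Q.wit_zero.2 hw⟩

lemma satur_mono {i j : ℤ} (hij : i ≤ j) : Q.satur i ≤ Q.satur j := by
  rintro w ⟨m, hm⟩
  exact ⟨m, fun l hl => Q.mono (by omega) (hm l hl)⟩

lemma span_eq_top {i : ℤ} (hi : Q.i₁ ≤ i) : Submodule.span F₀ (Q.q i : Set V) = ⊤ := by
  refine top_le_iff.1 ?_
  rw [← Q.top]
  exact Submodule.span_mono (Q.mono hi)

lemma lower (ht : IsRatGen k t) {i : ℤ} (hi : Q.i₁ ≤ i) (n : ℕ) :
    finrank k (Q.q i) + n * finrank F₀ V ≤ finrank k (Q.q (i + n)) := by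
  induction n with
  | zero => rw [Nat.cast_zero, add_zero, zero_mul, add_zero]
  | succ n ih =>
    have h1 := growth (F₀ := F₀) ht (Q.q (i + n))
    rw [Q.span_eq_top (by omega), finrank_top] at h1
    have h2 : (Q.q (i + n) ⊔ (Q.q (i + n)).map (tm k V t) : Submodule k V) ≤
        Q.q (i + ((n + 1 : ℕ) : ℤ)) := by
      rw [show i + ((n + 1 : ℕ) : ℤ) = i + n + 1 by push_cast; ring]
      refine sup_le (Q.mono' _) ?_
      rintro _ ⟨v, hv, rfl⟩
      exact Q.tmul _ _ hv
    have h3 := Submodule.finrank_mono h2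
    have h4 : (n + 1) * finrank F₀ V = n * finrank F₀ V + finrank F₀ V := by ring
    omega

lemma upper' (ht : IsRatGen k t) {i : ℤ} (hi : Q.i₁ ≤ i) (n : ℕ) :
    finrank k (Q.q (i + n)) ≤ finrank k (Q.q i) + n * finrank F₀ V := by
  obtain ⟨m, rfl⟩ := Int.le.dest hi
  have h1 := Q.lower ht le_rfl m
  have h2 := Q.upper (m + n)
  rw [show Q.i₁ + ((m + n : ℕ) : ℤ) = Q.i₁ + m + n by push_cast; ring] at h2
  have h4 : (m + n) * finrank F₀ V = m * finrank F₀ V + n * finrank F₀ V := by ring
  omega

/-- In large degree the saturation adds nothing. -/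
lemma satur_eq (ht : IsRatGen k t) {i : ℤ} (hi : Q.i₁ ≤ i) : Q.satur i = Q.q i := by
  refine le_antisymm ?_ (Q.le_satur i)
  rintro w ⟨m, hm⟩
  -- the subspace generated by `q i` and `w`
  let G : Submodule k V := Q.q i ⊔ Submodule.span k {w}
  have hGfin : FiniteDimensional k G := by infer_instance
  let T : ℕ → Submodule k V := tower t G
  have hT0 : T 0 = G := rfl
  have hTs : ∀ l, T (l + 1) = T l ⊔ (T l).map (tm k V t) := fun l => rfl
  have hTfin : ∀ l : ℕ, FiniteDimensional k (T l) := by
    intro l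
    induction l with
    | zero => exact hGfin
    | succ l ih => rw [hTs]; infer_instance
  have hTmono : ∀ l, G ≤ T l := by
    intro l
    induction l with
    | zero => exact le_rfl
    | succ l ih => rw [hTs]; exact ih.trans le_sup_left
  have hspan : ∀ l, Submodule.span F₀ (T l : Set V) = ⊤ := by
    intro l
    refine top_le_iff.1 ?_
    rw [← Q.span_eq_top hi]
    exact Submodule.span_mono ((le_sup_left : Q.q i ≤ G).trans (hTmono l))
  have hlow : ∀ l : ℕ, finrank k G + l * finrank F₀ V ≤ finrank k (T l) := by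
    intro l
    induction l with
    | zero => rw [zero_mul, add_zero, hT0]
    | succ l ih =>
      have := hTfin l
      have h1 := growth (F₀ := F₀) ht (T l)
      rw [hspan, finrank_top, ← hTs] at h1
      have h4 : (l + 1) * finrank F₀ V = l * finrank F₀ V + finrank F₀ V := by ring
      omega
  -- all elements of `T l` are witnessed
  have hTwit : ∀ l : ℕ, ∀ v ∈ T l, v ∈ ⨆ j : Fin (l + 1), G.map (tm k V t ^ (j : ℕ)) := by
    intro l
    induction l with
    | zero =>
      intro v hv
      refine Submodule.mem_iSup_of_mem 0 ?_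
      simpa [hT0] using hv
    | succ l ih =>
      intro v hv
      rw [hTs] at hv
      obtain ⟨a, ha, b, hb, rfl⟩ := Submodule.mem_sup.1 hv
      obtain ⟨c, hc, rfl⟩ := hb
      refine Submodule.add_mem _ ?_ ?_
      · have : (⨆ j : Fin (l + 1), G.map (tm k V t ^ (j : ℕ))) ≤
            ⨆ j : Fin (l + 1 + 1), G.map (tm k V t ^ (j : ℕ)) :=
          iSup_le fun j => le_iSup_of_le j.castSucc (by simp)
        exact this (ih a ha)
      · have h1 := ih c hc
        have : (⨆ j : Fin (l + 1), G.map (tm k V t ^ (j : ℕ))).map (tm k V t) ≤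
            ⨆ j : Fin (l + 1 + 1), G.map (tm k V t ^ (j : ℕ)) := by
          rw [Submodule.map_iSup]
          refine iSup_le fun j => le_iSup_of_le j.succ ?_
          rw [← Submodule.map_comp, Fin.val_succ, pow_succ']
          rfl
        exact this ⟨c, h1, rfl⟩
  have hpow : ∀ (j : ℕ) (v : V), (tm k V t ^ j) v = t ^ j • v := by
    intro j
    induction j with
    | zero => intro v; simp
    | succ j ih => intro v; rw [pow_succ', Module.End.mul_apply, ih, tm_apply, pow_succ', mul_smul]
  have hTle : T m ≤ Q.q (i + m) := by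
    intro v hv
    have h1 := hTwit m v hv
    have h2 : (⨆ j : Fin (m + 1), G.map (tm k V t ^ (j : ℕ))) ≤ Q.q (i + m) := by
      refine iSup_le fun j => ?_
      rintro _ ⟨g, hg, rfl⟩
      rw [hpow]
      have hj : (j : ℕ) ≤ m := by omega
      obtain ⟨a, ha, b, hb, rfl⟩ := Submodule.mem_sup.1 hg
      obtain ⟨c, rfl⟩ := Submodule.mem_span_singleton.1 hb
      rw [smul_add]
      refine Submodule.add_mem _ ?_ ?_
      · exact Q.mono (by omega) (Q.tpow_mul j ha)
      · rw [smul_comm]
        exact Submodule.smul_mem _ _ (hm j hj)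
    exact h2 h1
  have h1 := hlow m
  have h2 := Submodule.finrank_mono hTle
  have h3 := Q.upper' ht hi m
  have h4 : Q.q i = G := Submodule.eq_of_le_of_finrank_le le_sup_left (by omega)
  rw [h4]
  exact Submodule.mem_sup_right (Submodule.mem_span_singleton_self w)

/-- The saturation as a `TLat`. -/
def toTLat (ht : IsRatGen k t) : TLat k V t where
  s := Q.satur
  mono' i := Q.satur_mono (by omega)
  tmul i v := by
    rintro ⟨m, hm⟩
    refine ⟨m, fun j hj => ?_⟩
    rw [smul_smul, mul_comm, ← smul_smul]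
    have := Q.tmul _ _ (hm j hj)
    rwa [show i + (m : ℤ) + 1 = i + 1 + m by ring] at this
  fin i := by
    have h1 : Q.satur (max i Q.i₁) = Q.q (max i Q.i₁) := Q.satur_eq ht (le_max_right _ _)
    have h2 : Q.satur i ≤ Q.q (max i Q.i₁) := h1 ▸ Q.satur_mono (le_max_left _ _)
    exact Submodule.finiteDimensional_of_le h2
  sat i v := by
    rintro ⟨m, hm⟩ ⟨n, hn⟩
    refine ⟨max m n + 1, fun j hj => ?_⟩
    have h1 := hm.mono Q (le_max_left m n)
    have h2 := hn.mono Q (le_max_right m n)
    rcases Nat.eq_zero_or_pos j with rfl | hj0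
    · have := h1 0 (by omega)
      rwa [show i + 1 + ((max m n : ℕ) : ℤ) = i + ((max m n + 1 : ℕ) : ℤ) by push_cast; ring]
        at this
    · obtain ⟨j, rfl⟩ : ∃ j', j = j' + 1 := ⟨j - 1, by omega⟩
      have := h2 j (by omega)
      rw [pow_succ, mul_smul]
      rwa [show i + 1 + ((max m n : ℕ) : ℤ) = i + ((max m n + 1 : ℕ) : ℤ) by push_cast; ring]
        at this
  top := by
    refine ⟨Q.i₁, top_le_iff.1 ?_⟩
    rw [← Q.top]
    exact Submodule.span_mono (Q.le_satur _)

end PreT

namespace TLat

variable {k F₀ V W Z : Type*} [Field k] [Field F₀] [Algebra k F₀]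
  [AddCommGroup V] [Module k V] [Module F₀ V] [IsScalarTower k F₀ V]
  [AddCommGroup W] [Module k W] [Module F₀ W] [IsScalarTower k F₀ W]
  [AddCommGroup Z] [Module k Z] [Module F₀ Z] [IsScalarTower k F₀ Z] {t : F₀}

section

variable (M : TLat k V t) (ht : IsRatGen k t) (f : W →ₗ[F₀] V) (g : V →ₗ[F₀] Z)
  (hf : Function.Injective f) (hg : Function.Surjective g)
  (hfg : LinearMap.range f = LinearMap.ker g)

include hf hg hfg in
lemma finrank_exact : FiniteDimensional F₀ V →
    finrank F₀ V = finrank F₀ W + finrank F₀ Z := by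
  intro _
  have h1 := LinearMap.finrank_range_add_finrank_ker g
  rw [LinearMap.range_eq_top.2 hg, finrank_top, ← hfg, LinearMap.finrank_range_of_inj hf] at h1
  omega

include hfg in
lemma range_restrict :
    LinearMap.range (f.restrictScalars k) = LinearMap.ker (g.restrictScalars k) := by
  ext v
  have : v ∈ LinearMap.range f ↔ v ∈ LinearMap.ker g := by rw [hfg]
  exact this

include hfg in
/-- Rank-nullity for the image family. -/
lemma h_exact (i : ℤ) :
    finrank k ((M.s i).map (g.restrictScalars k)) + (M.comap ht f hf).h i = M.h i :=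
  finrank_map_add_finrank_comap (f.restrictScalars k) (g.restrictScalars k) hf
    (range_restrict f g hfg) (M.s i)

/-- The image family. -/
noncomputable def imagePre : PreT k Z t where
  q i := (M.s i).map (g.restrictScalars k)
  mono' i := Submodule.map_mono (M.mono' i)
  tmul i v := by
    rintro ⟨w, hw, rfl⟩
    exact ⟨t • w, M.tmul _ _ hw, by simp⟩
  fin i := by infer_instance
  i₁ := max (Classical.choose M.exists_U_eq_top)
    (Classical.choose (M.comap ht f hf).exists_U_eq_top)
  top := by
    set i := max (Classical.choose M.exists_U_eq_top)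
      (Classical.choose (M.comap ht f hf).exists_U_eq_top)
    have h1 : M.U i = ⊤ :=
      Classical.choose_spec M.exists_U_eq_top _ (le_max_left _ _)
    refine top_le_iff.1 ?_
    rw [← LinearMap.range_eq_top.2 hg, LinearMap.range_eq_map, ← h1, U, Submodule.map_span,
      Submodule.span_le]
    rintro _ ⟨v, hv, rfl⟩
    exact Submodule.subset_span ⟨v, hv, rfl⟩
  upper n := by
    set i := max (Classical.choose M.exists_U_eq_top)
      (Classical.choose (M.comap ht f hf).exists_U_eq_top)
    have h1 : M.U i = ⊤ :=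
      Classical.choose_spec M.exists_U_eq_top _ (le_max_left _ _)
    have h2 : (M.comap ht f hf).U i = ⊤ :=
      Classical.choose_spec (M.comap ht f hf).exists_U_eq_top _ (le_max_right _ _)
    have h3 := M.h_exact ht f g hf hfg (i + n)
    have h4 := M.h_exact ht f g hf hfg i
    have h5 := M.h_add ht h1 n
    have h6 := (M.comap ht f hf).h_add ht h2 n
    have h7 := finrank_exact f g hf hg hfg M.finiteDimensional
    rw [h7] at h5
    have h8 : n * (finrank F₀ W + finrank F₀ Z) = n * finrank F₀ W + n * finrank F₀ Z := by ring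
    omega

/-- The quotient family (saturated image). -/
noncomputable def quot : TLat k Z t := (M.imagePre ht f g hf hg hfg).toTLat ht

lemma map_mem_quot {i : ℤ} {v : V} (hv : v ∈ M.s i) : g v ∈ (M.quot ht f g hf hg hfg).s i :=
  (M.imagePre ht f g hf hg hfg).le_satur i ⟨v, hv, rfl⟩

/-- In large degree the quotient is just the image. -/
lemma exists_quot_eq : ∃ i₁, ∀ i, i₁ ≤ i →
    (M.quot ht f g hf hg hfg).s i = (M.s i).map (g.restrictScalars k) :=
  ⟨_, fun _ hi => (M.imagePre ht f g hf hg hfg).satur_eq ht hi⟩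

lemma h_le (i : ℤ) : M.h i ≤ (M.comap ht f hf).h i + (M.quot ht f g hf hg hfg).h i := by
  have h1 := M.h_exact ht f g hf hfg i
  have h2 : finrank k ((M.s i).map (g.restrictScalars k)) ≤
      (M.quot ht f g hf hg hfg).h i :=
    Submodule.finrank_mono ((M.imagePre ht f g hf hg hfg).le_satur i)
  omega

lemma chi_add : M.chi = (M.comap ht f hf).chi + (M.quot ht f g hf hg hfg).chi := by
  obtain ⟨i₁, h₁⟩ := M.exists_quot_eq ht f g hf hg hfg
  obtain ⟨i₂, h₂⟩ := M.exists_U_eq_top
  obtain ⟨i₃, h₃⟩ := (M.comap ht f hf).exists_U_eq_top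
  obtain ⟨i₄, h₄⟩ := (M.quot ht f g hf hg hfg).exists_U_eq_top
  let i := max (max i₁ i₂) (max i₃ i₄)
  have g1 : i₁ ≤ i := by omega
  have g2 : i₂ ≤ i := by omega
  have g3 : i₃ ≤ i := by omega
  have g4 : i₄ ≤ i := by omega
  rw [M.chi_eq ht (h₂ i g2), (M.comap ht f hf).chi_eq ht (h₃ i g3),
    (M.quot ht f g hf hg hfg).chi_eq ht (h₄ i g4),
    finrank_exact f g hf hg hfg M.finiteDimensional]
  have h5 := M.h_exact ht f g hf hfg i
  rw [← h₁ i g1] at h5
  have h6 : ((M.h i : ℕ) : ℤ) = (M.quot ht f g hf hg hfg).h i + (M.comap ht f hf).h i := by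
    rw [← h5]; push_cast; rfl
  rw [h6]
  push_cast
  ring

end

end TLat

end Pool.Agent.Lib.H94
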