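import Pool.Agent.Lib.H94.Main

/-!
# The main bound and the uniqueness theorem
-/

namespace Pool.Agent.Lib.H94

open Polynomial Module

set_option linter.unusedSectionVars false

universe u v w x

lemma exists_max_min (f : ℤ → ℚ) (A B : ℤ) (hf : ∀ j, j < A ∨ B < j → f j = 0) {j₁ : ℤ}
    (h : 0 < f j₁) : ∃ j₀, 0 < f j₀ ∧ (∀ j, f j ≤ f j₀) ∧ f (j₀ - 1) < f j₀ := by
  have hj₁ : j₁ ∈ Finset.Icc A B := by
    rw [Finset.mem_Icc]
    by_contra hn
    have : f j₁ = 0 := hf _ (by omega)
    linarith
  obtain ⟨jm, hjm, hmax⟩ := Finset.exists_max_image (Finset.Icc A B) f ⟨j₁, hj₁⟩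
  have hpos : 0 < f jm := h.trans_le (hmax _ hj₁)
  have hall : ∀ j, f j ≤ f jm := by
    intro j
    by_cases hj : j ∈ Finset.Icc A B
    · exact hmax j hj
    · rw [hf j (by rw [Finset.mem_Icc] at hj; omega)]
      exact hpos.le
  obtain ⟨j₀, hj₀, hleast⟩ := Int.exists_least_of_bdd (P := fun j => ∀ i, f i ≤ f j)
    ⟨A, by
      intro j hj
      by_contra hlt
      have h1 := hj jm
      rw [hf j (by omega)] at h1
      linarith⟩ ⟨jm, hall⟩
  refine ⟨j₀, hpos.trans_le (hj₀ jm), hj₀, ?_⟩
  by_contra hn
  push Not at hn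
  have := hleast (j₀ - 1) (fun i => (hj₀ i).trans hn)
  omega

variable {k : Type u} {F₀ : Type v} {K : Type w} [Field k] [Field F₀] [Field K] [Algebra k F₀]
  [Algebra F₀ K] [Algebra k K] {t : F₀} {z : K} {δ : ℕ}

namespace Lat

section

variable {V : Type x} [AddCommGroup V] [Module k V] [Module F₀ V] [Module K V]
  [IsScalarTower k F₀ V] [IsScalarTower F₀ K V] [IsScalarTower k K V]

variable (M : Lat k V t z)

lemma twist_slope (C : CurveHyp k t z δ) (hV : 0 < finrank K V) (j : ℤ) :
    (M.twist j).slope δ = M.slope δ + δ * j := by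
  have : (finrank K V : ℚ) ≠ 0 := by exact_mod_cast hV.ne'
  rw [slope, slope, twist_chi M C]
  push_cast
  field_simp
  ring

/-- A semistable bundle of negative slope has no sections. -/
lemma h_zero_of_slope_neg {C : CurveHyp k t z δ} (hM : M.Semistable C)
    (hV : 0 < finrank K V) (hs : M.slope δ < 0) : M.h 0 = 0 := by
  by_contra hne
  have hpos : 0 < finrank k (M.s 0) := Nat.pos_of_ne_zero hne
  have : Nontrivial (M.s 0) := Module.nontrivial_of_finrank_pos hpos
  obtain ⟨⟨s, hs1⟩, hs0⟩ := exists_ne (0 : M.s 0)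
  have hs0' : s ≠ 0 := fun h => hs0 (Subtype.ext h)
  have h1 := M.le_chi_of_section C hs0' hs1
  have h2 := hM.sub_chi_le hV (Submodule.span K {s})
  rw [finrank_span_singleton hs0'] at h2
  have h3 : -((δ : ℚ) * (δ - 3)) ≤ 2 * (M.sub C (Submodule.span K {s})).chi := by
    exact_mod_cast h1
  push_cast at h2
  linarith

/-- Riemann-Roch with vanishing `h¹`. -/
lemma h_zero_of_slope_gt {C : CurveHyp k t z δ} (hM : M.Semistable C)
    (hV : 0 < finrank K V) (hs : (δ : ℚ) * (δ - 3) < M.slope δ) : (M.h 0 : ℤ) = M.chi := by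
  have hU : M.U 1 = ⊤ := by
    by_contra hne
    have h1 := M.two_chi_le_of_U_one_ne_top C hM hne
    have h2 : 2 * (M.chi : ℚ) ≤ finrank K V * ((δ : ℚ) * (δ - 3)) := by exact_mod_cast h1
    rw [M.chi_eq_slope (δ := δ) hV] at h2
    have h3 : (0 : ℚ) < finrank K V := by exact_mod_cast hV
    nlinarith
  have h1 := M.toTLat.chi_eq C.ht hU
  have h2 := M.h_eq C.ht 1
  rw [(M.u_eq_iff _).2 hU, show (1 : ℤ) - 1 = 0 by norm_num] at h2
  rw [h1, h2]
  push_cast
  ring

end

/-- The main bound. -/
theorem boundUpTo (C : CurveHyp k t z δ) (n : ℕ) : BoundUpTo.{u, v, w, x} C n := by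
  induction n with
  | zero =>
    intro V _ _ _ _ _ _ _ M _ hlt
    omega
  | succ n ih =>
    intro V _ _ _ _ _ _ _ M hV hlt hM
    rcases Nat.lt_or_ge (finrank K V) n with hlt' | hge
    · exact ih V M hV hlt' hM
    · have hn : finrank K V = n := by omega
      have h5 := five_le_cast C.hδ5
      have hVq : (0 : ℚ) < finrank K V := by exact_mod_cast hV
      by_contra hviol
      push Not at hviol
      let f : ℤ → ℚ := fun j => M.h j / finrank K V - T δ (M.slope δ + δ * j)
      have hf0 : 0 < f 0 := by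
        simp only [f]
        push_cast
        rw [mul_zero, add_zero, sub_pos, lt_div_iff₀ hVq]
        linarith
      have hh : ∀ j, (M.twist j).h 0 = M.h j := by
        intro j
        have : (M.twist j).h 0 = M.h (0 + j) := rfl
        rwa [zero_add] at this
      have hneg : ∀ j : ℤ, M.slope δ + δ * j < 0 → f j = 0 := by
        intro j hj
        have e1 := h_zero_of_slope_neg (M.twist j) (hM.twist M j) hV
          (by rw [M.twist_slope C hV]; exact hj)
        rw [hh] at e1
        simp only [f]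
        rw [e1, T_of_neg C.hδ5 hj]
        simp
      have hgt : ∀ j : ℤ, (δ : ℚ) * (δ - 3) < M.slope δ + δ * j → f j = 0 := by
        intro j hj
        have e1 := h_zero_of_slope_gt (M.twist j) (hM.twist M j) hV
          (by rw [M.twist_slope C hV]; exact hj)
        have e2 := (M.twist j).chi_eq_slope (δ := δ) hV
        rw [M.twist_slope C hV] at e2
        rw [hh] at e1
        simp only [f]
        have e3 : ((M.h j : ℕ) : ℚ) = (M.twist j).chi := by exact_mod_cast e1
        rw [e3, e2, T_of_gt C.hδ5 hj]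
        field_simp
        ring
      have hδpos : (0 : ℚ) < δ := by linarith
      obtain ⟨j₀, hj0, hmax, hmin⟩ := exists_max_min f
        (-⌈M.slope δ / δ⌉) (⌈(δ * (δ - 3) - M.slope δ) / δ⌉) (by
          rintro j (hj | hj)
          · apply hneg
            have e1 : M.slope δ / δ ≤ (⌈M.slope δ / δ⌉ : ℚ) := Int.le_ceil _
            have e2 : (j : ℚ) < -(⌈M.slope δ / δ⌉ : ℚ) := by exact_mod_cast hj
            rw [div_le_iff₀ hδpos] at e1
            nlinarith
          · apply hgt
            have e1 : (δ * (δ - 3) - M.slope δ) / δ ≤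
              (⌈(δ * (δ - 3) - M.slope δ) / δ⌉ : ℚ) := Int.le_ceil _
            have e2 : (⌈(δ * (δ - 3) - M.slope δ) / δ⌉ : ℚ) < j := by exact_mod_cast hj
            rw [div_le_iff₀ hδpos] at e1
            nlinarith) hf0
      set y := M.slope δ + δ * j₀ with hy
      have hy0 : 0 ≤ y := by
        by_contra hn
        push Not at hn
        have := hneg j₀ hn
        linarith
      have hy1 : y ≤ δ * (δ - 3) := by
        by_contra hn
        push Not at hn
        have := hgt j₀ hn
        linarith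
      have hkey := key C (M.twist j₀) (by rw [hn]; exact ih) hV (hM.twist M j₀)
        (M.twist_slope C hV j₀) hy0 hy1 (by
          rw [hh]
          have e1 : 0 < (M.h j₀ : ℚ) / finrank K V - T δ y := hj0
          rw [sub_pos, lt_div_iff₀ hVq] at e1
          linarith)
      have e1 : (M.twist j₀).h 1 = M.h (j₀ + 1) := by
        have : (M.twist j₀).h 1 = M.h (1 + j₀) := rfl
        rwa [add_comm] at this
      have e2 : (M.twist j₀).h (-1) = M.h (j₀ - 1) := by
        have : (M.twist j₀).h (-1) = M.h (-1 + j₀) := rfl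
        rwa [neg_add_eq_sub] at this
      rw [e1, e2, hh] at hkey
      have hkey' : (finrank K V : ℚ) ≤ M.h (j₀ + 1) - 2 * M.h j₀ + M.h (j₀ - 1) := by
        exact_mod_cast hkey
      have e3 := T_second C.hδ5 hy0 hy1
      have e4 : f (j₀ + 1) = M.h (j₀ + 1) / finrank K V - T δ (y + δ) := by
        simp only [f]
        congr 2
        rw [hy]
        push_cast
        ring
      have e5 : f (j₀ - 1) = M.h (j₀ - 1) / finrank K V - T δ (y - δ) := by
        simp only [f]
        congr 2
        rw [hy]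
        push_cast
        ring
      have e6 : f j₀ = M.h j₀ / finrank K V - T δ y := rfl
      have e7 := hmax (j₀ + 1)
      have e8 : (1 : ℚ) ≤ (M.h (j₀ + 1) : ℚ) / finrank K V - 2 * (M.h j₀ / finrank K V) +
          M.h (j₀ - 1) / finrank K V := by
        have e9 : (1 : ℚ) = finrank K V / finrank K V := by field_simp
        rw [e9]
        have e10 : (M.h (j₀ + 1) : ℚ) / finrank K V - 2 * (M.h j₀ / finrank K V) +
          M.h (j₀ - 1) / finrank K V =
            (M.h (j₀ + 1) - 2 * M.h j₀ + M.h (j₀ - 1)) / finrank K V := by ring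
        rw [e10]
        exact div_le_div_of_nonneg_right hkey' hVq.le
      linarith

/-- The main bound: `h⁰(E) ≤ rank(E) · T(slope E)` for semistable `E`. -/
theorem h_le_T (C : CurveHyp k t z δ) {V : Type x} [AddCommGroup V] [Module k V] [Module F₀ V]
    [Module K V] [IsScalarTower k F₀ V] [IsScalarTower F₀ K V] [IsScalarTower k K V]
    (M : Lat k V t z) (hV : 0 < finrank K V) (hM : M.Semistable C) :
    (M.h 0 : ℚ) ≤ finrank K V * T δ (M.slope δ) :=
  boundUpTo C (finrank K V + 1) V M hV (by omega) hM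

end Lat

section Sat

variable {V : Type x} [AddCommGroup V] [Module k V] [Module F₀ V]
  [IsScalarTower k F₀ V] {ι : Type*} [Fintype ι]

lemma polyMap_sat (ht : IsRatGen k t) {b : ι → V} (hb : LinearIndependent F₀ b) (d : ι → ℤ)
    (i : ℤ) {v : V}
    (h1 : v ∈ LinearMap.range (polyMap (k := k) t b (fun j => (i + 1 - d j + 1).toNat)))
    (h2 : t • v ∈ LinearMap.range (polyMap (k := k) t b (fun j => (i + 1 - d j + 1).toNat))) :
    v ∈ LinearMap.range (polyMap (k := k) t b (fun j => (i - d j + 1).toNat)) := by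
  obtain ⟨p, rfl⟩ := h1
  obtain ⟨q, hq⟩ := h2
  have h3 : ∀ j, (q j : k[X]) = X * (p j : k[X]) := by
    have e1 : ∑ j, (aeval t (q j : k[X]) - aeval t (X * (p j : k[X]))) • b j = 0 := by
      have e2 : ∑ j, aeval t (q j : k[X]) • b j = t • ∑ j, aeval t (p j : k[X]) • b j := hq
      rw [Finset.smul_sum] at e2
      simp only [sub_smul, Finset.sum_sub_distrib]
      rw [e2, sub_eq_zero]
      refine Finset.sum_congr rfl fun j _ => ?_
      rw [map_mul, aeval_X, mul_smul]
    intro j
    have e3 := Fintype.linearIndependent_iff.1 hb _ e1 j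
    rw [← map_sub] at e3
    exact sub_eq_zero.1 (ht.transc _ e3)
  have h4 : ∀ j, (p j : k[X]) ∈ degreeLT k (i - d j + 1).toNat := by
    intro j
    by_cases hp0 : (p j : k[X]) = 0
    · rw [hp0]; exact Submodule.zero_mem _
    · have e1 := mem_degreeLT.1 (q j).2
      rw [h3 j, degree_mul, degree_X, Polynomial.degree_eq_natDegree hp0] at e1
      have e2 : 1 + (p j : k[X]).natDegree < (i + 1 - d j + 1).toNat := by
        exact_mod_cast e1
      rw [mem_degreeLT, Polynomial.degree_eq_natDegree hp0]
      exact_mod_cast (by omega : (p j : k[X]).natDegree < (i - d j + 1).toNat)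
  exact ⟨fun j => ⟨p j, h4 j⟩, rfl⟩

end Sat

end Pool.Agent.Lib.H94
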