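import Pool.Agent.Lib.H94.Transfer

/-!
# Free graded modules
-/

namespace Pool.Agent.Lib.H94

open Module MvPolynomial

set_option linter.unusedSectionVars false

section Ring

variable {k R : Type*} [Field k] [CommRing R] [Algebra k R] {Y : Fin 3 → R}
  {F : MvPolynomial (Fin 3) k} {δ : ℕ}

/-- The homogeneous pieces of the coordinate ring. -/
noncomputable def rpiece (k : Type*) {R : Type*} [Field k] [CommRing R] [Algebra k R]
    (Y : Fin 3 → R) : ℤ → Submodule k R
  | .ofNat n => (homogeneousSubmodule (Fin 3) k n).map (aeval Y).toLinearMap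
  | .negSucc _ => ⊥

lemma mem_rpiece_nat (n : ℕ) (r : R) :
    r ∈ rpiece k Y n ↔ ∃ G : MvPolynomial (Fin 3) k, G.IsHomogeneous n ∧ aeval Y G = r := Iff.rfl

lemma rpiece_neg {i : ℤ} (hi : i < 0) : rpiece k Y i = ⊥ := by
  match i, hi with
  | .negSucc _, _ => rfl

lemma exists_of_mem_rpiece {i : ℤ} {r : R} (hr : r ∈ rpiece k Y i) :
    ∃ G : MvPolynomial (Fin 3) k, G.IsHomogeneous i.toNat ∧ aeval Y G = r ∧ (i < 0 → G = 0) := by
  rcases lt_or_ge i 0 with h | h
  · rw [rpiece_neg h, Submodule.mem_bot] at hr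
    exact ⟨0, isHomogeneous_zero _ _ _, by rw [map_zero, hr], fun _ => rfl⟩
  · obtain ⟨n, rfl⟩ := Int.eq_ofNat_of_zero_le h
    obtain ⟨G, hG, hG'⟩ := (mem_rpiece_nat n r).1 hr
    exact ⟨G, by simpa using hG, hG', fun h => by omega⟩

lemma rpiece_mul (l : Fin 3) {i : ℤ} {r : R} (hr : r ∈ rpiece k Y i) :
    Y l * r ∈ rpiece k Y (i + 1) := by
  rcases lt_or_ge i 0 with h | h
  · rw [rpiece_neg h, Submodule.mem_bot] at hr
    rw [hr, mul_zero]
    exact Submodule.zero_mem _
  · obtain ⟨n, rfl⟩ := Int.eq_ofNat_of_zero_le h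
    obtain ⟨G, hG, hG'⟩ := (mem_rpiece_nat n r).1 hr
    have : ((n : ℤ) + 1) = ((n + 1 : ℕ) : ℤ) := by push_cast; ring
    rw [this, mem_rpiece_nat]
    refine ⟨X l * G, ?_, by rw [map_mul, aeval_X, hG']⟩
    have h1 := (isHomogeneous_X k l).mul hG
    rwa [add_comm] at h1

lemma RingHyp.hc_zero (H : RingHyp k Y F δ) {G : MvPolynomial (Fin 3) k} (hG : aeval Y G = 0)
    (m : ℕ) : aeval Y (homogeneousComponent m G) = 0 := by
  let _ := MvPolynomial.gradedAlgebra (σ := Fin 3) (R := k)
  rw [H.ker, ← Ideal.mem_span_singleton] at hG ⊢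
  refine homogeneousComponent_mem_of_mem ?_ hG m
  apply Ideal.homogeneous_span
  rintro _ rfl
  exact ⟨δ, H.hom⟩

/-- The pieces of a free module. -/
noncomputable def freeSec (k : Type*) {R : Type*} [Field k] [CommRing R] [Algebra k R]
    (Y : Fin 3 → R) (n : ℕ) (c : ℤ) (i : ℤ) : Submodule k (Fin n → R) :=
  Submodule.pi Set.univ (fun _ => rpiece k Y (i + c))

lemma mem_freeSec {n : ℕ} {c i : ℤ} {v : Fin n → R} :
    v ∈ freeSec k Y n c i ↔ ∀ l, v l ∈ rpiece k Y (i + c) := by
  rw [freeSec, Submodule.mem_pi]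
  simp

lemma free_isInternal (H : RingHyp k Y F δ) (n : ℕ) (c : ℤ) :
    DirectSum.IsInternal (freeSec k Y n c) := by
  classical
  constructor
  · rw [injective_iff_map_eq_zero]
    intro x hx
    rw [DirectSum.coeAddMonoidHom_eq_dfinsuppSum, DFinsupp.sum] at hx
    ext i₀ l
    rcases lt_or_ge (i₀ + c) 0 with h | h
    · have h1 := mem_freeSec.1 (x i₀).2 l
      rw [rpiece_neg h, Submodule.mem_bot] at h1
      rw [h1]
      rfl
    · by_cases hi₀ : i₀ ∈ DFinsupp.support x
      · have hxl : ∑ i ∈ DFinsupp.support x, (x i : Fin n → R) l = 0 := by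
          have := congrFun hx l
          rwa [Finset.sum_apply] at this
        choose G hG1 hG2 hG3 using fun i => exists_of_mem_rpiece (mem_freeSec.1 (x i).2 l)
        have h1 : aeval Y (∑ i ∈ DFinsupp.support x, G i) = 0 := by
          rw [map_sum, ← hxl]
          exact Finset.sum_congr rfl fun i _ => hG2 i
        have h2 := H.hc_zero h1 (i₀ + c).toNat
        rw [map_sum, Finset.sum_eq_single i₀] at h2
        · rw [homogeneousComponent_eq_self (hG1 i₀), hG2] at h2
          exact h2
        · intro i _ hi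
          rw [homogeneousComponent_of_mem (hG1 i)]
          split_ifs with hh
          · apply hG3
            by_contra hneg
            apply hi
            omega
          · rfl
        · intro h
          exact absurd hi₀ h
      · rw [DFinsupp.notMem_support_iff] at hi₀
        rw [hi₀]
        rfl
  · intro v
    have key : v ∈ AddMonoidHom.mrange (DirectSum.coeAddMonoidHom (freeSec k Y n c)) := by
      have hv : v = ∑ l, Pi.single l (v l) := by
        rw [Finset.univ_sum_single]
      rw [hv]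
      refine AddSubmonoid.sum_mem _ fun l _ => ?_
      obtain ⟨G, hG⟩ := H.surj (v l)
      rw [← hG, ← sum_homogeneousComponent (φ := G), map_sum]
      have h1 : (Pi.single l (∑ m ∈ Finset.range (G.totalDegree + 1),
          aeval Y (homogeneousComponent m G)) : Fin n → R) =
          ∑ m ∈ Finset.range (G.totalDegree + 1),
            Pi.single l (aeval Y (homogeneousComponent m G)) := by
        exact map_sum (AddMonoidHom.single (fun _ : Fin n => R) l) _ _
      rw [h1]
      refine AddSubmonoid.sum_mem _ fun m _ => ?_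
      have h2 : (Pi.single l (aeval Y (homogeneousComponent m G)) : Fin n → R) ∈
          freeSec k Y n c (m - c) := by
        rw [mem_freeSec]
        intro l'
        rw [show (m : ℤ) - c + c = m by ring]
        by_cases hl : l' = l
        · subst hl
          rw [Pi.single_eq_same, mem_rpiece_nat]
          exact ⟨_, homogeneousComponent_isHomogeneous m G, rfl⟩
        · rw [Pi.single_eq_of_ne hl]
          exact Submodule.zero_mem _
      exact ⟨DirectSum.of (fun i => freeSec k Y n c i) (m - c) ⟨_, h2⟩,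
        DirectSum.coeAddMonoidHom_of _ _ _⟩
    exact key

end Ring

section Sat

variable {k R : Type*} [Field k] [CommRing R] [IsDomain R] [Algebra k R] {Y : Fin 3 → R}
  {F : MvPolynomial (Fin 3) k} {δ : ℕ}
  {F₀ K : Type*} [Field F₀] [Field K] [Algebra k F₀] [Algebra F₀ K] [Algebra k K]
  [IsScalarTower k F₀ K] {t : F₀} {z : K}

lemma RingHyp.aeval_affine_eq (H : RingHyp k Y F δ) (P : PlaneHyp k (algebraMap F₀ K t) z F δ)
    {G G' : MvPolynomial (Fin 3) k} (h : aeval Y G = aeval Y G') :
    aeval ![1, algebraMap F₀ K t, z] G = aeval ![1, algebraMap F₀ K t, z] G' := by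
  have h1 : aeval Y (G - G') = 0 := by rw [map_sub, h, sub_self]
  rw [H.ker] at h1
  obtain ⟨A, hA⟩ := h1
  rw [← sub_eq_zero, ← map_sub, hA, map_mul, P.van, zero_mul]

lemma RingHyp.eq_of_affine_eq (H : RingHyp k Y F δ) (P : PlaneHyp k (algebraMap F₀ K t) z F δ)
    {n : ℕ} {G G' : MvPolynomial (Fin 3) k} (hG : G.IsHomogeneous n) (hG' : G'.IsHomogeneous n)
    (h : aeval ![1, algebraMap F₀ K t, z] G = aeval ![1, algebraMap F₀ K t, z] G') :
    aeval Y G = aeval Y G' := by
  rw [← sub_eq_zero, ← map_sub, H.ker]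
  exact P.ker n _ (hG.sub hG') (by rw [map_sub, h, sub_self])

lemma ring_sat (H : RingHyp k Y F δ) (P : PlaneHyp k (algebraMap F₀ K t) z F δ)
    (ht : IsRatGen k t) (i : ℤ) {r₀ r₁ : R} (h0 : r₀ ∈ rpiece k Y (i + 1))
    (h1 : r₁ ∈ rpiece k Y (i + 1)) (h : Y 1 * r₀ = Y 0 * r₁) :
    ∃ s ∈ rpiece k Y i, r₀ = Y 0 * s ∧ r₁ = Y 1 * s := by
  have hY := H.Y_ne_zero
  have hδ := H.pos
  rcases lt_or_ge (i + 1) 0 with hi | hi
  · rw [rpiece_neg hi, Submodule.mem_bot] at h0 h1
    exact ⟨0, Submodule.zero_mem _, by rw [h0, mul_zero], by rw [h1, mul_zero]⟩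
  · obtain ⟨m, hm⟩ := Int.eq_ofNat_of_zero_le hi
    rw [hm] at h0 h1
    obtain ⟨G₀, hG₀, rfl⟩ := (mem_rpiece_nat m _).1 h0
    obtain ⟨G₁, hG₁, rfl⟩ := (mem_rpiece_nat m _).1 h1
    have e1 : (algebraMap F₀ K t) * aeval ![1, algebraMap F₀ K t, z] G₀ =
        aeval ![1, algebraMap F₀ K t, z] G₁ := by
      have := H.aeval_affine_eq P (G := X 1 * G₀) (G' := X 0 * G₁) (by
        rw [map_mul, map_mul, aeval_X, aeval_X]; exact h)
      rw [map_mul, map_mul, aeval_X, aeval_X] at this
      simpa using this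
    have hmem : ∀ {G : MvPolynomial (Fin 3) k}, G.IsHomogeneous m →
        aeval ![1, algebraMap F₀ K t, z] G ∈
          freePiece k t z δ (fun _ : Fin 1 => (1 : K)) (i + 1) := by
      intro G hG
      rw [hm, mem_freePiece_iff P hδ]
      exact ⟨fun _ => G, fun _ => hG, by simp⟩
    have hv := freePiece_sat P hδ ht (fun _ : Fin 1 => (1 : K)) (by
      rw [linearIndependent_unique_iff]
      exact one_ne_zero) (hmem hG₀) (by
      rw [Algebra.smul_def, e1]
      exact hmem hG₁)
    rcases Nat.eq_zero_or_pos m with h00 | h00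
    · subst h00
      rw [freePiece_neg _ (by simp at hm; omega), Submodule.mem_bot] at hv
      have e2 := H.eq_of_affine_eq P hG₀ (isHomogeneous_zero _ _ 0) (by rw [hv, map_zero])
      rw [map_zero] at e2
      rw [e2, mul_zero] at h
      have e3 : aeval Y G₁ = 0 := (mul_eq_zero.1 h.symm).resolve_left hY
      exact ⟨0, Submodule.zero_mem _, by rw [e2, mul_zero], by rw [e3, mul_zero]⟩
    · obtain ⟨m', rfl⟩ : ∃ m', m = m' + 1 := ⟨m - 1, by omega⟩
      have hi' : i = (m' : ℤ) := by simp at hm; omega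
      rw [hi', mem_freePiece_iff P hδ] at hv
      obtain ⟨S, hS, hS'⟩ := hv
      simp only [Fin.isValue, Finset.univ_unique, Fin.default_eq_zero, smul_eq_mul, mul_one,
        Finset.sum_singleton] at hS'
      have e2 : aeval Y G₀ = Y 0 * aeval Y (S 0) := by
        have h3 := H.eq_of_affine_eq P hG₀ (G' := X 0 * S 0) (by
          have := (isHomogeneous_X k (0 : Fin 3)).mul (hS 0)
          rwa [add_comm] at this) (by
          rw [map_mul, aeval_X, hS']
          simp)
        rw [h3, map_mul, aeval_X]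
      refine ⟨aeval Y (S 0), ?_, e2, ?_⟩
      · rw [hi', mem_rpiece_nat]
        exact ⟨S 0, hS 0, rfl⟩
      · rw [e2] at h
        apply mul_left_cancel₀ hY
        rw [← h]
        ring

lemma free_gradHyp (H : RingHyp k Y F δ) (P : PlaneHyp k (algebraMap F₀ K t) z F δ)
    (ht : IsRatGen k t) (n : ℕ) (c : ℤ) : GradHyp k Y (freeSec k Y n c) where
  isInternal := free_isInternal H n c
  mul_mem i l m hm := by
    rw [mem_freeSec] at hm ⊢
    intro j
    have := rpiece_mul i (hm j)
    rwa [show l + c + 1 = l + 1 + c by ring] at this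
  finite := inferInstance
  sat l m hm hmm := by
    have h1 : ∀ j, ∃ s ∈ rpiece k Y (l + c), m 0 j = Y 0 * s ∧ m 1 j = Y 1 * s := by
      intro j
      apply ring_sat H P ht
      · have := mem_freeSec.1 (hm 0) j
        rwa [show l + 1 + c = l + c + 1 by ring] at this
      · have := mem_freeSec.1 (hm 1) j
        rwa [show l + 1 + c = l + c + 1 by ring] at this
      · exact congrFun (hmm 1 0) j
    choose s hs hs0 hs1 using h1
    refine ⟨s, mem_freeSec.2 hs, fun i => ?_⟩
    have hY := H.Y_ne_zero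
    funext j
    have e1 : Y 0 * m i j = Y i * m 0 j := congrFun (hmm 0 i) j
    apply mul_left_cancel₀ hY
    rw [e1, hs0, Pi.smul_apply, smul_eq_mul]
    ring

end Sat

end Pool.Agent.Lib.H94
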