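import Pool.Agent.Lib.H94.RingHyp

/-!
# From graded modules to families in the generic fibre
-/

namespace Pool.Agent.Lib.H94

open Module

set_option linter.unusedSectionVars false

instance interTower {k Q VQ : Type*} [Field k] [Field Q] [Algebra k Q] [AddCommGroup VQ]
    [Module Q VQ] [Module k VQ] [IsScalarTower k Q VQ] (S : IntermediateField k Q) :
    IsScalarTower k S VQ :=
  ⟨fun c s v => smul_assoc c (s : Q) v⟩

section Gen

variable {k R M : Type*} [Field k] [CommRing R] [Algebra k R] [AddCommGroup M] [Module k M]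
  [Module R M] [IsScalarTower k R M] {sec : ℤ → Submodule k M}

/-- A finitely generated graded module is generated by finitely many homogeneous elements. -/
lemma gen_principle (hint : DirectSum.IsInternal sec) {X : Fin 3 → R}
    (hadj : Function.Surjective (MvPolynomial.aeval X : MvPolynomial (Fin 3) k →ₐ[k] R))
    (hX : ∀ i l m, m ∈ sec l → X i • m ∈ sec (l + 1)) [Module.Finite R M] :
    ∃ (n : ℕ) (a : Fin n → ℤ) (g : Fin n → M), (∀ j, g j ∈ sec (a j)) ∧
      ∀ N : ℤ → Submodule k M,
        (∀ i l m, m ∈ sec l → m ∈ N l → X i • m ∈ N (l + 1)) → (∀ j, g j ∈ N (a j)) →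
        ∀ l, sec l ≤ N l := by
  classical
  let D := hint.chooseDecomposition
  have hcs : ∀ (i : Fin 3) (m : M) (l : ℤ),
      (DirectSum.decompose sec (X i • m) (l + 1) : M) = X i • (DirectSum.decompose sec m l : M) := by
    intro i m
    induction m using DirectSum.Decomposition.inductionOn sec with
    | zero => intro l; simp
    | @homogeneous l' m =>
      intro l
      by_cases h : l' = l
      · subst h
        rw [DirectSum.decompose_of_mem_same sec (hX i _ _ m.2),
          DirectSum.decompose_of_mem_same sec m.2]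
      · rw [DirectSum.decompose_of_mem_ne sec (hX i _ _ m.2) (by omega),
          DirectSum.decompose_of_mem_ne sec m.2 h, smul_zero]
    | add m m' h h' =>
      intro l
      rw [smul_add, DirectSum.decompose_add, DirectSum.decompose_add, DirectSum.add_apply,
        DirectSum.add_apply, Submodule.coe_add, Submodule.coe_add, h l, h' l, smul_add]
  have hck : ∀ (c : k) (m : M) (l : ℤ),
      (DirectSum.decompose sec (c • m) l : M) = c • (DirectSum.decompose sec m l : M) := by
    intro c m
    induction m using DirectSum.Decomposition.inductionOn sec with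
    | zero => intro l; simp
    | @homogeneous l' m =>
      intro l
      by_cases h : l' = l
      · subst h
        rw [DirectSum.decompose_of_mem_same sec (Submodule.smul_mem _ c m.2),
          DirectSum.decompose_of_mem_same sec m.2]
      · rw [DirectSum.decompose_of_mem_ne sec (Submodule.smul_mem _ c m.2) h,
          DirectSum.decompose_of_mem_ne sec m.2 h, smul_zero]
    | add m m' h h' =>
      intro l
      rw [smul_add, DirectSum.decompose_add, DirectSum.decompose_add, DirectSum.add_apply,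
        DirectSum.add_apply, Submodule.coe_add, Submodule.coe_add, h l, h' l, smul_add]
  obtain ⟨S, hS⟩ := (Module.finite_def (R := R) (M := M)).1 inferInstance
  let P : Finset (ℤ × M) := S.biUnion fun m =>
    (DirectSum.decompose sec m).support.image fun l => (l, (DirectSum.decompose sec m l : M))
  have hP : ∀ p ∈ P, p.2 ∈ sec p.1 := by
    intro p hp
    simp only [P, Finset.mem_biUnion, Finset.mem_image] at hp
    obtain ⟨m, _, l, _, rfl⟩ := hp
    exact (DirectSum.decompose sec m l).2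
  refine ⟨P.card, fun j => (P.equivFin.symm j).1.1, fun j => (P.equivFin.symm j).1.2,
    fun j => hP _ (P.equivFin.symm j).2, fun N hN hg l m hm => ?_⟩
  have hPN : ∀ p ∈ P, p.2 ∈ N p.1 := by
    intro p hp
    have := hg (P.equivFin ⟨p, hp⟩)
    simpa using this
  let T₀ : Submodule k M :=
    { carrier := {m | ∀ l, (DirectSum.decompose sec m l : M) ∈ N l}
      zero_mem' := fun l => by simp
      add_mem' := fun {m m'} h h' l => by
        rw [DirectSum.decompose_add, DirectSum.add_apply, Submodule.coe_add]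
        exact (N l).add_mem (h l) (h' l)
      smul_mem' := fun c m h l => by
        rw [hck]
        exact (N l).smul_mem c (h l) }
  have hTX : ∀ i m, m ∈ T₀ → X i • m ∈ T₀ := by
    intro i m h l
    have h1 := hcs i m (l - 1)
    rw [show l - 1 + 1 = l by ring] at h1
    rw [h1]
    have h2 := hN i (l - 1) _ (DirectSum.decompose sec m (l - 1)).2 (h (l - 1))
    rwa [show l - 1 + 1 = l by ring] at h2
  have hTR : ∀ (p : MvPolynomial (Fin 3) k) (m : M), m ∈ T₀ →
      MvPolynomial.aeval X p • m ∈ T₀ := by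
    intro p
    induction p using MvPolynomial.induction_on with
    | C a =>
      intro m hm
      rw [MvPolynomial.algHom_C, algebraMap_smul]
      exact T₀.smul_mem a hm
    | add p q hp hq =>
      intro m hm
      rw [map_add, add_smul]
      exact T₀.add_mem (hp m hm) (hq m hm)
    | mul_X p i hp =>
      intro m hm
      rw [map_mul, MvPolynomial.aeval_X, mul_smul]
      exact hp _ (hTX i m hm)
  let T : Submodule R M :=
    { carrier := T₀
      zero_mem' := T₀.zero_mem
      add_mem' := fun h h' => T₀.add_mem h h'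
      smul_mem' := fun r m h => by
        obtain ⟨p, rfl⟩ := hadj r
        exact hTR p m h }
  have hTtop : T = ⊤ := by
    rw [eq_top_iff, ← hS, Submodule.span_le]
    intro m hm l
    by_cases hl : l ∈ (DirectSum.decompose sec m).support
    · exact hPN (l, (DirectSum.decompose sec m l : M)) (by
        simp only [P, Finset.mem_biUnion, Finset.mem_image]
        exact ⟨m, hm, l, hl, rfl⟩)
    · rw [DFinsupp.notMem_support_iff] at hl
      rw [hl]
      exact (N l).zero_mem
  have h1 : m ∈ T := by rw [hTtop]; trivial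
  have h2 := h1 l
  rwa [DirectSum.decompose_of_mem_same sec hm] at h2

lemma finite_sec (hint : DirectSum.IsInternal sec) {X : Fin 3 → R}
    (hadj : Function.Surjective (MvPolynomial.aeval X : MvPolynomial (Fin 3) k →ₐ[k] R))
    (hX : ∀ i l m, m ∈ sec l → X i • m ∈ sec (l + 1)) [Module.Finite R M] (l : ℤ) :
    FiniteDimensional k (sec l) := by
  classical
  obtain ⟨n, a, g, hg, hgen⟩ := gen_principle hint hadj hX
  let B : ℤ → Set M := fun l => {v | ∃ (j : Fin n) (d : Fin 3 → ℕ),
    ((d 0 + d 1 + d 2 : ℕ) : ℤ) + a j = l ∧ v = (X 0 ^ d 0 * X 1 ^ d 1 * X 2 ^ d 2) • g j}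
  have hfin : ∀ l, (B l).Finite := by
    intro l
    let D := ∑ j, (l - a j).toNat
    have hsub : B l ⊆ Set.range fun p : Fin n × (Fin 3 → Fin (D + 1)) =>
        (X 0 ^ (p.2 0 : ℕ) * X 1 ^ (p.2 1 : ℕ) * X 2 ^ (p.2 2 : ℕ)) • g p.1 := by
      rintro _ ⟨j, d, hd, rfl⟩
      have h1 : (l - a j).toNat ≤ D :=
        Finset.single_le_sum (f := fun j => (l - a j).toNat) (fun _ _ => Nat.zero_le _)
          (Finset.mem_univ j)
      refine ⟨(j, ![⟨d 0, by omega⟩, ⟨d 1, by omega⟩, ⟨d 2, by omega⟩]), rfl⟩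
    exact (Set.finite_range _).subset hsub
  have hle := hgen (fun l => Submodule.span k (B l)) (by
    intro i l m _ hm
    have : Submodule.span k (B l) ≤
        (Submodule.span k (B (l + 1))).comap (Algebra.lsmul k k M (X i)) := by
      rw [Submodule.span_le]
      rintro _ ⟨j, d, hd, rfl⟩
      apply Submodule.subset_span
      refine ⟨j, Function.update d i (d i + 1), ?_, ?_⟩
      · fin_cases i
        · simp [Function.update]; omega
        · simp [Function.update]; omega
        · simp [Function.update]; omega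
      · change X i • ((X 0 ^ d 0 * X 1 ^ d 1 * X 2 ^ d 2) • g j) = _
        rw [smul_smul]
        congr 1
        fin_cases i
        · simp [Function.update]; ring
        · simp [Function.update]; ring
        · simp [Function.update]; ring
    exact this hm) (by
    intro j
    apply Submodule.subset_span
    exact ⟨j, fun _ => 0, by simp, by simp⟩)
  have : FiniteDimensional k (Submodule.span k (B l)) :=
    FiniteDimensional.span_of_finite k (hfin l)
  exact Submodule.finiteDimensional_of_le (hle l)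

end Gen

section

variable {k R : Type*} [Field k] [CommRing R] [Algebra k R] {Y : Fin 3 → R}
  {F : MvPolynomial (Fin 3) k} {δ : ℕ}
  {Q : Type*} [Field Q] [Algebra R Q] [Algebra k Q] [IsScalarTower k R Q]
  {F₀ K : Type*} [Field F₀] [Field K] [Algebra k F₀] [Algebra F₀ K] [Algebra k K]
  [IsScalarTower k F₀ K] [Algebra K Q] [IsScalarTower k K Q]
  {VQ : Type*} [AddCommGroup VQ] [Module Q VQ] [Module R VQ] [Module k VQ] [Module F₀ VQ]
  [Module K VQ] [IsScalarTower R Q VQ] [IsScalarTower k Q VQ] [IsScalarTower k R VQ]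
  [IsScalarTower K Q VQ] [IsScalarTower k F₀ VQ] [IsScalarTower F₀ K VQ] [IsScalarTower k K VQ]
  {M : Type*} [AddCommGroup M] [Module k M] [Module R M] [IsScalarTower k R M]
  {t : F₀} {z : K}

/-- all the hypotheses on the curve and its coordinates -/
structure CoordHyp {k R : Type*} [Field k] [CommRing R] [Algebra k R] (Y : Fin 3 → R)
    (F : MvPolynomial (Fin 3) k) (δ : ℕ) (Q : Type*) [Field Q] [Algebra R Q]
    {F₀ K : Type*} [Field F₀] [Field K] [Algebra k F₀] [Algebra F₀ K] [Algebra k K]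
    [Algebra K Q] (t : F₀) (z : K) : Prop where
  ring : RingHyp k Y F δ
  inj : Function.Injective (algebraMap R Q)
  t_eq : algebraMap K Q (algebraMap F₀ K t) = algebraMap R Q (Y 1) / algebraMap R Q (Y 0)
  z_eq : algebraMap K Q z = algebraMap R Q (Y 2) / algebraMap R Q (Y 0)
  curve : CurveHyp k t z δ
  plane : PlaneHyp k (algebraMap F₀ K t) z F δ

section

variable (X : CoordHyp Y F δ Q t z)

include X

lemma CoordHyp.ne : algebraMap R Q (Y 0) ≠ 0 := by
  intro h
  apply X.ring.Y_ne_zero
  apply X.inj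
  rw [h, map_zero]

lemma CoordHyp.affCoord_eq (i : Fin 3) :
    affCoord Q Y i = algebraMap K Q (![1, algebraMap F₀ K t, z] i) := by
  fin_cases i
  · simp [affCoord]
  · exact X.t_eq.symm
  · exact X.z_eq.symm

lemma CoordHyp.aeval_eq (G : MvPolynomial (Fin 3) k) :
    algebraMap K Q (MvPolynomial.aeval ![1, algebraMap F₀ K t, z] G) =
      MvPolynomial.aeval (affCoord Q Y) G := by
  rw [← MvPolynomial.aeval_algebraMap_apply]
  congr 2
  funext i
  exact (X.affCoord_eq i).symm

end

variable (k Q) in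
/-- `m ↦ m / x ^ i` -/
noncomputable def iota (j : M →ₗ[R] VQ) (x : R) (i : ℤ) : M →ₗ[k] VQ where
  toFun m := (algebraMap R Q x) ^ (-i) • j m
  map_add' m m' := by rw [map_add, smul_add]
  map_smul' c m := by
    rw [RingHom.id_apply, ← algebraMap_smul R c m, map_smul, algebraMap_smul, smul_comm]

lemma iota_apply (j : M →ₗ[R] VQ) (x : R) (i : ℤ) (m : M) :
    iota k Q j x i m = (algebraMap R Q x) ^ (-i) • j m := rfl

lemma iota_injective (j : M →ₗ[R] VQ) (hj : Function.Injective j) {x : R}
    (hx : algebraMap R Q x ≠ 0) (i : ℤ) : Function.Injective (iota k Q j x i) := by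
  intro m m' h
  apply hj
  exact smul_right_injective VQ (zpow_ne_zero (-i) hx) h

lemma iota_succ (j : M →ₗ[R] VQ) {x : R} (hx : algebraMap R Q x ≠ 0) (i : ℤ) (r : R) (m : M) :
    iota k Q j x (i + 1) (r • m) = (algebraMap R Q r / algebraMap R Q x) • iota k Q j x i m := by
  rw [iota_apply, iota_apply, map_smul, ← algebraMap_smul Q r (j m), smul_smul, smul_smul]
  congr 1
  rw [neg_add, zpow_add₀ hx, zpow_neg_one]
  ring

lemma iota_zero (j : M →ₗ[R] VQ) {x : R} (hx : algebraMap R Q x ≠ 0) (i : ℤ) (m : M) :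
    iota k Q j x (i + 1) (x • m) = iota k Q j x i m := by
  rw [iota_succ j hx, div_self hx, one_smul]

lemma iota_coord (X : CoordHyp Y F δ Q t z) (j : M →ₗ[R] VQ) (i : ℤ) (l : Fin 3) (m : M) :
    iota k Q j (Y 0) (i + 1) (Y l • m) =
      (![1, algebraMap F₀ K t, z] l) • iota k Q j (Y 0) i m := by
  rw [iota_succ j X.ne, ← algebraMap_smul Q (![1, algebraMap F₀ K t, z] l : K),
    ← X.affCoord_eq]
  congr 1
  fin_cases l
  · exact div_self X.ne
  · rfl
  · rfl

lemma iota_hom (X : CoordHyp Y F δ Q t z) (j : M →ₗ[R] VQ) (i : ℤ) {n : ℕ}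
    {G : MvPolynomial (Fin 3) k} (hG : G.IsHomogeneous n) (m : M) :
    iota k Q j (Y 0) (i + n) (MvPolynomial.aeval Y G • m) =
      (MvPolynomial.aeval ![1, algebraMap F₀ K t, z] G) • iota k Q j (Y 0) i m := by
  have hx := X.ne
  rw [← algebraMap_smul Q (MvPolynomial.aeval ![1, algebraMap F₀ K t, z] G : K), X.aeval_eq,
    iota_apply, iota_apply, map_smul, ← algebraMap_smul Q (MvPolynomial.aeval Y G) (j m),
    smul_smul, smul_smul]
  congr 1
  rw [aeval_hom_affine hx hG, neg_add, zpow_add₀ hx, zpow_neg, zpow_neg, zpow_natCast]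
  field_simp

variable (Q K) in
/-- The generic fibre of a graded module. -/
noncomputable def genFib (Y : Fin 3 → R) (j : M →ₗ[R] VQ) (sec : ℤ → Submodule k M) :
    Submodule K VQ :=
  Submodule.span K (⋃ i, iota k Q j (Y 0) i '' (sec i : Set M))

lemma iota_mem_genFib (j : M →ₗ[R] VQ) (sec : ℤ → Submodule k M) {i : ℤ} {m : M}
    (hm : m ∈ sec i) : iota k Q j (Y 0) i m ∈ genFib Q K Y j sec :=
  Submodule.subset_span (Set.mem_iUnion.2 ⟨i, m, hm, rfl⟩)

/-- the hypotheses on a graded module -/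
structure GradHyp (k : Type*) {R : Type*} [Field k] [CommRing R] [Algebra k R] {M : Type*}
    [AddCommGroup M] [Module k M] [Module R M] (Y : Fin 3 → R) (sec : ℤ → Submodule k M) :
    Prop where
  isInternal : DirectSum.IsInternal sec
  mul_mem : ∀ (i : Fin 3) (l : ℤ) (m : M), m ∈ sec l → Y i • m ∈ sec (l + 1)
  finite : Module.Finite R M
  sat : ∀ (l : ℤ) (m : Fin 3 → M), (∀ i, m i ∈ sec (l + 1)) →
    (∀ i j, Y i • m j = Y j • m i) → ∃ s ∈ sec l, ∀ i, m i = Y i • s

lemma GradHyp.mul_pow_mem {sec : ℤ → Submodule k M} (D : GradHyp k Y sec) (i : Fin 3) (n : ℕ) :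
    ∀ (l : ℤ) (m : M), m ∈ sec l → Y i ^ n • m ∈ sec (l + n) := by
  induction n with
  | zero => intro l m hm; simpa using hm
  | succ n ih =>
    intro l m hm
    rw [pow_succ', mul_smul]
    have := D.mul_mem i _ _ (ih l m hm)
    rwa [show l + (n : ℤ) + 1 = l + ((n + 1 : ℕ) : ℤ) by push_cast; ring] at this

lemma GradHyp.hom_mem {sec : ℤ → Submodule k M} (D : GradHyp k Y sec) {n : ℕ}
    {G : MvPolynomial (Fin 3) k} (hG : G.IsHomogeneous n) {l : ℤ} {m : M} (hm : m ∈ sec l) :
    MvPolynomial.aeval Y G • m ∈ sec (l + n) := by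
  rw [MvPolynomial.aeval_def, MvPolynomial.eval₂_eq', Finset.sum_smul]
  refine Submodule.sum_mem _ fun d hd => ?_
  rw [mul_smul, algebraMap_smul, Fin.prod_univ_three, mul_assoc, mul_smul, mul_smul]
  refine Submodule.smul_mem _ _ ?_
  have h1 := hG (MvPolynomial.mem_support_iff.1 hd)
  rw [Finsupp.weight_apply, Finsupp.sum_fintype _ _ (by simp), Fin.sum_univ_three] at h1
  have h2 : d 0 + d 1 + d 2 = n := by simpa using h1
  have h3 := D.mul_pow_mem 0 (d 0) _ _ (D.mul_pow_mem 1 (d 1) _ _ (D.mul_pow_mem 2 (d 2) l m hm))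
  rwa [show l + (d 2 : ℤ) + (d 1 : ℤ) + (d 0 : ℤ) = l + (n : ℤ) by rw [← h2]; push_cast; ring]
    at h3

/-- The regular sequence property for `x = Y 0`, `y = Y 1`. -/
lemma GradHyp.regular {sec : ℤ → Submodule k M} (D : GradHyp k Y sec) (H : RingHyp k Y F δ)
    {l : ℤ} {m₀ m₁ : M} (h0 : m₀ ∈ sec (l + 1)) (h1 : m₁ ∈ sec (l + 1))
    (h : Y 1 • m₀ = Y 0 • m₁) : ∃ s ∈ sec l, m₀ = Y 0 • s ∧ m₁ = Y 1 • s := by
  classical
  -- monomials other than the pure power of `Y 2`
  have hmono : ∀ d : Fin 3 →₀ ℕ, d 0 + d 1 + d 2 = δ → d ≠ Finsupp.single 2 δ →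
      ∃ s ∈ sec (l + δ), (Y 0 ^ d 0 * Y 1 ^ d 1 * Y 2 ^ d 2) • m₀ = Y 0 • s ∧
        (Y 0 ^ d 0 * Y 1 ^ d 1 * Y 2 ^ d 2) • m₁ = Y 1 • s := by
    intro d hd hne
    rcases Nat.eq_zero_or_pos (d 0) with h00 | h00
    · rcases Nat.eq_zero_or_pos (d 1) with h01 | h01
      · exfalso
        apply hne
        ext i
        fin_cases i
        · simpa using h00
        · simpa using h01
        · have : d 2 = δ := by omega
          simpa using this
      · refine ⟨(Y 0 ^ d 0 * Y 1 ^ (d 1 - 1) * Y 2 ^ d 2) • m₁, ?_, ?_, ?_⟩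
        · rw [mul_assoc, mul_smul, mul_smul]
          have h3 := D.mul_pow_mem 0 (d 0) _ _ (D.mul_pow_mem 1 (d 1 - 1) _ _
            (D.mul_pow_mem 2 (d 2) _ m₁ h1))
          rwa [show l + 1 + (d 2 : ℤ) + ((d 1 - 1 : ℕ) : ℤ) + (d 0 : ℤ) = l + (δ : ℤ) by
            omega] at h3
        · obtain ⟨e, he⟩ : ∃ e, d 1 = e + 1 := ⟨d 1 - 1, by omega⟩
          rw [he, Nat.add_sub_cancel]
          calc (Y 0 ^ d 0 * Y 1 ^ (e + 1) * Y 2 ^ d 2) • m₀ =
              (Y 0 ^ d 0 * Y 1 ^ e * Y 2 ^ d 2) • (Y 1 • m₀) := by rw [smul_smul]; congr 1; ring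
            _ = _ := by rw [h, smul_comm]
        · obtain ⟨e, he⟩ : ∃ e, d 1 = e + 1 := ⟨d 1 - 1, by omega⟩
          rw [he, Nat.add_sub_cancel, smul_smul]
          congr 1; ring
    · refine ⟨(Y 0 ^ (d 0 - 1) * Y 1 ^ d 1 * Y 2 ^ d 2) • m₀, ?_, ?_, ?_⟩
      · rw [mul_assoc, mul_smul, mul_smul]
        have h3 := D.mul_pow_mem 0 (d 0 - 1) _ _ (D.mul_pow_mem 1 (d 1) _ _
          (D.mul_pow_mem 2 (d 2) _ m₀ h0))
        rwa [show l + 1 + (d 2 : ℤ) + (d 1 : ℤ) + ((d 0 - 1 : ℕ) : ℤ) = l + (δ : ℤ) by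
          omega] at h3
      · obtain ⟨e, he⟩ : ∃ e, d 0 = e + 1 := ⟨d 0 - 1, by omega⟩
        rw [he, Nat.add_sub_cancel, smul_smul]
        congr 1; ring
      · obtain ⟨e, he⟩ : ∃ e, d 0 = e + 1 := ⟨d 0 - 1, by omega⟩
        rw [he, Nat.add_sub_cancel]
        calc (Y 0 ^ (e + 1) * Y 1 ^ d 1 * Y 2 ^ d 2) • m₁ =
            (Y 0 ^ e * Y 1 ^ d 1 * Y 2 ^ d 2) • (Y 0 • m₁) := by rw [smul_smul]; congr 1; ring
          _ = _ := by rw [← h, smul_comm]
  -- the pure power
  have hpure : ∃ s ∈ sec (l + δ), Y 2 ^ δ • m₀ = Y 0 • s ∧ Y 2 ^ δ • m₁ = Y 1 • s := by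
    have hdeg : ∀ d ∈ F.support, d 0 + d 1 + d 2 = δ := by
      intro d hd
      have h1 := H.hom (MvPolynomial.mem_support_iff.1 hd)
      rw [Finsupp.weight_apply, Finsupp.sum_fintype _ _ (by simp), Fin.sum_univ_three] at h1
      simpa using h1
    have hF := (H.ker F).2 dvd_rfl
    rw [MvPolynomial.aeval_def, MvPolynomial.eval₂_eq'] at hF
    simp only [Fin.prod_univ_three] at hF
    have hmem : Finsupp.single 2 δ ∈ F.support := MvPolynomial.mem_support_iff.2 H.lead
    rw [← Finset.add_sum_erase _ _ hmem] at hF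
    simp only [Finsupp.single_apply] at hF
    simp only [show (2 : Fin 3) ≠ 0 by decide, show (2 : Fin 3) ≠ 1 by decide, if_false,
      if_true, pow_zero, one_mul] at hF
    set c := F.coeff (Finsupp.single 2 δ) with hc
    have hc0 : c ≠ 0 := H.lead
    choose! s hs1 hs2 hs3 using hmono
    refine ⟨-(c⁻¹ • ∑ d ∈ F.support.erase (Finsupp.single 2 δ), F.coeff d • s d), ?_, ?_, ?_⟩
    · refine Submodule.neg_mem _ (Submodule.smul_mem _ _ (Submodule.sum_mem _ fun d hd => ?_))
      exact Submodule.smul_mem _ _ (hs1 d (hdeg d (Finset.mem_of_mem_erase hd))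
        (Finset.ne_of_mem_erase hd))
    · have e1 : algebraMap k R c • (Y 2 ^ δ • m₀) =
          - ∑ d ∈ F.support.erase (Finsupp.single 2 δ),
            (algebraMap k R (F.coeff d) * (Y 0 ^ d 0 * Y 1 ^ d 1 * Y 2 ^ d 2)) • m₀ := by
        rw [← Finset.sum_smul, smul_smul, eq_neg_iff_add_eq_zero, ← add_smul, hF, zero_smul]
      have e2 : Y 2 ^ δ • m₀ = c⁻¹ • (algebraMap k R c • (Y 2 ^ δ • m₀)) := by
        rw [algebraMap_smul, smul_smul, inv_mul_cancel₀ hc0, one_smul]
      rw [e2, e1, smul_neg, smul_neg, smul_comm (Y 0) c⁻¹, Finset.smul_sum (r := Y 0)]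
      congr 2
      refine Finset.sum_congr rfl fun d hd => ?_
      rw [mul_smul, hs2 d (hdeg d (Finset.mem_of_mem_erase hd)) (Finset.ne_of_mem_erase hd),
        algebraMap_smul, smul_comm]
    · have e1 : algebraMap k R c • (Y 2 ^ δ • m₁) =
          - ∑ d ∈ F.support.erase (Finsupp.single 2 δ),
            (algebraMap k R (F.coeff d) * (Y 0 ^ d 0 * Y 1 ^ d 1 * Y 2 ^ d 2)) • m₁ := by
        rw [← Finset.sum_smul, smul_smul, eq_neg_iff_add_eq_zero, ← add_smul, hF, zero_smul]
      have e2 : Y 2 ^ δ • m₁ = c⁻¹ • (algebraMap k R c • (Y 2 ^ δ • m₁)) := by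
        rw [algebraMap_smul, smul_smul, inv_mul_cancel₀ hc0, one_smul]
      rw [e2, e1, smul_neg, smul_neg, smul_comm (Y 1) c⁻¹, Finset.smul_sum (r := Y 1)]
      congr 2
      refine Finset.sum_congr rfl fun d hd => ?_
      rw [mul_smul, hs3 d (hdeg d (Finset.mem_of_mem_erase hd)) (Finset.ne_of_mem_erase hd),
        algebraMap_smul, smul_comm]
  -- descend
  have hdesc : ∀ n : ℕ, (∃ s ∈ sec (l + n), Y 2 ^ n • m₀ = Y 0 • s ∧ Y 2 ^ n • m₁ = Y 1 • s) →
      ∃ s ∈ sec l, m₀ = Y 0 • s ∧ m₁ = Y 1 • s := by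
    intro n
    induction n with
    | zero =>
      rintro ⟨s, hs, e0, e1⟩
      exact ⟨s, by simpa using hs, by simpa using e0, by simpa using e1⟩
    | succ n ih =>
      rintro ⟨s, hs, e0, e1⟩
      apply ih
      have g0 := D.mul_pow_mem 2 n _ _ h0
      have g1 := D.mul_pow_mem 2 n _ _ h1
      rw [show l + 1 + (n : ℤ) = l + n + 1 by ring] at g0 g1
      obtain ⟨s', hs', hs''⟩ := D.sat (l + n) ![Y 2 ^ n • m₀, Y 2 ^ n • m₁, s] (by
        intro i
        fin_cases i
        · exact g0
        · exact g1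
        · change s ∈ _
          rwa [show l + ((n + 1 : ℕ) : ℤ) = l + n + 1 by push_cast; ring] at hs) (by
        have c01 : Y 0 • Y 2 ^ n • m₁ = Y 1 • Y 2 ^ n • m₀ := by
          rw [smul_comm, ← h, smul_comm]
        have c02 : Y 0 • s = Y 2 • Y 2 ^ n • m₀ := by
          rw [← e0, pow_succ', mul_smul]
        have c12 : Y 1 • s = Y 2 • Y 2 ^ n • m₁ := by
          rw [← e1, pow_succ', mul_smul]
        intro i j
        fin_cases i <;> fin_cases j
        · rfl
        · exact c01
        · exact c02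
        · exact c01.symm
        · rfl
        · exact c12
        · exact c02.symm
        · exact c12.symm
        · rfl)
      exact ⟨s', hs', hs'' 0, hs'' 1⟩
  exact hdesc δ hpure

lemma mem_map_iota_iff {j : M →ₗ[R] VQ} {sec : ℤ → Submodule k M} {i : ℤ} {v : VQ} :
    v ∈ (sec i).map (iota k Q j (Y 0) i) ↔ ∃ m ∈ sec i, iota k Q j (Y 0) i m = v := Iff.rfl

/-- The family of sections in the generic fibre. -/
noncomputable def gLat (X : CoordHyp Y F δ Q t z) (j : M →ₗ[R] VQ)
    (hj : Function.Injective j) {sec : ℤ → Submodule k M} (D : GradHyp k Y sec) :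
    Lat k (genFib Q K Y j sec) t z where
  s i := ((sec i).map (iota k Q j (Y 0) i)).comap
    ((genFib Q K Y j sec).subtype.restrictScalars k)
  mono' i v hv := by
    obtain ⟨m, hm, hv⟩ := hv
    refine ⟨Y 0 • m, D.mul_mem 0 i m hm, ?_⟩
    rw [iota_zero j X.ne]
    exact hv
  tmul i v hv := by
    obtain ⟨m, hm, hv⟩ := hv
    refine ⟨Y 1 • m, D.mul_mem 1 i m hm, ?_⟩
    rw [iota_coord X j, hv]
    exact algebraMap_smul K t _
  fin i := by
    have := D.finite
    have h1 : FiniteDimensional k (sec i) := finite_sec D.isInternal X.ring.surj D.mul_mem i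
    have h2 : FiniteDimensional k ((sec i).map (iota k Q j (Y 0) i)) := inferInstance
    let f : ((sec i).map (iota k Q j (Y 0) i)).comap
      ((genFib Q K Y j sec).subtype.restrictScalars k) →ₗ[k]
        (sec i).map (iota k Q j (Y 0) i) :=
      ((genFib Q K Y j sec).subtype.restrictScalars k).restrict (fun _ h => h)
    exact Module.Finite.of_injective f (fun a b hab => by
      apply Subtype.ext
      apply Subtype.ext
      exact congrArg (fun w : (sec i).map (iota k Q j (Y 0) i) => (w : VQ)) hab)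
  sat i v hv hv' := by
    obtain ⟨m₀, hm₀, e0⟩ := hv
    obtain ⟨m₁, hm₁, e1⟩ := hv'
    have hx := X.ne
    have h : Y 1 • m₀ = Y 0 • m₁ := by
      apply iota_injective (k := k) (Q := Q) j hj hx (i + 1 + 1)
      rw [iota_coord X j, iota_zero j hx, e0, e1]
      exact algebraMap_smul K t _
    obtain ⟨s, hs, hs0, _⟩ := D.regular X.ring hm₀ hm₁ h
    refine ⟨s, hs, ?_⟩
    rw [← e0, hs0, iota_zero j hx]
  top := by
    have := D.finite
    have hx := X.ne
    have C := X.curve
    obtain ⟨n, a, g, hg, hgen⟩ := gen_principle D.isInternal X.ring.surj D.mul_mem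
    set V := genFib Q K Y j sec with hV
    -- the generators span over `K`
    have hspan : V ≤ Submodule.span K (Set.range fun l => iota k Q j (Y 0) (a l) (g l)) := by
      rw [hV, genFib, Submodule.span_le, Set.iUnion_subset_iff]
      intro i
      rintro _ ⟨m, hm, rfl⟩
      have h1 := hgen (fun i => ((Submodule.span K
        (Set.range fun l => iota k Q j (Y 0) (a l) (g l))).restrictScalars k).comap
          (iota k Q j (Y 0) i)) (by
        intro l i m _ hm
        rw [Submodule.mem_comap, iota_coord X j]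
        exact Submodule.smul_mem (Submodule.span K
          (Set.range fun l => iota k Q j (Y 0) (a l) (g l))) _ hm) (by
        intro l
        exact Submodule.subset_span ⟨l, rfl⟩) i hm
      exact h1
    obtain ⟨i₀, hi₀⟩ : ∃ i₀ : ℤ, ∀ l, a l + δ ≤ i₀ := by
      obtain ⟨i₀, hi₀⟩ := (Set.finite_range fun l => a l + δ).bddAbove
      exact ⟨i₀, fun l => hi₀ ⟨l, rfl⟩⟩
    refine ⟨i₀, ?_⟩
    obtain ⟨B, hB⟩ := C.exists_basis
    rw [eq_top_iff]
    rintro ⟨v, hv⟩ _
    obtain ⟨c, hc⟩ := (Submodule.mem_span_range_iff_exists_fun _).1 (hspan hv)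
    have hmem : ∀ l, iota k Q j (Y 0) (a l) (g l) ∈ V := fun l => iota_mem_genFib j sec (hg l)
    have hv' : (⟨v, hv⟩ : V) = ∑ l, c l • (⟨_, hmem l⟩ : V) := by
      apply Subtype.ext
      rw [Submodule.coe_sum]
      exact hc.symm
    rw [hv']
    refine Submodule.sum_mem _ fun l _ => ?_
    rw [← B.sum_repr (c l), Finset.sum_smul]
    refine Submodule.sum_mem _ fun b _ => ?_
    rw [smul_assoc]
    refine Submodule.smul_mem _ _ (Submodule.subset_span ?_)
    rw [hB]
    -- `z ^ b • iota (a l) (g l)` has degree `a l + b`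
    have h1 : ∀ b : ℕ, iota k Q j (Y 0) (a l + b) (Y 2 ^ b • g l) =
        z ^ b • iota k Q j (Y 0) (a l) (g l) := by
      intro b
      induction b with
      | zero => simp
      | succ b ih =>
        rw [pow_succ', mul_smul, pow_succ', mul_smul, ← ih,
          show a l + ((b + 1 : ℕ) : ℤ) = a l + b + 1 by push_cast; ring, iota_coord X j]
        rfl
    have h2 : ∀ (e : ℕ) (i : ℤ) (m : M), iota k Q j (Y 0) (i + e) (Y 0 ^ e • m) =
        iota k Q j (Y 0) i m := by
      intro e
      induction e with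
      | zero => intro i m; simp
      | succ e ih =>
        intro i m
        rw [pow_succ', mul_smul, show i + ((e + 1 : ℕ) : ℤ) = i + e + 1 by push_cast; ring,
          iota_zero j hx, ih]
    have hb := b.2
    have hi := hi₀ l
    refine ⟨Y 0 ^ (i₀ - (a l + (b : ℕ))).toNat • Y 2 ^ (b : ℕ) • g l, ?_, ?_⟩
    · have h3 := D.mul_pow_mem 0 (i₀ - (a l + (b : ℕ))).toNat _ _
        (D.mul_pow_mem 2 (b : ℕ) _ _ (hg l))
      rwa [show a l + ((b : ℕ) : ℤ) + ((i₀ - (a l + (b : ℕ))).toNat : ℤ) = i₀ by omega] at h3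
    · have h3 := h2 (i₀ - (a l + (b : ℕ))).toNat (a l + (b : ℕ)) (Y 2 ^ (b : ℕ) • g l)
      rw [show a l + ((b : ℕ) : ℤ) + ((i₀ - (a l + (b : ℕ))).toNat : ℤ) = i₀ by omega] at h3
      rw [h3, h1]
      rfl
  zmul i v hv := by
    obtain ⟨m, hm, hv⟩ := hv
    refine ⟨Y 2 • m, D.mul_mem 2 i m hm, ?_⟩
    rw [iota_coord X j, hv]
    rfl

end

end Pool.Agent.Lib.H94
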