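import Pool.Agent.Lib.H94.Assemble
import Pool.Agent.Lib.H94.CurveCoord

/-!
# The bundles `H ^ n`
-/

namespace Pool.Agent.Lib.H94

open Module MvPolynomial

set_option linter.unusedSectionVars false

section Sh

variable {k R : Type*} [Field k] [CommRing R] [Algebra k R]
  {M : Type*} [AddCommGroup M] [Module k M] [Module R M] [IsScalarTower k R M]

/-- a linear change of coordinates -/
noncomputable def sh (a b : k) (X : Fin 3 → R) : Fin 3 → R :=
  ![X 0 - algebraMap k R a * X 2, X 1 - algebraMap k R b * X 2, X 2]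

lemma sh_sh (a b : k) (X : Fin 3 → R) : sh (-a) (-b) (sh a b X) = X := by
  funext i
  fin_cases i
  · simp [sh]
  · simp [sh]
  · simp [sh]

lemma sh_mul_mem {X : Fin 3 → R} {sec : ℤ → Submodule k M} (a b : k)
    (h : ∀ (i : Fin 3) (l : ℤ) (m : M), m ∈ sec l → X i • m ∈ sec (l + 1)) :
    ∀ (i : Fin 3) (l : ℤ) (m : M), m ∈ sec l → sh a b X i • m ∈ sec (l + 1) := by
  intro i l m hm
  fin_cases i
  · change (X 0 - algebraMap k R a * X 2) • m ∈ _
    rw [sub_smul, mul_smul, algebraMap_smul]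
    exact Submodule.sub_mem _ (h 0 l m hm) (Submodule.smul_mem _ _ (h 2 l m hm))
  · change (X 1 - algebraMap k R b * X 2) • m ∈ _
    rw [sub_smul, mul_smul, algebraMap_smul]
    exact Submodule.sub_mem _ (h 1 l m hm) (Submodule.smul_mem _ _ (h 2 l m hm))
  · exact h 2 l m hm

lemma sh_sat {X : Fin 3 → R} {sec : ℤ → Submodule k M} (a b : k)
    (h : ∀ (l : ℤ) (m : Fin 3 → M), (∀ i, m i ∈ sec (l + 1)) →
      (∀ i j, X i • m j = X j • m i) → ∃ s ∈ sec l, ∀ i, m i = X i • s) :
    ∀ (l : ℤ) (m : Fin 3 → M), (∀ i, m i ∈ sec (l + 1)) →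
      (∀ i j, sh a b X i • m j = sh a b X j • m i) →
      ∃ s ∈ sec l, ∀ i, m i = sh a b X i • s := by
  intro l m hm hmm
  have hX0 : X 0 = sh a b X 0 + algebraMap k R a * sh a b X 2 := by simp [sh]
  have hX1 : X 1 = sh a b X 1 + algebraMap k R b * sh a b X 2 := by simp [sh]
  have hX2 : X 2 = sh a b X 2 := rfl
  generalize sh a b X = Y at *
  have h01 := hmm 0 1
  have h02 := hmm 0 2
  have h12 := hmm 1 2
  have c01 : X 0 • (m 1 + b • m 2) = X 1 • (m 0 + a • m 2) := by
    rw [hX0, hX1, ← algebraMap_smul R b (m 2), ← algebraMap_smul R a (m 2)]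
    simp only [add_smul, smul_add, mul_smul]
    rw [h01, smul_comm (Y 0) (algebraMap k R b) (m 2), h02,
      smul_comm (Y 1) (algebraMap k R a) (m 2), h12,
      smul_comm (Y 2) (algebraMap k R a) (m 2), smul_comm (Y 2) (algebraMap k R b) (m 2),
      smul_comm (algebraMap k R a) (algebraMap k R b)]
    abel
  have c02 : X 0 • m 2 = X 2 • (m 0 + a • m 2) := by
    rw [hX0, hX2, ← algebraMap_smul R a (m 2)]
    simp only [add_smul, smul_add, mul_smul]
    rw [h02, smul_comm (Y 2) (algebraMap k R a) (m 2)]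
  have c12 : X 1 • m 2 = X 2 • (m 1 + b • m 2) := by
    rw [hX1, hX2, ← algebraMap_smul R b (m 2)]
    simp only [add_smul, smul_add, mul_smul]
    rw [h12, smul_comm (Y 2) (algebraMap k R b) (m 2)]
  obtain ⟨s, hs, hs'⟩ := h l ![m 0 + a • m 2, m 1 + b • m 2, m 2] (by
    intro i
    fin_cases i
    · exact Submodule.add_mem _ (hm 0) (Submodule.smul_mem _ _ (hm 2))
    · exact Submodule.add_mem _ (hm 1) (Submodule.smul_mem _ _ (hm 2))
    · exact hm 2) (by
    intro i j
    fin_cases i <;> fin_cases j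
    · rfl
    · exact c01
    · exact c02
    · exact c01.symm
    · rfl
    · exact c12
    · exact c02.symm
    · exact c12.symm
    · rfl)
  have e0 : m 0 + a • m 2 = X 0 • s := hs' 0
  have e1 : m 1 + b • m 2 = X 1 • s := hs' 1
  have e2 : m 2 = X 2 • s := hs' 2
  refine ⟨s, hs, fun i => ?_⟩
  fin_cases i
  · change m 0 = Y 0 • s
    rw [eq_sub_of_add_eq e0, e2, hX0, hX2, ← algebraMap_smul R a (Y 2 • s)]
    simp only [add_smul, mul_smul]
    abel
  · change m 1 = Y 1 • s
    rw [eq_sub_of_add_eq e1, e2, hX1, hX2, ← algebraMap_smul R b (Y 2 • s)]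
    simp only [add_smul, mul_smul]
    abel
  · rw [hX2] at e2
    exact e2

end Sh

namespace SmoothPlaneCurve

variable {δ : ℕ} (C : SmoothPlaneCurve δ)

lemma homog_eq (a b : ℂ) (i : ℤ) : C.homog i = rpiece ℂ (C.newX a b) i := by
  match i with
  | .negSucc _ => rfl
  | .ofNat n =>
    ext r
    constructor
    · rintro ⟨G, hG, rfl⟩
      refine ⟨shear a b G, shear_hom a b hG, ?_⟩
      change aeval (C.newX a b) (shear a b G) = _
      rw [aeval_newX, shear_shear', aeval_x]
      rfl
    · rintro ⟨G, hG, rfl⟩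
      refine ⟨shear (-a) (-b) G, shear_hom _ _ hG, ?_⟩
      change _ = aeval (C.newX a b) G
      rw [aeval_newX, aeval_x]
      rfl

/-- the graded pieces of `H ^ n` -/
noncomputable def hyperplaneSec (n : ℕ) (k : ℤ) : Submodule ℂ (Fin n → C.R) :=
  Submodule.pi Set.univ (fun _ => C.homog (k + 1))

lemma hyperplaneSec_eq (a b : ℂ) (n : ℕ) :
    C.hyperplaneSec n = freeSec ℂ (C.newX a b) n 1 := by
  funext k
  rw [hyperplaneSec, freeSec]
  congr 1
  funext _
  exact C.homog_eq a b (k + 1)

/-- The vector bundle `H ^ n` (the direct sum of `n` copies of the hyperplane bundle `H`):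
`H⁰(C, H ^ n (k))` is the space of `n`-tuples of elements of degree `k + 1` of `R`. -/
noncomputable def hyperplanePow (n : ℕ) : C.VectorBundle where
  M := Fin n → C.R
  sec := C.hyperplaneSec n
  isInternal := by
    obtain ⟨a, b, F, H⟩ := C.exists_ringHyp
    rw [C.hyperplaneSec_eq a b]
    exact free_isInternal H n 1
  mul_mem := by
    obtain ⟨a, b, F, H⟩ := C.exists_ringHyp
    obtain ⟨F₀, K, _, _, _, _, _, _, t, z, ht, P⟩ := exists_fields' H
    rw [C.hyperplaneSec_eq a b]
    have h := sh_mul_mem (-a) (-b) (free_gradHyp H P ht n 1).mul_mem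
    have h2 : sh (-a) (-b) (C.newX a b) = C.x := sh_sh a b C.x
    rwa [h2] at h
  finite := inferInstance
  torsionFree := by
    intro a m h
    by_cases ha : a = 0
    · exact Or.inl ha
    · right
      funext l
      have := congrFun h l
      exact (mul_eq_zero.1 this).resolve_left ha
  saturated := by
    obtain ⟨a, b, F, H⟩ := C.exists_ringHyp
    obtain ⟨F₀, K, _, _, _, _, _, _, t, z, ht, P⟩ := exists_fields' H
    rw [C.hyperplaneSec_eq a b]
    have h := sh_sat (-a) (-b) (free_gradHyp H P ht n 1).sat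
    have h2 : sh (-a) (-b) (C.newX a b) = C.x := sh_sh a b C.x
    rwa [h2] at h

end SmoothPlaneCurve

end Pool.Agent.Lib.H94
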