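import Pool.Agent.Lib.H94.Exact

/-!
# Families stable under a second coordinate: bundles on the curve
-/

namespace Pool.Agent.Lib.H94

open Polynomial Module

namespace TLat

variable {k F₀ V V' : Type*} [Field k] [Field F₀] [Algebra k F₀]
  [AddCommGroup V] [Module k V] [Module F₀ V] [IsScalarTower k F₀ V]
  [AddCommGroup V'] [Module k V'] [Module F₀ V'] [IsScalarTower k F₀ V'] {t : F₀}

lemma chi_congr (ht : IsRatGen k t) (M : TLat k V t) (M' : TLat k V' t)
    (hN : finrank F₀ V = finrank F₀ V') (hh : ∃ i₀, ∀ i, i₀ ≤ i → M.h i = M'.h i) :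
    M.chi = M'.chi := by
  obtain ⟨i₀, hi₀⟩ := hh
  obtain ⟨i₁, h₁⟩ := M.exists_U_eq_top
  obtain ⟨i₂, h₂⟩ := M'.exists_U_eq_top
  let i := max i₀ (max i₁ i₂)
  rw [M.chi_eq ht (h₁ i (by omega)), M'.chi_eq ht (h₂ i (by omega)), hi₀ i (by omega), hN]

/-- upper bounds for `χ` from upper bounds for the Hilbert function -/
lemma chi_le_of_h_le (ht : IsRatGen k t) (M : TLat k V t) (c : ℤ)
    (hh : ∃ i₀, ∀ i, i₀ ≤ i → (M.h i : ℤ) ≤ finrank F₀ V * i + c) :
    M.chi ≤ c := by
  obtain ⟨i₀, hi₀⟩ := hh
  have h1 := M.chi_le ht i₀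
  have h2 := hi₀ i₀ le_rfl
  linarith

lemma le_chi_of_le_h (ht : IsRatGen k t) (M : TLat k V t) (c : ℤ)
    (hh : ∃ i₀, ∀ i, i₀ ≤ i → finrank F₀ V * i + c ≤ (M.h i : ℤ)) :
    c ≤ M.chi := by
  obtain ⟨i₀, hi₀⟩ := hh
  obtain ⟨i₁, h₁⟩ := M.exists_U_eq_top
  let i := max i₀ i₁
  rw [M.chi_eq ht (h₁ i (by omega))]
  have := hi₀ i (by omega)
  linarith

end TLat

section Chain

variable {F₀ K V : Type*} [Field F₀] [Field K] [Algebra F₀ K]
  [AddCommGroup V] [Module F₀ V] [Module K V] [IsScalarTower F₀ K V]

/-- multiplication by `z : K` as an `F₀`-linear map -/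
noncomputable def zm (F₀ : Type*) {K : Type*} (V : Type*) [Field F₀] [Field K] [Algebra F₀ K]
    [AddCommGroup V] [Module F₀ V] [Module K V] [IsScalarTower F₀ K V] (z : K) : V →ₗ[F₀] V :=
  Algebra.lsmul F₀ F₀ V z

@[simp] lemma zm_apply (z : K) (v : V) : zm F₀ V z v = z • v := rfl

lemma smul_mem_of_stable {z : K} (hz : Algebra.adjoin F₀ {z} = ⊤) (U : Submodule F₀ V)
    (hU : ∀ v ∈ U, z • v ∈ U) (c : K) : ∀ v ∈ U, c • v ∈ U := by
  have hc : c ∈ Algebra.adjoin F₀ {z} := by rw [hz]; trivial
  induction hc using Algebra.adjoin_induction with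
  | mem x hx =>
    rw [Set.mem_singleton_iff] at hx
    subst hx
    exact hU
  | algebraMap r =>
    intro v hv
    rw [algebraMap_smul]
    exact U.smul_mem _ hv
  | add x y _ _ hx hy =>
    intro v hv
    rw [add_smul]
    exact U.add_mem (hx v hv) (hy v hv)
  | mul x y _ _ hx hy =>
    intro v hv
    rw [mul_smul]
    exact hx _ (hy v hv)

/-- The `K`-subspace given by a `z`-stable `F₀`-subspace. -/
def toKSub {z : K} (hz : Algebra.adjoin F₀ {z} = ⊤) (U : Submodule F₀ V)
    (hU : ∀ v ∈ U, z • v ∈ U) : Submodule K V where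
  carrier := U
  add_mem' := U.add_mem
  zero_mem' := U.zero_mem
  smul_mem' c v hv := smul_mem_of_stable hz U hU c v hv

/-- The chain lemma: if `U` contains no `K`-subspace, then its `K`-span has dimension at most
`dim U - dim (U ∩ z⁻¹ U)`. -/
lemma chain_aux {z : K} (hz : Algebra.adjoin F₀ {z} = ⊤) (hz0 : z ≠ 0) :
    ∀ (n : ℕ) (U : Submodule F₀ V) [FiniteDimensional F₀ U], finrank F₀ U = n →
      (∀ W : Submodule K V, (∀ w ∈ W, w ∈ U) → W = ⊥) →
      FiniteDimensional K (Submodule.span K (U : Set V)) ∧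
      finrank K (Submodule.span K (U : Set V)) +
        finrank F₀ (U ⊓ U.comap (zm F₀ V z) : Submodule F₀ V) ≤ finrank F₀ U := by
  intro n
  induction n using Nat.strong_induction_on with
  | _ n ih =>
    intro U _ hn hU
    set U' : Submodule F₀ V := U ⊓ U.comap (zm F₀ V z) with hU'
    have hle : U' ≤ U := inf_le_left
    by_cases heq : U' = U
    · -- `U` is stable, hence zero
      have hst : ∀ v ∈ U, z • v ∈ U := by
        intro v hv
        rw [← heq] at hv
        exact hv.2
      have h0 := hU (toKSub hz U hst) (fun w hw => hw)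
      have hUbot : U = ⊥ := by
        rw [Submodule.eq_bot_iff]
        intro v hv
        have : v ∈ toKSub hz U hst := hv
        rwa [h0, Submodule.mem_bot] at this
      have hU'bot : U' = ⊥ := by rw [heq, hUbot]
      rw [hU'bot, hUbot]
      have : Submodule.span K ((⊥ : Submodule F₀ V) : Set V) = ⊥ := by simp
      rw [this]
      exact ⟨inferInstance, by simp⟩
    · have hfU' : FiniteDimensional F₀ U' := Submodule.finiteDimensional_of_le hle
      have hlt : finrank F₀ U' < finrank F₀ U :=
        Submodule.finrank_lt_finrank_of_lt (lt_of_le_of_ne hle heq)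
      obtain ⟨hfin, hrk⟩ := ih (finrank F₀ U') (by omega) U' rfl
        (fun W hW => hU W fun w hw => hle (hW w hw))
      set U'' : Submodule F₀ V := U' ⊓ U'.comap (zm F₀ V z) with hU''
      -- `G = U' + z U' ≤ U`
      set G : Submodule F₀ V := U' ⊔ U'.map (zm F₀ V z) with hG
      have hGU : G ≤ U := by
        refine sup_le hle ?_
        rintro _ ⟨v, hv, rfl⟩
        exact hv.2
      have hinj : Function.Injective (zm F₀ V z) := by
        intro v w h
        have h' : z • v = z • w := h
        exact smul_right_injective V hz0 h'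
      have hGrk : finrank F₀ G + finrank F₀ U'' = finrank F₀ U' + finrank F₀ U' := by
        have h2 := Submodule.finrank_sup_add_finrank_inf_eq U' (U'.map (zm F₀ V z))
        rw [← hG] at h2
        have h3 : finrank F₀ (U'.map (zm F₀ V z)) = finrank F₀ U' :=
          (Submodule.equivMapOfInjective _ hinj U').finrank_eq.symm
        have h4 : U''.map (zm F₀ V z) = U' ⊓ U'.map (zm F₀ V z) := by
          ext v
          simp only [hU'', Submodule.mem_map, Submodule.mem_inf, Submodule.mem_comap]
          constructor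
          · rintro ⟨w, ⟨h1, h2⟩, rfl⟩
            exact ⟨h2, w, h1, rfl⟩
          · rintro ⟨h1, w, h2, rfl⟩
            exact ⟨w, ⟨h2, h1⟩, rfl⟩
        have h5 : finrank F₀ (U' ⊓ U'.map (zm F₀ V z) : Submodule F₀ V) = finrank F₀ U'' := by
          rw [← h4]
          exact (Submodule.equivMapOfInjective _ hinj _).finrank_eq.symm
        omega
      have hfG : FiniteDimensional F₀ G := Submodule.finiteDimensional_of_le hGU
      -- complement
      obtain ⟨D, hD⟩ := G.exists_isCompl
      have hsup : G ⊔ (D ⊓ U) = U := by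
        rw [← sup_inf_assoc_of_le D hGU, hD.sup_eq_top, top_inf_eq]
      have hinf : G ⊓ (D ⊓ U) = ⊥ := by
        rw [← inf_assoc, hD.inf_eq_bot, bot_inf_eq]
      have hC : FiniteDimensional F₀ (D ⊓ U : Submodule F₀ V) :=
        Submodule.finiteDimensional_of_le inf_le_right
      have hdim : finrank F₀ U = finrank F₀ G + finrank F₀ (D ⊓ U : Submodule F₀ V) := by
        have := Submodule.finrank_sup_add_finrank_inf_eq G (D ⊓ U)
        rw [hsup, hinf] at this
        simpa using this
      -- span of the complement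
      let b := Module.finBasis F₀ (D ⊓ U : Submodule F₀ V)
      have hfb : FiniteDimensional K (Submodule.span K (Set.range fun i => (b i : V))) :=
        FiniteDimensional.span_of_finite K (Set.finite_range _)
      have hbrk : finrank K (Submodule.span K (Set.range fun i => (b i : V))) ≤
          finrank F₀ (D ⊓ U : Submodule F₀ V) := by
        refine (finrank_range_le_card _).trans ?_
        simp
      have hspan : Submodule.span K (U : Set V) ≤
          Submodule.span K (U' : Set V) ⊔ Submodule.span K (Set.range fun i => (b i : V)) := by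
        rw [Submodule.span_le]
        intro v hv
        have h1 : v ∈ G ⊔ (D ⊓ U) := by rw [hsup]; exact hv
        obtain ⟨a, ha, c, hc, rfl⟩ := Submodule.mem_sup.1 h1
        refine Submodule.add_mem _ ?_ ?_
        · obtain ⟨a1, ha1, a2, ha2, rfl⟩ := Submodule.mem_sup.1 ha
          obtain ⟨a3, ha3, rfl⟩ := ha2
          refine Submodule.mem_sup_left (Submodule.add_mem _ (Submodule.subset_span ha1) ?_)
          exact Submodule.smul_mem _ z (Submodule.subset_span ha3)
        · refine Submodule.mem_sup_right ?_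
          have h1 : (⟨c, hc⟩ : (D ⊓ U : Submodule F₀ V)) ∈ Submodule.span F₀ (Set.range b) := by
            rw [b.span_eq]; trivial
          have h2 : c ∈ Submodule.span F₀ (Set.range fun i => (b i : V)) := by
            have := Submodule.mem_map_of_mem (f := (D ⊓ U : Submodule F₀ V).subtype) h1
            rw [Submodule.map_span, ← Set.range_comp] at this
            exact this
          exact Submodule.span_subset_span F₀ K _ h2
      refine ⟨Submodule.finiteDimensional_of_le hspan, ?_⟩
      have h6 := Submodule.finrank_mono hspan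
      have h7 := Submodule.finrank_add_le_finrank_add_finrank (Submodule.span K (U' : Set V))
        (Submodule.span K (Set.range fun i => (b i : V)))
      omega

/-- If `U` contains no `K`-subspace and spans `V`, then `dim (U + zU) ≥ dim U + dim_K V`. -/
lemma chain {z : K} (hz : Algebra.adjoin F₀ {z} = ⊤) (hz0 : z ≠ 0) (U U₁ : Submodule F₀ V)
    [FiniteDimensional F₀ U] [FiniteDimensional F₀ U₁] (hUU : U ≤ U₁)
    (hzU : ∀ v ∈ U, z • v ∈ U₁)
    (hU : ∀ W : Submodule K V, (∀ w ∈ W, w ∈ U) → W = ⊥)
    (hspan : Submodule.span K (U : Set V) = ⊤) :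
    finrank F₀ U + finrank K V ≤ finrank F₀ U₁ := by
  obtain ⟨h1, h2⟩ := chain_aux hz hz0 _ U rfl hU
  rw [hspan, finrank_top] at h2
  set U' : Submodule F₀ V := U ⊓ U.comap (zm F₀ V z) with hU'
  have hinj : Function.Injective (zm F₀ V z) := by
    intro v w h
    have h' : z • v = z • w := h
    exact smul_right_injective V hz0 h'
  have h3 := Submodule.finrank_sup_add_finrank_inf_eq U (U.map (zm F₀ V z))
  have h4 : finrank F₀ (U.map (zm F₀ V z)) = finrank F₀ U :=
    (Submodule.equivMapOfInjective _ hinj U).finrank_eq.symm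
  have h5 : U'.map (zm F₀ V z) = U ⊓ U.map (zm F₀ V z) := by
    ext v
    simp only [hU', Submodule.mem_map, Submodule.mem_inf, Submodule.mem_comap]
    constructor
    · rintro ⟨w, ⟨h1, h2⟩, rfl⟩
      exact ⟨h2, w, h1, rfl⟩
    · rintro ⟨h1, w, h2, rfl⟩
      exact ⟨w, ⟨h2, h1⟩, rfl⟩
  have h6 : finrank F₀ (U ⊓ U.map (zm F₀ V z) : Submodule F₀ V) = finrank F₀ U' := by
    rw [← h5]
    exact (Submodule.equivMapOfInjective _ hinj _).finrank_eq.symm
  have h7 : (U ⊔ U.map (zm F₀ V z) : Submodule F₀ V) ≤ U₁ := by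
    refine sup_le hUU ?_
    rintro _ ⟨v, hv, rfl⟩
    exact hzU v hv
  have h8 := Submodule.finrank_mono h7
  omega

end Chain

end Pool.Agent.Lib.H94
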