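import Mathlib

/-!
# The bounding function
-/

namespace Pool.Agent.Lib.H94

/-- first auxiliary function -/
def ta (δ : ℕ) (s : ℚ) : ℚ := min 1 (s / (δ - 1))

/-- second auxiliary function -/
def tb (δ : ℕ) (s : ℚ) : ℚ := max 0 (s - (δ - 1))

/-- value on the `m`-th block -/
def tf (δ : ℕ) (m s : ℚ) : ℚ := (m + 1) * (m + 2) / 2 + (m + 1) * ta δ s + tb δ s

/-- The bounding function for `h⁰ / rank` in terms of the slope. -/
def T (δ : ℕ) (x : ℚ) : ℚ :=
  if x < 0 then 0 else if (δ : ℚ) * (δ - 3) < x then x - δ * (δ - 3) / 2 else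
    tf δ (⌊x / δ⌋ : ℚ) (x - δ * (⌊x / δ⌋ : ℚ))

section

variable {δ : ℕ} (hδ : 5 ≤ δ)

include hδ

lemma five_le_cast : (5 : ℚ) ≤ δ := by exact_mod_cast hδ

lemma ta_nonneg {s : ℚ} (hs : 0 ≤ s) : 0 ≤ ta δ s := by
  have := five_le_cast hδ
  refine le_min zero_le_one (div_nonneg hs (by linarith))

omit hδ in
lemma ta_le_one (s : ℚ) : ta δ s ≤ 1 := min_le_left _ _

omit hδ in
lemma tb_nonneg (s : ℚ) : 0 ≤ tb δ s := le_max_left _ _

/-- `(δ-1) a + b = s`. -/
lemma ta_tb (s : ℚ) : (δ - 1) * ta δ s + tb δ s = s := by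
  have h5 := five_le_cast hδ
  have h1 : (0 : ℚ) < δ - 1 := by linarith
  rw [ta, tb]
  rcases le_total s (δ - 1) with h | h
  · have e1 : s / (δ - 1) ≤ 1 := by rw [div_le_one h1]; exact h
    rw [min_eq_right e1, max_eq_left (by linarith)]
    field_simp
    ring
  · have e1 : 1 ≤ s / (δ - 1) := by rw [one_le_div h1]; exact h
    rw [min_eq_left e1, max_eq_right (by linarith)]
    ring

lemma ta_mono {s s' : ℚ} (h : s ≤ s') : ta δ s ≤ ta δ s' := by
  have h5 := five_le_cast hδ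
  exact min_le_min le_rfl (div_le_div_of_nonneg_right h (by linarith))

omit hδ in
lemma tb_mono {s s' : ℚ} (h : s ≤ s') : tb δ s ≤ tb δ s' :=
  max_le_max le_rfl (by linarith)

omit hδ in
lemma tb_le_one {s : ℚ} (h : s ≤ δ) : tb δ s ≤ 1 :=
  max_le zero_le_one (by linarith)

omit hδ in
lemma tb_lt_one {s : ℚ} (h : s < δ) : tb δ s < 1 :=
  max_lt zero_lt_one (by linarith)

/-- `b > 0` implies `a = 1`. -/
lemma ta_eq_one {s : ℚ} (h : 0 < tb δ s) : ta δ s = 1 := by
  have h5 := five_le_cast hδ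
  have h1 : (0 : ℚ) < δ - 1 := by linarith
  have h2 : (δ : ℚ) - 1 ≤ s := by
    by_contra h3
    push Not at h3
    have : tb δ s = 0 := max_eq_left (by linarith)
    linarith
  exact min_eq_left (by rw [one_le_div h1]; exact h2)

lemma tf_mono_right {m s s' : ℚ} (hm : 0 ≤ m) (h : s ≤ s') : tf δ m s ≤ tf δ m s' := by
  have h1 := ta_mono hδ h
  have h2 := tb_mono (δ := δ) h
  have h3 := mul_le_mul_of_nonneg_left h1 (by linarith : (0 : ℚ) ≤ m + 1)
  unfold tf
  linarith

/-- Lipschitz on each block. -/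
lemma tf_lip {m s s' : ℚ} (hm' : m + 1 ≤ δ - 1) (h : s ≤ s') :
    tf δ m s' ≤ tf δ m s + (s' - s) := by
  have h1 := ta_mono hδ h
  have h2 := tb_mono (δ := δ) h
  have h3 := ta_tb hδ s
  have h4 := ta_tb hδ s'
  unfold tf
  nlinarith [mul_le_mul_of_nonneg_right hm' (sub_nonneg.2 h1)]

lemma tf_end (m : ℚ) : tf δ m δ = tf δ (m + 1) 0 := by
  have h5 := five_le_cast hδ
  have h1 : (0 : ℚ) < δ - 1 := by linarith
  have e1 : ta δ δ = 1 := min_eq_left (by rw [one_le_div h1]; linarith)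
  have e2 : tb δ δ = 1 := by rw [tb]; rw [max_eq_right (by linarith)]; ring
  have e3 : ta δ 0 = 0 := by rw [ta, zero_div]; exact min_eq_right zero_le_one
  have e4 : tb δ 0 = 0 := max_eq_left (by linarith)
  unfold tf
  rw [e1, e2, e3, e4]
  ring

lemma tf_zero (m : ℚ) : tf δ m 0 = (m + 1) * (m + 2) / 2 := by
  have h5 := five_le_cast hδ
  have e3 : ta δ 0 = 0 := by rw [ta, zero_div]; exact min_eq_right zero_le_one
  have e4 : tb δ 0 = 0 := max_eq_left (by linarith)
  unfold tf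
  rw [e3, e4]
  ring

lemma T_of_neg {x : ℚ} (hx : x < 0) : T δ x = 0 := if_pos hx

lemma T_of_gt {x : ℚ} (hx : (δ : ℚ) * (δ - 3) < x) : T δ x = x - δ * (δ - 3) / 2 := by
  have h5 := five_le_cast hδ
  have : ¬ x < 0 := by
    have : (0 : ℚ) ≤ δ * (δ - 3) := mul_nonneg (by linarith) (by linarith)
    linarith
  rw [T, if_neg this, if_pos hx]

lemma T_eq {m : ℕ} {s : ℚ} (hs : 0 ≤ s) (hs' : s < δ) (hx : δ * (m : ℚ) + s ≤ δ * (δ - 3)) :
    T δ (δ * (m : ℚ) + s) = tf δ m s := by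
  have h5 := five_le_cast hδ
  have h0 : ¬ (δ * (m : ℚ) + s < 0) := by
    have : (0 : ℚ) ≤ δ * m := by positivity
    linarith
  have h1 : ¬ ((δ : ℚ) * (δ - 3) < δ * (m : ℚ) + s) := not_lt.2 hx
  have h2 : ⌊(δ * (m : ℚ) + s) / δ⌋ = (m : ℤ) := by
    rw [Int.floor_eq_iff]
    constructor
    · rw [le_div_iff₀ (by linarith)]
      push_cast
      linarith
    · rw [div_lt_iff₀ (by linarith)]
      push_cast
      linarith
  rw [T, if_neg h0, if_neg h1, h2]
  push_cast
  congr 1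
  ring

lemma exists_decomp {x : ℚ} (hx : 0 ≤ x) : ∃ (m : ℕ) (s : ℚ), 0 ≤ s ∧ s < δ ∧
    x = δ * (m : ℚ) + s := by
  have h5 := five_le_cast hδ
  have hpos : (0 : ℚ) < δ := by linarith
  have h0 : 0 ≤ ⌊x / δ⌋ := Int.floor_nonneg.2 (div_nonneg hx hpos.le)
  obtain ⟨m, hm⟩ := Int.eq_ofNat_of_zero_le h0
  refine ⟨m, x - δ * m, ?_, ?_, by ring⟩
  · have := Int.floor_le (x / δ)
    rw [hm, le_div_iff₀ hpos] at this
    push_cast at this
    linarith
  · have := Int.lt_floor_add_one (x / δ)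
    rw [hm, div_lt_iff₀ hpos] at this
    push_cast at this
    linarith

/-- the block index of a point of `[0, δ(δ-3)]` -/
lemma block_le {m : ℕ} {s : ℚ} (hs : 0 ≤ s) (hx : δ * (m : ℚ) + s ≤ δ * (δ - 3)) :
    (m : ℚ) ≤ δ - 3 := by
  have h5 := five_le_cast hδ
  have hpos : (0 : ℚ) < δ := by linarith
  by_contra h
  push Not at h
  nlinarith

lemma one_le_T {x : ℚ} (hx : 0 ≤ x) (hx' : x ≤ δ * (δ - 3)) : 1 ≤ T δ x := by
  obtain ⟨m, s, hs, hs', rfl⟩ := exists_decomp hδ hx
  rw [T_eq hδ hs hs' hx', tf]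
  have h1 := ta_nonneg hδ hs
  have h2 := tb_nonneg (δ := δ) s
  have h3 : (0 : ℚ) ≤ m := by positivity
  nlinarith [mul_nonneg h3 h1, mul_nonneg h3 h3]

/-- P1 on `[0, δ(δ-3)]` -/
lemma T_mono_aux {x y : ℚ} (hx : 0 ≤ x) (hxy : x ≤ y) (hy : y ≤ δ * (δ - 3)) :
    T δ x ≤ T δ y := by
  have h5 := five_le_cast hδ
  have hpos : (0 : ℚ) < δ := by linarith
  obtain ⟨m, s, hs, hs', rfl⟩ := exists_decomp hδ hx
  obtain ⟨m', s₁, hs₁, hs₁', rfl⟩ := exists_decomp hδ (hx.trans hxy)
  rw [T_eq hδ hs hs' (hxy.trans hy), T_eq hδ hs₁ hs₁' hy]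
  have hm0 : (0 : ℚ) ≤ m := by positivity
  rcases lt_trichotomy m m' with h | h | h
  · have h1 : (m : ℚ) + 1 ≤ m' := by exact_mod_cast h
    have e1 := tf_mono_right hδ (m := m) hm0 hs'.le
    rw [tf_end hδ] at e1
    have e2 := tf_mono_right hδ (m := m') (by linarith) hs₁
    have e3 : tf δ (m + 1) 0 ≤ tf δ m' 0 := by
      rw [tf_zero hδ, tf_zero hδ]
      nlinarith
    linarith
  · subst h
    exact tf_mono_right hδ hm0 (by linarith)
  · exfalso
    have h1 : (m' : ℚ) + 1 ≤ m := by exact_mod_cast h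
    nlinarith

/-- P1: monotonicity up to `δ(δ-3)` -/
lemma T_mono {x y : ℚ} (hxy : x ≤ y) (hy0 : 0 ≤ y) (hy : y ≤ δ * (δ - 3)) :
    T δ x ≤ T δ y := by
  rcases lt_or_ge x 0 with h | h
  · rw [T_of_neg hδ h]
    exact zero_le_one.trans (one_le_T hδ hy0 hy)
  · exact T_mono_aux hδ h hxy hy

/-- P2 on `[0, δ(δ-3)]` -/
lemma T_lip_aux {x y : ℚ} (hx : 0 ≤ x) (hxy : x ≤ y) (hy : y ≤ δ * (δ - 3)) :
    T δ y ≤ T δ x + (y - x) := by
  have h5 := five_le_cast hδ
  have hpos : (0 : ℚ) < δ := by linarith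
  obtain ⟨m, s, hs, hs', rfl⟩ := exists_decomp hδ hx
  obtain ⟨m', s₁, hs₁, hs₁', rfl⟩ := exists_decomp hδ (hx.trans hxy)
  rw [T_eq hδ hs hs' (hxy.trans hy), T_eq hδ hs₁ hs₁' hy]
  have hm0 : (0 : ℚ) ≤ m := by positivity
  have hb := block_le hδ hs (hxy.trans hy)
  have hb' := block_le hδ hs₁ hy
  rcases lt_trichotomy m m' with h | h | h
  · have h1 : (m : ℚ) + 1 ≤ m' := by exact_mod_cast h
    have e1 := tf_lip hδ (m := m) (by linarith) hs'.le
    rw [tf_end hδ] at e1
    have e2 := tf_lip hδ (m := m') (by linarith) hs₁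
    have e3 : tf δ m' 0 ≤ tf δ (m + 1) 0 + δ * (m' - m - 1) := by
      rw [tf_zero hδ, tf_zero hδ]
      nlinarith [mul_nonneg (by linarith : (0 : ℚ) ≤ m' - m - 1)
        (by linarith : (0 : ℚ) ≤ 2 * δ - (m' + m + 4))]
    linarith
  · subst h
    have := tf_lip hδ (m := m) (s := s) (s' := s₁) (by linarith) (by linarith)
    linarith
  · exfalso
    have h1 : (m' : ℚ) + 1 ≤ m := by exact_mod_cast h
    nlinarith

lemma T_top : T δ (δ * (δ - 3)) = δ * (δ - 3) / 2 + 1 := by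
  have h5 := five_le_cast hδ
  have hpos : (0 : ℚ) < δ := by linarith
  have e1 : (((δ - 3 : ℕ) : ℕ) : ℚ) = δ - 3 := by
    rw [Nat.cast_sub (by omega)]; norm_num
  have h := T_eq hδ (m := δ - 3) (s := 0) le_rfl hpos (by rw [e1]; linarith)
  rw [e1, add_zero] at h
  rw [h, tf_zero hδ]
  ring

/-- P4 -/
lemma lt_T {x : ℚ} (hx : 0 ≤ x) (hx' : x ≤ δ * (δ - 3)) : x - δ * (δ - 3) / 2 < T δ x := by
  have h1 := T_lip_aux hδ hx hx' le_rfl
  rw [T_top hδ] at h1
  linarith

/-- P2 -/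
lemma T_lip {x y : ℚ} (hx : 0 ≤ x) (hxy : x ≤ y) : T δ y ≤ T δ x + (y - x) := by
  rcases le_or_gt y (δ * (δ - 3)) with hy | hy
  · exact T_lip_aux hδ hx hxy hy
  · rw [T_of_gt hδ hy]
    rcases le_or_gt x (δ * (δ - 3)) with h | h
    · have := lt_T hδ hx h
      linarith
    · rw [T_of_gt hδ h]
      linarith

/-- P3 -/
lemma T_second {x : ℚ} (hx : 0 ≤ x) (hx' : x ≤ δ * (δ - 3)) :
    T δ (x + δ) + T δ (x - δ) ≤ 2 * T δ x + 1 := by
  have h5 := five_le_cast hδ
  have hpos : (0 : ℚ) < δ := by linarith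
  obtain ⟨m, s, hs, hs', rfl⟩ := exists_decomp hδ hx
  rw [T_eq hδ hs hs' hx']
  have hm0 : (0 : ℚ) ≤ m := by positivity
  have hb := block_le hδ hs hx'
  have ha0 := ta_nonneg hδ hs
  have ha1 := ta_le_one (δ := δ) s
  have hb0 := tb_nonneg (δ := δ) s
  have hab := ta_tb hδ s
  -- upper term
  have hup : T δ (δ * (m : ℚ) + s + δ) ≤ tf δ (m + 1) s := by
    rcases le_or_gt (δ * (m : ℚ) + s + δ) (δ * (δ - 3)) with h | h
    · have e1 : δ * (m : ℚ) + s + δ = δ * ((m + 1 : ℕ) : ℚ) + s := by push_cast; ring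
      rw [e1] at h ⊢
      rw [T_eq hδ hs hs' h]
      push_cast
      exact le_rfl
    · rw [T_of_gt hδ h]
      -- `m ≥ δ - 4`
      have h2 : (δ : ℚ) - 5 < m := by
        by_contra h3
        push Not at h3
        nlinarith
      have h3 : δ - 4 ≤ m := by
        have h4 : (δ : ℚ) < m + 5 := by linarith
        have h6 : δ < m + 5 := by exact_mod_cast h4
        omega
      have h4 : m ≤ δ - 3 := by
        have h6 : (m : ℚ) + 3 ≤ δ := by linarith
        have h7 : m + 3 ≤ δ := by exact_mod_cast h6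
        omega
      have h5' : (m : ℚ) = δ - 4 ∨ (m : ℚ) = δ - 3 := by
        have : m = δ - 4 ∨ m = δ - 3 := by omega
        rcases this with h | h
        · left; rw [h, Nat.cast_sub (by omega)]; norm_num
        · right; rw [h, Nat.cast_sub (by omega)]; norm_num
      unfold tf
      rcases h5' with h6 | h6
      · rw [h6]
        nlinarith
      · have hs0 : s = 0 := by
          rw [h6] at hx'
          linarith
        rw [h6, hs0]
        nlinarith [ta_nonneg hδ (le_refl (0:ℚ)), tb_nonneg (δ := δ) 0]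
  rcases Nat.eq_zero_or_pos m with h0 | h0
  · subst h0
    have e1 : T δ (δ * ((0 : ℕ) : ℚ) + s - δ) = 0 := T_of_neg hδ (by push_cast; linarith)
    rw [e1]
    unfold tf at hup ⊢
    push_cast at hup ⊢
    nlinarith
  · obtain ⟨m, rfl⟩ : ∃ m', m = m' + 1 := ⟨m - 1, by omega⟩
    have e1 : δ * ((m + 1 : ℕ) : ℚ) + s - δ = δ * (m : ℚ) + s := by push_cast; ring
    rw [e1, T_eq hδ hs hs' (by push_cast at hx'; linarith)]
    unfold tf at hup ⊢
    push_cast at hup ⊢
    nlinarith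

lemma T_zero : T δ 0 = 1 := by
  have h5 := five_le_cast hδ
  have := T_eq hδ (m := 0) (s := 0) le_rfl (by linarith) (by push_cast; nlinarith)
  rw [tf_zero hδ] at this
  push_cast at this
  simpa using this

lemma T_delta : T δ δ = 3 := by
  have h5 := five_le_cast hδ
  have := T_eq hδ (m := 1) (s := 0) le_rfl (by linarith) (by push_cast; nlinarith)
  rw [tf_zero hδ] at this
  push_cast at this
  norm_num at this
  exact this

lemma T_two_delta : T δ (2 * δ) = 6 := by
  have h5 := five_le_cast hδ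
  have := T_eq hδ (m := 2) (s := 0) le_rfl (by linarith) (by push_cast; nlinarith)
  rw [tf_zero hδ] at this
  push_cast at this
  norm_num at this
  rw [mul_comm]
  exact this

/-- P6: the numerical heart of the uniqueness statement. -/
lemma gamma_bound {x : ℚ} (hx : 0 ≤ x) (hx' : x ≤ δ * (δ - 3) / 2) (hT : 2 ≤ T δ x) :
    (δ : ℚ) - 4 ≤ x + 2 - 2 * T δ x ∧ ((δ : ℚ) - 4 = x + 2 - 2 * T δ x → x = δ) := by
  have h5 := five_le_cast hδ
  have hpos : (0 : ℚ) < δ := by linarith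
  have hG : (0 : ℚ) ≤ δ * (δ - 3) := mul_nonneg (by linarith) (by linarith)
  obtain ⟨m, s, hs, hs', rfl⟩ := exists_decomp hδ hx
  rw [T_eq hδ hs hs' (by linarith)] at hT ⊢
  have ha0 := ta_nonneg hδ hs
  have ha1 := ta_le_one (δ := δ) s
  have hb0 := tb_nonneg (δ := δ) s
  have hb1 := tb_lt_one hs'
  have hab := ta_tb hδ s
  have hone : 0 < tb δ s → ta δ s = 1 := ta_eq_one hδ
  unfold tf at hT ⊢
  generalize ta δ s = a at *
  generalize tb δ s = b at *
  rcases Nat.eq_zero_or_pos m with h0 | h0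
  · subst h0
    push_cast at hT ⊢
    have ha : a = 1 := by
      rcases eq_or_lt_of_le hb0 with h | h
      · subst h
        linarith
      · exact hone h
    subst ha
    constructor
    · linarith
    · intro h
      linarith
  · have hm1 : (1 : ℚ) ≤ m := by exact_mod_cast h0
    have hmle : 2 * (m : ℚ) ≤ δ - 3 := by
      by_contra h
      push Not at h
      nlinarith
    have key : δ * (m : ℚ) + s + 2 - 2 * (((m : ℚ) + 1) * (m + 2) / 2 + (m + 1) * a + b) =
        (δ - 4) + ((m - 1) * (δ - m - 4) + (δ - 3 - 2 * m) * a - b) := by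
      rw [← hab]; ring
    rw [key]
    have hk1 : 0 ≤ ((m : ℚ) - 1) * (δ - m - 4) := mul_nonneg (by linarith) (by linarith)
    rcases eq_or_lt_of_le hb0 with h | h
    · subst h
      have hk2 : 0 ≤ ((δ : ℚ) - 3 - 2 * m) * a := mul_nonneg (by linarith) ha0
      constructor
      · linarith
      · intro he
        have he1 : ((m : ℚ) - 1) * (δ - m - 4) = 0 := by linarith
        have he2 : ((δ : ℚ) - 3 - 2 * m) * a = 0 := by linarith
        have hm : (m : ℚ) = 1 := by
          rcases mul_eq_zero.1 he1 with h | h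
          · linarith
          · -- `m = δ - 4`, so `2δ - 8 ≤ δ - 3`, `δ ≤ 5`
            linarith
        have hs0 : s = 0 := by
          rcases mul_eq_zero.1 he2 with h | h
          · -- `δ = 5`, `x ≤ 5`
            rw [hm] at h hx'
            have : (δ : ℚ) = 5 := by linarith
            rw [this] at hx'
            linarith
          · rw [h] at hab
            linarith
        rw [hm, hs0]
        ring
    · have ha := hone h
      subst ha
      have hs0 : 0 < s := by linarith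
      have hlt : 2 * (m : ℚ) < δ - 3 := by
        by_contra h
        push Not at h
        have : 2 * (m : ℚ) = δ - 3 := le_antisymm hmle h
        nlinarith
      have hlt' : 2 * (m : ℚ) + 1 ≤ δ - 3 := by
        have e1 : 2 * (m : ℚ) + 3 < δ := by linarith
        have e2 : 2 * m + 3 < δ := by exact_mod_cast e1
        have e3 : 2 * m + 3 + 1 ≤ δ := e2
        have e4 : 2 * (m : ℚ) + 3 + 1 ≤ δ := by exact_mod_cast e3
        linarith
      constructor
      · linarith
      · intro he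
        linarith

end

end Pool.Agent.Lib.H94
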