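import Pool.Agent.Lib.H94.Vanish
import Pool.Agent.Lib.H94.TFun

/-!
# The main bound
-/

namespace Pool.Agent.Lib.H94

open Polynomial Module

set_option linter.unusedSectionVars false

universe u v w x

variable {k : Type u} {F₀ : Type v} {K : Type w} [Field k] [Field F₀] [Field K] [Algebra k F₀]
  [Algebra F₀ K] [Algebra k K] {t : F₀} {z : K} {δ : ℕ}

namespace Lat

section

variable {V : Type x} [AddCommGroup V] [Module k V] [Module F₀ V] [Module K V]
  [IsScalarTower k F₀ V] [IsScalarTower F₀ K V] [IsScalarTower k K V]

variable (M : Lat k V t z)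

/-- The slope of a bundle. -/
noncomputable def slope (M : Lat k V t z) (δ : ℕ) : ℚ :=
  (M.chi : ℚ) / finrank K V + δ * (δ - 3) / 2

lemma chi_eq_slope (hV : 0 < finrank K V) :
    (M.chi : ℚ) = (M.slope δ - δ * (δ - 3) / 2) * finrank K V := by
  have : (finrank K V : ℚ) ≠ 0 := by exact_mod_cast hV.ne'
  rw [slope]
  field_simp
  ring

lemma Semistable.sub_chi_le {M : Lat k V t z} {C : CurveHyp k t z δ} (hM : M.Semistable C)
    (hV : 0 < finrank K V) (W : Submodule K V) :
    ((M.sub C W).chi : ℚ) ≤ (M.slope δ - δ * (δ - 3) / 2) * finrank K W := by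
  have h1 := hM W
  have h2 : ((M.sub C W).chi : ℚ) * finrank K V ≤ M.chi * finrank K W := by exact_mod_cast h1
  rw [M.chi_eq_slope (δ := δ) hV] at h2
  have h3 : (0 : ℚ) < finrank K V := by exact_mod_cast hV
  refine le_of_mul_le_mul_right ?_ h3
  linarith

lemma semistable_of_max (C : CurveHyp k t z δ) (W : Submodule K V)
    (hW : ∀ W' : Submodule K V,
      (M.sub C W').chi * finrank K W ≤ (M.sub C W).chi * finrank K W') :
    (M.sub C W).Semistable C := by
  intro W'
  rw [chi_sub_sub]
  have h1 := hW (W'.map W.subtype)
  have h2 : finrank K (W'.map W.subtype) = finrank K W' :=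
    (Submodule.equivMapOfInjective W.subtype W.subtype_injective W').finrank_eq.symm
  rwa [h2] at h1

lemma h_eq_zero_of_finrank (hV : finrank K V = 0) (i : ℤ) : M.h i = 0 := by
  have := M.finiteDimensionalK
  have : Subsingleton V := Module.finrank_zero_iff.1 hV
  exact finrank_zero_of_subsingleton

lemma chi_eq_zero_of_finrank (C : CurveHyp k t z δ) (hV : finrank K V = 0) : M.chi = 0 := by
  obtain ⟨i, hi⟩ := M.toTLat.exists_U_eq_top
  rw [M.toTLat.chi_eq C.ht (hi i le_rfl), M.h_eq_zero_of_finrank hV, finrank_eq C V, hV]
  simp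

end

/-- The main bound holds for all bundles of rank less than `n`. -/
def BoundUpTo (C : CurveHyp k t z δ) (n : ℕ) : Prop :=
  ∀ (V : Type x) [AddCommGroup V] [Module k V] [Module F₀ V] [Module K V]
    [IsScalarTower k F₀ V] [IsScalarTower F₀ K V] [IsScalarTower k K V] (M : Lat k V t z),
    0 < finrank K V → finrank K V < n → M.Semistable C →
      (M.h 0 : ℚ) ≤ finrank K V * T δ (M.slope δ)

/-- Bundles all of whose sub-bundles have slope `≤ x`. -/
lemma bound_sub (C : CurveHyp k t z δ) {n : ℕ} (hB : BoundUpTo.{u, v, w, x} C n) {y : ℚ}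
    (hy0 : 0 ≤ y) (hy : y ≤ δ * (δ - 3)) :
    ∀ (d : ℕ) (V : Type x) [AddCommGroup V] [Module k V] [Module F₀ V] [Module K V]
      [IsScalarTower k F₀ V] [IsScalarTower F₀ K V] [IsScalarTower k K V] (M : Lat k V t z),
      finrank K V = d → d < n →
      (∀ W : Submodule K V, ((M.sub C W).chi : ℚ) ≤ (y - δ * (δ - 3) / 2) * finrank K W) →
      (M.h 0 : ℚ) ≤ finrank K V * T δ y := by
  intro d
  induction d using Nat.strong_induction_on with
  | _ d ih =>
    intro V _ _ _ _ _ _ _ M hd hdn hM
    have hfK := M.finiteDimensionalK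
    rcases Nat.eq_zero_or_pos d with h0 | h0
    · subst h0
      rw [M.h_eq_zero_of_finrank hd, hd]
      simp
    · obtain ⟨W, hW0, hW⟩ := M.exists_max_slope C (by omega)
      have hss := M.semistable_of_max C W hW
      have hWpos : 0 < finrank K W := Submodule.one_le_finrank_iff.2 hW0
      have hWle : finrank K W ≤ finrank K V := Submodule.finrank_le W
      have hWq : (0 : ℚ) < finrank K W := by exact_mod_cast hWpos
      -- the sub-bundle
      have h1 := hB W (M.sub C W) hWpos (by omega) hss
      have hsl : (M.sub C W).slope δ ≤ y := by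
        have e1 := hM W
        rw [(M.sub C W).chi_eq_slope (δ := δ) hWpos] at e1
        have := le_of_mul_le_mul_right e1 hWq
        linarith
      have h2 := T_mono C.hδ5 hsl hy0 hy
      have h3 : ((M.sub C W).h 0 : ℚ) ≤ finrank K W * T δ y :=
        h1.trans (mul_le_mul_of_nonneg_left h2 hWq.le)
      -- the quotient
      have hq : finrank K (V ⧸ W) + finrank K W = finrank K V :=
        Submodule.finrank_quotient_add_finrank W
      have h4 := ih (finrank K (V ⧸ W)) (by omega) (V ⧸ W) (M.quo C W) rfl (by omega) (by
        intro W₂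
        rw [chi_quo_sub]
        have e1 := hW (W₂.comap W.mkQ)
        have hrk : finrank K (W₂.comap W.mkQ) = finrank K W₂ + finrank K W := by
          have e1 := finrank_map_add_finrank_comap W.subtype W.mkQ W.subtype_injective
            (by simp) (W₂.comap W.mkQ)
          have e2 : (W₂.comap W.mkQ).map W.mkQ = W₂ :=
            Submodule.map_comap_eq_of_surjective W.mkQ_surjective W₂
          have e3 : (W₂.comap W.mkQ).comap W.subtype = ⊤ := by
            rw [eq_top_iff]
            intro w _
            change W.mkQ w ∈ W₂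
            rw [Submodule.mkQ_apply, (Submodule.Quotient.mk_eq_zero W).2 w.2]
            exact Submodule.zero_mem _
          rw [e2, e3, finrank_top] at e1
          exact e1.symm
        rw [hrk] at e1
        have e2 : ((M.sub C (W₂.comap W.mkQ)).chi : ℚ) * finrank K W ≤
          (M.sub C W).chi * (finrank K W₂ + finrank K W) := by exact_mod_cast e1
        have e3 := hM W
        have e4 : (0 : ℚ) ≤ finrank K W₂ := by positivity
        have e5 := mul_le_mul_of_nonneg_right e3 e4
        refine le_of_mul_le_mul_right ?_ hWq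
        push_cast
        linarith)
      have h5 : (M.h 0 : ℚ) ≤ (M.sub C W).h 0 + (M.quo C W).h 0 := by
        exact_mod_cast M.h_le C W 0
      have h6 : (finrank K V : ℚ) = finrank K (V ⧸ W) + finrank K W := by exact_mod_cast hq.symm
      rw [h6]
      linarith

/-- Bundles all of whose quotient bundles have slope `≥ x`. -/
lemma bound_quo (C : CurveHyp k t z δ) {n : ℕ} (hB : BoundUpTo.{u, v, w, x} C n) {y : ℚ}
    (hy0 : 0 ≤ y) :
    ∀ (d : ℕ) (V : Type x) [AddCommGroup V] [Module k V] [Module F₀ V] [Module K V]
      [IsScalarTower k F₀ V] [IsScalarTower F₀ K V] [IsScalarTower k K V] (M : Lat k V t z),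
      finrank K V = d → d < n →
      (∀ W : Submodule K V, (y - δ * (δ - 3) / 2) * (finrank K V - finrank K W) ≤
        (M.chi : ℚ) - (M.sub C W).chi) →
      (M.h 0 : ℚ) ≤ finrank K V * T δ y + (M.chi - (y - δ * (δ - 3) / 2) * finrank K V) := by
  intro d
  induction d using Nat.strong_induction_on with
  | _ d ih =>
    intro V _ _ _ _ _ _ _ M hd hdn hM
    have hfK := M.finiteDimensionalK
    rcases Nat.eq_zero_or_pos d with h0 | h0
    · subst h0
      rw [M.h_eq_zero_of_finrank hd, hd, M.chi_eq_zero_of_finrank C hd]
      simp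
    · obtain ⟨W, hW0, hW⟩ := M.exists_max_slope C (by omega)
      have hss := M.semistable_of_max C W hW
      have hWpos : 0 < finrank K W := Submodule.one_le_finrank_iff.2 hW0
      have hWle : finrank K W ≤ finrank K V := Submodule.finrank_le W
      have hWq : (0 : ℚ) < finrank K W := by exact_mod_cast hWpos
      have hVq : (0 : ℚ) < finrank K V := by
        have : 0 < finrank K V := by omega
        exact_mod_cast this
      -- the sub-bundle
      have h1 := hB W (M.sub C W) hWpos (by omega) hss
      have hsl : y ≤ (M.sub C W).slope δ := by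
        have e1 := hM ⊥
        rw [chi_sub_bot, finrank_bot] at e1
        have e2 := hW ⊤
        rw [chi_sub_top, finrank_top] at e2
        have e3 : (M.chi : ℚ) * finrank K W ≤ (M.sub C W).chi * finrank K V := by
          exact_mod_cast e2
        rw [(M.sub C W).chi_eq_slope (δ := δ) hWpos] at e3
        push_cast at e1
        have e4 : (y - δ * (δ - 3) / 2) * (finrank K V * finrank K W) ≤
            ((M.sub C W).slope δ - δ * (δ - 3) / 2) * (finrank K V * finrank K W) := by
          have e5 := mul_le_mul_of_nonneg_right e1 hWq.le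
          linarith
        have e5 := le_of_mul_le_mul_right e4 (mul_pos hVq hWq)
        linarith
      have h2 := T_lip C.hδ5 hy0 hsl
      have h3 : ((M.sub C W).h 0 : ℚ) ≤ finrank K W * T δ y +
          ((M.sub C W).chi - (y - δ * (δ - 3) / 2) * finrank K W) := by
        refine h1.trans ?_
        rw [(M.sub C W).chi_eq_slope (δ := δ) hWpos]
        have := mul_le_mul_of_nonneg_left h2 hWq.le
        linarith
      -- the quotient
      have hq : finrank K (V ⧸ W) + finrank K W = finrank K V :=
        Submodule.finrank_quotient_add_finrank W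
      have h6 : (finrank K V : ℚ) = finrank K (V ⧸ W) + finrank K W := by exact_mod_cast hq.symm
      have hchi : (M.chi : ℚ) = (M.sub C W).chi + (M.quo C W).chi := by
        exact_mod_cast M.chi_add C W
      have h4 := ih (finrank K (V ⧸ W)) (by omega) (V ⧸ W) (M.quo C W) rfl (by omega) (by
        intro W₂
        rw [chi_quo_sub]
        have hrk : finrank K (W₂.comap W.mkQ) = finrank K W₂ + finrank K W := by
          have e1 := finrank_map_add_finrank_comap W.subtype W.mkQ W.subtype_injective
            (by simp) (W₂.comap W.mkQ)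
          have e2 : (W₂.comap W.mkQ).map W.mkQ = W₂ :=
            Submodule.map_comap_eq_of_surjective W.mkQ_surjective W₂
          have e3 : (W₂.comap W.mkQ).comap W.subtype = ⊤ := by
            rw [eq_top_iff]
            intro w _
            change W.mkQ w ∈ W₂
            rw [Submodule.mkQ_apply, (Submodule.Quotient.mk_eq_zero W).2 w.2]
            exact Submodule.zero_mem _
          rw [e2, e3, finrank_top] at e1
          exact e1.symm
        have e1 := hM (W₂.comap W.mkQ)
        rw [hrk, h6] at e1
        push_cast at e1 ⊢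
        linarith)
      have h5 : (M.h 0 : ℚ) ≤ (M.sub C W).h 0 + (M.quo C W).h 0 := by
        exact_mod_cast M.h_le C W 0
      rw [hchi]
      rw [h6]
      linarith

/-- The key inequality: a bundle with many sections satisfies
`h⁰(E(1)) - 2 h⁰(E) + h⁰(E(-1)) ≥ rank E`. -/
lemma key (C : CurveHyp k t z δ) {V : Type x} [AddCommGroup V] [Module k V] [Module F₀ V]
    [Module K V] [IsScalarTower k F₀ V] [IsScalarTower F₀ K V] [IsScalarTower k K V]
    (M : Lat k V t z) (hB : BoundUpTo.{u, v, w, x} C (finrank K V)) (hV : 0 < finrank K V)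
    (hM : M.Semistable C) {y : ℚ} (hy : M.slope δ = y) (hy0 : 0 ≤ y)
    (hy1 : y ≤ δ * (δ - 3)) (hh : finrank K V * T δ y ≤ M.h 0) :
    (finrank K V : ℤ) ≤ M.h 1 - 2 * M.h 0 + M.h (-1) := by
  have hfK := M.finiteDimensionalK
  have hfV := M.toTLat.finiteDimensional
  have hT1 := one_le_T C.hδ5 hy0 hy1
  have hT2 := lt_T C.hδ5 hy0 hy1
  have hVq : (0 : ℚ) < finrank K V := by exact_mod_cast hV
  -- the sections generate generically
  have claim1 : Submodule.span K (M.U 0 : Set V) = ⊤ := by
    by_contra hne
    set W := Submodule.span K (M.U 0 : Set V) with hW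
    have hlt : finrank K W < finrank K V := Submodule.finrank_lt hne
    have h1 := bound_sub C hB hy0 hy1 (finrank K W) W (M.sub C W) rfl hlt (by
      intro W'
      rw [chi_sub_sub]
      have e1 := hM.sub_chi_le hV (W'.map W.subtype)
      have h2 : finrank K (W'.map W.subtype) = finrank K W' :=
        (Submodule.equivMapOfInjective W.subtype W.subtype_injective W').finrank_eq.symm
      rw [h2, hy] at e1
      exact e1)
    have h2 : (M.sub C W).h 0 = M.h 0 := by
      rw [sub_h_eq]
      have : M.s 0 ⊓ W.restrictScalars k = M.s 0 :=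
        inf_eq_left.2 fun v hv => Submodule.subset_span (M.s_le_U hv)
      rw [this]
      rfl
    rw [h2] at h1
    have h3 : (finrank K W : ℚ) < finrank K V := by exact_mod_cast hlt
    have h4 : (finrank K W : ℚ) * T δ y < finrank K V * T δ y :=
      mul_lt_mul_of_pos_right h3 (by linarith)
    linarith
  -- the span of the sections contains no sub-bundle
  have claim2 : ∀ W : Submodule K V, (∀ w ∈ W, w ∈ M.U 0) → W = ⊥ := by
    intro W hWU
    by_contra hne
    have hWpos : 0 < finrank K W := Submodule.one_le_finrank_iff.2 hne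
    have h1 := M.h_zero_le_of_le_U C W hWU
    have hq : finrank K (V ⧸ W) + finrank K W = finrank K V :=
      Submodule.finrank_quotient_add_finrank W
    have h6 : (finrank K V : ℚ) = finrank K (V ⧸ W) + finrank K W := by exact_mod_cast hq.symm
    have hchi : (M.chi : ℚ) = (M.sub C W).chi + (M.quo C W).chi := by
      exact_mod_cast M.chi_add C W
    have hchi2 := M.chi_eq_slope (δ := δ) hV
    rw [hy] at hchi2
    have h2 := bound_quo C hB hy0 (finrank K (V ⧸ W)) (V ⧸ W) (M.quo C W) rfl (by omega) (by
      intro W₂
      rw [chi_quo_sub]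
      have hrk : finrank K (W₂.comap W.mkQ) = finrank K W₂ + finrank K W := by
        have e1 := finrank_map_add_finrank_comap W.subtype W.mkQ W.subtype_injective
          (by simp) (W₂.comap W.mkQ)
        have e2 : (W₂.comap W.mkQ).map W.mkQ = W₂ :=
          Submodule.map_comap_eq_of_surjective W.mkQ_surjective W₂
        have e3 : (W₂.comap W.mkQ).comap W.subtype = ⊤ := by
          rw [eq_top_iff]
          intro w _
          change W.mkQ w ∈ W₂
          rw [Submodule.mkQ_apply, (Submodule.Quotient.mk_eq_zero W).2 w.2]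
          exact Submodule.zero_mem _
        rw [e2, e3, finrank_top] at e1
        exact e1.symm
      have e1 := hM.sub_chi_le hV (W₂.comap W.mkQ)
      rw [hrk, hy] at e1
      push_cast at e1 ⊢
      rw [h6] at hchi2
      linarith)
    have h3 : (M.h 0 : ℚ) ≤ (M.sub C W).chi + (M.quo C W).h 0 := by exact_mod_cast h1
    have h4 : (0 : ℚ) < finrank K W := by exact_mod_cast hWpos
    have h5 := mul_lt_mul_of_pos_right hT2 h4
    rw [h6] at hh hchi2
    linarith
  -- the chain lemma
  have h1 := chain C.hz C.z_ne_zero (M.U 0) (M.U 1) (M.U_mono (by norm_num)) (by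
    intro v hv
    rw [TLat.U] at hv
    induction hv using Submodule.span_induction with
    | mem x hx =>
      have := M.zmul _ _ hx
      rw [zero_add] at this
      exact M.s_le_U this
    | zero => rw [smul_zero]; exact Submodule.zero_mem _
    | add x y _ _ hx hy => rw [smul_add]; exact Submodule.add_mem _ hx hy
    | smul a x _ hx => rw [smul_comm]; exact Submodule.smul_mem _ _ hx) claim2 claim1
  have h2 : M.u 0 + finrank K V ≤ M.u 1 := h1
  have h3 := M.h_eq C.ht 1
  have h4 := M.h_eq C.ht 0
  rw [show (1 : ℤ) - 1 = 0 by norm_num] at h3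
  rw [show (0 : ℤ) - 1 = -1 by norm_num] at h4
  omega

end Lat

end Pool.Agent.Lib.H94
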