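import Pool.Agent.Lib.H94.FreeMod

/-!
# The main theorem for graded modules
-/

namespace Pool.Agent.Lib.H94

open Module MvPolynomial

set_option linter.unusedSectionVars false

section

variable {k R : Type*} [Field k] [CommRing R] [IsDomain R] [Algebra k R] {Y : Fin 3 → R}
  {F : MvPolynomial (Fin 3) k} {δ : ℕ}
  {Q : Type*} [Field Q] [Algebra R Q] [Algebra k Q] [IsScalarTower k R Q]
  {F₀ K : Type*} [Field F₀] [Field K] [Algebra k F₀] [Algebra F₀ K] [Algebra k K]
  [IsScalarTower k F₀ K] [Algebra K Q] [IsScalarTower k K Q]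
  {VQ : Type*} [AddCommGroup VQ] [Module Q VQ] [Module R VQ] [Module k VQ] [Module F₀ VQ]
  [Module K VQ] [IsScalarTower R Q VQ] [IsScalarTower k Q VQ] [IsScalarTower k R VQ]
  [IsScalarTower K Q VQ] [IsScalarTower k F₀ VQ] [IsScalarTower F₀ K VQ] [IsScalarTower k K VQ]
  {M : Type*} [AddCommGroup M] [Module k M] [Module R M] [IsScalarTower k R M]
  {t : F₀} {z : K}

lemma iota_comb (X : CoordHyp Y F δ Q t z) (j : M →ₗ[R] VQ) {n m : ℕ} (a : ℤ)
    (G : Fin n → MvPolynomial (Fin 3) k) (hG : ∀ l, (G l).IsHomogeneous m) (g : Fin n → M) :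
    iota k Q j (Y 0) (a + m) (∑ l, aeval Y (G l) • g l) =
      ∑ l, aeval ![1, algebraMap F₀ K t, z] (G l) • iota k Q j (Y 0) a (g l) := by
  rw [map_sum]
  exact Finset.sum_congr rfl fun l _ => iota_hom X j a (hG l) (g l)

/-- A graded module is freely generated in degree `-1` by `g`. -/
structure FreeGen (k : Type*) {R M : Type*} [Field k] [CommRing R] [Algebra k R]
    [AddCommGroup M] [Module k M] [Module R M] (Y : Fin 3 → R) (sec : ℤ → Submodule k M)
    {n : ℕ} (g : Fin n → M) : Prop where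
  mem : ∀ l, g l ∈ sec (-1)
  bot : ∀ i : ℤ, i < -1 → sec i = ⊥
  span : ∀ (m : ℕ) (s : M), s ∈ sec (m - 1) → ∃ G : Fin n → MvPolynomial (Fin 3) k,
    (∀ l, (G l).IsHomogeneous m) ∧ s = ∑ l, aeval Y (G l) • g l
  indep : ∀ (m : ℕ) (G : Fin n → MvPolynomial (Fin 3) k), (∀ l, (G l).IsHomogeneous m) →
    ∑ l, aeval Y (G l) • g l = 0 → ∀ l, aeval Y (G l) = 0

theorem module_main (X : CoordHyp Y F δ Q t z) (j : M →ₗ[R] VQ)
    (hj : Function.Injective j) {sec : ℤ → Submodule k M} (D : GradHyp k Y sec)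
    {n : ℕ} (hn : 1 ≤ n) {d g : ℤ} (hg : 2 * (g - 1) = δ * (δ - 3))
    (hrk : ∃ k₀, ∀ i, k₀ ≤ i → (finrank k (sec i) : ℤ) = n * δ * i + d + n * (1 - g))
    (hss : ∀ N : ℤ → Submodule k M, (∀ i, N i ≤ sec i) →
      (∀ (i : Fin 3) (l : ℤ) (m : M), m ∈ N l → Y i • m ∈ N (l + 1)) →
      ∀ (r : ℕ) (d' : ℤ), 0 < r →
      (∃ k₀, ∀ i, k₀ ≤ i → (finrank k (N i) : ℤ) = r * δ * i + d' + r * (1 - g)) →
      d' * n ≤ d * r)
    (h2 : 2 * n ≤ finrank k (sec 0)) (hμ : (d : ℚ) / n ≤ g - 1) :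
    (δ : ℚ) - 4 ≤ ((d : ℚ) - 2 * ((finrank k (sec 0) : ℚ) - n)) / n ∧
    (((d : ℚ) - 2 * ((finrank k (sec 0) : ℚ) - n)) / n = (δ : ℚ) - 4 →
      ∃ g : Fin n → M, FreeGen k Y sec g) := by
  have C := X.curve
  have hLss := gLat_semistable X j hj D hrk hss
  obtain ⟨hn', hchi⟩ := Lat.rank_chi C (gLat X j hj D) n (d + n * (1 - g)) (by
    obtain ⟨k₀, hk₀⟩ := hrk
    exact ⟨k₀, fun i hi => by rw [gLat_h, hk₀ i hi]; ring⟩)
  have hh0 := gLat_h X j hj D 0
  have hh : ∀ i, (gLat X j hj D).h i = finrank k (sec i) := gLat_h X j hj D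
  have hmem : ∀ i (v : genFib Q K Y j sec),
    v ∈ (gLat X j hj D).s i ↔ ∃ m ∈ sec i, iota k Q j (Y 0) i m = v := mem_gLat_iff X j hj D
  generalize gLat X j hj D = L at hLss hchi hh0 hh hmem
  subst hn'
  have hV : 0 < finrank K (genFib Q K Y j sec) := hn
  have hVq : (0 : ℚ) < finrank K (genFib Q K Y j sec) := by exact_mod_cast hV
  have hgq : 2 * ((g : ℚ) - 1) = δ * (δ - 3) := by exact_mod_cast hg
  have hslope : L.slope δ = (d : ℚ) / finrank K (genFib Q K Y j sec) := by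
    rw [Lat.slope, hchi]
    push_cast
    have hg' : (g : ℚ) = δ * (δ - 3) / 2 + 1 := by linarith
    rw [hg']
    field_simp
    ring
  have h2' : 2 * finrank K (genFib Q K Y j sec) ≤ L.h 0 := by rw [hh0]; exact h2
  obtain ⟨g1, g2⟩ := L.gamma_ge C hV hLss h2' (by rw [hslope]; linarith)
  have hγ : ((d : ℚ) - 2 * ((finrank k (sec 0) : ℚ) - finrank K (genFib Q K Y j sec))) /
      finrank K (genFib Q K Y j sec) =
      L.slope δ + 2 - 2 * ((L.h 0 : ℚ) / finrank K (genFib Q K Y j sec)) := by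
    rw [hslope, hh0]
    field_simp
    ring
  rw [hγ]
  refine ⟨g1, fun he => ?_⟩
  obtain ⟨hs, h3⟩ := g2 he
  obtain ⟨e, he1, he2, he3⟩ := L.unique C hV hLss hs h3.ge
  choose gg hgg hgge using fun l => (hmem (-1) (e l)).1 (he2 l)
  have hinj := fun i => iota_injective (k := k) (Q := Q) j hj X.ne i
  have hLmem : ∀ {i : ℤ} {m : M} (hm : m ∈ sec i),
      (⟨_, iota_mem_genFib (Q := Q) (K := K) (Y := Y) j sec hm⟩ : genFib Q K Y j sec) ∈ L.s i :=
    fun hm => (hmem _ _).2 ⟨_, hm, rfl⟩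
  refine ⟨gg, hgg, ?_, ?_, ?_⟩
  · intro i hi
    rw [eq_bot_iff]
    intro m hm
    have h1 := hLmem hm
    rw [he3, freePiece_neg _ (by omega), Submodule.mem_bot] at h1
    have h2 : iota k Q j (Y 0) i m = 0 := congrArg Subtype.val h1
    rw [Submodule.mem_bot]
    exact hinj i (by rw [h2, map_zero])
  · intro m s hs
    have h1 := hLmem hs
    rw [he3, show (m : ℤ) - 1 + 1 = m by ring, mem_freePiece_iff X.plane X.ring.pos] at h1
    obtain ⟨G, hG, hG'⟩ := h1
    refine ⟨G, hG, hinj (-1 + m) ?_⟩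
    rw [iota_comb X j (-1) G hG gg, show (-1 : ℤ) + m = m - 1 by ring]
    have h2 := congrArg Subtype.val hG'
    rw [Submodule.coe_sum] at h2
    refine h2.trans (Finset.sum_congr rfl fun l _ => ?_)
    rw [hgge]
    rfl
  · intro m G hG h0 l
    have h1 := iota_comb X j (-1) G hG gg
    rw [h0, map_zero] at h1
    have h2 : ∑ l, aeval ![1, algebraMap F₀ K t, z] (G l) • e l = 0 := by
      apply Subtype.ext
      rw [Submodule.coe_sum]
      refine (Finset.sum_congr rfl fun l _ => ?_).trans h1.symm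
      rw [hgge]
      rfl
    have h3 := Fintype.linearIndependent_iff.1 he1 _ h2 l
    have h4 := X.ring.eq_of_affine_eq X.plane (hG l) (isHomogeneous_zero _ _ m)
      (by rw [h3, map_zero])
    rw [h4, map_zero]

/-- A stable family of subspaces spans a sub-bundle of the same rank. -/
lemma exists_span_family {k F₀ K V : Type*} [Field k] [Field F₀] [Field K] [Algebra k F₀]
    [Algebra F₀ K] [Algebra k K]
    [AddCommGroup V] [Module k V] [Module F₀ V] [Module K V] [IsScalarTower k F₀ V]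
    [IsScalarTower F₀ K V] [IsScalarTower k K V] {t : F₀} {z : K} {δ : ℕ}
    (C : CurveHyp k t z δ) (L : Lat k V t z) (N : ℤ → Submodule k V) (hN : ∀ i, N i ≤ L.s i)
    (hx : ∀ i, N i ≤ N (i + 1)) (hy : ∀ i v, v ∈ N i → t • v ∈ N (i + 1))
    (hz : ∀ i v, v ∈ N i → z • v ∈ N (i + 1)) {r : ℕ} {c : ℤ}
    (hr : ∃ k₀, ∀ i, k₀ ≤ i → (finrank k (N i) : ℤ) = r * δ * i + c) :
    ∃ W : Submodule K V, finrank K W = r ∧ c ≤ (L.sub C W).chi := by
  have hfin : ∀ i, FiniteDimensional k (N i) := fun i =>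
    Submodule.finiteDimensional_of_le (hN i)
  have hfV := L.toTLat.finiteDimensional
  have hfK := L.finiteDimensionalK
  have hmono : ∀ (m : ℕ) (i : ℤ), N i ≤ N (i + m) := by
    intro m
    induction m with
    | zero => intro i; simp
    | succ m ih =>
      intro i
      refine (ih i).trans ((hx (i + m)).trans ?_)
      rw [show i + (m : ℤ) + 1 = i + ((m + 1 : ℕ) : ℤ) by push_cast; ring]
  have hmono' : ∀ i i' : ℤ, i ≤ i' → N i ≤ N i' := by
    intro i i' h
    have := hmono (i' - i).toNat i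
    rwa [show i + ((i' - i).toNat : ℤ) = i' by omega] at this
  -- the spans stabilise
  let U : ℤ → Submodule F₀ V := fun i => Submodule.span F₀ (N i : Set V)
  have hU : ∀ i i', i ≤ i' → U i ≤ U i' := fun i i' h => Submodule.span_mono (hmono' i i' h)
  obtain ⟨i₀, hi₀⟩ : ∃ i₀ : ℤ, ∀ i, finrank F₀ (U i) ≤ finrank F₀ (U i₀) := by
    have hb : BddAbove (Set.range fun i => finrank F₀ (U i)) :=
      ⟨finrank F₀ V, by rintro _ ⟨i, rfl⟩; exact Submodule.finrank_le _⟩
    obtain ⟨i₀, hi₀⟩ := Nat.sSup_mem (Set.range_nonempty _) hb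
    refine ⟨i₀, fun i => ?_⟩
    have h1 := le_csSup hb ⟨i, rfl⟩
    change finrank F₀ (U i) ≤ _ at h1
    have h2 : finrank F₀ (U i₀) = _ := hi₀
    rw [h2]
    exact h1
  have hconst : ∀ i, i₀ ≤ i → U i = U i₀ := fun i hi =>
    (Submodule.eq_of_le_of_finrank_le (hU _ _ hi) (hi₀ i)).symm
  have hle : ∀ i, U i ≤ U i₀ := by
    intro i
    rcases le_total i i₀ with h | h
    · exact hU _ _ h
    · exact (hconst i h).le
  have hzU : ∀ v ∈ U i₀, z • v ∈ U i₀ := by
    intro v hv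
    have h1 : U i₀ ≤ (U (i₀ + 1)).comap (zm F₀ V z) := by
      rw [Submodule.span_le]
      intro w hw
      exact Submodule.subset_span (hz _ _ hw)
    exact hle _ (h1 hv)
  let W : Submodule K V := toKSub C.hz (U i₀) hzU
  have hWU : ∀ v, v ∈ W ↔ v ∈ U i₀ := fun v => Iff.rfl
  have hNW : ∀ i v, v ∈ N i → v ∈ W := fun i v hv => hle i (Submodule.subset_span hv)
  have hrkW : finrank F₀ (U i₀) = δ * finrank K W := by
    rw [← Lat.finrank_eq C W]
    have : U i₀ = W.restrictScalars F₀ := by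
      ext v
      rfl
    rw [this]
    rfl
  obtain ⟨k₀, hk₀⟩ := hr
  have hδ : (0 : ℤ) < δ := by have := C.hδ5; omega
  -- upper bound for the rank of `W`
  have h1 : finrank K W ≤ r := by
    let i := max k₀ i₀ + 1
    have e1 := finrank_span_add_le (F₀ := F₀) C.ht (N i) (N (i - 1)) (hmono' _ _ (by omega))
      (fun v hv => by
        have := hy _ _ hv
        rwa [show i - 1 + 1 = i by ring] at this)
    have e2 : finrank F₀ (Submodule.span F₀ (N i : Set V)) = δ * finrank K W := by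
      rw [← hrkW, ← hconst i (by omega)]
    rw [e2] at e1
    have e3 := hk₀ i (by omega)
    have e4 := hk₀ (i - 1) (by omega)
    have e5 : ((δ * finrank K W + finrank k (N (i - 1)) : ℕ) : ℤ) ≤ finrank k (N i) := by
      exact_mod_cast e1
    push_cast at e5
    rw [e3, e4] at e5
    have e6 : (δ : ℤ) * finrank K W ≤ δ * r := by linarith
    have e7 := le_of_mul_le_mul_left e6 hδ
    exact_mod_cast e7
  -- comparison with the Hilbert function of `W`
  obtain ⟨k₁, hk₁⟩ := Lat.exists_h_eq C (L.sub C W)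
  have h2 : ∀ i, max k₀ k₁ ≤ i →
      (r : ℤ) * δ * i + c ≤ finrank K W * δ * i + (L.sub C W).chi := by
    intro i hi
    rw [← hk₀ i (by omega), ← hk₁ i (by omega)]
    have e1 : finrank k (N i) ≤ (L.sub C W).h i := by
      rw [Lat.sub_h_eq]
      exact Submodule.finrank_mono (le_inf (hN i) (fun v hv => hNW i v hv))
    exact_mod_cast e1
  have h3 : r ≤ finrank K W := by
    by_contra hlt
    push Not at hlt
    have e1 : (finrank K W : ℤ) + 1 ≤ r := by exact_mod_cast hlt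
    set i := max (max k₀ k₁) (max 0 ((L.sub C W).chi - c + 1)) with hi
    have e2 := h2 i (le_max_left _ _)
    have e3 : (0 : ℤ) ≤ i := (le_max_left _ _).trans (le_max_right _ _)
    have e4 : (L.sub C W).chi - c + 1 ≤ i := (le_max_right _ _).trans (le_max_right _ _)
    have e5 : ((finrank K W : ℤ) + 1) * (δ * i) ≤ r * (δ * i) :=
      mul_le_mul_of_nonneg_right e1 (by positivity)
    have e6 : i ≤ δ * i := by nlinarith
    nlinarith
  have h4 : finrank K W = r := le_antisymm h1 h3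
  refine ⟨W, h4, ?_⟩
  have := h2 (max k₀ k₁) le_rfl
  rw [h4] at this
  linarith

/-- semistability of the graded module, from semistability of the family -/
theorem module_semistable_of (X : CoordHyp Y F δ Q t z) (j : M →ₗ[R] VQ)
    (hj : Function.Injective j) {sec : ℤ → Submodule k M} (D : GradHyp k Y sec)
    {n : ℕ} {d g : ℤ}
    (hrk : ∃ k₀, ∀ i, k₀ ≤ i → (finrank k (sec i) : ℤ) = n * δ * i + d + n * (1 - g))
    (hLss : (gLat X j hj D).Semistable X.curve) (N : ℤ → Submodule k M)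
    (hN : ∀ i, N i ≤ sec i)
    (hY : ∀ (i : Fin 3) (l : ℤ) (m : M), m ∈ N l → Y i • m ∈ N (l + 1)) (r : ℕ) (d' : ℤ)
    (hr : ∃ k₀, ∀ i, k₀ ≤ i → (finrank k (N i) : ℤ) = r * δ * i + d' + r * (1 - g)) :
      d' * n ≤ d * r := by
  have C := X.curve
  obtain ⟨hn', hchi⟩ := Lat.rank_chi C (gLat X j hj D) n (d + n * (1 - g)) (by
    obtain ⟨k₀, hk₀⟩ := hrk
    exact ⟨k₀, fun i hi => by rw [gLat_h, hk₀ i hi]; ring⟩)
  have hmem : ∀ i (v : genFib Q K Y j sec),
    v ∈ (gLat X j hj D).s i ↔ ∃ m ∈ sec i, iota k Q j (Y 0) i m = v := mem_gLat_iff X j hj D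
  generalize gLat X j hj D = L at hLss hchi hmem
  let N' : ℤ → Submodule k (genFib Q K Y j sec) := fun i =>
    ((N i).map (iota k Q j (Y 0) i)).comap ((genFib Q K Y j sec).subtype.restrictScalars k)
  have hN' : ∀ i (v : genFib Q K Y j sec), v ∈ N' i ↔ ∃ m ∈ N i, iota k Q j (Y 0) i m = v :=
    fun i v => Iff.rfl
  have hfr : ∀ i, finrank k (N' i) = finrank k (N i) := by
    intro i
    have e1 : (N' i).map ((genFib Q K Y j sec).subtype.restrictScalars k) =
        (N i).map (iota k Q j (Y 0) i) := by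
      ext v
      simp only [Submodule.mem_map, hN']
      constructor
      · rintro ⟨w, ⟨m, hm, hmw⟩, rfl⟩
        exact ⟨m, hm, hmw⟩
      · rintro ⟨m, hm, rfl⟩
        exact ⟨⟨_, iota_mem_genFib j sec (hN i hm)⟩, ⟨m, hm, rfl⟩, rfl⟩
    have h2 := (Submodule.equivMapOfInjective (iota k Q j (Y 0) i)
      (iota_injective (k := k) (Q := Q) j hj X.ne i) (N i)).finrank_eq
    have h3 := (Submodule.equivMapOfInjective
      ((genFib Q K Y j sec).subtype.restrictScalars k) Subtype.val_injective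
      (N' i)).finrank_eq
    rw [h2, h3, e1]
  obtain ⟨W, hW, hcW⟩ := exists_span_family C L N' (by
    intro i v hv
    obtain ⟨m, hm, hv⟩ := (hN' i v).1 hv
    exact (hmem i v).2 ⟨m, hN i hm, hv⟩) (by
    intro i v hv
    obtain ⟨m, hm, hv⟩ := (hN' i v).1 hv
    refine (hN' _ v).2 ⟨Y 0 • m, hY 0 i m hm, ?_⟩
    rw [iota_zero j X.ne, hv]) (by
    intro i v hv
    obtain ⟨m, hm, hv⟩ := (hN' i v).1 hv
    refine (hN' _ _).2 ⟨Y 1 • m, hY 1 i m hm, ?_⟩
    rw [iota_coord X j, hv]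
    exact algebraMap_smul K t _) (by
    intro i v hv
    obtain ⟨m, hm, hv⟩ := (hN' i v).1 hv
    refine (hN' _ _).2 ⟨Y 2 • m, hY 2 i m hm, ?_⟩
    rw [iota_coord X j, hv]
    rfl) (r := r) (c := d' + r * (1 - g)) (by
    obtain ⟨k₀, hk₀⟩ := hr
    exact ⟨k₀, fun i hi => by rw [hfr, hk₀ i hi]; ring⟩)
  have h1 := hLss W
  rw [hn', hchi, hW] at h1
  have h2 : (d' + r * (1 - g)) * n ≤ (L.sub C W).chi * n :=
    mul_le_mul_of_nonneg_right hcW (by positivity)
  nlinarith

end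

end Pool.Agent.Lib.H94
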