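import Pool.Agent.Lib.H94.Plane

/-!
# The free bundles of a plane curve
-/

namespace Pool.Agent.Lib.H94

open Module

set_option linter.unusedSectionVars false

section Deg

variable {k : Type*} [Field k]

lemma natDegree_coeff_deh {F : MvPolynomial (Fin 3) k} {δ : ℕ} (hF : F.IsHomogeneous δ)
    (b : ℕ) (hb : b ≤ δ) : ((deh k F).coeff b).natDegree ≤ δ - b := by
  have hexp : deh k F = ∑ m ∈ F.support,
      Polynomial.C (Polynomial.C (F.coeff m) * Polynomial.X ^ (m 1)) *
        Polynomial.X ^ (m 2) := by
    rw [deh, MvPolynomial.aeval_def, MvPolynomial.eval₂_eq']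
    refine Finset.sum_congr rfl fun m _ => ?_
    rw [Fin.prod_univ_three]
    simp only [Matrix.cons_val_zero, Matrix.cons_val_one, Matrix.cons_val, one_pow, one_mul,
      map_mul, map_pow]
    simp [mul_assoc]
  rw [hexp, Polynomial.finsetSum_coeff]
  refine Polynomial.natDegree_sum_le_of_forall_le _ _ fun m hm => ?_
  have h1 := hF (MvPolynomial.mem_support_iff.1 hm)
  rw [Finsupp.weight_apply, Finsupp.sum_fintype _ _ (by simp), Fin.sum_univ_three] at h1
  have h2 : m 0 + m 1 + m 2 = δ := by simpa using h1
  rw [Polynomial.coeff_C_mul_X_pow]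
  split_ifs with h
  · refine (Polynomial.natDegree_C_mul_X_pow_le _ _).trans ?_
    omega
  · simp

end Deg

section Free

variable {k F₀ K V : Type*} [Field k] [Field F₀] [Field K] [Algebra k F₀] [Algebra F₀ K]
  [Algebra k K] [IsScalarTower k F₀ K]
  [AddCommGroup V] [Module k V] [Module F₀ V] [Module K V] [IsScalarTower k F₀ V]
  [IsScalarTower F₀ K V] [IsScalarTower k K V] {t : F₀} {z : K} {δ : ℕ}
  {F : MvPolynomial (Fin 3) k}

lemma single_mem_freePiece {n : ℕ} (e : Fin n → V) (i : ℤ) (b : ℕ) (hb : b < δ) (j : Fin n)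
    (q : Polynomial k) (hq : q.natDegree + b ≤ i) :
    Polynomial.aeval t q • z ^ b • e j ∈ freePiece k t z δ e i := by
  classical
  refine ⟨fun p => if hp : p = (⟨b, hb⟩, j) then ⟨q, ?_⟩ else 0, ?_⟩
  · rw [Polynomial.mem_degreeLT, hp]
    by_cases hq0 : q = 0
    · rw [hq0, Polynomial.degree_zero]
      exact WithBot.bot_lt_coe _
    · rw [Polynomial.degree_eq_natDegree hq0]
      exact_mod_cast (by omega : q.natDegree < (i - ((b : ℕ) : ℤ) + 1).toNat)
  · change ∑ p : Fin δ × Fin n, _ = _
    rw [Finset.sum_eq_single (⟨b, hb⟩, j)]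
    · simp [mono]
    · intro p _ hp
      simp [hp]
    · simp

lemma freePiece_induction {n : ℕ} {e : Fin n → V} {i : ℤ} (N : Submodule k V)
    (h : ∀ (b : ℕ) (j : Fin n) (q : Polynomial k), b < δ → q.natDegree + b ≤ i →
      Polynomial.aeval t q • z ^ b • e j ∈ N) : freePiece k t z δ e i ≤ N := by
  rintro _ ⟨p, rfl⟩
  refine Submodule.sum_mem _ fun j _ => ?_
  by_cases hq0 : (p j : Polynomial k) = 0
  · rw [hq0, map_zero, zero_smul]
    exact N.zero_mem
  · refine h _ _ _ j.1.2 ?_
    have h1 := Polynomial.mem_degreeLT.1 (p j).2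
    rw [Polynomial.degree_eq_natDegree hq0] at h1
    have h2 : (p j : Polynomial k).natDegree < (i - ((j.1 : ℕ) : ℤ) + 1).toNat := by
      exact_mod_cast h1
    omega

lemma freePiece_mono {n : ℕ} (e : Fin n → V) {i i' : ℤ} (h : i ≤ i') :
    freePiece k t z δ e i ≤ freePiece k t z δ e i' := by
  apply freePiece_induction
  intro b j q hb hq
  exact single_mem_freePiece e i' b hb j q (by omega)

lemma freePiece_tmul {n : ℕ} (e : Fin n → V) {i : ℤ} {v : V}
    (hv : v ∈ freePiece k t z δ e i) : t • v ∈ freePiece k t z δ e (i + 1) := by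
  have : freePiece k t z δ e i ≤ (freePiece k t z δ e (i + 1)).comap (tm k V t) := by
    apply freePiece_induction
    intro b j q hb hq
    rw [Submodule.mem_comap, tm_apply]
    have h1 : t • Polynomial.aeval t q • z ^ b • e j =
        Polynomial.aeval t (Polynomial.X * q) • z ^ b • e j := by
      rw [map_mul, Polynomial.aeval_X, mul_smul]
    rw [h1]
    apply single_mem_freePiece e _ b hb j
    have := Polynomial.natDegree_mul_le (p := (Polynomial.X : Polynomial k)) (q := q)
    rw [Polynomial.natDegree_X] at this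
    omega
  exact this hv

lemma PlaneHyp.relation (P : PlaneHyp k (algebraMap F₀ K t) z F δ) :
    ∑ b ∈ Finset.range (δ + 1),
      algebraMap F₀ K (Polynomial.aeval t ((deh k F).coeff b)) * z ^ b = 0 := by
  have h1 := P.ev2_van
  rw [ev2, Polynomial.coe_eval₂RingHom, Polynomial.eval₂_eq_sum_range, P.natDegree_deh] at h1
  rw [← h1]
  refine Finset.sum_congr rfl fun b _ => ?_
  congr 1
  exact (Polynomial.aeval_algebraMap_apply K t _).symm

lemma freePiece_zmul (P : PlaneHyp k (algebraMap F₀ K t) z F δ) {n : ℕ} (e : Fin n → V)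
    {i : ℤ} {v : V} (hv : v ∈ freePiece k t z δ e i) :
    z • v ∈ freePiece k t z δ e (i + 1) := by
  have : freePiece k t z δ e i ≤
      (freePiece k t z δ e (i + 1)).comap ((zm F₀ V z).restrictScalars k) := by
    apply freePiece_induction
    intro b j q hb hq
    rw [Submodule.mem_comap, LinearMap.restrictScalars_apply, zm_apply]
    have h1 : z • Polynomial.aeval t q • z ^ b • e j =
        Polynomial.aeval t q • z ^ (b + 1) • e j := by
      rw [smul_comm, smul_smul z, ← pow_succ']
    rw [h1]
    rcases Nat.lt_or_ge (b + 1) δ with hb' | hb'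
    · exact single_mem_freePiece e _ _ hb' j q (by push_cast; omega)
    · obtain rfl : b + 1 = δ := by omega
      have h2 := P.relation
      rw [Finset.sum_range_succ, (coeff_deh P.hom).2, Polynomial.aeval_C] at h2
      set c := F.coeff (Finsupp.single 2 (b + 1)) with hc
      have h3 : z ^ (b + 1) • e j = - ∑ a ∈ Finset.range (b + 1),
          Polynomial.aeval t (Polynomial.C c⁻¹ * (deh k F).coeff a) • z ^ a • e j := by
        have hc0 : algebraMap F₀ K (algebraMap k F₀ c) ≠ 0 := by
          intro h0
          rw [map_eq_zero, map_eq_zero] at h0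
          exact P.lead h0
        have h4 : z ^ (b + 1) = - ∑ a ∈ Finset.range (b + 1), algebraMap F₀ K
            (Polynomial.aeval t (Polynomial.C c⁻¹ * (deh k F).coeff a)) * z ^ a := by
          have h5 : ∑ a ∈ Finset.range (b + 1), algebraMap F₀ K
            (Polynomial.aeval t (Polynomial.C c⁻¹ * (deh k F).coeff a)) * z ^ a =
            (algebraMap F₀ K (algebraMap k F₀ c))⁻¹ * ∑ a ∈ Finset.range (b + 1),
              algebraMap F₀ K (Polynomial.aeval t ((deh k F).coeff a)) * z ^ a := by
            rw [Finset.mul_sum]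
            refine Finset.sum_congr rfl fun a _ => ?_
            rw [map_mul, Polynomial.aeval_C, map_mul, map_inv₀, map_inv₀, mul_assoc]
          rw [h5, eq_neg_of_add_eq_zero_left h2]
          field_simp
        conv_lhs => rw [h4]
        rw [neg_smul, Finset.sum_smul]
        congr 1
        refine Finset.sum_congr rfl fun a _ => ?_
        rw [mul_smul, algebraMap_smul]
      rw [h3, smul_neg, Finset.smul_sum]
      refine Submodule.neg_mem _ (Submodule.sum_mem _ fun a ha => ?_)
      rw [smul_smul, ← map_mul]
      have ha' := Finset.mem_range.1 ha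
      apply single_mem_freePiece e _ a ha' j
      have e1 := Polynomial.natDegree_mul_le (p := q)
        (q := Polynomial.C c⁻¹ * (deh k F).coeff a)
      have e2 := Polynomial.natDegree_C_mul_le c⁻¹ ((deh k F).coeff a)
      have e3 := natDegree_coeff_deh P.hom a (by omega)
      omega
  exact this hv

/-- multiplication by a homogeneous polynomial -/
lemma freePiece_mul (P : PlaneHyp k (algebraMap F₀ K t) z F δ) {n : ℕ} (e : Fin n → V)
    {i : ℤ} {v : V} (hv : v ∈ freePiece k t z δ e i) {m : ℕ} {G : MvPolynomial (Fin 3) k}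
    (hG : G.IsHomogeneous m) :
    MvPolynomial.aeval ![1, algebraMap F₀ K t, z] G • v ∈ freePiece k t z δ e (i + m) := by
  have hpow : ∀ (a b c : ℕ) (i : ℤ) (v : V), v ∈ freePiece k t z δ e i →
      ((1 : K) ^ a * (algebraMap F₀ K t) ^ b * z ^ c) • v ∈
        freePiece k t z δ e (i + ((a + b + c : ℕ) : ℤ)) := by
    intro a b c i v hv
    rw [one_pow, one_mul]
    have h1 : ∀ (b : ℕ) (i : ℤ) (v : V), v ∈ freePiece k t z δ e i →
        ((algebraMap F₀ K t) ^ b) • v ∈ freePiece k t z δ e (i + b) := by
      intro b
      induction b with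
      | zero => intro i v hv; simpa using hv
      | succ b ih =>
        intro i v hv
        rw [pow_succ', mul_smul, algebraMap_smul]
        have := freePiece_tmul (z := z) (δ := δ) e (ih i v hv)
        rwa [show i + (b : ℤ) + 1 = i + ((b + 1 : ℕ) : ℤ) by push_cast; ring] at this
    have h2 : ∀ (b : ℕ) (i : ℤ) (v : V), v ∈ freePiece k t z δ e i →
        (z ^ b) • v ∈ freePiece k t z δ e (i + b) := by
      intro b
      induction b with
      | zero => intro i v hv; simpa using hv
      | succ b ih =>
        intro i v hv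
        rw [pow_succ', mul_smul]
        have := freePiece_zmul P e (ih i v hv)
        rwa [show i + (b : ℤ) + 1 = i + ((b + 1 : ℕ) : ℤ) by push_cast; ring] at this
    rw [mul_smul]
    have h3 := h1 b _ _ (h2 c i v hv)
    refine freePiece_mono e ?_ h3
    push_cast
    omega
  rw [MvPolynomial.aeval_def, MvPolynomial.eval₂_eq', Finset.sum_smul]
  refine Submodule.sum_mem _ fun d hd => ?_
  rw [mul_smul, algebraMap_smul]
  refine Submodule.smul_mem _ _ ?_
  rw [Fin.prod_univ_three]
  have h1 := hG (MvPolynomial.mem_support_iff.1 hd)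
  rw [Finsupp.weight_apply, Finsupp.sum_fintype _ _ (by simp), Fin.sum_univ_three] at h1
  have h2 : d 0 + d 1 + d 2 = m := by simpa using h1
  rw [← h2]
  exact hpow _ _ _ i v hv

lemma e_mem_freePiece (hδ : 1 ≤ δ) {n : ℕ} (e : Fin n → V) (j : Fin n) :
    e j ∈ freePiece k t z δ e 0 := by
  have := single_mem_freePiece (k := k) (t := t) (z := z) (δ := δ) e 0 0 (by omega) j 1
    (by simp)
  simpa using this

/-- The elements of `freePiece`, in terms of homogeneous polynomials. -/
lemma mem_freePiece_iff (P : PlaneHyp k (algebraMap F₀ K t) z F δ) (hδ : 1 ≤ δ) {n : ℕ}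
    (e : Fin n → V) (m : ℕ) (v : V) : v ∈ freePiece k t z δ e m ↔
      ∃ G : Fin n → MvPolynomial (Fin 3) k, (∀ j, (G j).IsHomogeneous m) ∧
        v = ∑ j, MvPolynomial.aeval ![1, algebraMap F₀ K t, z] (G j) • e j := by
  constructor
  · intro hv
    let N : Submodule k V :=
      { carrier := {v | ∃ G : Fin n → MvPolynomial (Fin 3) k, (∀ j, (G j).IsHomogeneous m) ∧
          v = ∑ j, MvPolynomial.aeval ![1, algebraMap F₀ K t, z] (G j) • e j}
        zero_mem' := ⟨0, fun j => MvPolynomial.isHomogeneous_zero _ _ _, by simp⟩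
        add_mem' := by
          rintro _ _ ⟨G, hG, rfl⟩ ⟨H, hH, rfl⟩
          refine ⟨G + H, fun j => (hG j).add (hH j), ?_⟩
          rw [← Finset.sum_add_distrib]
          refine Finset.sum_congr rfl fun j _ => ?_
          rw [Pi.add_apply, map_add, add_smul]
        smul_mem' := by
          rintro c _ ⟨G, hG, rfl⟩
          refine ⟨c • G, fun j => ?_, ?_⟩
          · exact (MvPolynomial.homogeneousSubmodule (Fin 3) k m).smul_mem c (hG j)
          · rw [Finset.smul_sum]
            refine Finset.sum_congr rfl fun j _ => ?_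
            rw [Pi.smul_apply, map_smul, smul_assoc] }
    have : freePiece k t z δ e m ≤ N := by
      apply freePiece_induction
      intro b j q hb hq
      -- the monomials
      have hmon : ∀ a : ℕ, a + b ≤ m → t ^ a • z ^ b • e j ∈ N := by
        intro a ha
        refine ⟨fun j' => if j' = j then MvPolynomial.X 0 ^ (m - (a + b)) *
          MvPolynomial.X 1 ^ a * MvPolynomial.X 2 ^ b else 0, fun j' => ?_, ?_⟩
        · dsimp only
          split_ifs
          · have h1 := ((((MvPolynomial.isHomogeneous_X k (0 : Fin 3)).pow (m - (a + b)))).mul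
              ((MvPolynomial.isHomogeneous_X k (1 : Fin 3)).pow a)).mul
              ((MvPolynomial.isHomogeneous_X k (2 : Fin 3)).pow b)
            rwa [show 1 * (m - (a + b)) + 1 * a + 1 * b = m by omega] at h1
          · exact MvPolynomial.isHomogeneous_zero _ _ _
        · rw [Finset.sum_eq_single j]
          · dsimp only
            rw [if_pos rfl]
            simp only [map_mul, map_pow, MvPolynomial.aeval_X, Matrix.cons_val_zero,
              Matrix.cons_val_one, Matrix.cons_val, one_pow, one_mul]
            rw [mul_smul, ← map_pow, algebraMap_smul]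
          · intro j' _ hj'
            dsimp only
            rw [if_neg hj', map_zero, zero_smul]
          · simp
      rw [Polynomial.aeval_eq_sum_range, Finset.sum_smul]
      refine Submodule.sum_mem _ fun a ha => ?_
      rw [smul_assoc]
      refine N.smul_mem _ (hmon a ?_)
      have := Finset.mem_range.1 ha
      omega
    exact this hv
  · rintro ⟨G, hG, rfl⟩
    refine Submodule.sum_mem _ fun j _ => ?_
    have := freePiece_mul P e (e_mem_freePiece (k := k) (t := t) (z := z) hδ e j) (hG j)
    rwa [zero_add] at this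

lemma freePiece_neg {n : ℕ} (e : Fin n → V) {i : ℤ} (hi : i < 0) :
    freePiece k t z δ e i = ⊥ := by
  rw [eq_bot_iff]
  apply freePiece_induction
  intro b j q hb hq
  omega

/-- saturation of the free family, for all `δ ≥ 1` -/
lemma freePiece_sat (P : PlaneHyp k (algebraMap F₀ K t) z F δ) (hδ : 1 ≤ δ)
    (ht : IsRatGen k t) {n : ℕ} (e : Fin n → V) (hli : LinearIndependent K e) {i : ℤ} {v : V}
    (hv : v ∈ freePiece k t z δ e (i + 1)) (hv' : t • v ∈ freePiece k t z δ e (i + 1)) :
    v ∈ freePiece k t z δ e i := by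
  obtain ⟨B, hB⟩ := P.exists_basis hδ ht
  have h1 := linearIndependent_smul B.linearIndependent hli
  have h2 : (fun p : Fin δ × Fin n => B p.1 • e p.2) = mono z δ e := by
    funext p
    rw [mono, hB]
  rw [h2] at h1
  exact polyMap_sat ht h1 (fun p => ((p.1 : ℕ) : ℤ)) i hv hv'

/-- The free bundle. -/
noncomputable def freeLat (C : CurveHyp k t z δ) (P : PlaneHyp k (algebraMap F₀ K t) z F δ)
    {n : ℕ} (e : Fin n → V) (hli : LinearIndependent K e)
    (hspan : Submodule.span K (Set.range e) = ⊤) (c : ℤ) : Lat k V t z where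
  s i := freePiece k t z δ e (i + c)
  mono' i := freePiece_mono e (by omega)
  tmul i v hv := by
    have := freePiece_tmul e hv
    rwa [show i + c + 1 = i + 1 + c by ring] at this
  fin i := by
    rw [freePiece]
    infer_instance
  sat i v hv hv' := by
    refine polyMap_sat C.ht (mono_linearIndependent C hli) (fun p => ((p.1 : ℕ) : ℤ)) (i + c)
      ?_ ?_
    · rw [show i + 1 + c = i + c + 1 by ring] at hv
      exact hv
    · rw [show i + 1 + c = i + c + 1 by ring] at hv'
      exact hv'
  top := by
    refine ⟨δ - c, ?_⟩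
    obtain ⟨B, hB⟩ := C.exists_basis
    rw [eq_top_iff]
    intro v _
    have hv : v ∈ Submodule.span K (Set.range e) := by rw [hspan]; trivial
    obtain ⟨a, rfl⟩ := (Submodule.mem_span_range_iff_exists_fun K).1 hv
    refine Submodule.sum_mem _ fun j _ => ?_
    rw [← B.sum_repr (a j), Finset.sum_smul]
    refine Submodule.sum_mem _ fun b _ => ?_
    rw [smul_assoc]
    refine Submodule.smul_mem _ _ (Submodule.subset_span ?_)
    rw [hB]
    have h1 := single_mem_freePiece (k := k) (t := t) (z := z) (δ := δ) e δ b b.2 j 1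
      (by simp [b.2.le])
    rw [map_one, one_smul] at h1
    rwa [show (δ : ℤ) - c + c = δ by ring]
  zmul i v hv := by
    have := freePiece_zmul P e hv
    rwa [show i + c + 1 = i + 1 + c by ring] at this

end Free

end Pool.Agent.Lib.H94
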