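import Pool.Agent.Lib.H94.Ends

/-!
# The function field of a plane curve
-/

namespace Pool.Agent.Lib.H94

open Module

set_option linter.unusedSectionVars false

/-- `K` is the function field of the plane curve `F = 0`, with affine coordinates `t = y/x`
and `z = w/x`, and the point `(0:0:1)` is not on the curve. -/
structure PlaneHyp (k : Type*) {K : Type*} [Field k] [Field K] [Algebra k K] (t z : K)
    (F : MvPolynomial (Fin 3) k) (δ : ℕ) : Prop where
  hom : F.IsHomogeneous δ
  lead : F.coeff (Finsupp.single 2 δ) ≠ 0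
  van : MvPolynomial.aeval ![1, t, z] F = 0
  ker : ∀ (n : ℕ) (G : MvPolynomial (Fin 3) k), G.IsHomogeneous n →
    MvPolynomial.aeval ![1, t, z] G = 0 → F ∣ G
  gen : ∀ a : K, ∃ G H : MvPolynomial (Fin 3) k, MvPolynomial.aeval ![1, t, z] H ≠ 0 ∧
    MvPolynomial.aeval ![1, t, z] H * a = MvPolynomial.aeval ![1, t, z] G

section

variable {k K : Type*} [Field k] [Field K] [Algebra k K]

/-- dehomogenization -/
noncomputable def deh (k : Type*) [Field k] :
    MvPolynomial (Fin 3) k →ₐ[k] Polynomial (Polynomial k) :=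
  MvPolynomial.aeval ![1, Polynomial.C Polynomial.X, Polynomial.X]

/-- evaluation of `k[T][Z]` at `(t, z)` -/
noncomputable def ev2 (k : Type*) {K : Type*} [Field k] [Field K] [Algebra k K] (t z : K) :
    Polynomial (Polynomial k) →+* K :=
  Polynomial.eval₂RingHom (Polynomial.aeval (R := k) t).toRingHom z

lemma ev2_deh (t z : K) (G : MvPolynomial (Fin 3) k) :
    ev2 k t z (deh k G) = MvPolynomial.aeval ![1, t, z] G := by
  induction G using MvPolynomial.induction_on with
  | C a =>
    rw [MvPolynomial.algHom_C, MvPolynomial.algHom_C, Polynomial.algebraMap_apply,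
      Polynomial.algebraMap_apply]
    simp [ev2]
  | add p q hp hq => rw [map_add, map_add, map_add, hp, hq]
  | mul_X p i hp =>
    rw [map_mul, map_mul, map_mul, hp, MvPolynomial.aeval_X]
    congr 1
    fin_cases i <;> simp [deh, ev2]

lemma deh_surj (g : Polynomial (Polynomial k)) : ∃ N, ∀ n, N ≤ n →
    ∃ G : MvPolynomial (Fin 3) k, G.IsHomogeneous n ∧ deh k G = g := by
  induction g using Polynomial.induction_on' with
  | add p q hp hq =>
    obtain ⟨N, hN⟩ := hp
    obtain ⟨N', hN'⟩ := hq
    refine ⟨max N N', fun n hn => ?_⟩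
    obtain ⟨G, hG, hG'⟩ := hN n (le_trans (le_max_left _ _) hn)
    obtain ⟨H, hH, hH'⟩ := hN' n (le_trans (le_max_right _ _) hn)
    exact ⟨G + H, hG.add hH, by rw [map_add, hG', hH']⟩
  | monomial b c =>
    induction c using Polynomial.induction_on' with
    | add p q hp hq =>
      obtain ⟨N, hN⟩ := hp
      obtain ⟨N', hN'⟩ := hq
      refine ⟨max N N', fun n hn => ?_⟩
      obtain ⟨G, hG, hG'⟩ := hN n (le_trans (le_max_left _ _) hn)
      obtain ⟨H, hH, hH'⟩ := hN' n (le_trans (le_max_right _ _) hn)
      exact ⟨G + H, hG.add hH, by rw [map_add, hG', hH', map_add]⟩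
    | monomial a c =>
      refine ⟨a + b, fun n hn => ?_⟩
      refine ⟨MvPolynomial.C c * MvPolynomial.X 0 ^ (n - (a + b)) * MvPolynomial.X 1 ^ a *
        MvPolynomial.X 2 ^ b, ?_, ?_⟩
      · have h1 := (((MvPolynomial.isHomogeneous_C (Fin 3) c).mul
          ((MvPolynomial.isHomogeneous_X k (0 : Fin 3)).pow (n - (a + b)))).mul
          ((MvPolynomial.isHomogeneous_X k (1 : Fin 3)).pow a)).mul
          ((MvPolynomial.isHomogeneous_X k (2 : Fin 3)).pow b)
        rwa [show 0 + 1 * (n - (a + b)) + 1 * a + 1 * b = n by omega] at h1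
      · rw [map_mul, map_mul, map_mul, map_pow, map_pow, map_pow, MvPolynomial.algHom_C]
        simp only [deh, MvPolynomial.aeval_X, Matrix.cons_val_zero, Matrix.cons_val_one,
          Matrix.cons_val, one_pow, mul_one]
        rw [← Polynomial.C_mul_X_pow_eq_monomial, ← Polynomial.C_mul_X_pow_eq_monomial]
        simp

lemma coeff_deh {F : MvPolynomial (Fin 3) k} {δ : ℕ} (hF : F.IsHomogeneous δ) :
    (deh k F).natDegree ≤ δ ∧
      (deh k F).coeff δ = Polynomial.C (F.coeff (Finsupp.single 2 δ)) := by
  have hexp : deh k F = ∑ m ∈ F.support,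
      Polynomial.C (Polynomial.C (F.coeff m) * Polynomial.X ^ (m 1)) *
        Polynomial.X ^ (m 2) := by
    rw [deh, MvPolynomial.aeval_def, MvPolynomial.eval₂_eq']
    refine Finset.sum_congr rfl fun m _ => ?_
    rw [Fin.prod_univ_three]
    simp only [Matrix.cons_val_zero, Matrix.cons_val_one, Matrix.cons_val, one_pow, one_mul,
      map_mul, map_pow]
    simp [mul_assoc]
  have hm : ∀ m ∈ F.support, m 0 + m 1 + m 2 = δ := by
    intro m hm
    have := hF (MvPolynomial.mem_support_iff.1 hm)
    rw [Finsupp.weight_apply, Finsupp.sum_fintype _ _ (by simp), Fin.sum_univ_three] at this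
    simpa using this
  constructor
  · rw [hexp]
    refine Polynomial.natDegree_sum_le_of_forall_le _ _ fun m hm' => ?_
    refine (Polynomial.natDegree_C_mul_X_pow_le _ _).trans ?_
    have := hm m hm'
    omega
  · rw [hexp, Polynomial.finsetSum_coeff]
    rw [Finset.sum_eq_single (Finsupp.single 2 δ)]
    · simp
    · intro m hm' hne
      rw [Polynomial.coeff_C_mul_X_pow, if_neg]
      intro h
      apply hne
      have := hm m hm'
      ext i
      fin_cases i
      · have : m 0 = 0 := by omega
        simpa using this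
      · have : m 1 = 0 := by omega
        simpa using this
      · simpa using h.symm
    · intro h
      rw [MvPolynomial.notMem_support_iff] at h
      simp [h]

namespace PlaneHyp

variable {t z : K} {F : MvPolynomial (Fin 3) k} {δ : ℕ} (P : PlaneHyp k t z F δ)

include P

lemma ev2_van : ev2 k t z (deh k F) = 0 := by rw [ev2_deh, P.van]

lemma natDegree_deh : (deh k F).natDegree = δ := by
  apply le_antisymm (coeff_deh P.hom).1
  apply Polynomial.le_natDegree_of_ne_zero
  rw [(coeff_deh P.hom).2]
  exact fun h => P.lead (Polynomial.C_eq_zero.1 h)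

lemma dvd_of_ev2 {g : Polynomial (Polynomial k)} (hg : ev2 k t z g = 0) : deh k F ∣ g := by
  obtain ⟨N, hN⟩ := deh_surj g
  obtain ⟨G, hG, rfl⟩ := hN N le_rfl
  rw [ev2_deh] at hg
  exact map_dvd _ (P.ker N G hG hg)

lemma natDegree_le {g : Polynomial (Polynomial k)} (hg : ev2 k t z g = 0) (hg0 : g ≠ 0) :
    δ ≤ g.natDegree := by
  rw [← P.natDegree_deh]
  exact Polynomial.natDegree_le_of_dvd (P.dvd_of_ev2 hg) hg0

lemma transc (hδ : 1 ≤ δ) (p : Polynomial k) (hp : Polynomial.aeval t p = 0) : p = 0 := by
  by_contra hp0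
  have h1 : ev2 k t z (Polynomial.C p) = 0 := by
    rw [ev2, Polynomial.coe_eval₂RingHom, Polynomial.eval₂_C]
    exact hp
  have h2 := P.natDegree_le h1 (by simpa using hp0)
  rw [Polynomial.natDegree_C] at h2
  omega

end PlaneHyp

/-- The degree of the function field over `k(t)`. -/
theorem PlaneHyp.finrank_eq {F₀ : Type*} [Field F₀] [Algebra k F₀] [Algebra F₀ K]
    [IsScalarTower k F₀ K] {t₀ : F₀} {z : K} {F : MvPolynomial (Fin 3) k} {δ : ℕ}
    (P : PlaneHyp k (algebraMap F₀ K t₀) z F δ) (hδ : 1 ≤ δ) (ht : IsRatGen k t₀) :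
    IsIntegral F₀ z ∧ Algebra.adjoin F₀ {z} = ⊤ ∧ finrank F₀ K = δ := by
  have haev : ∀ p : Polynomial k, Polynomial.aeval (algebraMap F₀ K t₀) p =
      algebraMap F₀ K (Polynomial.aeval t₀ p) := fun p =>
    Polynomial.aeval_algebraMap_apply K t₀ p
  -- `z` is algebraic over `F₀`
  let f : Polynomial F₀ := (deh k F).map (Polynomial.aeval (R := k) t₀).toRingHom
  have hfz : Polynomial.aeval z f = 0 := by
    have h1 := P.ev2_van
    rw [ev2, Polynomial.coe_eval₂RingHom] at h1
    rw [Polynomial.aeval_def, Polynomial.eval₂_map, ← h1]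
    congr 1
    ext
    · simp only [AlgHom.toRingHom_eq_coe, RingHom.coe_comp, RingHom.coe_coe, Function.comp_apply,
        Polynomial.aeval_C]
      exact (IsScalarTower.algebraMap_apply k F₀ K _).symm
    · simp
  have hfdeg : f.natDegree = δ := by
    rw [← P.natDegree_deh]
    apply Polynomial.natDegree_map_of_leadingCoeff_ne_zero
    rw [Polynomial.leadingCoeff, P.natDegree_deh, (coeff_deh P.hom).2]
    simpa using P.lead
  have hf0 : f ≠ 0 := by
    intro h
    rw [h, Polynomial.natDegree_zero] at hfdeg
    omega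
  have hint : IsIntegral F₀ z := isAlgebraic_iff_isIntegral.1 ⟨f, hf0, hfz⟩
  -- `K = F₀(z)`
  have htop : IntermediateField.adjoin F₀ {z} = ⊤ := by
    rw [eq_top_iff]
    intro a _
    obtain ⟨G, H, hH, hGH⟩ := P.gen a
    have hmem : ∀ G : MvPolynomial (Fin 3) k,
        MvPolynomial.aeval ![1, algebraMap F₀ K t₀, z] G ∈ IntermediateField.adjoin F₀ {z} := by
      intro G
      induction G using MvPolynomial.induction_on with
      | C a =>
        rw [MvPolynomial.algHom_C, IsScalarTower.algebraMap_apply k F₀ K]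
        exact IntermediateField.algebraMap_mem _ _
      | add p q hp hq => rw [map_add]; exact add_mem hp hq
      | mul_X p i hp =>
        rw [map_mul, MvPolynomial.aeval_X]
        refine mul_mem hp ?_
        fin_cases i
        · exact one_mem _
        · exact IntermediateField.algebraMap_mem _ _
        · exact IntermediateField.mem_adjoin_simple_self F₀ z
    have h1 : a = MvPolynomial.aeval ![1, algebraMap F₀ K t₀, z] G /
        MvPolynomial.aeval ![1, algebraMap F₀ K t₀, z] H := by
      rw [eq_div_iff hH, mul_comm]; exact hGH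
    rw [h1]
    exact div_mem (hmem G) (hmem H)
  refine ⟨hint, ?_, ?_⟩
  · rw [← IntermediateField.adjoin_simple_toSubalgebra_of_isAlgebraic hint.isAlgebraic, htop,
      IntermediateField.top_toSubalgebra]
  · have h1 := IntermediateField.adjoin.finrank hint
    rw [htop, IntermediateField.finrank_top'] at h1
    rw [h1]
    apply le_antisymm
    · rw [← hfdeg]
      exact Polynomial.natDegree_le_natDegree (minpoly.degree_le_of_ne_zero F₀ z hf0 hfz)
    · set p := minpoly F₀ z with hp
      set d := p.natDegree with hd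
      obtain ⟨q, c, hq, hqc⟩ := exists_common_denom ht (fun j : Fin (d + 1) => p.coeff j)
      let g : Polynomial (Polynomial k) := ∑ j : Fin (d + 1), Polynomial.C (c j) *
        Polynomial.X ^ (j : ℕ)
      have hgdeg : g.natDegree ≤ d := by
        refine Polynomial.natDegree_sum_le_of_forall_le _ _ fun j _ => ?_
        refine (Polynomial.natDegree_C_mul_X_pow_le _ _).trans ?_
        have := j.2
        omega
      have hgtop : g.coeff d = c (Fin.last d) := by
        change (∑ j : Fin (d + 1), Polynomial.C (c j) * Polynomial.X ^ (j : ℕ)).coeff d = _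
        rw [Polynomial.finsetSum_coeff, Finset.sum_eq_single (Fin.last d)]
        · simp
        · intro j _ hj
          rw [Polynomial.coeff_C_mul_X_pow, if_neg]
          intro h
          exact hj (Fin.ext h.symm)
        · simp
      have hg0 : g ≠ 0 := by
        intro h
        rw [h, Polynomial.coeff_zero] at hgtop
        have h2 := hqc (Fin.last d)
        rw [← hgtop, map_zero] at h2
        have h3 : p.coeff ((Fin.last d : Fin (d + 1)) : ℕ) = 1 := by
          rw [Fin.val_last]
          exact (minpoly.monic hint).coeff_natDegree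
        rw [h3, mul_one] at h2
        exact hq (ht.transc q h2)
      have hev : ev2 k (algebraMap F₀ K t₀) z g = 0 := by
        have h2 : ev2 k (algebraMap F₀ K t₀) z g =
            algebraMap F₀ K (Polynomial.aeval t₀ q) * Polynomial.aeval z p := by
          rw [map_sum, Polynomial.aeval_eq_sum_range (p := p), ← hd, Finset.mul_sum,
            ← Fin.sum_univ_eq_sum_range (fun j => algebraMap F₀ K (Polynomial.aeval t₀ q) *
              p.coeff j • z ^ j) (d + 1)]
          refine Finset.sum_congr rfl fun j _ => ?_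
          rw [map_mul, map_pow, ev2, Polynomial.coe_eval₂RingHom, Polynomial.eval₂_C,
            Polynomial.eval₂_X]
          change Polynomial.aeval (algebraMap F₀ K t₀) (c j) * _ = _
          rw [haev, ← hqc j, map_mul, Algebra.smul_def, mul_assoc]
        rw [h2, hp, minpoly.aeval, mul_zero]
      exact (P.natDegree_le hev hg0).trans hgdeg

theorem PlaneHyp.curveHyp {F₀ : Type*} [Field F₀] [Algebra k F₀] [Algebra F₀ K]
    [IsScalarTower k F₀ K] {t₀ : F₀} {z : K} {F : MvPolynomial (Fin 3) k} {δ : ℕ}
    (P : PlaneHyp k (algebraMap F₀ K t₀) z F δ) (hδ : 5 ≤ δ) (ht : IsRatGen k t₀) :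
    CurveHyp k t₀ z δ := by
  obtain ⟨_, h1, h2⟩ := P.finrank_eq (by omega) ht
  exact ⟨ht, h1, h2, hδ⟩

lemma PlaneHyp.exists_basis {F₀ : Type*} [Field F₀] [Algebra k F₀] [Algebra F₀ K]
    [IsScalarTower k F₀ K] {t₀ : F₀} {z : K} {F : MvPolynomial (Fin 3) k} {δ : ℕ}
    (P : PlaneHyp k (algebraMap F₀ K t₀) z F δ) (hδ : 1 ≤ δ) (ht : IsRatGen k t₀) :
    ∃ B : Basis (Fin δ) F₀ K, ∀ j, B j = z ^ (j : ℕ) := by
  obtain ⟨hint, h1, h2⟩ := P.finrank_eq hδ ht
  let pb := PowerBasis.ofAdjoinEqTop hint h1
  have hdim : pb.dim = δ := by rw [← h2, pb.finrank]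
  refine ⟨pb.basis.reindex (finCongr hdim), fun j => ?_⟩
  rw [Basis.reindex_apply, PowerBasis.basis_eq_pow]
  rfl

/-- the standard choice of `F₀` -/
lemma isRatGen_adjoin {t : K} (ht : ∀ p : Polynomial k, Polynomial.aeval t p = 0 → p = 0) :
    IsRatGen k (⟨t, IntermediateField.mem_adjoin_simple_self k t⟩ :
      IntermediateField.adjoin k {t}) where
  transc p hp := by
    apply ht
    have := congrArg (algebraMap (IntermediateField.adjoin k {t}) K) hp
    rw [← Polynomial.aeval_algebraMap_apply, map_zero] at this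
    exact this
  gen a := by
    obtain ⟨p, q, hpq⟩ := (IntermediateField.mem_adjoin_simple_iff k (a : K)).1 a.2
    by_cases hq : q = 0
    · refine ⟨0, 1, one_ne_zero, ?_⟩
      rw [hq, map_zero, div_zero] at hpq
      have : a = 0 := Subtype.ext hpq
      rw [this, mul_zero, map_zero]
    · refine ⟨p, q, hq, ?_⟩
      have hq0 : Polynomial.aeval t q ≠ 0 := fun h => hq (ht q h)
      apply (algebraMap (IntermediateField.adjoin k {t}) K).injective
      rw [map_mul, ← Polynomial.aeval_algebraMap_apply, ← Polynomial.aeval_algebraMap_apply]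
      change Polynomial.aeval t q * (a : K) = Polynomial.aeval t p
      rw [hpq]
      field_simp

end

end Pool.Agent.Lib.H94
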