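import Pool.Agent.Lib.H94.OLat

/-!
# The homogeneous coordinate ring and the function field
-/

namespace Pool.Agent.Lib.H94

open Module

set_option linter.unusedSectionVars false

lemma aeval_smul_of_hom {k A σ : Type*} [Field k] [Fintype σ] [CommRing A] [Algebra k A]
    {G : MvPolynomial σ k} {n : ℕ} (hG : G.IsHomogeneous n) (c : A) (f : σ → A) :
    MvPolynomial.aeval (fun i => c * f i) G = c ^ n * MvPolynomial.aeval f G := by
  rw [MvPolynomial.aeval_def, MvPolynomial.eval₂_eq', MvPolynomial.aeval_def,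
    MvPolynomial.eval₂_eq', Finset.mul_sum]
  refine Finset.sum_congr rfl fun d hd => ?_
  have h1 := hG (MvPolynomial.mem_support_iff.1 hd)
  rw [Finsupp.weight_apply, Finsupp.sum_fintype _ _ (by simp)] at h1
  have h2 : ∑ i, d i = n := by simpa using h1
  simp_rw [mul_pow]
  rw [Finset.prod_mul_distrib, Finset.prod_pow_eq_pow_sum, h2]
  ring

/-- `R` is the homogeneous coordinate ring of the plane curve `F = 0`, with coordinates `Y`,
and `(0:0:1)` is not on the curve. -/
structure RingHyp (k : Type*) {R : Type*} [Field k] [CommRing R] [Algebra k R] (Y : Fin 3 → R)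
    (F : MvPolynomial (Fin 3) k) (δ : ℕ) : Prop where
  hom : F.IsHomogeneous δ
  lead : F.coeff (Finsupp.single 2 δ) ≠ 0
  pos : 1 ≤ δ
  surj : Function.Surjective (MvPolynomial.aeval Y : MvPolynomial (Fin 3) k →ₐ[k] R)
  ker : ∀ G, MvPolynomial.aeval Y G = 0 ↔ F ∣ G

section

variable {k R : Type*} [Field k] [CommRing R] [Algebra k R] {Y : Fin 3 → R}
    {F : MvPolynomial (Fin 3) k} {δ : ℕ}

lemma RingHyp.Y_ne_zero (H : RingHyp k Y F δ) : Y 0 ≠ 0 := by
  intro h
  have h1 : F ∣ MvPolynomial.X 0 := by
    rw [← H.ker, MvPolynomial.aeval_X, h]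
  have h2 : deh k F ∣ 1 := by
    have := map_dvd (deh k) h1
    rw [deh, MvPolynomial.aeval_X] at this
    exact this
  have h3 := Polynomial.natDegree_le_of_dvd h2 one_ne_zero
  have h4 : (deh k F).natDegree = δ := by
    apply le_antisymm (coeff_deh H.hom).1
    apply Polynomial.le_natDegree_of_ne_zero
    rw [(coeff_deh H.hom).2]
    exact fun h => H.lead (Polynomial.C_eq_zero.1 h)
  rw [h4, Polynomial.natDegree_one] at h3
  have := H.pos
  omega

variable (Q : Type*) [Field Q] [Algebra R Q] [Algebra k Q] [IsScalarTower k R Q]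

/-- The affine coordinates, in the fraction field of `R`. -/
noncomputable def affCoord (Y : Fin 3 → R) : Fin 3 → Q :=
  ![1, algebraMap R Q (Y 1) / algebraMap R Q (Y 0), algebraMap R Q (Y 2) / algebraMap R Q (Y 0)]

/-- The function field. -/
noncomputable def funField (k : Type*) {R : Type*} [Field k] [CommRing R] (Q : Type*) [Field Q]
    [Algebra R Q] [Algebra k Q] (Y : Fin 3 → R) :
    IntermediateField k Q := IntermediateField.adjoin k (Set.range (affCoord Q Y))

omit [Algebra k R] [IsScalarTower k R Q] in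
lemma affCoord_mem (i : Fin 3) : affCoord Q Y i ∈ funField k Q Y :=
  IntermediateField.subset_adjoin _ _ ⟨i, rfl⟩

/-- the coordinate `t = y / x` -/
noncomputable def tK (k : Type*) {R : Type*} [Field k] [CommRing R] (Q : Type*) [Field Q]
    [Algebra R Q] [Algebra k Q] (Y : Fin 3 → R) : funField k Q Y :=
  ⟨affCoord Q Y 1, affCoord_mem Q 1⟩

/-- the coordinate `z = w / x` -/
noncomputable def zK (k : Type*) {R : Type*} [Field k] [CommRing R] (Q : Type*) [Field Q]
    [Algebra R Q] [Algebra k Q] (Y : Fin 3 → R) : funField k Q Y :=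
  ⟨affCoord Q Y 2, affCoord_mem Q 2⟩

variable {Q}

lemma algebraMap_aeval_affine (G : MvPolynomial (Fin 3) k) :
    algebraMap (funField k Q Y) Q (MvPolynomial.aeval ![1, tK k Q Y, zK k Q Y] G) =
      MvPolynomial.aeval (affCoord Q Y) G := by
  rw [← MvPolynomial.aeval_algebraMap_apply]
  congr 2
  funext i
  fin_cases i <;> rfl

lemma mul_affCoord (hY : algebraMap R Q (Y 0) ≠ 0) (i : Fin 3) :
    algebraMap R Q (Y 0) * affCoord Q Y i = algebraMap R Q (Y i) := by
  fin_cases i
  · simp [affCoord]
  · change _ * (_ / _) = _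
    field_simp
    rfl
  · change _ * (_ / _) = _
    field_simp
    rfl

lemma aeval_hom_affine (hY : algebraMap R Q (Y 0) ≠ 0) {n : ℕ} {G : MvPolynomial (Fin 3) k}
    (hG : G.IsHomogeneous n) :
    algebraMap R Q (MvPolynomial.aeval Y G) =
      algebraMap R Q (Y 0) ^ n * MvPolynomial.aeval (affCoord Q Y) G := by
  rw [← aeval_smul_of_hom hG, ← MvPolynomial.aeval_algebraMap_apply]
  congr 2
  funext i
  exact (mul_affCoord hY i).symm

variable (Q) in
lemma RingHyp.algebraMap_ne_zero [FaithfulSMul R Q] (H : RingHyp k Y F δ) :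
    algebraMap R Q (Y 0) ≠ 0 := by
  intro h
  apply H.Y_ne_zero
  apply FaithfulSMul.algebraMap_injective R Q
  rw [h, map_zero]

variable (Q) in
lemma RingHyp.planeHyp [FaithfulSMul R Q] (H : RingHyp k Y F δ) :
    PlaneHyp k (tK k Q Y) (zK k Q Y) F δ where
  hom := H.hom
  lead := H.lead
  van := by
    apply (algebraMap (funField k Q Y) Q).injective
    rw [algebraMap_aeval_affine, map_zero]
    have h1 := aeval_hom_affine (H.algebraMap_ne_zero Q) H.hom
    rw [(H.ker F).2 dvd_rfl, map_zero] at h1
    exact (mul_eq_zero.1 h1.symm).resolve_left (pow_ne_zero _ (H.algebraMap_ne_zero Q))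
  ker n G hG h := by
    have h1 := congrArg (algebraMap (funField k Q Y) Q) h
    rw [algebraMap_aeval_affine, map_zero] at h1
    have h2 := aeval_hom_affine (H.algebraMap_ne_zero Q) hG
    rw [h1, mul_zero] at h2
    rw [← H.ker]
    apply FaithfulSMul.algebraMap_injective R Q
    rw [h2, map_zero]
  gen a := by
    obtain ⟨r, s, hrs⟩ := (IntermediateField.mem_adjoin_range_iff k _ (a : Q)).1 a.2
    by_cases hs : MvPolynomial.aeval (affCoord Q Y) s = 0
    · refine ⟨0, 1, by simp, ?_⟩
      rw [hs, div_zero] at hrs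
      rw [show a = 0 from Subtype.ext hrs, mul_zero, map_zero]
    · refine ⟨r, s, ?_, ?_⟩
      · intro h
        apply hs
        rw [← algebraMap_aeval_affine, h, map_zero]
      · apply (algebraMap (funField k Q Y) Q).injective
        rw [map_mul, algebraMap_aeval_affine, algebraMap_aeval_affine]
        change _ * (a : Q) = _
        rw [hrs]
        field_simp

variable (k Q) in
/-- the field `k(t)` -/
noncomputable abbrev ratField (Y : Fin 3 → R) : IntermediateField k (funField k Q Y) :=
  IntermediateField.adjoin k {tK k Q Y}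

variable (k Q) in
/-- `t` as an element of `k(t)` -/
noncomputable abbrev tF (Y : Fin 3 → R) : ratField k Q Y :=
  ⟨tK k Q Y, IntermediateField.mem_adjoin_simple_self k _⟩

variable (Q) in
lemma RingHyp.curveHyp [FaithfulSMul R Q] (H : RingHyp k Y F δ) (hδ : 5 ≤ δ) :
    CurveHyp k (tF k Q Y) (zK k Q Y) δ := by
  have P := H.planeHyp Q
  exact PlaneHyp.curveHyp (F₀ := ratField k Q Y) (t₀ := tF k Q Y) P hδ
    (isRatGen_adjoin (P.transc H.pos))

end

end Pool.Agent.Lib.H94
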