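import Mathlib
import Pool.Agent.H85.SelDefs
import Pool.Agent.H85.SelLemmas
import Pool.Agent.H85.SelMain

/-!
# A space with `S_fin(D_Ω, D_Ω)` whose square is not ccc is distributive somewhere

First half of the construction of a free Suslin tree.
-/

set_option autoImplicit false

namespace Pool.Agent.H94.Sel

open Set Pool.Agent.H85.Sel

universe u v

variable {X : Type u} [TopologicalSpace X]

omit [TopologicalSpace X] in
/-- Every family of nonempty sets has a maximal pairwise disjoint subfamily. -/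
lemma exists_maximal_disjoint (P : Set (Set X)) :
    ∃ Q ⊆ P, Q.PairwiseDisjoint id ∧ ∀ p ∈ P, p.Nonempty → ∃ q ∈ Q, (p ∩ q).Nonempty := by
  let S : Set (Set (Set X)) := {Q | Q ⊆ P ∧ Q.PairwiseDisjoint id}
  obtain ⟨Q, hQ⟩ := zorn_subset S (by
    intro c hc hchain
    refine ⟨⋃₀ c, ⟨?_, ?_⟩, fun s hs => subset_sUnion_of_mem hs⟩
    · rintro a ⟨s, hs, ha⟩
      exact (hc hs).1 ha
    · rintro a ⟨s, hs, ha⟩ b ⟨t, ht, hb⟩ hab
      rcases hchain.total hs ht with hst | hst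
      · exact (hc ht).2 (hst ha) hb hab
      · exact (hc hs).2 ha (hst hb) hab)
  refine ⟨Q, hQ.1.1, hQ.1.2, ?_⟩
  intro p hp hpne
  by_contra hcon
  push Not at hcon
  have hins : insert p Q ∈ S := by
    refine ⟨insert_subset hp hQ.1.1, hQ.1.2.insert ?_⟩
    intro q hq _
    exact disjoint_iff_inter_eq_empty.2 (hcon q hq)
  have hpQ : p ∈ Q := hQ.2 hins (subset_insert _ _) (mem_insert _ _)
  have := hcon p hpQ
  rw [inter_self] at this
  exact hpne.ne_empty this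

/-- In a good box only countably many members of a disjoint family of open sets are met. -/
lemma countable_meet_box {ι : Type v} [Finite ι] (s : ι → Set X) (hs : ∀ i, IsOpen (s i))
    (hgood : ∀ i j, i ≠ j → Good (s i) (s j)) (h : SFin (DOmega X) (DOmega X))
    (A : Set (Set (ι → X))) (hA : ∀ a ∈ A, IsOpen a) (hdisj : A.PairwiseDisjoint id) :
    {a ∈ A | (a ∩ univ.pi s).Nonempty}.Countable := by
  let W : Set (Set (ι → X)) := insert (closure (⋃₀ A))ᶜ A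
  have hW : W ∈ DD (ι → X) := by
    refine ⟨?_, ?_⟩
    · rintro a (rfl | ha)
      · exact isClosed_closure.isOpen_compl
      · exact hA a ha
    · intro x
      by_cases hx : x ∈ closure (⋃₀ A)
      · exact closure_mono (sUnion_subset_sUnion (subset_insert _ _)) hx
      · exact subset_closure ⟨_, mem_insert _ _, hx⟩
  obtain ⟨w, hw1, hw2⟩ := selFin_box s hs hgood h (fun _ => W) (fun _ => hW)
  have hc : (⋃ n, w n).Countable := countable_iUnion fun n => (hw1 n).1.countable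
  refine hc.mono ?_
  rintro a ⟨ha, y, hya, hys⟩
  have h1 := hw2 hys
  rw [mem_closure_iff] at h1
  obtain ⟨z, hza, hz⟩ := h1 a (hA a ha) hya
  obtain ⟨n, b, hb, hzb⟩ := mem_iUnion.1 hz
  rcases (hw1 n).2 hb with rfl | hbA
  · have hz1 : z ∈ closure (⋃₀ A) := subset_closure ⟨a, ha, hza⟩
    exact absurd hz1 hzb
  · have hab : a = b := by
      by_contra hne
      exact Set.disjoint_left.1 (hdisj ha hbA hne) hza hzb
    rw [hab]
    exact mem_iUnion.2 ⟨n, hb⟩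

/-- `G` is bad if some sequence of families, each with union dense in `G`, has no common
refinement (modulo nowhere dense sets) inside `G`. -/
def Bad (G : Set X) : Prop :=
  ∃ D : ℕ → Set (Set X), (∀ n, (∀ P ∈ D n, IsOpen P) ∧ G ⊆ closure (⋃₀ D n)) ∧
    ∀ B : Set X, IsOpen B → B.Nonempty → B ⊆ G → ¬ ∀ n, ∃ P ∈ D n, B ⊆ closure P

/-- If the square is not ccc, some open set is atomless and nowhere bad. -/
theorem exists_good_open (h : SFin (DOmega X) (DOmega X)) (hnot : ¬ CCC (Fin 2 → X)) :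
    ∃ C : Set X, IsOpen C ∧ C.Nonempty ∧
      ∀ G : Set X, IsOpen G → G.Nonempty → G ⊆ C → ¬ IsPreirreducible G ∧ ¬ Bad G := by
  classical
  by_contra hcon
  have hall : ∀ C : Set X, IsOpen C → C.Nonempty → ∃ G : Set X, IsOpen G ∧ G.Nonempty ∧ G ⊆ C ∧
      (IsPreirreducible G ∨ Bad G) := by
    intro C hC hCne
    by_contra hc
    refine hcon ⟨C, hC, hCne, fun G hG hGne hGC => ?_⟩
    refine ⟨fun hp => hc ⟨G, hG, hGne, hGC, Or.inl hp⟩, fun hp => hc ⟨G, hG, hGne, hGC, Or.inr hp⟩⟩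
  have hccc : CCC X := h.ccc
  -- the top family
  obtain ⟨𝒢, h𝒢sub, h𝒢disj, h𝒢max⟩ := exists_maximal_disjoint
    {G : Set X | IsOpen G ∧ G.Nonempty ∧ (IsPreirreducible G ∨ Bad G)}
  have h𝒢dense : ∀ O : Set X, IsOpen O → O.Nonempty → ∃ G ∈ 𝒢, (O ∩ G).Nonempty := by
    intro O hO hOne
    obtain ⟨G, hG1, hG2, hG3, hG4⟩ := hall O hO hOne
    obtain ⟨G', hG', hmeet⟩ := h𝒢max G ⟨hG1, hG2, hG4⟩ hG2
    exact ⟨G', hG', hmeet.mono (inter_subset_inter_left _ hG3)⟩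
  have hDex : ∀ G : Set X, ∃ D : ℕ → Set (Set X), Bad G →
      ((∀ n, (∀ P ∈ D n, IsOpen P) ∧ G ⊆ closure (⋃₀ D n)) ∧
        ∀ B : Set X, IsOpen B → B.Nonempty → B ⊆ G → ¬ ∀ n, ∃ P ∈ D n, B ⊆ closure P) := by
    intro G
    by_cases hG : Bad G
    · obtain ⟨D, hD⟩ := hG
      exact ⟨D, fun _ => hD⟩
    · exact ⟨fun _ => ∅, fun hb => absurd hb hG⟩
  choose D hD using hDex
  -- the refining families
  let PP : ℕ → Set (Set X) := fun n => {Q | IsOpen Q ∧ Q.Nonempty ∧ ∃ G ∈ 𝒢, Q ⊆ G ∧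
    (IsPreirreducible G ∨ (Bad G ∧ ∃ P ∈ D G n, Q ⊆ P))}
  have hPPdense : ∀ n, ∀ O : Set X, IsOpen O → O.Nonempty → ∃ Q ∈ PP n, Q ⊆ O := by
    intro n O hO hOne
    obtain ⟨G, hG, x, hxO, hxG⟩ := h𝒢dense O hO hOne
    have hGo := (h𝒢sub hG).1
    rcases (h𝒢sub hG).2.2 with hp | hb
    · exact ⟨O ∩ G, ⟨hO.inter hGo, ⟨x, hxO, hxG⟩, G, hG, inter_subset_right, Or.inl hp⟩,
        inter_subset_left⟩
    · obtain ⟨h1, -⟩ := hD G hb
      have hx := (h1 n).2 hxG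
      rw [mem_closure_iff] at hx
      obtain ⟨y, ⟨hyO, hyG⟩, P, hP, hyP⟩ := hx (O ∩ G) (hO.inter hGo) ⟨hxO, hxG⟩
      exact ⟨O ∩ G ∩ P, ⟨(hO.inter hGo).inter ((h1 n).1 P hP), ⟨y, ⟨hyO, hyG⟩, hyP⟩, G, hG,
        inter_subset_left.trans inter_subset_right, Or.inr ⟨hb, P, hP, inter_subset_right⟩⟩,
        inter_subset_left.trans inter_subset_left⟩
  choose 𝒬 h𝒬sub h𝒬disj h𝒬max using fun n => exists_maximal_disjoint (PP n)
  have h𝒬dense : ∀ n, ∀ O : Set X, IsOpen O → O.Nonempty → ∃ Q ∈ 𝒬 n, (O ∩ Q).Nonempty := by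
    intro n O hO hOne
    obtain ⟨P, hP, hPO⟩ := hPPdense n O hO hOne
    obtain ⟨Q, hQ, hmeet⟩ := h𝒬max n P hP hP.2.1
    exact ⟨Q, hQ, hmeet.mono (inter_subset_inter_left _ hPO)⟩
  have h𝒬count : ∀ n, (𝒬 n).Countable := fun n =>
    hccc (𝒬 n) (fun Q hQ => ⟨(h𝒬sub n hQ).1, (h𝒬sub n hQ).2.1⟩) (h𝒬disj n)
  -- the uncountable family in the square
  simp only [CCC, not_forall] at hnot
  obtain ⟨𝒜, h𝒜open, h𝒜disj, h𝒜unc⟩ := hnot
  let E : Set (Set (Fin 2 → X)) := ⋃ n, ⋃ Q ∈ 𝒬 n, ⋃ Q' ∈ 𝒬 n,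
    {A ∈ 𝒜 | Good Q Q' ∧ (A ∩ univ.pi ![Q, Q']).Nonempty}
  have hE : E.Countable := by
    refine countable_iUnion fun n => (h𝒬count n).biUnion fun Q hQ => (h𝒬count n).biUnion
      fun Q' hQ' => ?_
    by_cases hg : Good Q Q'
    · have h1 := countable_meet_box ![Q, Q'] (by
        intro i
        fin_cases i
        · exact (h𝒬sub n hQ).1
        · exact (h𝒬sub n hQ').1) (by
        intro i j hij
        fin_cases i <;> fin_cases j
        · exact absurd rfl hij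
        · exact hg
        · exact hg.symm
        · exact absurd rfl hij) h 𝒜 (fun a ha => (h𝒜open a ha).1) h𝒜disj
      refine Countable.mono ?_ h1
      rintro A ⟨hA1, hA2, hA3⟩
      exact ⟨hA1, hA3⟩
    · refine Countable.mono ?_ (countable_empty (α := Set (Fin 2 → X)))
      rintro A ⟨hA1, hA2, hA3⟩
      exact absurd hA2 hg
  obtain ⟨A, hA𝒜, hAE⟩ : ∃ A ∈ 𝒜, A ∉ E := by
    by_contra hc
    push Not at hc
    exact h𝒜unc (hE.mono hc)
  obtain ⟨y, hy⟩ := (h𝒜open A hA𝒜).2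
  obtain ⟨a, ha, haA⟩ := isOpen_pi_iff'.1 (h𝒜open A hA𝒜).1 y hy
  have hbad : ∀ n, ∀ Q ∈ 𝒬 n, ∀ Q' ∈ 𝒬 n, (a 0 ∩ Q).Nonempty → (a 1 ∩ Q').Nonempty →
      ¬ Good Q Q' := by
    rintro n Q hQ Q' hQ' ⟨x0, hx0, hx0'⟩ ⟨x1, hx1, hx1'⟩ hg
    apply hAE
    refine mem_iUnion.2 ⟨n, mem_biUnion hQ (mem_biUnion hQ' ⟨hA𝒜, hg, ![x0, x1], ?_, ?_⟩)⟩
    · apply haA
      intro i _
      fin_cases i
      · exact hx0
      · exact hx1
    · intro i _
      fin_cases i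
      · exact hx0'
      · exact hx1'
  have hQn : ∀ n, ∃ Q ∈ 𝒬 n, a 0 ⊆ closure Q ∧ ¬ IsPreirreducible Q := by
    intro n
    obtain ⟨Q', hQ', hmeet'⟩ := h𝒬dense n (a 1) (ha 1).1 ⟨_, (ha 1).2⟩
    have huniq : ∀ Q ∈ 𝒬 n, (a 0 ∩ Q).Nonempty → Q = Q' := by
      intro Q hQ hmeet
      by_contra hne
      exact hbad n Q hQ Q' hQ' hmeet hmeet' (Or.inl (h𝒬disj n hQ hQ' hne))
    refine ⟨Q', hQ', ?_, ?_⟩
    · intro x hx
      rw [mem_closure_iff]
      intro O hO hxO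
      obtain ⟨Q, hQ, z, ⟨hzO, hza⟩, hzQ⟩ := h𝒬dense n (O ∩ a 0) (hO.inter (ha 0).1) ⟨x, hxO, hx⟩
      have := huniq Q hQ ⟨z, hza, hzQ⟩
      rw [← this]
      exact ⟨z, hzO, hzQ⟩
    · intro hp
      obtain ⟨Q, hQ, hmeet⟩ := h𝒬dense n (a 0) (ha 0).1 ⟨_, (ha 0).2⟩
      have hQQ := huniq Q hQ hmeet
      rw [hQQ] at hmeet
      exact hbad n Q' hQ' Q' hQ' hmeet hmeet' (Or.inr (by simpa using hp))
  choose Q hQ𝒬 haQ hQpre using hQn
  obtain ⟨G, hG, x, hxa, hxG⟩ := h𝒢dense (a 0) (ha 0).1 ⟨_, (ha 0).2⟩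
  have hGo := (h𝒢sub hG).1
  have hkey : ∀ n, Bad G ∧ ∃ P ∈ D G n, Q n ⊆ P := by
    intro n
    obtain ⟨h1, h2, G', hG', hQG', h3⟩ := h𝒬sub n (hQ𝒬 n)
    have hGG : G = G' := by
      by_contra hne
      have h4 := haQ n hxa
      rw [mem_closure_iff] at h4
      obtain ⟨z, ⟨_, hzG⟩, hzQ⟩ := h4 (a 0 ∩ G) ((ha 0).1.inter hGo) ⟨hxa, hxG⟩
      exact Set.disjoint_left.1 (h𝒢disj hG hG' hne) hzG (hQG' hzQ)
    subst hGG
    rcases h3 with h3 | h3
    · exact absurd (h3.open_subset h1 hQG') (hQpre n)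
    · exact h3
  obtain ⟨-, h5⟩ := hD G (hkey 0).1
  refine h5 (a 0 ∩ G) ((ha 0).1.inter hGo) ⟨x, hxa, hxG⟩ inter_subset_right fun n => ?_
  obtain ⟨P, hP, hQP⟩ := (hkey n).2
  exact ⟨P, hP, (inter_subset_left.trans (haQ n)).trans (closure_mono hQP)⟩

end Pool.Agent.H94.Sel
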