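import Pool.Agent.Lib.H94.SelBad

/-!
# The free Suslin tree inside an atomless, distributive, ccc open set
-/

set_option autoImplicit false

namespace Pool.Agent.H94.Sel

open Set Pool.Agent.H85.Sel

universe u v

/-- A free Suslin tree, in any universe (same fields as `IsFreeSuslinTree`). -/
structure FreeSuslin (T : Type u) [PartialOrder T] (ht : T → Ordinal.{0}) : Prop where
  ht_lt : ∀ t : T, ht t < Ordinal.omega 1
  ht_strictMono : StrictMono ht
  exists_unique_pred : ∀ (t : T) (α : Ordinal.{0}), α ≤ ht t → ∃! s : T, s ≤ t ∧ ht s = α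
  level_countable : ∀ α : Ordinal.{0}, {t : T | ht t = α}.Countable
  nonempty : Nonempty T
  exists_ext : ∀ (t : T) (α : Ordinal.{0}), ht t ≤ α → α < Ordinal.omega 1 →
    ∃ s : T, t ≤ s ∧ ht s = α
  split : ∀ t : T, ∃ a b : T, t ≤ a ∧ t ≤ b ∧ ¬ ∃ c : T, a ≤ c ∧ b ≤ c
  free : ∀ (n : ℕ) (t : Fin n → T), Function.Injective t → (∀ i j, ht (t i) = ht (t j)) →
    ∀ A : Set (Fin n → T), (∀ x ∈ A, ∀ i, t i ≤ x i) →
      A.Pairwise (fun x y => ¬ ∃ z : Fin n → T, ∀ i, x i ≤ z i ∧ y i ≤ z i) → A.Countable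

variable {X : Type u} [TopologicalSpace X]

/-- regular open hull -/
def Rg (U : Set X) : Set X := interior (closure U)

lemma isOpen_Rg (U : Set X) : IsOpen (Rg U) := isOpen_interior

lemma subset_Rg_of {B U : Set X} (hB : IsOpen B) (h : B ⊆ closure U) : B ⊆ Rg U :=
  interior_maximal h hB

lemma subset_Rg {U : Set X} (hU : IsOpen U) : U ⊆ Rg U := subset_Rg_of hU subset_closure

lemma Rg_mono {U V : Set X} (h : U ⊆ V) : Rg U ⊆ Rg V := interior_mono (closure_mono h)

lemma Rg_subset_closure (U : Set X) : Rg U ⊆ closure U := interior_subset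

lemma Rg_idem (U : Set X) : Rg (Rg U) = Rg U := by
  apply Subset.antisymm
  · exact interior_mono (closure_minimal (Rg_subset_closure U) isClosed_closure)
  · exact subset_Rg (isOpen_Rg U)

lemma disjoint_Rg_left {U V : Set X} (hV : IsOpen V) (h : Disjoint U V) : Disjoint (Rg U) V :=
  (h.closure_left hV).mono_left (Rg_subset_closure U)

lemma disjoint_Rg {U V : Set X} (hV : IsOpen V) (h : Disjoint U V) : Disjoint (Rg U) (Rg V) :=
  (disjoint_Rg_left (isOpen_Rg U) (disjoint_Rg_left hV h).symm).symm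

/-- an open set in which the construction works -/
structure Ctx (C : Set X) : Prop where
  isOpen : IsOpen C
  ne : C.Nonempty
  reg : Rg C = C
  good : ∀ G : Set X, IsOpen G → G.Nonempty → G ⊆ C → ¬ IsPreirreducible G ∧ ¬ Bad G

lemma exists_ctx (h : SFin (DOmega X) (DOmega X)) (hnot : ¬ CCC (Fin 2 → X)) :
    ∃ C : Set X, Ctx C := by
  obtain ⟨C, hC, hCne, hCg⟩ := exists_good_open h hnot
  refine ⟨Rg C, isOpen_Rg C, hCne.mono (subset_Rg hC), Rg_idem C, ?_⟩
  intro G hG hGne hGC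
  have hne : (G ∩ C).Nonempty := by
    obtain ⟨x, hx⟩ := hGne
    have h1 := Rg_subset_closure C (hGC hx)
    rw [mem_closure_iff] at h1
    exact h1 G hG hx
  obtain ⟨h1, h2⟩ := hCg (G ∩ C) (hG.inter hC) hne inter_subset_right
  refine ⟨fun hp => h1 (hp.open_subset (hG.inter hC) inter_subset_left), ?_⟩
  rintro ⟨D, hD1, hD2⟩
  exact h2 ⟨D, fun n => ⟨(hD1 n).1, inter_subset_left.trans (hD1 n).2⟩,
    fun B hB hBne hBG => hD2 B hB hBne (hBG.trans inter_subset_left)⟩

/-- `H` splits `S` -/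
def HalfProp (S H : Set X) : Prop :=
  IsOpen H ∧ H.Nonempty ∧ Rg H = H ∧ H ⊆ Rg S ∧
    ∃ S₁ : Set X, IsOpen S₁ ∧ S₁.Nonempty ∧ S₁ ⊆ S ∧ Disjoint S₁ H

lemma Ctx.exists_half {C : Set X} (hC : Ctx C) (S : Set X) (hS : IsOpen S) (hne : S.Nonempty)
    (hSC : S ⊆ C) : ∃ H, HalfProp S H := by
  have h := (hC.good S hS hne hSC).1
  simp only [IsPreirreducible, not_forall] at h
  obtain ⟨p, q, hp, hq, hSp, hSq, hemp⟩ := h
  refine ⟨Rg (S ∩ p), isOpen_Rg _, hSp.mono (subset_Rg (hS.inter hp)), Rg_idem _,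
    Rg_mono inter_subset_left, S ∩ q, hS.inter hq, hSq, inter_subset_left, ?_⟩
  refine (disjoint_Rg_left (hS.inter hq) ?_).symm
  rw [Set.disjoint_left]
  rintro x ⟨hxS, hxp⟩ ⟨-, hxq⟩
  exact hemp ⟨x, hxS, hxp, hxq⟩

open Classical in
/-- a chosen half -/
noncomputable def half (S : Set X) : Set X :=
  if h : ∃ H, HalfProp S H then h.choose else ∅

lemma Ctx.half_spec {C : Set X} (hC : Ctx C) (S : Set X) (hS : IsOpen S) (hne : S.Nonempty)
    (hSC : S ⊆ C) : HalfProp S (half S) := by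
  have h := hC.exists_half S hS hne hSC
  rw [half, dif_pos h]
  exact h.choose_spec

/-- admissible refinements of the previous levels -/
def PPs (C : Set X) (𝒮 : Set (Set (Set X))) : Set (Set X) :=
  {Q | IsOpen Q ∧ Q.Nonempty ∧ Q ⊆ C ∧ ∀ ℒ ∈ 𝒮, ∃ S ∈ ℒ, Q ⊆ S ∧ (Q ⊆ half S ∨ Disjoint Q (half S))}

/-- a chosen maximal disjoint subfamily -/
noncomputable def MD (P : Set (Set X)) : Set (Set X) := (exists_maximal_disjoint P).choose

omit [TopologicalSpace X] in
lemma MD_spec (P : Set (Set X)) : MD P ⊆ P ∧ (MD P).PairwiseDisjoint id ∧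
    ∀ p ∈ P, p.Nonempty → ∃ q ∈ MD P, (p ∩ q).Nonempty :=
  (exists_maximal_disjoint P).choose_spec

/-- the levels of the tree -/
noncomputable def Lv (C : Set X) (α : Ordinal.{0}) : Set (Set X) :=
  Rg '' MD (PPs C {ℒ | ∃ β, ∃ _h : β < α, ℒ = Lv C β})
termination_by α

lemma countable_Iio (α : Ordinal.{0}) (hα : α < Ordinal.omega 1) : (Iio α).Countable := by
  have h2 : Cardinal.mk (Iio α) ≤ Cardinal.aleph0 := by
    rw [Cardinal.mk_Iio_ordinal]
    have h4 : α.card < Cardinal.aleph 1 := by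
      have h6 : (Cardinal.aleph 1).ord = Ordinal.omega 1 := Cardinal.ord_aleph 1
      rw [← h6] at hα
      exact Cardinal.lt_ord.1 hα
    rw [← Cardinal.succ_aleph0] at h4
    have h7 := Order.lt_succ_iff.1 h4
    exact Cardinal.lift_le_aleph0.2 h7
  exact Cardinal.le_aleph0_iff_set_countable.1 h2

/-- the properties of a level -/
structure LSpec (C : Set X) (α : Ordinal.{0}) : Prop where
  mem : ∀ R ∈ Lv C α, IsOpen R ∧ R.Nonempty ∧ Rg R = R ∧ R ⊆ C
  disj : (Lv C α).PairwiseDisjoint id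
  dense : C ⊆ closure (⋃₀ Lv C α)
  pred : ∀ β < α, ∀ R ∈ Lv C α, ∃ S ∈ Lv C β, R ⊆ S ∧ (R ⊆ half S ∨ Disjoint R (half S))

theorem Ctx.lspec {C : Set X} (hC : Ctx C) (α : Ordinal.{0}) (hα : α < Ordinal.omega 1) :
    LSpec C α := by
  induction α using WellFoundedLT.induction with
  | ind α ih =>
    have ih' : ∀ β < α, LSpec C β := fun β hβ => ih β hβ (hβ.trans hα)
    obtain ⟨h1, h2, h3⟩ := MD_spec (PPs C {ℒ | ∃ β, ∃ _h : β < α, ℒ = Lv C β})
    have hLv : Lv C α = Rg '' MD (PPs C {ℒ | ∃ β, ∃ _h : β < α, ℒ = Lv C β}) := by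
      rw [Lv]
    have hpred : ∀ β < α, ∀ Q ∈ MD (PPs C {ℒ | ∃ β, ∃ _h : β < α, ℒ = Lv C β}),
        ∃ S ∈ Lv C β, Rg Q ⊆ S ∧ (Rg Q ⊆ half S ∨ Disjoint (Rg Q) (half S)) := by
      intro β hβ Q hQ
      obtain ⟨hQo, hQne, hQC, hQ4⟩ := h1 hQ
      obtain ⟨S, hS, hQS, hQh⟩ := hQ4 (Lv C β) ⟨β, hβ, rfl⟩
      obtain ⟨hS1, hS2, hS3, hS4⟩ := (ih' β hβ).mem S hS
      obtain ⟨g1, g2, g3, g4, -⟩ := hC.half_spec S hS1 hS2 hS4
      refine ⟨S, hS, ?_, ?_⟩
      · rw [← hS3]
        exact Rg_mono hQS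
      · rcases hQh with h | h
        · left
          rw [← g3]
          exact Rg_mono h
        · exact Or.inr (disjoint_Rg_left g1 h)
    constructor
    · intro R hR
      rw [hLv] at hR
      obtain ⟨Q, hQ, rfl⟩ := hR
      obtain ⟨hQo, hQne, hQC, -⟩ := h1 hQ
      refine ⟨isOpen_Rg Q, hQne.mono (subset_Rg hQo), Rg_idem Q, ?_⟩
      rw [← hC.reg]
      exact Rg_mono hQC
    · rw [hLv]
      rintro _ ⟨Q, hQ, rfl⟩ _ ⟨Q', hQ', rfl⟩ hne
      have hQQ : Q ≠ Q' := fun h => hne (by rw [h])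
      exact disjoint_Rg (h1 hQ').1 (h2 hQ hQ' hQQ)
    · -- density
      have hdense : ∀ O : Set X, IsOpen O → O.Nonempty → O ⊆ C →
          ∃ P ∈ PPs C {ℒ | ∃ β, ∃ _h : β < α, ℒ = Lv C β}, P ⊆ O := by
        intro O hO hOne hOC
        rcases eq_or_ne α 0 with h0 | h0
        · subst h0
          refine ⟨O, ⟨hO, hOne, hOC, ?_⟩, Subset.rfl⟩
          rintro ℒ ⟨β, hβ, -⟩
          exact absurd hβ (by simp)
        · obtain ⟨f, hf⟩ := (countable_Iio α hα).exists_eq_range
            ⟨0, show (0 : Ordinal.{0}) < α from pos_iff_ne_zero.2 h0⟩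
          have hfα : ∀ n, f n < α := fun n => by
            have : f n ∈ Iio α := hf ▸ mem_range_self n
            exact this
          have hnb := (hC.good O hO hOne hOC).2
          have : ∃ B : Set X, IsOpen B ∧ B.Nonempty ∧ B ⊆ O ∧ ∀ n,
              ∃ P ∈ {P : Set X | IsOpen P ∧ ∃ S ∈ Lv C (f n), P ⊆ S ∧
                (P ⊆ half S ∨ Disjoint P (half S))}, B ⊆ closure P := by
            by_contra hcon
            refine hnb ⟨fun n => {P : Set X | IsOpen P ∧ ∃ S ∈ Lv C (f n), P ⊆ S ∧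
                (P ⊆ half S ∨ Disjoint P (half S))}, fun n => ⟨fun P hP => hP.1, ?_⟩, ?_⟩
            · intro x hx
              rw [mem_closure_iff]
              intro V hV hxV
              have h4 := (ih' _ (hfα n)).dense (hOC hx)
              rw [mem_closure_iff] at h4
              obtain ⟨y, hyV, S, hS, hyS⟩ := h4 V hV hxV
              obtain ⟨hS1, hS2, hS3, hS4⟩ := (ih' _ (hfα n)).mem S hS
              obtain ⟨g1, g2, g3, g4, -⟩ := hC.half_spec S hS1 hS2 hS4
              by_cases hm : (V ∩ S ∩ half S).Nonempty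
              · obtain ⟨z, hz⟩ := hm
                exact ⟨z, hz.1.1, V ∩ S ∩ half S, ⟨(hV.inter hS1).inter g1, S, hS,
                  inter_subset_left.trans inter_subset_right, Or.inl inter_subset_right⟩, hz⟩
              · refine ⟨y, hyV, V ∩ S, ⟨hV.inter hS1, S, hS, inter_subset_right, Or.inr ?_⟩,
                  hyV, hyS⟩
                rw [disjoint_iff_inter_eq_empty]
                exact not_nonempty_iff_eq_empty.1 hm
            · intro B hB hBne hBO hBn
              exact hcon ⟨B, hB, hBne, hBO, hBn⟩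
          obtain ⟨B, hB, hBne, hBO, hBn⟩ := this
          refine ⟨B, ⟨hB, hBne, hBO.trans hOC, ?_⟩, hBO⟩
          rintro ℒ ⟨β, hβ, rfl⟩
          obtain ⟨n, rfl⟩ : ∃ n, f n = β := by
            have : β ∈ range f := hf ▸ (show β ∈ Iio α from hβ)
            exact this
          obtain ⟨P, ⟨hP, S, hS, hPS, hPh⟩, hBP⟩ := hBn n
          obtain ⟨hS1, hS2, hS3, hS4⟩ := (ih' _ (hfα n)).mem S hS
          obtain ⟨g1, g2, g3, g4, -⟩ := hC.half_spec S hS1 hS2 hS4
          have hBR : B ⊆ Rg P := subset_Rg_of hB hBP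
          refine ⟨S, hS, ?_, ?_⟩
          · rw [← hS3]
            exact hBR.trans (Rg_mono hPS)
          · rcases hPh with h | h
            · left
              rw [← g3]
              exact hBR.trans (Rg_mono h)
            · exact Or.inr ((disjoint_Rg_left g1 h).mono_left hBR)
      intro x hx
      rw [mem_closure_iff]
      intro V hV hxV
      obtain ⟨P, hP, hPV⟩ := hdense (V ∩ C) (hV.inter hC.isOpen) ⟨x, hxV, hx⟩ inter_subset_right
      obtain ⟨Q, hQ, y, hyP, hyQ⟩ := h3 P hP hP.2.1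
      refine ⟨y, (hPV hyP).1, Rg Q, ?_, subset_Rg (h1 hQ).1 hyQ⟩
      rw [hLv]
      exact mem_image_of_mem _ hQ
    · intro β hβ R hR
      rw [hLv] at hR
      obtain ⟨Q, hQ, rfl⟩ := hR
      exact hpred β hβ Q hQ

/-- the tree: all members of all countable levels, ordered by reverse inclusion -/
def TreeT (C : Set X) : Type u :=
  {R : (Set X)ᵒᵈ // ∃ α : Ordinal.{0}, α < Ordinal.omega 1 ∧ OrderDual.ofDual R ∈ Lv C α}

instance (C : Set X) : PartialOrder (TreeT C) :=
  inferInstanceAs (PartialOrder {R : (Set X)ᵒᵈ // ∃ α : Ordinal.{0}, α < Ordinal.omega 1 ∧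
    OrderDual.ofDual R ∈ Lv C α})

/-- the open set of a node -/
def TreeT.s {C : Set X} (t : TreeT C) : Set X := OrderDual.ofDual t.1

/-- the height of a node -/
noncomputable def TreeT.ht {C : Set X} (t : TreeT C) : Ordinal.{0} := t.2.choose

lemma TreeT.le_iff {C : Set X} (t t' : TreeT C) : t ≤ t' ↔ t'.s ⊆ t.s := Iff.rfl

lemma TreeT.ht_lt {C : Set X} (t : TreeT C) : t.ht < Ordinal.omega 1 := t.2.choose_spec.1

lemma TreeT.mem {C : Set X} (t : TreeT C) : t.s ∈ Lv C t.ht := t.2.choose_spec.2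

lemma TreeT.ext_s {C : Set X} {t t' : TreeT C} (h : t.s = t'.s) : t = t' := Subtype.ext h

section Tree

variable {C : Set X} (hC : Ctx C)

include hC

lemma Ctx.eq_of_meet {α : Ordinal.{0}} (hα : α < Ordinal.omega 1) {R S : Set X}
    (hR : R ∈ Lv C α) (hS : S ∈ Lv C α) (h : (R ∩ S).Nonempty) : R = S := by
  by_contra hne
  have := (hC.lspec α hα).disj hR hS hne
  obtain ⟨x, hx1, hx2⟩ := h
  exact Set.disjoint_left.1 this hx1 hx2

/-- a set belongs to at most one level -/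
lemma Ctx.level_unique {α β : Ordinal.{0}} (hα : α < Ordinal.omega 1) (hβ : β < Ordinal.omega 1)
    {R : Set X} (hR : R ∈ Lv C α) (hR' : R ∈ Lv C β) : α = β := by
  have key : ∀ α β : Ordinal.{0}, α < Ordinal.omega 1 → β < α → R ∈ Lv C α → R ∈ Lv C β → False := by
    intro α β hα hβα hR hR'
    have hβ := hβα.trans hα
    obtain ⟨h1, h2, h3, h4⟩ := (hC.lspec α hα).mem R hR
    obtain ⟨S, hS, hRS, hRh⟩ := (hC.lspec α hα).pred β hβα R hR
    have hSR : S = R := by
      refine hC.eq_of_meet hβ hS hR' ?_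
      rwa [inter_eq_self_of_subset_right hRS]
    subst hSR
    obtain ⟨g1, g2, g3, g4, S₁, k1, k2, k3, k4⟩ := hC.half_spec S h1 h2 h4
    rcases hRh with h | h
    · obtain ⟨x, hx⟩ := k2
      exact Set.disjoint_left.1 k4 hx (h (k3 hx))
    · obtain ⟨x, hx⟩ := g2
      rw [h3] at g4
      exact Set.disjoint_left.1 h (g4 hx) hx
  rcases lt_trichotomy α β with h | h | h
  · exact (key β α hβ h hR' hR).elim
  · exact h
  · exact (key α β hα h hR hR').elim

lemma Ctx.ht_eq {t : TreeT C} {α : Ordinal.{0}} (hα : α < Ordinal.omega 1) (h : t.s ∈ Lv C α) :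
    t.ht = α := hC.level_unique t.ht_lt hα t.mem h

lemma Ctx.node (t : TreeT C) : IsOpen t.s ∧ t.s.Nonempty ∧ Rg t.s = t.s ∧ t.s ⊆ C :=
  (hC.lspec t.ht t.ht_lt).mem t.s t.mem

/-- the predecessor at a lower level -/
lemma Ctx.exists_pred (t : TreeT C) (α : Ordinal.{0}) (hα : α ≤ t.ht) :
    ∃ s : TreeT C, s ≤ t ∧ s.ht = α := by
  rcases hα.eq_or_lt with h | h
  · exact ⟨t, le_rfl, h.symm⟩
  · obtain ⟨S, hS, htS, -⟩ := (hC.lspec t.ht t.ht_lt).pred α h t.s t.mem
    have hα1 := h.trans t.ht_lt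
    refine ⟨⟨OrderDual.toDual S, α, hα1, hS⟩, htS, hC.ht_eq hα1 hS⟩

/-- nodes that meet are comparable -/
lemma Ctx.comparable {t t' : TreeT C} (h : (t.s ∩ t'.s).Nonempty) (hle : t.ht ≤ t'.ht) :
    t ≤ t' := by
  obtain ⟨s, hs, hs'⟩ := hC.exists_pred t' t.ht hle
  have : s.s = t.s := by
    refine hC.eq_of_meet t.ht_lt (hs' ▸ s.mem) t.mem ?_
    obtain ⟨x, hx1, hx2⟩ := h
    exact ⟨x, hs hx2, hx1⟩
  rw [← TreeT.ext_s this]
  exact hs

lemma Ctx.ht_strictMono : StrictMono (TreeT.ht (C := C)) := by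
  intro t t' htt
  by_contra hcon
  have hle : t'.ht ≤ t.ht := not_lt.1 hcon
  have hmeet : (t'.s ∩ t.s).Nonempty := by
    have h1 : t'.s ⊆ t.s := htt.le
    rw [inter_eq_self_of_subset_left h1]
    exact (hC.node t').2.1
  exact absurd (hC.comparable hmeet hle) (not_le_of_gt htt)

/-- every open set meeting `C` contains points of the nodes of every level -/
lemma Ctx.exists_node_meet (O : Set X) (hO : IsOpen O) (hne : (O ∩ C).Nonempty) (α : Ordinal.{0})
    (hα : α < Ordinal.omega 1) : ∃ t : TreeT C, t.ht = α ∧ (O ∩ t.s).Nonempty := by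
  obtain ⟨x, hxO, hxC⟩ := hne
  have h := (hC.lspec α hα).dense hxC
  rw [mem_closure_iff] at h
  obtain ⟨y, hyO, S, hS, hyS⟩ := h O hO hxO
  exact ⟨⟨OrderDual.toDual S, α, hα, hS⟩, hC.ht_eq hα hS, y, hyO, hyS⟩

theorem Ctx.freeSuslin (h : SFin (DOmega X) (DOmega X)) :
    FreeSuslin (TreeT C) (TreeT.ht (C := C)) where
  ht_lt := fun t => t.ht_lt
  ht_strictMono := hC.ht_strictMono
  exists_unique_pred := by
    intro t α hα
    obtain ⟨s, hs, hs'⟩ := hC.exists_pred t α hα
    refine ⟨s, ⟨hs, hs'⟩, ?_⟩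
    rintro s' ⟨h1, h2⟩
    apply TreeT.ext_s
    refine hC.eq_of_meet s.ht_lt (by rw [hs', ← h2]; exact s'.mem) s.mem ?_
    obtain ⟨x, hx⟩ := (hC.node t).2.1
    exact ⟨x, h1 hx, hs hx⟩
  level_countable := by
    intro α
    by_cases hα : α < Ordinal.omega 1
    · have hcount : (Lv C α).Countable := h.ccc (Lv C α)
        (fun R hR => ⟨((hC.lspec α hα).mem R hR).1, ((hC.lspec α hα).mem R hR).2.1⟩)
        (hC.lspec α hα).disj
      refine MapsTo.countable_of_injOn (f := TreeT.s) (t := Lv C α) ?_ ?_ hcount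
      · intro t ht
        have : t.s ∈ Lv C t.ht := t.mem
        rw [show t.ht = α from ht] at this
        exact this
      · intro t _ t' _ htt
        exact TreeT.ext_s htt
    · refine Countable.mono ?_ countable_empty
      intro t ht
      exact absurd (show t.ht = α from ht ▸ rfl) (fun h' => hα (h' ▸ t.ht_lt))
  nonempty := by
    obtain ⟨x, hx⟩ := hC.ne
    obtain ⟨t, -, -⟩ := hC.exists_node_meet univ isOpen_univ ⟨x, mem_univ _, hx⟩ 0
      (Ordinal.omega_pos 1)
    exact ⟨t⟩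
  exists_ext := by
    intro t α hα hα1
    obtain ⟨h1, h2, h3, h4⟩ := hC.node t
    have hne : (t.s ∩ C).Nonempty := by rwa [inter_eq_self_of_subset_left h4]
    obtain ⟨s, hs, hmeet⟩ := hC.exists_node_meet t.s h1 hne α hα1
    exact ⟨s, hC.comparable hmeet (hs ▸ hα), hs⟩
  split := by
    intro t
    obtain ⟨h1, h2, h3, h4⟩ := hC.node t
    obtain ⟨g1, g2, g3, g4, S₁, k1, k2, k3, k4⟩ := hC.half_spec t.s h1 h2 h4
    have hsucc : Order.succ t.ht < Ordinal.omega 1 := (Cardinal.isSuccLimit_omega 1).succ_lt t.ht_lt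
    have hne0 : (half t.s ∩ C).Nonempty := by
      obtain ⟨x, hx⟩ := g2
      rw [h3] at g4
      exact ⟨x, hx, h4 (g4 hx)⟩
    have hne1 : (S₁ ∩ C).Nonempty := by
      obtain ⟨x, hx⟩ := k2
      exact ⟨x, hx, h4 (k3 hx)⟩
    obtain ⟨a, ha, x, hxh, hxa⟩ := hC.exists_node_meet (half t.s) g1 hne0 _ hsucc
    obtain ⟨b, hb, y, hyS, hyb⟩ := hC.exists_node_meet S₁ k1 hne1 _ hsucc
    rw [h3] at g4
    have hta : t ≤ a := hC.comparable ⟨x, g4 hxh, hxa⟩ (ha ▸ Order.le_succ _)
    have htb : t ≤ b := hC.comparable ⟨y, k3 hyS, hyb⟩ (hb ▸ Order.le_succ _)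
    have key : ∀ c : TreeT C, c.ht = Order.succ t.ht → t ≤ c →
        c.s ⊆ half t.s ∨ Disjoint c.s (half t.s) := by
      intro c hc htc
      obtain ⟨S, hS, hcS, hch⟩ := (hC.lspec c.ht c.ht_lt).pred t.ht (hc ▸ Order.lt_succ _) c.s c.mem
      have : S = t.s := by
        refine hC.eq_of_meet t.ht_lt hS t.mem ?_
        obtain ⟨z, hz⟩ := (hC.node c).2.1
        exact ⟨z, hcS hz, htc hz⟩
      rwa [this] at hch
    have ha' : a.s ⊆ half t.s := by
      rcases key a ha hta with h' | h'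
      · exact h'
      · exact absurd hxh (Set.disjoint_left.1 h' hxa)
    have hb' : Disjoint b.s (half t.s) := by
      rcases key b hb htb with h' | h'
      · exact absurd (h' hyb) (Set.disjoint_left.1 k4 hyS)
      · exact h'
    refine ⟨a, b, hta, htb, ?_⟩
    rintro ⟨c, hac, hbc⟩
    obtain ⟨z, hz⟩ := (hC.node c).2.1
    exact Set.disjoint_left.1 hb' (hbc hz) (ha' (hac hz))
  free := by
    intro n t hinj hht A hA hpair
    -- boxes
    have hdisjt : ∀ i j, i ≠ j → Disjoint (t i).s (t j).s := by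
      intro i j hij
      by_contra hnd
      have := hC.comparable (not_disjoint_iff_nonempty_inter.1 hnd) (hht i j).le
      have h2 := hC.comparable (inter_comm _ _ ▸ not_disjoint_iff_nonempty_inter.1 hnd) (hht j i).le
      exact hij (hinj (le_antisymm this h2))
    let bx : (Fin n → TreeT C) → Set (Fin n → X) := fun x => univ.pi fun i => (x i).s
    have hbxo : ∀ x, IsOpen (bx x) := fun x =>
      isOpen_set_pi finite_univ fun i _ => (hC.node (x i)).1
    have hbxne : ∀ x, (bx x).Nonempty := fun x =>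
      univ_pi_nonempty_iff.2 fun i => (hC.node (x i)).2.1
    have hbxd : ∀ x ∈ A, ∀ y ∈ A, x ≠ y → Disjoint (bx x) (bx y) := by
      intro x hx y hy hxy
      by_contra hnd
      obtain ⟨p, hp1, hp2⟩ := not_disjoint_iff.1 hnd
      apply hpair hx hy hxy
      have : ∀ i, ∃ z : TreeT C, x i ≤ z ∧ y i ≤ z := by
        intro i
        have hm : ((x i).s ∩ (y i).s).Nonempty := ⟨p i, hp1 i (mem_univ _), hp2 i (mem_univ _)⟩
        rcases le_total (x i).ht (y i).ht with hle | hle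
        · exact ⟨y i, hC.comparable hm hle, le_rfl⟩
        · exact ⟨x i, le_rfl, hC.comparable (inter_comm _ _ ▸ hm) hle⟩
      choose z hz1 hz2 using this
      exact ⟨z, fun i => ⟨hz1 i, hz2 i⟩⟩
    have hcount := countable_meet_box (fun i => (t i).s) (fun i => (hC.node (t i)).1)
      (fun i j hij => Or.inl (hdisjt i j hij)) h (bx '' A) (by
        rintro _ ⟨x, -, rfl⟩
        exact hbxo x) (by
        rintro _ ⟨x, hx, rfl⟩ _ ⟨y, hy, rfl⟩ hne
        exact hbxd x hx y hy fun hxy => hne (by rw [hxy]))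
    refine MapsTo.countable_of_injOn (f := bx) ?_ ?_ hcount
    · intro x hx
      refine ⟨mem_image_of_mem _ hx, ?_⟩
      obtain ⟨p, hp⟩ := hbxne x
      exact ⟨p, hp, fun i hi => hA x hx i (hp i hi)⟩
    · intro x hx y hy hxy
      by_contra hne
      have := hbxd x hx y hy hne
      rw [hxy, disjoint_self] at this
      exact (hbxne y).ne_empty this

end Tree

/-- **Main step.** A space satisfying `S_fin(D_Ω, D_Ω)` whose square is not ccc yields a free
Suslin tree. -/
theorem exists_freeSuslin (h : SFin (DOmega X) (DOmega X)) (hnot : ¬ CCC (Fin 2 → X)) :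
    ∃ (T : Type u) (_ : PartialOrder T) (ht : T → Ordinal.{0}), FreeSuslin T ht := by
  obtain ⟨C, hC⟩ := exists_ctx h hnot
  exact ⟨TreeT C, inferInstance, TreeT.ht, hC.freeSuslin h⟩

end Pool.Agent.H94.Sel
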