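import Mathlib

/-!
# Saturated graded families of subspaces over `k(t)`

`k` is a field, `F₀` a field generated by a transcendental `t` over `k`.
A `TLat` in an `F₀`-space `V` is the family of spaces of twisted global sections
of a vector bundle on the projective line with generic fibre `V`.
-/

namespace Pool.Agent.Lib.H94

open Polynomial Module

/-- `t` is transcendental over `k`, and generates the field `F₀` over `k`. -/
structure IsRatGen (k : Type*) {F₀ : Type*} [Field k] [Field F₀] [Algebra k F₀] (t : F₀) :
    Prop where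
  transc : ∀ p : k[X], aeval t p = 0 → p = 0
  gen : ∀ a : F₀, ∃ p q : k[X], q ≠ 0 ∧ aeval t q * a = aeval t p

section Basic

variable {k F₀ V : Type*} [Field k] [Field F₀] [Algebra k F₀]
  [AddCommGroup V] [Module k V] [Module F₀ V] [IsScalarTower k F₀ V] {t : F₀}

/-- multiplication by `t` as a `k`-linear map. -/
noncomputable def tm (k : Type*) {F₀ : Type*} (V : Type*) [Field k] [Field F₀] [Algebra k F₀]
    [AddCommGroup V] [Module k V] [Module F₀ V] [IsScalarTower k F₀ V] (t : F₀) : V →ₗ[k] V :=
  Algebra.lsmul k k V t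

@[simp] lemma tm_apply (v : V) : tm k V t v = t • v := rfl

lemma aeval_tm (p : k[X]) (v : V) : aeval (tm k V t) p v = aeval t p • v := by
  have : aeval (tm k V t) p = Algebra.lsmul k k V (aeval t p) := by
    rw [tm]
    exact Polynomial.aeval_algHom_apply (Algebra.lsmul k k V) t p
  rw [this]; rfl

/-- A finite-dimensional `k`-subspace stable under `t` is zero. -/
lemma eq_bot_of_stable (ht : IsRatGen k t) (H : Submodule k V) [FiniteDimensional k H]
    (hH : ∀ v ∈ H, t • v ∈ H) : H = ⊥ := by
  rw [Submodule.eq_bot_iff]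
  intro w hw
  by_contra hw0
  have hmem : ∀ p : k[X], aeval t p • w ∈ H := by
    intro p
    induction p using Polynomial.induction_on' with
    | add p q hp hq => rw [map_add, add_smul]; exact H.add_mem hp hq
    | monomial n a =>
      have : ∀ n : ℕ, t ^ n • w ∈ H := by
        intro n
        induction n with
        | zero => simpa using hw
        | succ n ih => rw [pow_succ', mul_smul]; exact hH _ ih
      rw [aeval_monomial, mul_smul, algebraMap_smul]
      exact H.smul_mem _ (this n)
  let f : k[X] →ₗ[k] H :=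
    LinearMap.codRestrict H
      ((LinearMap.toSpanSingleton F₀ V w).restrictScalars k ∘ₗ (aeval t).toLinearMap) hmem
  have hf : Function.Injective f := by
    rw [injective_iff_map_eq_zero]
    intro p hp
    have h1 : aeval t p • w = 0 := congrArg Subtype.val hp
    rcases smul_eq_zero.1 h1 with h | h
    · exact ht.transc p h
    · exact absurd h hw0
  have : Module.Finite k k[X] := Module.Finite.of_injective f hf
  exact Polynomial.not_finite this

/-- The `F₀`-span of a finite-dimensional `k`-subspace is generated by at most as many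
vectors as the dimension of the subspace. -/
lemma finrank_span_le_finrank (C : Submodule k V) [FiniteDimensional k C] :
    FiniteDimensional F₀ (Submodule.span F₀ (C : Set V)) ∧
      finrank F₀ (Submodule.span F₀ (C : Set V)) ≤ finrank k C := by
  let b := Module.finBasis k C
  have hspan : Submodule.span F₀ (C : Set V) =
      Submodule.span F₀ (Set.range fun i => (b i : V)) := by
    apply le_antisymm
    · rw [Submodule.span_le]
      intro v hv
      have h1 : (⟨v, hv⟩ : C) ∈ Submodule.span k (Set.range b) := by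
        rw [b.span_eq]; trivial
      have h2 : v ∈ Submodule.span k (Set.range fun i => (b i : V)) := by
        have := Submodule.mem_map_of_mem (f := C.subtype) h1
        rw [Submodule.map_span, ← Set.range_comp] at this
        exact this
      exact Submodule.span_subset_span k F₀ _ h2
    · rw [Submodule.span_le]
      rintro _ ⟨i, rfl⟩
      exact Submodule.subset_span (b i).2
  rw [hspan]
  refine ⟨FiniteDimensional.span_of_finite F₀ (Set.finite_range _), ?_⟩
  refine (finrank_range_le_card _).trans ?_
  simp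

/-- `G' ≤ G`, with `t G' ≤ G`: the generic rank of `G` is at most `dim G - dim G'`. -/
lemma finrank_span_add_le (ht : IsRatGen k t) (G G' : Submodule k V) [FiniteDimensional k G]
    (hle : G' ≤ G) (hG : ∀ v ∈ G', t • v ∈ G) :
    finrank F₀ (Submodule.span F₀ (G : Set V)) + finrank k G' ≤ finrank k G := by
  obtain ⟨D, hD⟩ := G'.exists_isCompl
  have hsup : G' ⊔ (D ⊓ G) = G := by
    rw [← sup_inf_assoc_of_le D hle, hD.sup_eq_top, top_inf_eq]
  have hinf : G' ⊓ (D ⊓ G) = ⊥ := by
    rw [← inf_assoc, hD.inf_eq_bot, bot_inf_eq]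
  have : FiniteDimensional k G' := Submodule.finiteDimensional_of_le hle
  have hC : FiniteDimensional k (D ⊓ G : Submodule k V) :=
    Submodule.finiteDimensional_of_le inf_le_right
  have hdim : finrank k G = finrank k G' + finrank k (D ⊓ G : Submodule k V) := by
    have := Submodule.finrank_sup_add_finrank_inf_eq G' (D ⊓ G)
    rw [hsup, hinf] at this
    simpa using this
  obtain ⟨hfin, hrk⟩ := finrank_span_le_finrank (F₀ := F₀) (D ⊓ G)
  set S := Submodule.span F₀ ((D ⊓ G : Submodule k V) : Set V) with hS
  have hG'S : ∀ v ∈ G', v ∈ S := by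
    have hst : Submodule.map (S.mkQ.restrictScalars k) G' = ⊥ := by
      apply eq_bot_of_stable ht
      rintro _ ⟨v, hv, rfl⟩
      have h1 : t • v ∈ G' ⊔ (D ⊓ G) := by rw [hsup]; exact hG v hv
      obtain ⟨a, ha, c, hc, hac⟩ := Submodule.mem_sup.1 h1
      refine ⟨a, ha, ?_⟩
      have h2 : S.mkQ c = 0 := by
        rw [Submodule.mkQ_apply, Submodule.Quotient.mk_eq_zero]
        exact Submodule.subset_span hc
      change S.mkQ a = t • S.mkQ v
      rw [← map_smul, ← hac, map_add, h2, add_zero]
    intro v hv
    have h3 : S.mkQ v ∈ Submodule.map (S.mkQ.restrictScalars k) G' := ⟨v, hv, rfl⟩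
    rw [hst, Submodule.mem_bot, Submodule.mkQ_apply, Submodule.Quotient.mk_eq_zero] at h3
    exact h3
  have hGS : Submodule.span F₀ (G : Set V) ≤ S := by
    rw [Submodule.span_le]
    intro v hv
    have h1 : v ∈ G' ⊔ (D ⊓ G) := by rw [hsup]; exact hv
    obtain ⟨a, ha, c, hc, hac⟩ := Submodule.mem_sup.1 h1
    rw [← hac]
    exact S.add_mem (hG'S a ha) (Submodule.subset_span hc)
  have := Submodule.finrank_mono hGS
  omega

/-- Clearing denominators of finitely many elements of `F₀ = k(t)`. -/
lemma exists_common_denom (ht : IsRatGen k t) {ι : Type*} [Finite ι] (a : ι → F₀) :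
    ∃ (q : k[X]) (p : ι → k[X]), q ≠ 0 ∧ ∀ i, aeval t q * a i = aeval t (p i) := by
  classical
  have := Fintype.ofFinite ι
  choose p q hq hpq using fun i => ht.gen (a i)
  refine ⟨∏ i, q i, fun i => (∏ j ∈ Finset.univ.erase i, q j) * p i,
    Finset.prod_ne_zero_iff.2 fun i _ => hq i, fun i => ?_⟩
  rw [← Finset.mul_prod_erase Finset.univ q (Finset.mem_univ i), map_mul, map_mul, ← hpq i]
  ring

lemma aeval_ne_zero (ht : IsRatGen k t) {q : k[X]} (hq : q ≠ 0) : aeval t q ≠ 0 :=
  fun h => hq (ht.transc q h)

end Basic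

/-- A saturated `t`-stable increasing family of finite-dimensional `k`-subspaces of `V`,
generically spanning `V`.  (Twisted global sections of a vector bundle on the projective
line, with `t` the affine coordinate.) -/
structure TLat (k : Type*) {F₀ : Type*} (V : Type*) [Field k] [Field F₀] [Algebra k F₀]
    [AddCommGroup V] [Module k V] [Module F₀ V] [IsScalarTower k F₀ V] (t : F₀) where
  /-- the subspace of sections in degree `i` -/
  s : ℤ → Submodule k V
  mono' : ∀ i, s i ≤ s (i + 1)
  tmul : ∀ i v, v ∈ s i → t • v ∈ s (i + 1)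
  fin : ∀ i, FiniteDimensional k (s i)
  sat : ∀ i v, v ∈ s (i + 1) → t • v ∈ s (i + 1) → v ∈ s i
  top : ∃ i, Submodule.span F₀ (s i : Set V) = ⊤

namespace TLat

variable {k F₀ V : Type*} [Field k] [Field F₀] [Algebra k F₀]
  [AddCommGroup V] [Module k V] [Module F₀ V] [IsScalarTower k F₀ V] {t : F₀}

section

variable (M : TLat k V t)

instance (i : ℤ) : FiniteDimensional k (M.s i) := M.fin i

lemma mono {i j : ℤ} (h : i ≤ j) : M.s i ≤ M.s j := by
  obtain ⟨n, rfl⟩ := Int.le.dest h
  induction n with
  | zero => simp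
  | succ n ih =>
    refine (ih (by omega)).trans ?_
    have := M.mono' (i + n)
    rwa [show i + (n : ℤ) + 1 = i + ((n + 1 : ℕ) : ℤ) by push_cast; ring] at this

lemma tpow_mul (n : ℕ) {i : ℤ} {v : V} (hv : v ∈ M.s i) : t ^ n • v ∈ M.s (i + n) := by
  induction n with
  | zero => simpa using hv
  | succ n ih =>
    rw [pow_succ', mul_smul]
    have := M.tmul _ _ ih
    rwa [show i + (n : ℤ) + 1 = i + ((n + 1 : ℕ) : ℤ) by push_cast; ring] at this

lemma aeval_mem (p : k[X]) (n : ℕ) (hp : p.natDegree ≤ n) {i : ℤ} {v : V} (hv : v ∈ M.s i) :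
    aeval t p • v ∈ M.s (i + n) := by
  rw [Polynomial.aeval_eq_sum_range' (Nat.lt_succ_of_le hp), Finset.sum_smul]
  refine Submodule.sum_mem _ fun j hj => ?_
  rw [smul_assoc]
  refine Submodule.smul_mem _ _ (M.mono ?_ (M.tpow_mul j hv))
  have := Finset.mem_range.1 hj
  omega

lemma sat_pow (n : ℕ) {i : ℤ} {v : V} (hv : v ∈ M.s i) (h : t ^ n • v ∈ M.s (i + n - 1)) :
    v ∈ M.s (i - 1) := by
  induction n with
  | zero => simpa using h
  | succ n ih =>
    apply ih
    apply M.sat
    · have := M.tpow_mul n hv
      rwa [show i + (n : ℤ) - 1 + 1 = i + n by ring]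
    · rw [pow_succ', mul_smul] at h
      rwa [show i + (n : ℤ) - 1 + 1 = i + ((n + 1 : ℕ) : ℤ) - 1 by push_cast; ring]

/-- Elements independent modulo `s (i-1)` are independent over `k(t)`. -/
lemma linearIndependent_of_disjoint (ht : IsRatGen k t) {ι : Type*} [Finite ι] {i : ℤ}
    (b : ι → V) (hb : ∀ j, b j ∈ M.s i) (hli : LinearIndependent k b)
    (hdis : Disjoint (Submodule.span k (Set.range b)) (M.s (i - 1))) :
    LinearIndependent F₀ b := by
  classical
  have := Fintype.ofFinite ι
  rw [Fintype.linearIndependent_iff]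
  intro a ha
  obtain ⟨q, p, hq, hpq⟩ := exists_common_denom ht a
  have hp0 : ∑ j, aeval t (p j) • b j = 0 := by
    calc ∑ j, aeval t (p j) • b j = aeval t q • ∑ j, a j • b j := by
          rw [Finset.smul_sum]
          exact Finset.sum_congr rfl fun j _ => by rw [← hpq, mul_smul]
      _ = 0 := by rw [ha, smul_zero]
  -- suffices all `p j` vanish
  suffices h : ∀ j, p j = 0 by
    intro j
    have h1 := hpq j
    rw [h j, map_zero] at h1
    exact (mul_eq_zero.1 h1).resolve_left (aeval_ne_zero ht hq)
  -- downward induction on a bound for the degrees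
  obtain ⟨D, hD⟩ : ∃ D : ℕ, ∀ j, (p j).natDegree < D :=
    ⟨(Finset.univ.sup fun j => (p j).natDegree) + 1, fun j =>
      Nat.lt_succ_of_le (Finset.le_sup (f := fun j => (p j).natDegree) (Finset.mem_univ j))⟩
  have key : ∀ D : ℕ, ∀ p : ι → k[X], (∀ j, (p j).degree < D) →
      ∑ j, aeval t (p j) • b j = 0 → ∀ j, p j = 0 := by
    intro D
    induction D with
    | zero =>
      intro p hp _ j
      have := hp j
      rw [← Polynomial.degree_eq_bot]
      simpa using this
    | succ n ih =>
      intro p hp hsum
      -- leading coefficients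
      have hlead : ∑ j, (p j).coeff n • b j = 0 := by
        have hw : ∑ j, (p j).coeff n • b j ∈ M.s (i - 1) := by
          refine M.sat_pow n (Submodule.sum_mem _ fun j _ => Submodule.smul_mem _ _ (hb j)) ?_
          have hsplit : t ^ n • ∑ j, (p j).coeff n • b j =
              - ∑ j, aeval t (p j - C ((p j).coeff n) * X ^ n) • b j := by
            rw [eq_neg_iff_add_eq_zero, ← hsum, Finset.smul_sum, ← Finset.sum_add_distrib]
            refine Finset.sum_congr rfl fun j _ => ?_
            rw [map_sub, sub_smul, map_mul, aeval_C, map_pow, aeval_X, mul_comm, mul_smul,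
              algebraMap_smul]
            abel
          rw [hsplit]
          refine Submodule.neg_mem _ (Submodule.sum_mem _ fun j _ => ?_)
          rcases Nat.eq_zero_or_pos n with rfl | hn
          · have h0 : p j - C ((p j).coeff 0) * X ^ 0 = 0 := by
              ext m
              rw [pow_zero, mul_one, coeff_sub, coeff_zero, coeff_C]
              rcases Nat.eq_zero_or_pos m with rfl | hm
              · simp
              · rw [if_neg hm.ne', sub_zero]
                exact Polynomial.coeff_eq_zero_of_degree_lt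
                  ((hp j).trans_le (by exact_mod_cast hm))
            rw [h0, map_zero, zero_smul]
            exact Submodule.zero_mem _
          · have hdeg : (p j - C ((p j).coeff n) * X ^ n).natDegree ≤ n - 1 := by
              rw [Polynomial.natDegree_le_iff_coeff_eq_zero]
              intro m hm
              rw [coeff_sub, coeff_C_mul, coeff_X_pow]
              by_cases hmn : m = n
              · subst hmn; simp
              · rw [if_neg hmn, mul_zero, sub_zero]
                apply Polynomial.coeff_eq_zero_of_degree_lt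
                refine (hp j).trans_le ?_
                exact_mod_cast (by omega : n + 1 ≤ m)
            have := M.aeval_mem _ (n - 1) hdeg (hb j)
            rwa [show i + ((n - 1 : ℕ) : ℤ) = i + n - 1 by omega] at this
        have hw2 : ∑ j, (p j).coeff n • b j ∈ Submodule.span k (Set.range b) :=
          Submodule.sum_mem _ fun j _ =>
            Submodule.smul_mem _ _ (Submodule.subset_span ⟨j, rfl⟩)
        exact Submodule.disjoint_def.1 hdis _ hw2 hw
      have hc : ∀ j, (p j).coeff n = 0 := Fintype.linearIndependent_iff.1 hli _ hlead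
      refine ih p (fun j => ?_) hsum
      rw [Polynomial.degree_lt_iff_coeff_zero]
      intro m hm
      rcases Nat.eq_or_lt_of_le hm with rfl | hm
      · exact hc j
      · exact Polynomial.coeff_eq_zero_of_degree_lt ((hp j).trans_le (by exact_mod_cast hm))
  exact key D p (fun j => (Polynomial.degree_le_natDegree).trans_lt (by exact_mod_cast hD j)) hp0

/-- The Hilbert function. -/
noncomputable def h (i : ℤ) : ℕ := finrank k (M.s i)

/-- The `k(t)`-span of the sections of degree `i`. -/
noncomputable def U (i : ℤ) : Submodule F₀ V := Submodule.span F₀ (M.s i : Set V)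

/-- The dimension over `k(t)` of the span of the sections of degree `i`. -/
noncomputable def u (i : ℤ) : ℕ := finrank F₀ (M.U i)

instance finiteDimensional_U (i : ℤ) : FiniteDimensional F₀ (M.U i) :=
  (finrank_span_le_finrank (F₀ := F₀) (M.s i)).1

lemma s_le_U {i : ℤ} {v : V} (hv : v ∈ M.s i) : v ∈ M.U i := Submodule.subset_span hv

lemma U_mono {i j : ℤ} (hij : i ≤ j) : M.U i ≤ M.U j := Submodule.span_mono (M.mono hij)

lemma u_mono {i j : ℤ} (hij : i ≤ j) : M.u i ≤ M.u j := Submodule.finrank_mono (M.U_mono hij)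

lemma h_mono {i j : ℤ} (hij : i ≤ j) : M.h i ≤ M.h j := Submodule.finrank_mono (M.mono hij)

/-- The first difference of the Hilbert function is the generic rank of the span. -/
lemma h_eq (ht : IsRatGen k t) (i : ℤ) : M.h i = M.h (i - 1) + M.u i := by
  apply le_antisymm
  · obtain ⟨D, hD⟩ := (M.s (i - 1)).exists_isCompl
    have hle : M.s (i - 1) ≤ M.s i := M.mono (by omega)
    have hsup : M.s (i - 1) ⊔ (D ⊓ M.s i) = M.s i := by
      rw [← sup_inf_assoc_of_le D hle, hD.sup_eq_top, top_inf_eq]
    have hinf : M.s (i - 1) ⊓ (D ⊓ M.s i) = ⊥ := by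
      rw [← inf_assoc, hD.inf_eq_bot, bot_inf_eq]
    have hC : FiniteDimensional k (D ⊓ M.s i : Submodule k V) :=
      Submodule.finiteDimensional_of_le inf_le_right
    have hdim : M.h i = M.h (i - 1) + finrank k (D ⊓ M.s i : Submodule k V) := by
      have := Submodule.finrank_sup_add_finrank_inf_eq (M.s (i - 1)) (D ⊓ M.s i)
      rw [hsup, hinf] at this
      simpa [h] using this
    rw [hdim]
    gcongr
    let b := Module.finBasis k (D ⊓ M.s i : Submodule k V)
    have hb : ∀ j, (b j : V) ∈ M.s i := fun j => (b j).2.2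
    have hli : LinearIndependent k (fun j => (b j : V)) :=
      b.linearIndependent.map' (Submodule.subtype _) (Submodule.ker_subtype _)
    have hli' := M.linearIndependent_of_disjoint ht (fun j => (b j : V)) hb hli (by
      rw [Submodule.disjoint_def]
      intro v hv1 hv2
      have h1 : v ∈ (D ⊓ M.s i : Submodule k V) := by
        refine Submodule.span_le.2 ?_ hv1
        rintro _ ⟨j, rfl⟩
        exact (b j).2
      have h2 : v ∈ M.s (i - 1) ⊓ (D ⊓ M.s i) := ⟨hv2, h1⟩
      rwa [hinf, Submodule.mem_bot] at h2)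
    have hli2 : LinearIndependent F₀ (fun j => (⟨b j, M.s_le_U (hb j)⟩ : M.U i)) := by
      apply LinearIndependent.of_comp (M.U i).subtype
      exact hli'
    have := hli2.fintype_card_le_finrank
    rw [Fintype.card_fin] at this
    exact this
  · have := finrank_span_add_le ht (M.s i) (M.s (i - 1)) (M.mono (by omega))
      (fun v hv => by simpa using M.tmul _ _ hv)
    rw [add_comm]
    exact this

lemma exists_U_eq_top : ∃ i, ∀ j, i ≤ j → M.U j = ⊤ := by
  obtain ⟨i, hi⟩ := M.top
  refine ⟨i, fun j hij => top_le_iff.1 ?_⟩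
  have : M.U i = ⊤ := hi
  rw [← this]
  exact M.U_mono hij

include M in
lemma finiteDimensional : FiniteDimensional F₀ V := by
  obtain ⟨i, hi⟩ := M.exists_U_eq_top
  have h1 := hi i le_rfl
  have := M.finiteDimensional_U i
  rw [h1] at this
  exact Module.Finite.equiv (Submodule.topEquiv (R := F₀) (M := V))

lemma u_le (i : ℤ) : M.u i ≤ finrank F₀ V := by
  have := M.finiteDimensional
  exact Submodule.finrank_le _

lemma u_eq_iff (i : ℤ) : M.u i = finrank F₀ V ↔ M.U i = ⊤ := by
  have := M.finiteDimensional
  constructor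
  · intro h
    exact Submodule.eq_top_of_finrank_eq h
  · intro h
    rw [u, h, finrank_top]

/-- The Euler characteristic: `h i = N * i + χ` for large `i`. -/
noncomputable def chi : ℤ :=
  (M.h (Classical.choose M.top) : ℤ) - finrank F₀ V * (Classical.choose M.top)

lemma h_add (ht : IsRatGen k t) {i : ℤ} (hi : M.U i = ⊤) (n : ℕ) :
    M.h (i + n) = M.h i + n * finrank F₀ V := by
  induction n with
  | zero => simp
  | succ n ih =>
    rw [M.h_eq ht, show i + ((n + 1 : ℕ) : ℤ) - 1 = i + n by push_cast; ring, ih,
      (M.u_eq_iff _).2 (top_le_iff.1 (hi ▸ M.U_mono (by omega)))]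
    ring

lemma h_sub_eq (ht : IsRatGen k t) {i j : ℤ} (hi : M.U i = ⊤) (hij : i ≤ j) :
    (M.h j : ℤ) - finrank F₀ V * j = M.h i - finrank F₀ V * i := by
  obtain ⟨n, rfl⟩ := Int.le.dest hij
  rw [M.h_add ht hi]
  push_cast
  ring

lemma chi_eq (ht : IsRatGen k t) {i : ℤ} (hi : M.U i = ⊤) :
    M.chi = M.h i - finrank F₀ V * i := by
  rw [chi]
  have h0 : M.U (Classical.choose M.top) = ⊤ := Classical.choose_spec M.top
  rcases le_total i (Classical.choose M.top) with h | h
  · exact M.h_sub_eq ht hi h
  · exact (M.h_sub_eq ht h0 h).symm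

/-- `h i - N i` is non-increasing. -/
lemma h_sub_antitone (ht : IsRatGen k t) {i j : ℤ} (hij : i ≤ j) :
    (M.h j : ℤ) - finrank F₀ V * j ≤ M.h i - finrank F₀ V * i := by
  obtain ⟨n, rfl⟩ := Int.le.dest hij
  induction n with
  | zero => simp
  | succ n ih =>
    refine le_trans ?_ (ih (by omega))
    have h1 := M.h_eq ht (i + ((n + 1 : ℕ) : ℤ))
    rw [show i + ((n + 1 : ℕ) : ℤ) - 1 = i + n by push_cast; ring] at h1
    have h2 := M.u_le (i + ((n + 1 : ℕ) : ℤ))
    have h3 : (M.u (i + ((n + 1 : ℕ) : ℤ)) : ℤ) ≤ finrank F₀ V := by exact_mod_cast h2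
    rw [h1]
    push_cast at h3 ⊢
    nlinarith

lemma chi_le (ht : IsRatGen k t) (i : ℤ) : M.chi ≤ M.h i - finrank F₀ V * i := by
  obtain ⟨j, hj⟩ := M.exists_U_eq_top
  rcases le_total i j with h | h
  · rw [M.chi_eq ht (hj j le_rfl)]
    exact M.h_sub_antitone ht h
  · rw [M.chi_eq ht (hj i h)]

/-- Sections vanish in very negative degree. -/
lemma exists_s_eq_bot (ht : IsRatGen k t) : ∃ i, ∀ j, j ≤ i → M.s j = ⊥ := by
  -- the dimensions stabilise going down
  obtain ⟨i, hi⟩ : ∃ i, ∀ j, M.h i ≤ M.h j := by
    have hne : (Set.range M.h).Nonempty := ⟨_, 0, rfl⟩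
    obtain ⟨i, hi⟩ := Nat.sInf_mem hne
    exact ⟨i, fun j => by rw [hi]; exact Nat.sInf_le ⟨j, rfl⟩⟩
  have hconst : ∀ j, j ≤ i → M.s j = M.s i := fun j hj =>
    Submodule.eq_of_le_of_finrank_le (M.mono hj) (hi j)
  have h0 : M.s i = ⊥ := by
    apply eq_bot_of_stable ht
    intro v hv
    rw [← hconst (i - 1) (by omega)] at hv
    simpa using M.tmul _ _ hv
  exact ⟨i, fun j hj => (hconst j hj).trans h0⟩

/-- The twist of a family. -/
def twist (j : ℤ) : TLat k V t where
  s i := M.s (i + j)
  mono' i := M.mono (by omega)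
  tmul i v hv := by
    have := M.tmul _ _ hv
    rwa [show i + j + 1 = i + 1 + j by ring] at this
  fin i := M.fin _
  sat i v hv hv' := by
    rw [show i + 1 + j = i + j + 1 by ring] at hv hv'
    exact M.sat _ _ hv hv'
  top := by
    obtain ⟨i, hi⟩ := M.top
    exact ⟨i - j, by rwa [show i - j + j = i by ring]⟩

@[simp] lemma twist_s (i j : ℤ) : (M.twist j).s i = M.s (i + j) := rfl
@[simp] lemma twist_h (i j : ℤ) : (M.twist j).h i = M.h (i + j) := rfl
@[simp] lemma twist_U (i j : ℤ) : (M.twist j).U i = M.U (i + j) := rfl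
@[simp] lemma twist_u (i j : ℤ) : (M.twist j).u i = M.u (i + j) := rfl

lemma twist_chi (ht : IsRatGen k t) (j : ℤ) :
    (M.twist j).chi = M.chi + finrank F₀ V * j := by
  obtain ⟨i, hi⟩ := M.exists_U_eq_top
  have h1 : (M.twist j).U (i - j) = ⊤ := by
    rw [twist_U]; exact hi _ (by omega)
  rw [(M.twist j).chi_eq ht h1, M.chi_eq ht (hi i le_rfl), twist_h,
    show i - j + j = i by ring]
  ring

/-- Every vector of the generic fibre is a section after clearing denominators. -/
lemma exists_smul_mem (ht : IsRatGen k t) (v : V) :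
    ∃ q : k[X], q ≠ 0 ∧ ∃ i, aeval t q • v ∈ M.s i := by
  obtain ⟨i₀, hi₀⟩ := M.top
  have hv : v ∈ Submodule.span F₀ (M.s i₀ : Set V) := by rw [hi₀]; trivial
  induction hv using Submodule.span_induction with
  | mem x hx => exact ⟨1, one_ne_zero, i₀, by simpa using hx⟩
  | zero => exact ⟨1, one_ne_zero, i₀, by simp⟩
  | add x y _ _ hx hy =>
    obtain ⟨p, hp, i, hpi⟩ := hx
    obtain ⟨q, hq, j, hqj⟩ := hy
    refine ⟨p * q, mul_ne_zero hp hq, max (i + q.natDegree) (j + p.natDegree), ?_⟩
    rw [smul_add]
    refine Submodule.add_mem _ ?_ ?_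
    · rw [mul_comm p q, map_mul, mul_smul]
      exact M.mono (le_max_left _ _) (M.aeval_mem q _ le_rfl hpi)
    · rw [map_mul, mul_smul]
      exact M.mono (le_max_right _ _) (M.aeval_mem p _ le_rfl hqj)
  | smul a x _ hx =>
    obtain ⟨p, hp, i, hpi⟩ := hx
    obtain ⟨c, d, hd, hcd⟩ := ht.gen a
    refine ⟨d * p, mul_ne_zero hd hp, i + c.natDegree, ?_⟩
    rw [map_mul, smul_smul, mul_assoc, mul_comm (aeval t p) a, ← mul_assoc, hcd, mul_smul]
    exact M.aeval_mem c _ le_rfl hpi

end

section Comap

variable {W : Type*} [AddCommGroup W] [Module k W] [Module F₀ W] [IsScalarTower k F₀ W]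

/-- The family induced on a subspace. -/
def comap (M : TLat k V t) (ht : IsRatGen k t) (f : W →ₗ[F₀] V) (hf : Function.Injective f) :
    TLat k W t where
  s i := (M.s i).comap (f.restrictScalars k)
  mono' i := Submodule.comap_mono (M.mono' i)
  tmul i v hv := by
    rw [Submodule.mem_comap] at hv ⊢
    have := M.tmul _ _ hv
    simpa using this
  fin i := by
    let g : (M.s i).comap (f.restrictScalars k) →ₗ[k] M.s i :=
      (f.restrictScalars k).restrict (fun x hx => hx)
    exact Module.Finite.of_injective g (fun x y hxy => by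
      apply Subtype.ext
      apply hf
      exact congrArg Subtype.val hxy)
  sat i v hv hv' := by
    rw [Submodule.mem_comap] at hv hv' ⊢
    exact M.sat _ _ hv (by simpa using hv')
  top := by
    have := M.finiteDimensional
    have : FiniteDimensional F₀ W := Module.Finite.of_injective f hf
    let b := Module.finBasis F₀ W
    choose q hq i hi using fun j => M.exists_smul_mem ht (f (b j))
    obtain ⟨m, hm⟩ : ∃ m : ℤ, ∀ j, i j ≤ m := by
      obtain ⟨m, hm⟩ := (Set.finite_range i).bddAbove
      exact ⟨m, fun j => hm ⟨j, rfl⟩⟩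
    refine ⟨m, top_le_iff.1 ?_⟩
    rw [← b.span_eq, Submodule.span_le]
    rintro _ ⟨j, rfl⟩
    have h1 : aeval t (q j) • b j ∈ Submodule.span F₀
        (((M.s m).comap (f.restrictScalars k) : Submodule k W) : Set W) := by
      apply Submodule.subset_span
      change f (aeval t (q j) • b j) ∈ M.s m
      rw [map_smul]
      exact M.mono (hm j) (hi j)
    have h2 := Submodule.smul_mem _ (aeval t (q j))⁻¹ h1
    rwa [smul_smul, inv_mul_cancel₀ (aeval_ne_zero ht (hq j)), one_smul] at h2

@[simp] lemma mem_comap (M : TLat k V t) (ht : IsRatGen k t) (f : W →ₗ[F₀] V)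
    (hf : Function.Injective f) (i : ℤ) (w : W) :
    w ∈ (M.comap ht f hf).s i ↔ f w ∈ M.s i := Iff.rfl

end Comap

end TLat

section Growth

variable {k F₀ V : Type*} [Field k] [Field F₀] [Algebra k F₀]
  [AddCommGroup V] [Module k V] [Module F₀ V] [IsScalarTower k F₀ V] {t : F₀}

lemma IsRatGen.ne_zero (ht : IsRatGen k t) : t ≠ 0 := by
  intro h
  have := ht.transc X (by rw [aeval_X, h])
  exact X_ne_zero this

lemma tm_injective (ht : IsRatGen k t) : Function.Injective (tm k V t) := by
  intro v w h
  have : t • v = t • w := h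
  exact smul_right_injective V ht.ne_zero this

/-- `G + t G` is larger than `G` by at least the generic rank. -/
lemma growth (ht : IsRatGen k t) (G : Submodule k V) [FiniteDimensional k G] :
    finrank k G + finrank F₀ (Submodule.span F₀ (G : Set V)) ≤
      finrank k (G ⊔ G.map (tm k V t) : Submodule k V) := by
  have hle : G ⊓ G.comap (tm k V t) ≤ G := inf_le_left
  have h1 := finrank_span_add_le (F₀ := F₀) ht G (G ⊓ G.comap (tm k V t)) hle
    (fun v hv => hv.2)
  have h2 := Submodule.finrank_sup_add_finrank_inf_eq G (G.map (tm k V t))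
  have h3 : finrank k (G.map (tm k V t)) = finrank k G :=
    (Submodule.equivMapOfInjective (tm k V t) (tm_injective ht) G).finrank_eq.symm
  have h4 : (G ⊓ G.comap (tm k V t)).map (tm k V t) = G ⊓ G.map (tm k V t) := by
    ext v
    simp only [Submodule.mem_map, Submodule.mem_inf, Submodule.mem_comap]
    constructor
    · rintro ⟨w, ⟨h1, h2⟩, rfl⟩
      exact ⟨h2, w, h1, rfl⟩
    · rintro ⟨h1, w, h2, rfl⟩
      exact ⟨w, ⟨h2, h1⟩, rfl⟩
  have h5 : finrank k (G ⊓ G.map (tm k V t) : Submodule k V) =
      finrank k (G ⊓ G.comap (tm k V t) : Submodule k V) := by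
    rw [← h4]
    exact (Submodule.equivMapOfInjective (tm k V t) (tm_injective ht) _).finrank_eq.symm
  omega

end Growth

end Pool.Agent.Lib.H94
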