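import Pool.Agent.Lib.H94.GradMod

/-!
# Rank, degree and semistability, from graded modules to families
-/

namespace Pool.Agent.Lib.H94

open Module

set_option linter.unusedSectionVars false

section RankChi

variable {k F₀ K V : Type*} [Field k] [Field F₀] [Field K] [Algebra k F₀] [Algebra F₀ K]
  [Algebra k K]
  [AddCommGroup V] [Module k V] [Module F₀ V] [Module K V] [IsScalarTower k F₀ V]
  [IsScalarTower F₀ K V] [IsScalarTower k K V] {t : F₀} {z : K} {δ : ℕ}

lemma Lat.rank_chi (C : CurveHyp k t z δ) (M : Lat k V t z) (n : ℕ) (c : ℤ)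
    (hh : ∃ k₀, ∀ i, k₀ ≤ i → (M.h i : ℤ) = n * δ * i + c) :
    finrank K V = n ∧ M.chi = c := by
  obtain ⟨k₀, hk₀⟩ := hh
  obtain ⟨i₁, h₁⟩ := M.toTLat.exists_U_eq_top
  obtain ⟨i, hi, hi'⟩ : ∃ i, k₀ ≤ i ∧ i₁ ≤ i := ⟨max k₀ i₁, le_max_left _ _, le_max_right _ _⟩
  have e1 := M.toTLat.chi_eq C.ht (h₁ i hi')
  have e2 := M.toTLat.chi_eq C.ht (h₁ (i + 1) (by omega))
  have f1 := hk₀ i hi
  have f2 := hk₀ (i + 1) (by omega)
  rw [Lat.finrank_eq C V] at e1 e2
  push_cast at e1 e2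
  have hδ : (0 : ℤ) < δ := by have := C.hδ5; omega
  have h3 : (δ : ℤ) * finrank K V = δ * n := by linarith
  have h4 : (finrank K V : ℤ) = n := mul_left_cancel₀ hδ.ne' h3
  refine ⟨by exact_mod_cast h4, ?_⟩
  rw [e1, f1, h4]
  ring

lemma Lat.exists_h_eq (C : CurveHyp k t z δ) (M : Lat k V t z) :
    ∃ k₀, ∀ i, k₀ ≤ i → (M.h i : ℤ) = (finrank K V) * δ * i + M.chi := by
  obtain ⟨i₁, h₁⟩ := M.toTLat.exists_U_eq_top
  refine ⟨i₁, fun i hi => ?_⟩
  have e1 := M.toTLat.chi_eq C.ht (h₁ i hi)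
  rw [Lat.finrank_eq C V] at e1
  rw [e1]
  push_cast
  ring

lemma Lat.semistable_of (C : CurveHyp k t z δ) (M : Lat k V t z) {n : ℕ} {d g : ℤ}
    (hn : finrank K V = n) (hchi : M.chi = d + n * (1 - g))
    (h : ∀ W : Submodule K V, 0 < finrank K W →
      ((M.sub C W).chi - finrank K W * (1 - g)) * n ≤ d * finrank K W) : M.Semistable C := by
  intro W
  rw [hn, hchi]
  rcases Nat.eq_zero_or_pos (finrank K W) with h0 | h0
  · rw [(M.sub C W).chi_eq_zero_of_finrank C h0, h0]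
    simp
  · have h1 := h W h0
    have : (M.sub C W).chi * (n : ℤ) =
      ((M.sub C W).chi - finrank K W * (1 - g)) * n + finrank K W * (1 - g) * n := by ring
    rw [this]
    linarith

end RankChi

section

variable {k R : Type*} [Field k] [CommRing R] [Algebra k R] {Y : Fin 3 → R}
  {F : MvPolynomial (Fin 3) k} {δ : ℕ}
  {Q : Type*} [Field Q] [Algebra R Q] [Algebra k Q] [IsScalarTower k R Q]
  {F₀ K : Type*} [Field F₀] [Field K] [Algebra k F₀] [Algebra F₀ K] [Algebra k K]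
  [IsScalarTower k F₀ K] [Algebra K Q] [IsScalarTower k K Q]
  {VQ : Type*} [AddCommGroup VQ] [Module Q VQ] [Module R VQ] [Module k VQ] [Module F₀ VQ]
  [Module K VQ] [IsScalarTower R Q VQ] [IsScalarTower k Q VQ] [IsScalarTower k R VQ]
  [IsScalarTower K Q VQ] [IsScalarTower k F₀ VQ] [IsScalarTower F₀ K VQ] [IsScalarTower k K VQ]
  {M : Type*} [AddCommGroup M] [Module k M] [Module R M] [IsScalarTower k R M]
  {t : F₀} {z : K}

variable (X : CoordHyp Y F δ Q t z) (j : M →ₗ[R] VQ)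
    (hj : Function.Injective j) {sec : ℤ → Submodule k M} (D : GradHyp k Y sec)

lemma mem_gLat_iff (i : ℤ) (v : genFib Q K Y j sec) :
    v ∈ (gLat X j hj D).s i ↔ ∃ m ∈ sec i, iota k Q j (Y 0) i m = v := Iff.rfl

/-- the sub-object of the graded module cut out by a subspace of the generic fibre -/
noncomputable def cut (j : M →ₗ[R] VQ) (sec : ℤ → Submodule k M)
    (W : Submodule K (genFib Q K Y j sec)) (i : ℤ) : Submodule k M :=
  sec i ⊓ ((W.map (genFib Q K Y j sec).subtype).restrictScalars k).comap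
    (iota k Q j (Y 0) i)

lemma mem_cut_iff (W : Submodule K (genFib Q K Y j sec)) (i : ℤ) (m : M) :
    m ∈ cut j sec W i ↔ m ∈ sec i ∧ ∃ w ∈ W, (w : VQ) = iota k Q j (Y 0) i m := by
  rw [cut, Submodule.mem_inf, Submodule.mem_comap, Submodule.restrictScalars_mem,
    Submodule.mem_map]
  rfl

include X in
lemma cut_mul {W : Submodule K (genFib Q K Y j sec)} (D : GradHyp k Y sec)
    (l : Fin 3) (i : ℤ) (m : M) (hm : m ∈ cut j sec W i) : Y l • m ∈ cut j sec W (i + 1) := by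
  rw [mem_cut_iff] at hm ⊢
  obtain ⟨hm, w, hw, hwm⟩ := hm
  refine ⟨D.mul_mem l i m hm, (![1, algebraMap F₀ K t, z] l) • w, W.smul_mem _ hw, ?_⟩
  rw [iota_coord X j, ← hwm]
  rfl

lemma finrank_cut (W : Submodule K (genFib Q K Y j sec)) (i : ℤ) :
    finrank k (cut j sec W i) = ((gLat X j hj D).sub X.curve W).h i := by
  rw [Lat.sub_h_eq]
  have hinj := iota_injective (k := k) (Q := Q) j hj X.ne i
  have h1 : ((gLat X j hj D).s i ⊓ W.restrictScalars k :
      Submodule k (genFib Q K Y j sec)).map ((genFib Q K Y j sec).subtype.restrictScalars k) =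
      (cut j sec W i).map (iota k Q j (Y 0) i) := by
    ext v
    simp only [Submodule.mem_map, Submodule.mem_inf, mem_gLat_iff, mem_cut_iff,
      Submodule.restrictScalars_mem]
    constructor
    · rintro ⟨w, ⟨⟨m, hm, hmw⟩, hw⟩, rfl⟩
      exact ⟨m, ⟨hm, w, hw, hmw.symm⟩, hmw⟩
    · rintro ⟨m, ⟨hm, w, hw, hwm⟩, rfl⟩
      exact ⟨w, ⟨⟨m, hm, hwm.symm⟩, hw⟩, hwm⟩
  have h2 := (Submodule.equivMapOfInjective (iota k Q j (Y 0) i) hinj
    (cut j sec W i)).finrank_eq
  have h3 := (Submodule.equivMapOfInjective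
    ((genFib Q K Y j sec).subtype.restrictScalars k) Subtype.val_injective
    ((gLat X j hj D).s i ⊓ W.restrictScalars k :
      Submodule k (genFib Q K Y j sec))).finrank_eq
  rw [h2, h3, h1]

lemma gLat_h (i : ℤ) : (gLat X j hj D).h i = finrank k (sec i) := by
  have h1 := finrank_cut X j hj D ⊤ i
  rw [Lat.sub_h_eq] at h1
  have h2 : cut j sec (⊤ : Submodule K (genFib Q K Y j sec)) i = sec i := by
    ext m
    rw [mem_cut_iff]
    exact ⟨fun h => h.1, fun h => ⟨h, ⟨_, iota_mem_genFib j sec h⟩, trivial, rfl⟩⟩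
  have h3 : ((gLat X j hj D).s i ⊓ (⊤ : Submodule K
      (genFib Q K Y j sec)).restrictScalars k) = (gLat X j hj D).s i := by
    ext v; simp
  rw [h2, h3] at h1
  rw [h1]
  rfl

/-- semistability of the family, from semistability of the graded module -/
lemma gLat_semistable {n : ℕ} {d : ℤ} {g : ℤ}
    (hrk : ∃ k₀, ∀ i, k₀ ≤ i → (finrank k (sec i) : ℤ) = n * δ * i + d + n * (1 - g))
    (hss : ∀ N : ℤ → Submodule k M, (∀ i, N i ≤ sec i) →
      (∀ (i : Fin 3) (l : ℤ) (m : M), m ∈ N l → Y i • m ∈ N (l + 1)) →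
      ∀ (r : ℕ) (d' : ℤ), 0 < r →
      (∃ k₀, ∀ i, k₀ ≤ i → (finrank k (N i) : ℤ) = r * δ * i + d' + r * (1 - g)) →
      d' * n ≤ d * r) :
    (gLat X j hj D).Semistable X.curve := by
  have C := X.curve
  obtain ⟨k₀, hk₀⟩ := hrk
  obtain ⟨hn, hchi⟩ := Lat.rank_chi C (gLat X j hj D) n (d + n * (1 - g)) ⟨k₀, fun i hi => by
    rw [gLat_h, hk₀ i hi]; ring⟩
  refine Lat.semistable_of C (gLat X j hj D) hn hchi fun W h0 => ?_
  obtain ⟨i₀, hi₀⟩ := Lat.exists_h_eq C ((gLat X j hj D).sub C W)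
  exact hss (cut j sec W) (fun i => inf_le_left) (fun l i m hm => cut_mul X j D l i m hm)
      (finrank K W)
      (((gLat X j hj D).sub C W).chi - finrank K W * (1 - g)) h0
      ⟨i₀, fun i hi => by
        rw [finrank_cut X j hj D, hi₀ i hi]; ring⟩

end

end Pool.Agent.Lib.H94
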