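import Pool.Agent.Lib.H94.Final

/-!
# Uniqueness in the extremal case
-/

namespace Pool.Agent.Lib.H94

open Polynomial Module

set_option linter.unusedSectionVars false

universe u v w x

/-- The vectors `z^b e_j`. -/
noncomputable def mono {K V : Type*} [Field K] [AddCommGroup V] [Module K V] (z : K) (δ : ℕ)
    {r : ℕ} (e : Fin r → V) (p : Fin δ × Fin r) : V := z ^ (p.1 : ℕ) • e p.2

/-- The `i`-th piece of the free bundle `⊕ R e_j`: all polynomial combinations of degree
at most `i`. -/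
noncomputable def freePiece (k : Type*) {F₀ K V : Type*} [Field k] [Field F₀] [Field K]
    [Algebra k F₀] [AddCommGroup V] [Module k V] [Module F₀ V] [Module K V]
    [IsScalarTower k F₀ V] (t : F₀) (z : K) (δ : ℕ) {r : ℕ}
    (e : Fin r → V) (i : ℤ) : Submodule k V :=
  LinearMap.range (polyMap (k := k) t (mono z δ e) (fun p => (i - (p.1 : ℕ) + 1).toNat))

variable {k : Type u} {F₀ : Type v} {K : Type w} [Field k] [Field F₀] [Field K] [Algebra k F₀]
  [Algebra F₀ K] [Algebra k K] {t : F₀} {z : K} {δ : ℕ}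

section

variable {V : Type x} [AddCommGroup V] [Module k V] [Module F₀ V] [Module K V]
  [IsScalarTower k F₀ V] [IsScalarTower F₀ K V] [IsScalarTower k K V]

lemma mono_linearIndependent (C : CurveHyp k t z δ) {r : ℕ} {e : Fin r → V}
    (he : LinearIndependent K e) : LinearIndependent F₀ (mono z δ e) := by
  obtain ⟨B, hB⟩ := C.exists_basis
  have h1 := linearIndependent_smul B.linearIndependent he
  have h2 : (fun p : Fin δ × Fin r => B p.1 • e p.2) = mono z δ e := by
    funext p
    rw [mono, hB]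
  rwa [h2] at h1

lemma two_mul_sum_eq (C : CurveHyp k t z δ) (r : ℕ) (i : ℤ) (hi : (δ : ℤ) ≤ i) :
    2 * ((∑ p : Fin δ × Fin r, (i - ((p.1 : ℕ) : ℤ) + 1).toNat : ℕ) : ℤ) =
      r * (2 * δ * i - δ * (δ - 3)) := by
  have hδ := C.hδ5
  push_cast
  rw [Fintype.sum_prod_type]
  simp only [Finset.sum_const, Finset.card_univ, Fintype.card_fin, nsmul_eq_mul]
  rw [← Finset.mul_sum]
  have h3 : (∑ j : Fin δ, (((i - ((j : ℕ) : ℤ) + 1).toNat : ℕ) : ℤ)) =
      δ * (i + 1) - ∑ j : Fin δ, ((j : ℕ) : ℤ) := by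
    rw [eq_sub_iff_add_eq, ← Finset.sum_add_distrib]
    have : ∀ j : Fin δ, (((i - ((j : ℕ) : ℤ) + 1).toNat : ℕ) : ℤ) + ((j : ℕ) : ℤ) = i + 1 :=
      fun j => by have := j.2; omega
    simp only [this, Finset.sum_const, Finset.card_univ, Fintype.card_fin, nsmul_eq_mul]
  have h4 : (∑ j : Fin δ, ((j : ℕ) : ℤ)) * 2 = δ * (δ - 1) := by
    rw [Fin.sum_univ_eq_sum_range (fun j => (j : ℤ)) δ]
    have h5 := Finset.sum_range_id_mul_two δ
    have h6 : 1 ≤ δ := by omega
    have h7 : ((∑ i ∈ Finset.range δ, i : ℕ) : ℤ) * 2 = ((δ * (δ - 1) : ℕ) : ℤ) := by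
      exact_mod_cast h5
    push_cast [Nat.cast_sub h6] at h7
    exact h7
  rw [h3]
  linear_combination (-(r : ℤ)) * h4

end

namespace Lat

variable {V : Type x} [AddCommGroup V] [Module k V] [Module F₀ V] [Module K V]
  [IsScalarTower k F₀ V] [IsScalarTower F₀ K V] [IsScalarTower k K V]

variable (M : Lat k V t z)

lemma freePiece_le {r : ℕ} {e : Fin r → V} (he : ∀ j, e j ∈ M.s 0) (i : ℤ) :
    freePiece k t z δ e i ≤ M.s i := by
  apply M.toTLat.range_polyMap_le (mono z δ e) (fun p => ((p.1 : ℕ) : ℤ))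
  intro p
  have := M.zpow_mul (p.1 : ℕ) (he p.2)
  rwa [zero_add] at this

/-- A semistable bundle of degree zero with at least `rank` sections is trivial. -/
theorem trivial_of_slope_zero (C : CurveHyp k t z δ) (hV : 0 < finrank K V)
    (hM : M.Semistable C) (hs : M.slope δ = 0) (hh : finrank K V ≤ M.h 0) :
    ∃ e : Fin (finrank K V) → V, LinearIndependent K e ∧ (∀ j, e j ∈ M.s 0) ∧
      ∀ i, M.s i = freePiece k t z δ e i := by
  have hfK := M.finiteDimensionalK
  have hfV := M.toTLat.finiteDimensional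
  have h5 := five_le_cast C.hδ5
  obtain ⟨r, s, hr0, hsS, hli⟩ : ∃ (r : ℕ) (s : Fin r → V),
      r = finrank K (Submodule.span K (M.s 0 : Set V)) ∧ (∀ j, s j ∈ M.s 0) ∧
        LinearIndependent K s := by
    obtain ⟨s, hsS, hspan, hli⟩ := Submodule.exists_fun_fin_finrank_span_eq K (M.s 0 : Set V)
    exact ⟨_, s, rfl, hsS, hli⟩
  set W := Submodule.span K (M.s 0 : Set V) with hW
  have hli' : LinearIndependent F₀ (mono z δ s) := mono_linearIndependent C hli
  have hGM : ∀ i, freePiece k t z δ s i ≤ M.s i := M.freePiece_le hsS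
  have hsW : ∀ j, s j ∈ W := fun j => Submodule.subset_span (hsS j)
  have hGW : ∀ i, freePiece k t z δ s i ≤ W.restrictScalars k := by
    intro i
    rintro _ ⟨p, rfl⟩
    refine Submodule.sum_mem _ fun j _ => ?_
    have h1 : mono z δ s j ∈ W.restrictScalars F₀ := W.smul_mem _ (hsW j.2)
    exact Submodule.smul_mem (W.restrictScalars F₀) _ h1
  -- the degree bound
  have hchi : 2 * (M.sub C W).chi ≤ -(finrank K W * ((δ : ℤ) * (δ - 3))) := by
    have h1 := hM.sub_chi_le hV W
    rw [hs] at h1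
    have h2 : 2 * ((M.sub C W).chi : ℚ) ≤ -(finrank K W * ((δ : ℚ) * (δ - 3))) := by linarith
    exact_mod_cast h2
  have hle : ∃ i₁, ∀ i, i₁ ≤ i → M.s i ⊓ W.restrictScalars k = freePiece k t z δ s i := by
    obtain ⟨i₁, h₁⟩ := (M.sub C W).toTLat.exists_U_eq_top
    refine ⟨max i₁ δ, fun i hi => ?_⟩
    symm
    refine Submodule.eq_of_le_of_finrank_le (le_inf (hGM i) (hGW i)) ?_
    have e1 := (M.sub C W).toTLat.chi_eq C.ht (h₁ i (by omega))
    have e2 : (M.sub C W).h i = finrank k (M.s i ⊓ W.restrictScalars k : Submodule k V) :=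
      M.sub_h_eq C W i
    rw [← e2]
    have e3 : finrank k (freePiece k t z δ s i) =
        ∑ p : Fin δ × Fin r, (i - ((p.1 : ℕ) : ℤ) + 1).toNat :=
      finrank_range_polyMap C.ht hli' _
    rw [e3]
    have e4 := two_mul_sum_eq C r i (by omega)
    rw [finrank_eq C W, ← hr0] at e1
    rw [← hr0] at hchi
    push_cast at e1
    have e5 : 2 * ((M.sub C W).h i : ℤ) ≤
        2 * ((∑ p : Fin δ × Fin r, (i - ((p.1 : ℕ) : ℤ) + 1).toNat : ℕ) : ℤ) := by
      rw [e4]
      have e6 : ((M.sub C W).h i : ℤ) = (M.sub C W).chi + δ * r * i := by linarith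
      rw [e6]
      linarith
    omega
  obtain ⟨i₁, hi₁⟩ := hle
  have hall : ∀ (n : ℕ) (i : ℤ), i₁ ≤ i + n →
      M.s i ⊓ W.restrictScalars k ≤ freePiece k t z δ s i := by
    intro n
    induction n with
    | zero =>
      intro i hi
      exact (hi₁ i (by simpa using hi)).le
    | succ n ih =>
      intro i hi v hv
      have h1 := ih (i + 1) (by push_cast at hi; omega) ⟨M.mono' i hv.1, hv.2⟩
      have h2 : t • v ∈ freePiece k t z δ s (i + 1) := by
        refine ih (i + 1) (by push_cast at hi; omega) ⟨M.tmul i v hv.1, ?_⟩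
        exact Submodule.smul_mem (W.restrictScalars F₀) t hv.2
      exact polyMap_sat C.ht hli' (fun p => ((p.1 : ℕ) : ℤ)) i h1 h2
  have heq : ∀ i, M.s i ⊓ W.restrictScalars k = freePiece k t z δ s i := fun i =>
    le_antisymm (hall (i₁ - i).toNat i (by omega)) (le_inf (hGM i) (hGW i))
  -- the number of sections
  have hr : M.h 0 = finrank K W := by
    have e1 : M.s 0 ⊓ W.restrictScalars k = M.s 0 :=
      inf_eq_left.2 fun v hv => Submodule.subset_span hv
    have e2 := heq 0
    rw [e1] at e2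
    rw [TLat.h, e2]
    have e3 : finrank k (freePiece k t z δ s 0) =
        ∑ p : Fin δ × Fin r, (0 - ((p.1 : ℕ) : ℤ) + 1).toNat :=
      finrank_range_polyMap C.ht hli' _
    rw [e3, Fintype.sum_prod_type, ← hr0]
    simp only [Finset.sum_const, Finset.card_univ, Fintype.card_fin, smul_eq_mul]
    have hδ := C.hδ5
    obtain ⟨d, rfl⟩ : ∃ d, δ = d + 1 := ⟨δ - 1, by omega⟩
    rw [Fin.sum_univ_succ]
    have e4 : ∀ i : Fin d, r * (0 - (((i.succ : Fin (d + 1)) : ℕ) : ℤ) + 1).toNat = 0 := by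
      intro i
      have : (0 - (((i.succ : Fin (d + 1)) : ℕ) : ℤ) + 1).toNat = 0 := by
        rw [Fin.val_succ]; omega
      rw [this, mul_zero]
    simp only [e4, Finset.sum_const_zero, add_zero]
    simp
  have hWV : finrank K W = finrank K V := le_antisymm (Submodule.finrank_le W) (by omega)
  have hWtop : W = ⊤ := Submodule.eq_top_of_finrank_eq hWV
  have hall' : ∀ i, M.s i = freePiece k t z δ s i := by
    intro i
    rw [← heq i, hWtop]
    ext v
    simp
  -- reindex
  have key : ∀ (n : ℕ) (hn : n = finrank K V) (s : Fin n → V), LinearIndependent K s →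
      (∀ j, s j ∈ M.s 0) → (∀ i, M.s i = freePiece k t z δ s i) →
      ∃ e : Fin (finrank K V) → V, LinearIndependent K e ∧ (∀ j, e j ∈ M.s 0) ∧
      ∀ i, M.s i = freePiece k t z δ e i := by
    rintro n rfl s h1 h2 h3
    exact ⟨s, h1, h2, h3⟩
  exact key _ (hr0.trans hWV) s hli hsS hall'

/-- **Uniqueness.** A semistable bundle of slope `δ` with `3 · rank` sections is `O(1)^n`. -/
theorem unique (C : CurveHyp k t z δ) (hV : 0 < finrank K V)
    (hM : M.Semistable C) (hs : M.slope δ = δ) (hh : 3 * finrank K V ≤ M.h 0) :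
    ∃ e : Fin (finrank K V) → V, LinearIndependent K e ∧ (∀ j, e j ∈ M.s (-1)) ∧
      ∀ i, M.s i = freePiece k t z δ e (i + 1) := by
  have h5 := five_le_cast C.hδ5
  have hVq : (0 : ℚ) < finrank K V := by exact_mod_cast hV
  have hT3 := T_delta C.hδ5
  have hT6 := T_two_delta C.hδ5
  have h1 := M.h_le_T C hV hM
  rw [hs, hT3] at h1
  have hkey := key C M (boundUpTo C _) hV hM hs (by linarith) (by nlinarith) (by
    rw [hT3]
    have : (3 * finrank K V : ℚ) ≤ M.h 0 := by exact_mod_cast hh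
    linarith)
  have h2 := (M.twist 1).h_le_T C hV (hM.twist M 1)
  rw [M.twist_slope C hV, hs] at h2
  have e1 : (M.twist 1).h 0 = M.h 1 := rfl
  rw [e1] at h2
  push_cast at h2
  rw [show (δ : ℚ) + δ * 1 = 2 * δ by ring, hT6] at h2
  have h2' : M.h 1 ≤ finrank K V * 6 := by exact_mod_cast h2
  have h1' : M.h 0 ≤ finrank K V * 3 := by exact_mod_cast h1
  have e2 : (M.twist (-1)).h 0 = M.h (-1) := by
    have : (M.twist (-1)).h 0 = M.h (0 + -1) := rfl
    rwa [zero_add] at this
  obtain ⟨e, he1, he2, he3⟩ := (M.twist (-1)).trivial_of_slope_zero C hV (hM.twist M (-1))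
    (by rw [M.twist_slope C hV, hs]; push_cast; ring) (by rw [e2]; omega)
  refine ⟨e, he1, fun j => ?_, fun i => ?_⟩
  · have := he2 j
    have e3 : (M.twist (-1)).s 0 = M.s (0 + -1) := rfl
    rwa [e3, zero_add] at this
  · have := he3 (i + 1)
    have e3 : (M.twist (-1)).s (i + 1) = M.s (i + 1 + -1) := rfl
    rw [e3, show i + 1 + -1 = i by ring] at this
    exact this

end Lat

end Pool.Agent.Lib.H94
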