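import Pool.Agent.Lib.H94.Bounds2

/-!
# Vanishing of `h¹` for semistable bundles of large slope
-/

namespace Pool.Agent.Lib.H94

open Polynomial Module

set_option linter.unusedSectionVars false

section T

variable {k F₀ V : Type*} [Field k] [Field F₀] [Algebra k F₀]
  [AddCommGroup V] [Module k V] [Module F₀ V] [IsScalarTower k F₀ V] {t : F₀}

/-- If `U j ≠ ⊤`, there is a non-zero functional `ψ` on the generic fibre with
`ψ (M i) ⊆ k[t]_{< i - J}` for some `J ≥ j`. -/
lemma TLat.exists_functional (M : TLat k V t) (ht : IsRatGen k t) (j : ℤ) (hj : M.U j ≠ ⊤) :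
    ∃ (J : ℤ) (ψ : V →ₗ[F₀] F₀), j ≤ J ∧ ψ ≠ 0 ∧ ∀ (i : ℤ) (v : V), v ∈ M.s i →
      ∃ p : k[X], p ∈ degreeLT k (i - J).toNat ∧ ψ v = aeval t p := by
  classical
  have hfV := M.finiteDimensional
  -- the largest degree in which the sections do not span generically
  obtain ⟨m, hm, hmin⟩ : ∃ m : ℕ, M.U (j + m + 1) = ⊤ ∧ M.U (j + m) ≠ ⊤ := by
    have hex : ∃ m : ℕ, M.U (j + m + 1) = ⊤ := by
      obtain ⟨i, hi⟩ := M.exists_U_eq_top
      exact ⟨(i - j).toNat, hi _ (by omega)⟩
    refine ⟨Nat.find hex, Nat.find_spec hex, ?_⟩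
    rcases Nat.eq_zero_or_pos (Nat.find hex) with h0 | h0
    · rw [h0]; simpa using hj
    · have := Nat.find_min hex (m := Nat.find hex - 1) (by omega)
      rwa [show j + ((Nat.find hex - 1 : ℕ) : ℤ) + 1 = j + (Nat.find hex : ℤ) by omega] at this
  set J := j + m with hJ
  set U := M.U J with hU
  set M' := M.comap ht U.subtype U.subtype_injective with hM'
  have h1 : M'.U J = ⊤ := M.comap_U_eq_top ht J
  have h2 : M'.h J = M.h J := M.comap_h_self ht J
  have hN : finrank F₀ V = finrank F₀ U + finrank F₀ (V ⧸ U) := by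
    have := Submodule.finrank_quotient_add_finrank U
    omega
  set r := finrank F₀ (V ⧸ U) with hr
  have hrpos : 0 < r := by
    rw [hr, Module.finrank_pos_iff]
    exact Submodule.Quotient.nontrivial_iff.2 hmin
  have hMh : ∀ n : ℕ, M.h (J + n) = M.h J + n * finrank F₀ V := by
    intro n
    have e0 : M.h (J + 1) = M.h J + finrank F₀ V := by
      have e1 := M.h_eq ht (J + 1)
      rwa [(M.u_eq_iff _).2 hm, show J + 1 - 1 = J by ring] at e1
    cases n with
    | zero => simp
    | succ n =>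
      have e2 := M.h_add ht hm n
      rw [show J + ((n + 1 : ℕ) : ℤ) = J + 1 + n by push_cast; ring, e2, e0]
      ring
  have hexact : ∀ i, finrank k ((M.s i).map (U.mkQ.restrictScalars k)) + M'.h i = M.h i := by
    intro i
    exact M.h_exact ht U.subtype U.mkQ U.subtype_injective (by simp) i
  have himg : ∀ n : ℕ, finrank k ((M.s (J + n)).map (U.mkQ.restrictScalars k)) = n * r := by
    intro n
    have e1 := hexact (J + n)
    rw [hMh, M'.h_add ht h1 n, h2, hN] at e1
    have e2 : n * (finrank F₀ U + r) = n * finrank F₀ U + n * r := by ring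
    omega
  -- a basis of the generic quotient
  have himg1 : finrank k ((M.s (J + 1)).map (U.mkQ.restrictScalars k)) = r := by
    have := himg 1
    rwa [Nat.cast_one, one_mul] at this
  let b₀ := Module.finBasisOfFinrankEq k ((M.s (J + 1)).map (U.mkQ.restrictScalars k)) himg1
  have hspan : ⊤ ≤ Submodule.span F₀ (Set.range fun i => (b₀ i : V ⧸ U)) := by
    have e1 : Submodule.span F₀ (((M.s (J + 1)).map (U.mkQ.restrictScalars k) :
        Submodule k (V ⧸ U)) : Set (V ⧸ U)) = ⊤ := by
      refine top_le_iff.1 ?_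
      have e0 : (⊤ : Submodule F₀ (V ⧸ U)) = (M.U (J + 1)).map U.mkQ := by
        rw [hm, Submodule.map_top, Submodule.range_mkQ]
      rw [e0, TLat.U, Submodule.map_span, Submodule.span_le]
      rintro _ ⟨v, hv, rfl⟩
      exact Submodule.subset_span (show U.mkQ v ∈ ((M.s (J + 1)).map
        (U.mkQ.restrictScalars k) : Submodule k (V ⧸ U)) from
          Submodule.mem_map.2 ⟨v, hv, rfl⟩)
    rw [← e1, Submodule.span_le]
    intro v hv
    have e2 : (⟨v, hv⟩ : ((M.s (J + 1)).map (U.mkQ.restrictScalars k) :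
        Submodule k (V ⧸ U))) ∈ Submodule.span k (Set.range b₀) := by
      rw [b₀.span_eq]; trivial
    have e3 : v ∈ Submodule.span k (Set.range fun i => (b₀ i : V ⧸ U)) := by
      have := Submodule.mem_map_of_mem
        (f := ((M.s (J + 1)).map (U.mkQ.restrictScalars k)).subtype) e2
      rw [Submodule.map_span, ← Set.range_comp] at this
      exact this
    exact Submodule.span_subset_span k F₀ _ e3
  let B : Basis (Fin r) F₀ (V ⧸ U) :=
    basisOfTopLeSpanOfCardEqFinrank _ hspan (by rw [Fintype.card_fin])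
  have hB : ∀ i, B i = (b₀ i : V ⧸ U) := fun i => by
    simp [B]
  have hrange : ∀ n : ℕ, (M.s (J + n)).map (U.mkQ.restrictScalars k) =
      LinearMap.range (polyMap (k := k) t B (fun _ => n)) := by
    intro n
    symm
    refine Submodule.eq_of_le_of_finrank_le ?_ ?_
    · rintro _ ⟨p, rfl⟩
      change ∑ i, aeval t (p i : k[X]) • B i ∈
        ((M.s (J + n)).map (U.mkQ.restrictScalars k) : Submodule k (V ⧸ U))
      refine Submodule.sum_mem _ fun i _ => ?_
      rcases Nat.eq_zero_or_pos n with h0 | h0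
      · subst h0
        have e1 : (p i : k[X]) = 0 := by
          have e2 := mem_degreeLT.1 (p i).2
          rw [← Polynomial.degree_eq_bot]
          simpa using e2
        rw [e1, map_zero, zero_smul]
        exact Submodule.zero_mem _
      · have e1 : (p i : k[X]).natDegree ≤ n - 1 := by
          rw [Polynomial.natDegree_le_iff_coeff_eq_zero]
          intro m hm
          apply Polynomial.coeff_eq_zero_of_degree_lt
          refine (mem_degreeLT.1 (p i).2).trans_le ?_
          exact_mod_cast (by omega : n ≤ m)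
        obtain ⟨w, hw, hw'⟩ := (b₀ i).2
        have e2 := M.aeval_mem _ _ e1 hw
        rw [show J + 1 + ((n - 1 : ℕ) : ℤ) = J + n by omega] at e2
        refine ⟨_, e2, ?_⟩
        change U.mkQ (aeval t (p i : k[X]) • w) = aeval t (p i : k[X]) • B i
        have e3 : U.mkQ w = B i := by rw [hB]; exact hw'
        rw [map_smul, e3]
    · rw [himg, finrank_range_polyMap ht B.linearIndependent]
      simp [mul_comm]
  -- the functional
  let i₀ : Fin r := ⟨0, hrpos⟩
  refine ⟨J, (B.coord i₀) ∘ₗ U.mkQ, by omega, ?_, ?_⟩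
  · intro h0
    obtain ⟨v, hv⟩ := U.mkQ_surjective (B i₀)
    have e1 : ((B.coord i₀) ∘ₗ U.mkQ) v = 0 := by rw [h0]; rfl
    rw [LinearMap.comp_apply, hv, Basis.coord_apply, Basis.repr_self] at e1
    simp at e1
  · intro i v hv
    rcases le_or_gt i J with hi | hi
    · refine ⟨0, Submodule.zero_mem _, ?_⟩
      have e1 : U.mkQ v = 0 := by
        rw [Submodule.mkQ_apply, Submodule.Quotient.mk_eq_zero]
        exact M.s_le_U (M.mono hi hv)
      rw [LinearMap.comp_apply, e1, map_zero, map_zero]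
    · have e1 : U.mkQ v ∈ (M.s (J + (i - J).toNat)).map (U.mkQ.restrictScalars k) := by
        rw [show J + ((i - J).toNat : ℤ) = i by omega]
        exact ⟨v, hv, rfl⟩
      rw [hrange] at e1
      obtain ⟨p, hp⟩ := e1
      refine ⟨(p i₀ : k[X]), (p i₀).2, ?_⟩
      rw [LinearMap.comp_apply, ← hp]
      change B.coord i₀ (∑ j, aeval t (p j : k[X]) • B j) = _
      rw [map_sum]
      simp [Finsupp.single_apply]

end T

namespace Lat

variable {k F₀ K V : Type*} [Field k] [Field F₀] [Field K] [Algebra k F₀] [Algebra F₀ K]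
  [Algebra k K]
  [AddCommGroup V] [Module k V] [Module F₀ V] [Module K V] [IsScalarTower k F₀ V]
  [IsScalarTower F₀ K V] [IsScalarTower k K V] {t : F₀} {z : K} {δ : ℕ}

variable (M : Lat k V t z)

/-- A semistable bundle with `h¹ ≠ 0` has slope at most `2g - 2`. -/
lemma two_chi_le_of_U_one_ne_top (C : CurveHyp k t z δ) (hM : M.Semistable C)
    (hU : M.U 1 ≠ ⊤) : 2 * M.chi ≤ finrank K V * ((δ : ℤ) * (δ - 3)) := by
  classical
  have hfV := M.toTLat.finiteDimensional
  have hfK := M.finiteDimensionalK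
  obtain ⟨J, ψ, hJ, hψ, hM'⟩ := M.toTLat.exists_functional C.ht 1 hU
  obtain ⟨BK, hBK⟩ := C.exists_basis
  -- the `K`-subspace killed by all multiples of `ψ`
  let W : Submodule K V :=
    { carrier := {v | ∀ c : K, ψ (c • v) = 0}
      add_mem' := by
        intro a b ha hb c
        rw [smul_add, map_add, ha, hb, add_zero]
      zero_mem' := by intro c; rw [smul_zero, map_zero]
      smul_mem' := by
        intro c v hv c'
        rw [smul_smul]
        exact hv _ }
  let Ψ : V →ₗ[F₀] (Fin δ → F₀) := LinearMap.pi fun b => ψ ∘ₗ zm F₀ V (z ^ (b : ℕ))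
  have hΨ : ∀ v b, Ψ v b = ψ (z ^ (b : ℕ) • v) := fun v b => rfl
  have hker : LinearMap.range (W.subtype.restrictScalars F₀) = LinearMap.ker Ψ := by
    ext v
    rw [LinearMap.mem_ker]
    constructor
    · rintro ⟨w, rfl⟩
      funext b
      exact w.2 _
    · intro hv
      refine ⟨⟨v, fun c => ?_⟩, rfl⟩
      rw [← BK.sum_repr c, Finset.sum_smul, map_sum]
      refine Finset.sum_eq_zero fun b _ => ?_
      rw [smul_assoc, map_smul, hBK]
      have : Ψ v b = 0 := by rw [hv]; rfl
      rw [hΨ] at this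
      rw [this, smul_zero]
  have hWtop : W ≠ ⊤ := by
    intro h
    apply hψ
    ext v
    have hv : v ∈ W := by rw [h]; trivial
    have := hv 1
    rwa [one_smul] at this
  -- ranks
  have hrk1 : finrank F₀ V ≤ finrank F₀ W + δ := by
    have e1 := LinearMap.finrank_range_add_finrank_ker Ψ
    have e2 := Submodule.finrank_le (LinearMap.range Ψ)
    rw [finrank_fin_fun] at e2
    have e3 : finrank F₀ (LinearMap.ker Ψ) = finrank F₀ W := by
      rw [← hker]
      exact LinearMap.finrank_range_of_inj W.subtype_injective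
    omega
  have hrk2 : finrank K W < finrank K V := Submodule.finrank_lt hWtop
  have hδ := C.hδ5
  have hrk : finrank K V = finrank K W + 1 := by
    rw [finrank_eq C V, finrank_eq C W] at hrk1
    have e1 : δ * finrank K V ≤ δ * (finrank K W + 1) := by linarith
    have e2 := Nat.le_of_mul_le_mul_left e1 (by omega)
    omega
  -- Hilbert functions
  have hh : ∀ n : ℕ, M.h (J + n) ≤ (M.sub C W).h (J + n) + ∑ b : Fin δ, (n + (b : ℕ)) := by
    intro n
    have e1 := finrank_map_add_finrank_comap (W.subtype.restrictScalars k)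
      (Ψ.restrictScalars k) W.subtype_injective
      (TLat.range_restrict (F₀ := F₀) (W.subtype.restrictScalars F₀) Ψ hker)
      (M.s (J + n))
    have e2 : (M.s (J + n)).map (Ψ.restrictScalars k) ≤
        LinearMap.range (polyMap (k := k) t (Pi.basisFun F₀ (Fin δ))
          (fun b => n + (b : ℕ))) := by
      rintro _ ⟨v, hv, rfl⟩
      have e3 : ∀ b : Fin δ, ∃ p : k[X], p ∈ degreeLT k (n + (b : ℕ)) ∧
          ψ (z ^ (b : ℕ) • v) = aeval t p := by
        intro b
        have e4 := M.zpow_mul (b : ℕ) hv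
        obtain ⟨p, hp, hp'⟩ := hM' _ _ e4
        rw [show (J + (n : ℤ) + ((b : ℕ) : ℤ) - J).toNat = n + (b : ℕ) by omega] at hp
        exact ⟨p, hp, hp'⟩
      choose p hp hp' using e3
      refine ⟨fun b => ⟨p b, hp b⟩, ?_⟩
      funext b
      change (∑ j, aeval t (p j) • (Pi.basisFun F₀ (Fin δ)) j) b = Ψ v b
      rw [hΨ, hp' b, Finset.sum_apply]
      simp [Pi.single_apply]
    have e3 := Submodule.finrank_mono e2
    rw [finrank_range_polyMap C.ht (Pi.basisFun F₀ (Fin δ)).linearIndependent] at e3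
    have e4 : (M.sub C W).h (J + n) =
      finrank k ((M.s (J + n)).comap (W.subtype.restrictScalars k)) := rfl
    have e5 : M.h (J + n) = finrank k (M.s (J + n)) := rfl
    omega
  -- Euler characteristics
  have hsum : ∀ n : ℕ, 2 * ((∑ b : Fin δ, (n + (b : ℕ)) : ℕ) : ℤ) = 2 * δ * n + δ * (δ - 1) := by
    intro n
    rw [Finset.sum_add_distrib]
    have h4 : (((∑ j : Fin δ, (j : ℕ)) : ℕ) : ℤ) * 2 = δ * (δ - 1) := by
      rw [Fin.sum_univ_eq_sum_range (fun j => j) δ]
      have h5 := Finset.sum_range_id_mul_two δ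
      have h6 : 1 ≤ δ := by omega
      have h7 : ((∑ i ∈ Finset.range δ, i : ℕ) : ℤ) * 2 = ((δ * (δ - 1) : ℕ) : ℤ) := by
        exact_mod_cast h5
      push_cast [Nat.cast_sub h6] at h7 ⊢
      exact h7
    rw [Finset.sum_const, Finset.card_univ, Fintype.card_fin, smul_eq_mul]
    push_cast at h4 ⊢
    linarith
  have hchi : 2 * M.chi ≤ 2 * (M.sub C W).chi + δ * (δ - 3) := by
    obtain ⟨i₁, h₁⟩ := M.toTLat.exists_U_eq_top
    obtain ⟨i₂, h₂⟩ := (M.sub C W).toTLat.exists_U_eq_top
    obtain ⟨n, hn⟩ : ∃ n : ℕ, i₁ ≤ J + n ∧ i₂ ≤ J + n :=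
      ⟨(max i₁ i₂ - J).toNat, by omega, by omega⟩
    rw [M.toTLat.chi_eq C.ht (h₁ _ hn.1), (M.sub C W).toTLat.chi_eq C.ht (h₂ _ hn.2),
      finrank_eq C V, finrank_eq C W, hrk]
    have e1 := hh n
    have e2 : (M.h (J + n) : ℤ) ≤ (M.sub C W).h (J + n) +
        ((∑ b : Fin δ, (n + (b : ℕ)) : ℕ) : ℤ) := by exact_mod_cast e1
    have e3 := hsum n
    push_cast at e2 e3 ⊢
    have e4 : (δ : ℤ) ≤ δ * J := by nlinarith
    nlinarith
  have hss := hM W
  rw [hrk] at hss ⊢
  push_cast at hss ⊢
  have e5 : (0 : ℤ) ≤ finrank K W := Int.natCast_nonneg _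
  have e6 := mul_le_mul_of_nonneg_right hchi (by positivity : (0 : ℤ) ≤ (finrank K W : ℤ) + 1)
  nlinarith

end Lat

end Pool.Agent.Lib.H94
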